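import Pool.Agent.Lib.MP_8a819d_co.UI.AP1
import Pool.Agent.Lib.MP_8a819d_co.BD.Nib

/-!
# MP_8a819d_co, uniformly integrable degrees: abstract random pieces, 2. The packing theorem

JOB AP2. Compare `BD/Pk.lean` (`pack_core`), the proof is the same.

Apply `nibble` to `V = Fin (N+1) ⊕ Fin n`, `E = Σ p : Fin n, (Fin ((P p).k + 1) → Fin (N + 1))`, `S (p, φ) = {inr p} ∪ {inl z : z ∈ Use φ}`,
`w (p, φ) = (P p).wv φ`. `|S| ≤ 1 + 3 K`. Let `κ` be given by `nibble (3 K + 1) (μ / 6)` (the number of vertices is `N + 1 + n ≤ 3 N + 1 ≤ 4 N`,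
as `n ≤ ∑ (k+1) ≤ 2 N`). Put `κ₁ = κ / 2`. For `N ≥ N₀ (K, C, μ, κ)`:
* degrees `≤ 1`: at `inr p`: `∑ φ wv ≤ ∑ φ cp = 1`; at `inl z`: `rp_one` and the hypothesis.
* codegrees `≤ κ`: `inl z`, `inl z'`: `rp_cod`, `∑ p, ∑ i, pr2 ≤ κ / 2` and `∑ p (k+1)^2 C^2 / N^2 ≤ K 2 N C^2 / N^2`; `inl z`, `inr p`: `rp_one`,
  `pr_le`: `≤ K C / N`; `inr p`, `inr q`: `0`.
* `V0`: all `inr p` (degree `≥ 1 - κ` by `rp_inv`, `cp_sum`), and the `inl r`, `r ∈ Rp`, of degree `≥ 1 - κ`. The other `r ∈ Rp` are few: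
  `∑ r ∈ Rp, (1 - deg r) ≤ ∑ r ∈ Rp, ∑ p, φ, (cp #{i : r ∈ Us i} - wv [r ∈ Use])`; for valid `φ` the sets `Us i` are disjoint, so the term is `0`;
  for the other `φ` the sum over `r` is at most `∑ i, |Us i| cp ≤ 3 K cp`. So the sum is at most `3 K ∑ p, (rp_inv) ≤ 3 K * 2 N * K^2 (2 C^2 + C) / N`, and the
  number of exceptional `r` is at most `6 K^3 (2 C^2 + C) / κ ≤ μ N / 4` for large `N`.
The matching `M₀` of `nibble` contains at most one `(p, φ)` for each `p`, all with `wv > 0`, hence valid. The sets `{inl z}` see all the used labels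
(`U_le`). Uncovered vertices of `V0`: at most `(μ/6) 4 N ≤ 2 μ N / 3`; together with the exceptional `r` at most `μ N`.
-/

set_option autoImplicit false

namespace SSB

open Finset

section ap2

variable {N : ℕ} {P : RP N} {C : ℝ}

private theorem ap2_used_card (h : P.Good C) (φ : Fin (P.k + 1) → Fin (N + 1)) :
    (P.Use φ).card ≤ (P.k + 1) * 3 := by
  have h := card_biUnion_le_card_mul univ (P.Us φ) 3 (fun i _ => h.U_card i _ _)
  rwa [card_univ, Fintype.card_fin] at h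

private theorem ap2_cnt_pos {φ : Fin (P.k + 1) → Fin (N + 1)} {z : ℕ} (hz : z ∈ P.Use φ) :
    1 ≤ (univ.filter (fun i => z ∈ P.Us φ i)).card := by
  obtain ⟨i, -, hi⟩ := mem_biUnion.1 hz
  exact card_pos.2 ⟨i, mem_filter.2 ⟨mem_univ i, hi⟩⟩

private theorem ap2_cnt_le {φ : Fin (P.k + 1) → Fin (N + 1)} (hv : P.Val φ) (z : ℕ) :
    ((univ.filter (fun i => z ∈ P.Us φ i)).card : ℝ) ≤ if z ∈ P.Use φ then 1 else 0 := by
  split_ifs with hz
  · have h1 : (univ.filter (fun i => z ∈ P.Us φ i)).card ≤ 1 := by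
      refine card_le_one.2 fun i hi j hj => ?_
      by_contra hij
      exact disjoint_left.1 (hv.disj i j hij) (mem_filter.1 hi).2 (mem_filter.1 hj).2
    exact_mod_cast h1
  · have h1 : univ.filter (fun i => z ∈ P.Us φ i) = ∅ :=
      filter_eq_empty_iff.2 fun i _ hi => hz (mem_biUnion.2 ⟨i, mem_univ i, hi⟩)
    rw [h1, card_empty, Nat.cast_zero]

private theorem ap2_wv (h : P.Good C) (φ : Fin (P.k + 1) → Fin (N + 1)) :
    0 ≤ P.wv φ ∧ P.wv φ ≤ P.cp φ := by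
  unfold RP.wv
  split_ifs
  · exact ⟨cp_nonneg h φ, le_rfl⟩
  · exact ⟨le_rfl, cp_nonneg h φ⟩

private theorem ap2_diff (h : P.Good C) (φ : Fin (P.k + 1) → Fin (N + 1)) (z : ℕ) :
    P.cp φ * ((univ.filter (fun i => z ∈ P.Us φ i)).card : ℝ) -
      (if z ∈ P.Use φ then P.wv φ else 0) ≤
    (P.cp φ - P.wv φ) * ((univ.filter (fun i => z ∈ P.Us φ i)).card : ℝ) := by
  have h2 := cp_nonneg h φ
  by_cases hv : P.Val φ
  · have hw : P.wv φ = P.cp φ := by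
      unfold RP.wv
      rw [if_pos hv]
    have h1 := mul_le_mul_of_nonneg_left (ap2_cnt_le hv z) h2
    rw [hw]
    split_ifs at h1 ⊢ <;> linarith
  · have hw : P.wv φ = 0 := by
      unfold RP.wv
      rw [if_neg hv]
    rw [hw, ite_self, sub_zero, sub_zero]

private theorem ap2_deg (h : P.Good C) (φ : Fin (P.k + 1) → Fin (N + 1)) (z : ℕ) :
    (if z ∈ P.Use φ then P.wv φ else 0) ≤
    P.cp φ * ((univ.filter (fun i => z ∈ P.Us φ i)).card : ℝ) := by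
  have h2 := cp_nonneg h φ
  split_ifs with hz
  · have h3 : (1 : ℝ) ≤ ((univ.filter (fun i => z ∈ P.Us φ i)).card : ℝ) := by
      exact_mod_cast ap2_cnt_pos hz
    have h4 := mul_le_mul_of_nonneg_left h3 h2
    have h5 := (ap2_wv h φ).2
    linarith
  · exact mul_nonneg h2 (Nat.cast_nonneg _)

private theorem ap2_sum_cnt (h : P.Good C) (φ : Fin (P.k + 1) → Fin (N + 1)) (R : Finset ℕ) :
    ∑ z ∈ R, ((univ.filter (fun i => z ∈ P.Us φ i)).card : ℝ) ≤ ((P.k : ℝ) + 1) * 3 := by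
  have h1 : ∑ z ∈ R, (univ.filter (fun i => z ∈ P.Us φ i)).card =
      ∑ i, (R.filter (fun z => z ∈ P.Us φ i)).card := by
    simp only [card_filter]
    exact sum_comm
  have h2 : ∑ i, (R.filter (fun z => z ∈ P.Us φ i)).card ≤ ∑ _i : Fin (P.k + 1), 3 :=
    sum_le_sum fun i _ => (card_le_card (fun z hz => (mem_filter.1 hz).2)).trans
      (h.U_card i _ _)
  rw [sum_const, card_univ, Fintype.card_fin, smul_eq_mul] at h2
  have h3 : ∑ z ∈ R, (univ.filter (fun i => z ∈ P.Us φ i)).card ≤ (P.k + 1) * 3 :=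
    h1.le.trans h2
  exact_mod_cast h3

private theorem ap2_pr (z : ℕ) :
    ∑ φ : Fin (P.k + 1) → Fin (N + 1), P.cp φ *
      ((univ.filter (fun i => z ∈ P.Us φ i)).card : ℝ) = ∑ i, P.pr i z := by
  unfold RP.pr
  rw [sum_comm]
  refine sum_congr rfl fun φ _ => ?_
  rw [card_filter, Nat.cast_sum, mul_sum]
  refine sum_congr rfl fun i _ => ?_
  split_ifs
  · rw [Nat.cast_one, mul_one]
  · rw [Nat.cast_zero, mul_zero]

end ap2

section ap2b

variable {N n : ℕ} {Rp : Finset ℕ} {C : ℝ} {P : Fin n → RP N}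

/-- degree of the label `z` -/
private noncomputable def ap2_dg (N : ℕ) (P : Fin n → RP N) (z : ℕ) : ℝ :=
  ∑ p, ∑ φ : Fin ((P p).k + 1) → Fin (N + 1), if z ∈ (P p).Use φ then (P p).wv φ else 0

private theorem ap2_dg_le (h : ∀ p, (P p).Good C) (z : ℕ) :
    ap2_dg N P z ≤ ∑ p, ∑ i, (P p).pr i z := by
  refine sum_le_sum fun p _ => ?_
  rw [← ap2_pr]
  exact sum_le_sum fun φ _ => ap2_deg (h p) φ z

private theorem ap2_dg_sum (hC : 0 < C) (hN : 1 ≤ N) (h : ∀ p, (P p).Good C)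
    (hRp : ∀ r ∈ Rp, 1 ≤ ∑ p, ∑ i, (P p).pr i r)
    {K : ℕ} (hK : ∀ p, (P p).k + 1 ≤ K) (hk : ∑ p, ((P p).k + 1) ≤ 2 * N) :
    ∑ z ∈ Rp, max (1 - ap2_dg N P z) 0 ≤ 6 * (K : ℝ) ^ 2 * (2 * C ^ 2 + C) := by
  have hX : 0 ≤ 2 * C ^ 2 + C := by positivity
  have hN' : (0 : ℝ) < N := by exact_mod_cast hN
  have hKr : ∀ p, ((P p).k : ℝ) + 1 ≤ K := fun p => by exact_mod_cast hK p
  have hkr : ∑ p, (((P p).k : ℝ) + 1) ≤ 2 * N := by exact_mod_cast hk
  have h0 : ∀ (p : Fin n) (φ : Fin ((P p).k + 1) → Fin (N + 1)) (z : ℕ),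
      0 ≤ ((P p).cp φ - (P p).wv φ) * ((univ.filter (fun i => z ∈ (P p).Us φ i)).card : ℝ) := by
    intro p φ z
    have := (ap2_wv (h p) φ).2
    exact mul_nonneg (by linarith) (Nat.cast_nonneg _)
  have h1 : ∀ z ∈ Rp, max (1 - ap2_dg N P z) 0 ≤
      ∑ p, ∑ φ : Fin ((P p).k + 1) → Fin (N + 1), ((P p).cp φ - (P p).wv φ) *
        ((univ.filter (fun i => z ∈ (P p).Us φ i)).card : ℝ) := by
    intro z hz
    refine max_le ?_ (sum_nonneg fun p _ => sum_nonneg fun φ _ => h0 p φ z)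
    refine le_trans (sub_le_sub_right (hRp z hz) _) ?_
    rw [ap2_dg, ← sum_sub_distrib]
    refine sum_le_sum fun p _ => ?_
    rw [← ap2_pr, ← sum_sub_distrib]
    exact sum_le_sum fun φ _ => ap2_diff (h p) φ z
  have h2 : ∑ z ∈ Rp, ∑ p, ∑ φ : Fin ((P p).k + 1) → Fin (N + 1),
        ((P p).cp φ - (P p).wv φ) * ((univ.filter (fun i => z ∈ (P p).Us φ i)).card : ℝ) =
      ∑ p, ∑ φ : Fin ((P p).k + 1) → Fin (N + 1), ((P p).cp φ - (P p).wv φ) *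
        ∑ z ∈ Rp, ((univ.filter (fun i => z ∈ (P p).Us φ i)).card : ℝ) := by
    rw [sum_comm]
    refine sum_congr rfl fun p _ => ?_
    rw [sum_comm]
    refine sum_congr rfl fun φ _ => ?_
    rw [mul_sum]
  have h3 : ∀ p, ∑ φ : Fin ((P p).k + 1) → Fin (N + 1), ((P p).cp φ - (P p).wv φ) *
        ∑ z ∈ Rp, ((univ.filter (fun i => z ∈ (P p).Us φ i)).card : ℝ) ≤
      3 * (K : ℝ) ^ 2 * (2 * C ^ 2 + C) / N * (((P p).k : ℝ) + 1) := by
    intro p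
    have h4 : ∑ φ : Fin ((P p).k + 1) → Fin (N + 1), ((P p).cp φ - (P p).wv φ) *
        ∑ z ∈ Rp, ((univ.filter (fun i => z ∈ (P p).Us φ i)).card : ℝ) ≤
        (∑ φ : Fin ((P p).k + 1) → Fin (N + 1), ((P p).cp φ - (P p).wv φ)) *
          ((((P p).k : ℝ) + 1) * 3) := by
      rw [sum_mul]
      refine sum_le_sum fun φ _ => ?_
      refine mul_le_mul_of_nonneg_left (ap2_sum_cnt (h p) _ _) ?_
      have := (ap2_wv (h p) φ).2
      linarith
    refine h4.trans ?_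
    have h5 := rp_inv (h p) hN hC
    have h6 : (0 : ℝ) ≤ ((P p).k : ℝ) + 1 := by positivity
    have h7 : (∑ φ : Fin ((P p).k + 1) → Fin (N + 1), ((P p).cp φ - (P p).wv φ)) *
          ((((P p).k : ℝ) + 1) * 3) ≤
        ((((P p).k : ℝ) + 1) ^ 2 * (2 * C ^ 2 + C) / N) * ((((P p).k : ℝ) + 1) * 3) :=
      mul_le_mul_of_nonneg_right h5 (by positivity)
    refine h7.trans ?_
    have h8 : (((P p).k : ℝ) + 1) ^ 2 ≤ (K : ℝ) ^ 2 := pow_le_pow_left₀ h6 (hKr p) 2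
    have h9 : (((P p).k : ℝ) + 1) ^ 2 * (2 * C ^ 2 + C) / N ≤
        (K : ℝ) ^ 2 * (2 * C ^ 2 + C) / N := by
      refine div_le_div_of_nonneg_right ?_ hN'.le
      exact mul_le_mul_of_nonneg_right h8 hX
    have h10 := mul_le_mul_of_nonneg_right h9 (show (0 : ℝ) ≤ (((P p).k : ℝ) + 1) * 3 by positivity)
    refine h10.trans (le_of_eq ?_)
    ring
  refine (sum_le_sum h1).trans ?_
  rw [h2]
  refine (sum_le_sum fun p _ => h3 p).trans ?_
  rw [← mul_sum]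
  have h11 : (0 : ℝ) ≤ 3 * (K : ℝ) ^ 2 * (2 * C ^ 2 + C) / N := by positivity
  refine (mul_le_mul_of_nonneg_left hkr h11).trans (le_of_eq ?_)
  field_simp
  ring

private theorem ap2_exc (hC : 0 < C) (hN : 1 ≤ N) (h : ∀ p, (P p).Good C)
    (hRp : ∀ r ∈ Rp, 1 ≤ ∑ p, ∑ i, (P p).pr i r)
    {K : ℕ} (hK : ∀ p, (P p).k + 1 ≤ K) (hk : ∑ p, ((P p).k + 1) ≤ 2 * N) {κ : ℝ}
    (T : Finset ℕ) (hT : T ⊆ Rp) (hT' : ∀ z ∈ T, ap2_dg N P z < 1 - κ) :
    κ * T.card ≤ 6 * (K : ℝ) ^ 2 * (2 * C ^ 2 + C) := by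
  have h1 : κ * T.card ≤ ∑ z ∈ T, max (1 - ap2_dg N P z) 0 := by
    have h2 : ∑ _z ∈ T, κ ≤ ∑ z ∈ T, max (1 - ap2_dg N P z) 0 :=
      sum_le_sum fun z hz => by
        have h3 := hT' z hz
        have h4 := le_max_left (1 - ap2_dg N P z) 0
        linarith
    rw [sum_const, nsmul_eq_mul] at h2
    linarith
  have h3 : ∑ z ∈ T, max (1 - ap2_dg N P z) 0 ≤ ∑ z ∈ Rp, max (1 - ap2_dg N P z) 0 :=
    sum_le_sum_of_subset_of_nonneg hT fun z _ _ => le_max_right _ _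
  exact h1.trans (h3.trans (ap2_dg_sum hC hN h hRp hK hk))

private theorem ap2_main (hC : 0 < C) (hN : 1 ≤ N) (h : ∀ p, (P p).Good C)
    (hR : Rp ⊆ Icc 1 N) (hone : ∀ z ≤ N, ∑ p, ∑ i, (P p).pr i z ≤ 1)
    (hRp : ∀ r ∈ Rp, 1 ≤ ∑ p, ∑ i, (P p).pr i r)
    {K : ℕ} (hK : ∀ p, (P p).k + 1 ≤ K) (hk : ∑ p, ((P p).k + 1) ≤ 2 * N) {κ μ : ℝ}
    (hκ : 0 < κ) (hμ : 0 < μ)
    (hcd : ∀ z ≤ N, ∀ z' ≤ N, z ≠ z' → ∑ p, ∑ i, (P p).pr2 i z z' ≤ κ / 2)
    (hnib : ∀ (V E : Type) [Fintype V] [Fintype E] [DecidableEq V] [DecidableEq E]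
      (S : E → Finset V) (w : E → ℝ) (V0 : Finset V),
      (∀ e, (S e).card ≤ 3 * K + 1) → (∀ e, (S e).Nonempty) → (∀ e, 0 ≤ w e) →
      (∀ v, ∑ e with v ∈ S e, w e ≤ 1) →
      (∀ v ∈ V0, 1 - κ ≤ ∑ e with v ∈ S e, w e) →
      (∀ u v, u ≠ v → ∑ e with (u ∈ S e ∧ v ∈ S e), w e ≤ κ) →
      ∃ M : Finset E, (∀ e ∈ M, 0 < w e) ∧ (∀ e ∈ M, ∀ f ∈ M, e ≠ f → Disjoint (S e) (S f)) ∧
        ((V0.filter (fun v => ∀ e ∈ M, v ∉ S e)).card : ℝ) ≤ μ / 6 * Fintype.card V)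
    (b1 : (K : ℝ) ^ 2 * (2 * C ^ 2 + C) / N ≤ κ) (b2 : 2 * (K : ℝ) * C ^ 2 / N ≤ κ / 2)
    (b3 : (K : ℝ) * C / N ≤ κ) (b4 : 6 * (K : ℝ) ^ 2 * (2 * C ^ 2 + C) ≤ κ * (μ / 4 * N)) :
      ∃ (M : Finset (Fin n)) (φ : (p : Fin n) → Fin ((P p).k + 1) → Fin (N + 1)),
        (∀ p ∈ M, (P p).Val (φ p)) ∧
        (∀ p ∈ M, ∀ q ∈ M, p ≠ q → Disjoint ((P p).Use (φ p)) ((P q).Use (φ q))) ∧
        (n : ℝ) - M.card ≤ μ * N ∧
        ((Rp.filter (fun r => ∀ p ∈ M, r ∉ (P p).Use (φ p))).card : ℝ) ≤ μ * N := by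
  classical
  have hN' : (0 : ℝ) < N := by exact_mod_cast hN
  have hN1 : (1 : ℝ) ≤ N := by exact_mod_cast hN
  have hKr : ∀ p, ((P p).k : ℝ) + 1 ≤ K := fun p => by exact_mod_cast hK p
  have hkr : ∑ p, (((P p).k : ℝ) + 1) ≤ 2 * N := by exact_mod_cast hk
  let E : Type := Σ p : Fin n, (Fin ((P p).k + 1) → Fin (N + 1))
  let S : E → Finset (Fin (N + 1) ⊕ Fin n) := fun e =>
    (univ.filter (fun z : Fin (N + 1) => (z : ℕ) ∈ (P e.1).Use e.2)).disjSum {e.1}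
  let w : E → ℝ := fun e => (P e.1).wv e.2
  have hSl : ∀ (e : E) (z : Fin (N + 1)), Sum.inl z ∈ S e ↔ (z : ℕ) ∈ (P e.1).Use e.2 := by
    intro e z
    change Sum.inl z ∈ disjSum _ _ ↔ _
    rw [inl_mem_disjSum, mem_filter]
    exact ⟨fun hh => hh.2, fun hh => ⟨mem_univ z, hh⟩⟩
  have hSr : ∀ (e : E) (q : Fin n), Sum.inr q ∈ S e ↔ q = e.1 := by
    intro e q
    change Sum.inr q ∈ disjSum _ _ ↔ _
    rw [inr_mem_disjSum, mem_singleton]
  have hw0 : ∀ e, 0 ≤ w e := fun e => (ap2_wv (h e.1) e.2).1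
  have hsum : ∀ (B : E → Prop) [DecidablePred B], ∑ e with B e, w e =
      ∑ p, ∑ φ : Fin ((P p).k + 1) → Fin (N + 1), if B ⟨p, φ⟩ then (P p).wv φ else 0 := by
    intro B _
    rw [sum_filter, Fintype.sum_sigma]
  have hr : ∀ (q : Fin n) (F : (p : Fin n) → (Fin ((P p).k + 1) → Fin (N + 1)) → ℝ),
      ∑ p, ∑ φ, (if q = p then F p φ else 0) = ∑ φ, F q φ := by
    intro q F
    rw [sum_eq_single q]
    · exact sum_congr rfl fun φ _ => if_pos rfl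
    · intro p _ hpq
      exact sum_eq_zero fun φ _ => if_neg (fun hh => hpq hh.symm)
    · intro hq
      exact absurd (mem_univ q) hq
  have hdl : ∀ z : Fin (N + 1), ∑ e with Sum.inl z ∈ S e, w e = ap2_dg N P z := by
    intro z
    rw [hsum, ap2_dg]
    refine sum_congr rfl fun p _ => sum_congr rfl fun φ _ => ?_
    exact if_congr (hSl ⟨p, φ⟩ z) rfl rfl
  have hdr : ∀ q : Fin n, ∑ e with Sum.inr q ∈ S e, w e =
      ∑ φ : Fin ((P q).k + 1) → Fin (N + 1), (P q).wv φ := by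
    intro q
    rw [hsum]
    refine Eq.trans ?_ (hr q fun p φ => (P p).wv φ)
    refine sum_congr rfl fun p _ => sum_congr rfl fun φ _ => ?_
    exact if_congr (hSr ⟨p, φ⟩ q) rfl rfl
  have hwc : ∀ q : Fin n, ∑ φ : Fin ((P q).k + 1) → Fin (N + 1), (P q).wv φ ≤ 1 := by
    intro q
    rw [← cp_sum (h q)]
    exact sum_le_sum fun φ _ => (ap2_wv (h q) φ).2
  have hlr : ∀ (z : Fin (N + 1)) (q : Fin n),
      ∑ p, ∑ φ : Fin ((P p).k + 1) → Fin (N + 1),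
        (if Sum.inl z ∈ S ⟨p, φ⟩ ∧ Sum.inr q ∈ S ⟨p, φ⟩ then (P p).wv φ else 0) ≤ κ := by
    intro z q
    have h1 : ∑ p, ∑ φ : Fin ((P p).k + 1) → Fin (N + 1),
        (if Sum.inl z ∈ S ⟨p, φ⟩ ∧ Sum.inr q ∈ S ⟨p, φ⟩ then (P p).wv φ else 0) =
        ∑ p, ∑ φ : Fin ((P p).k + 1) → Fin (N + 1), (if q = p then
          (if (z : ℕ) ∈ (P p).Use φ then (P p).wv φ else 0) else 0) := by
      refine sum_congr rfl fun p _ => sum_congr rfl fun φ _ => ?_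
      rw [← ite_and]
      refine if_congr ?_ rfl rfl
      rw [hSl, hSr]
      exact and_comm
    rw [h1, hr q]
    have h2 : ∑ φ : Fin ((P q).k + 1) → Fin (N + 1),
        (if (z : ℕ) ∈ (P q).Use φ then (P q).wv φ else 0) ≤
        ∑ φ : Fin ((P q).k + 1) → Fin (N + 1),
        (if (z : ℕ) ∈ (P q).Use φ then (P q).cp φ else 0) := by
      refine sum_le_sum fun φ _ => ?_
      split_ifs
      · exact (ap2_wv (h q) φ).2
      · exact le_rfl
    refine h2.trans ((rp_one (h q) z).trans (le_trans ?_ b3))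
    have h3 : ∑ i, (P q).pr i z ≤ ∑ _i : Fin ((P q).k + 1), C / N :=
      sum_le_sum fun i _ => pr_le (h q) i z
    rw [sum_const, card_univ, Fintype.card_fin, nsmul_eq_mul] at h3
    refine h3.trans ?_
    rw [← mul_div_assoc]
    refine div_le_div_of_nonneg_right ?_ hN'.le
    have h4 := hKr q
    refine mul_le_mul_of_nonneg_right ?_ hC.le
    push_cast
    exact h4
  let V0 : Finset (Fin (N + 1) ⊕ Fin n) :=
    (univ.filter (fun z : Fin (N + 1) => (z : ℕ) ∈ Rp ∧ 1 - κ ≤ ap2_dg N P z)).disjSum univ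
  obtain ⟨M₀, H1, H2, H3⟩ := hnib (Fin (N + 1) ⊕ Fin n) E S w V0
    (fun e => by
      change (disjSum _ _).card ≤ _
      rw [card_disjSum, card_singleton]
      have h1 : (univ.filter (fun z : Fin (N + 1) => (z : ℕ) ∈ (P e.1).Use e.2)).card ≤
          ((P e.1).Use e.2).card := by
        refine card_le_card_of_injOn (fun z : Fin (N + 1) => (z : ℕ)) ?_ ?_
        · intro z hz
          exact (mem_filter.1 hz).2
        · intro a _ b _ hab
          exact Fin.ext hab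
      have h2 := ap2_used_card (h e.1) e.2
      have h3 := hK e.1
      omega)
    (fun e => ⟨Sum.inr e.1, (hSr e e.1).2 rfl⟩) hw0
    (fun v => by
      rcases v with z | q
      · rw [hdl]
        exact (ap2_dg_le h z).trans (hone z (Nat.le_of_lt_succ z.2))
      · rw [hdr]
        exact hwc q)
    (fun v hv => by
      rcases v with z | q
      · rw [hdl]
        have hv' : Sum.inl z ∈ disjSum _ _ := hv
        rw [inl_mem_disjSum, mem_filter] at hv'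
        exact hv'.2.2
      · rw [hdr]
        have h1 := rp_inv (h q) hN hC
        rw [sum_sub_distrib, cp_sum (h q)] at h1
        have h2 : (((P q).k : ℝ) + 1) ^ 2 * (2 * C ^ 2 + C) / N ≤
            (K : ℝ) ^ 2 * (2 * C ^ 2 + C) / N := by
          refine div_le_div_of_nonneg_right ?_ hN'.le
          refine mul_le_mul_of_nonneg_right ?_ (by positivity)
          exact pow_le_pow_left₀ (by positivity) (hKr q) 2
        linarith)
    (fun u v huv => by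
      rw [hsum]
      rcases u with z | q <;> rcases v with z' | q'
      · have hzz : (z : ℕ) ≠ (z' : ℕ) := fun hh => huv (congrArg Sum.inl (Fin.ext hh))
        have h1 : ∑ p, ∑ φ : Fin ((P p).k + 1) → Fin (N + 1),
            (if Sum.inl z ∈ S ⟨p, φ⟩ ∧ Sum.inl z' ∈ S ⟨p, φ⟩ then (P p).wv φ else 0) ≤
            ∑ p, (∑ i, (P p).pr2 i z z' + (((P p).k : ℝ) + 1) ^ 2 * C ^ 2 / (N : ℝ) ^ 2) := by
          refine sum_le_sum fun p _ => le_trans ?_ (rp_cod (h p) hC z z')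
          refine sum_le_sum fun φ _ => ?_
          have h2 : (Sum.inl z ∈ S ⟨p, φ⟩ ∧ Sum.inl z' ∈ S ⟨p, φ⟩) ↔
              ((z : ℕ) ∈ (P p).Use φ ∧ (z' : ℕ) ∈ (P p).Use φ) := by
            rw [hSl, hSl]
          rw [if_congr h2 rfl rfl]
          split_ifs
          · exact (ap2_wv (h p) φ).2
          · exact le_rfl
        rw [sum_add_distrib] at h1
        have h10 := hcd z (Nat.le_of_lt_succ z.2) z' (Nat.le_of_lt_succ z'.2) hzz
        have h3 : ∑ p, (((P p).k : ℝ) + 1) ^ 2 * C ^ 2 / (N : ℝ) ^ 2 ≤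
            ∑ p, (K : ℝ) * C ^ 2 / (N : ℝ) ^ 2 * (((P p).k : ℝ) + 1) := by
          refine sum_le_sum fun p _ => ?_
          have h4 : (0 : ℝ) ≤ ((P p).k : ℝ) + 1 := by positivity
          have h5 : (0 : ℝ) ≤ C ^ 2 / (N : ℝ) ^ 2 * (((P p).k : ℝ) + 1) := by positivity
          have h6 := mul_le_mul_of_nonneg_left (hKr p) h5
          have h7 : (((P p).k : ℝ) + 1) ^ 2 * C ^ 2 / (N : ℝ) ^ 2 =
              C ^ 2 / (N : ℝ) ^ 2 * (((P p).k : ℝ) + 1) * (((P p).k : ℝ) + 1) := by ring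
          have h8 : (K : ℝ) * C ^ 2 / (N : ℝ) ^ 2 * (((P p).k : ℝ) + 1) =
              C ^ 2 / (N : ℝ) ^ 2 * (((P p).k : ℝ) + 1) * K := by ring
          rw [h7, h8]
          exact h6
        have h11 : ∑ p, (K : ℝ) * C ^ 2 / (N : ℝ) ^ 2 * (((P p).k : ℝ) + 1) ≤
            2 * (K : ℝ) * C ^ 2 / N := by
          rw [← mul_sum]
          have h9 : (0 : ℝ) ≤ (K : ℝ) * C ^ 2 / (N : ℝ) ^ 2 := by positivity
          refine (mul_le_mul_of_nonneg_left hkr h9).trans (le_of_eq ?_)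
          field_simp
        linarith
      · exact hlr z q'
      · have h1 : ∑ p, ∑ φ : Fin ((P p).k + 1) → Fin (N + 1),
            (if Sum.inr q ∈ S ⟨p, φ⟩ ∧ Sum.inl z' ∈ S ⟨p, φ⟩ then (P p).wv φ else 0) =
            ∑ p, ∑ φ : Fin ((P p).k + 1) → Fin (N + 1),
            (if Sum.inl z' ∈ S ⟨p, φ⟩ ∧ Sum.inr q ∈ S ⟨p, φ⟩ then (P p).wv φ else 0) :=
          sum_congr rfl fun p _ => sum_congr rfl fun φ _ => if_congr and_comm rfl rfl
        rw [h1]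
        exact hlr z' q
      · have h1 : ∑ p, ∑ φ : Fin ((P p).k + 1) → Fin (N + 1),
            (if Sum.inr q ∈ S ⟨p, φ⟩ ∧ Sum.inr q' ∈ S ⟨p, φ⟩ then (P p).wv φ else 0) = 0 := by
          refine sum_eq_zero fun p _ => sum_eq_zero fun φ _ => if_neg ?_
          rw [hSr, hSr]
          rintro ⟨hh, hh'⟩
          exact huv (congrArg Sum.inr (hh.trans hh'.symm))
        rw [h1]
        exact hκ.le)
  have hval : ∀ (p : Fin n) (φ : Fin ((P p).k + 1) → Fin (N + 1)), (⟨p, φ⟩ : E) ∈ M₀ →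
      (P p).Val φ := by
    intro p φ hpφ
    have h1 : 0 < (P p).wv φ := H1 _ hpφ
    by_cases hv : (P p).Val φ
    · exact hv
    · have h2 : (P p).wv φ = 0 := by
        unfold RP.wv
        rw [if_neg hv]
      rw [h2] at h1
      exact absurd h1 (lt_irrefl 0)
  have huniq : ∀ (p : Fin n) (φ φ' : Fin ((P p).k + 1) → Fin (N + 1)), (⟨p, φ⟩ : E) ∈ M₀ →
      (⟨p, φ'⟩ : E) ∈ M₀ → φ = φ' := by
    intro p φ φ' h1 h2
    by_contra hne
    have h3 : (⟨p, φ⟩ : E) ≠ ⟨p, φ'⟩ := fun hh => hne (eq_of_heq (Sigma.mk.inj hh).2)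
    exact disjoint_left.1 (H2 _ h1 _ h2 h3) ((hSr ⟨p, φ⟩ p).2 rfl) ((hSr ⟨p, φ'⟩ p).2 rfl)
  let Mf : Finset (Fin n) := M₀.image Sigma.fst
  let φf : (p : Fin n) → Fin ((P p).k + 1) → Fin (N + 1) := fun p =>
    if hh : ∃ φ : Fin ((P p).k + 1) → Fin (N + 1), (⟨p, φ⟩ : E) ∈ M₀ then
      hh.choose else fun _ => 0
  have hφ : ∀ p ∈ Mf, (⟨p, φf p⟩ : E) ∈ M₀ := by
    intro p hpM
    obtain ⟨e, he', rfl⟩ := mem_image.1 hpM
    have hh : ∃ φ : Fin ((P e.1).k + 1) → Fin (N + 1), (⟨e.1, φ⟩ : E) ∈ M₀ := ⟨e.2, he'⟩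
    have h1 : φf e.1 = hh.choose := dif_pos hh
    rw [h1]
    exact hh.choose_spec
  have hcard : (Fintype.card (Fin (N + 1) ⊕ Fin n) : ℝ) ≤ 4 * N := by
    have h1 : n ≤ 2 * N := by
      have h2 : ∑ _p : Fin n, 1 ≤ ∑ p, ((P p).k + 1) := sum_le_sum fun p _ => Nat.le_add_left 1 _
      rw [sum_const, card_univ, Fintype.card_fin, smul_eq_mul, mul_one] at h2
      exact h2.trans hk
    have h3 : (n : ℝ) ≤ 2 * N := by exact_mod_cast h1
    rw [Fintype.card_sum, Fintype.card_fin, Fintype.card_fin]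
    push_cast
    linarith
  have hF : ((V0.filter (fun v => ∀ e ∈ M₀, v ∉ S e)).card : ℝ) ≤ 2 / 3 * (μ * N) := by
    refine H3.trans ?_
    have h1 := mul_le_mul_of_nonneg_left hcard (show (0 : ℝ) ≤ μ / 6 by positivity)
    linarith
  refine ⟨Mf, φf, ?_, ?_, ?_, ?_⟩
  · intro p hpM
    exact hval p _ (hφ p hpM)
  · intro p hpM q hqM hpq
    rw [disjoint_left]
    intro z hz hz'
    obtain ⟨i, -, hi⟩ := mem_biUnion.1 hz
    have h3 : z ≤ N := (h p).U_le i _ _ z hi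
    have h4 : (⟨p, φf p⟩ : E) ≠ ⟨q, φf q⟩ := fun hh => hpq (Sigma.mk.inj hh).1
    exact disjoint_left.1 (H2 _ (hφ p hpM) _ (hφ q hqM) h4)
      ((hSl ⟨p, φf p⟩ ⟨z, Nat.lt_succ_of_le h3⟩).2 hz)
      ((hSl ⟨q, φf q⟩ ⟨z, Nat.lt_succ_of_le h3⟩).2 hz')
  · have h1 : (Mfᶜ).card ≤ (V0.filter (fun v => ∀ e ∈ M₀, v ∉ S e)).card := by
      refine card_le_card_of_injOn Sum.inr ?_ ?_
      · intro q hq
        have hq' : q ∉ Mf := mem_compl.1 hq
        refine mem_coe.2 (mem_filter.2 ⟨?_, fun e he' hqe => hq' ?_⟩)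
        · change Sum.inr q ∈ disjSum _ _
          rw [inr_mem_disjSum]
          exact mem_univ q
        · rw [hSr] at hqe
          exact mem_image.2 ⟨e, he', hqe.symm⟩
      · intro a _ b _ hab
        exact Sum.inr_injective hab
    have h2 : Mf.card + (Mfᶜ).card = n := by
      rw [card_add_card_compl, Fintype.card_fin]
    have h3 : ((Mfᶜ).card : ℝ) ≤ ((V0.filter (fun v => ∀ e ∈ M₀, v ∉ S e)).card : ℝ) := by
      exact_mod_cast h1
    have h4 : (Mf.card : ℝ) + ((Mfᶜ).card : ℝ) = n := by exact_mod_cast h2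
    have h5 : 0 ≤ μ * N := by positivity
    linarith
  · obtain ⟨T, hT⟩ : ∃ T, T = Rp.filter (fun r => ∀ p ∈ Mf, r ∉ (P p).Use (φf p)) := ⟨_, rfl⟩
    rw [← hT]
    have hTL : ∀ r ∈ T, r ∈ Rp ∧ ∀ p ∈ Mf, r ∉ (P p).Use (φf p) := by
      intro r hr'
      rw [hT] at hr'
      exact mem_filter.1 hr'
    have h1 : κ * ((T.filter (fun z => ap2_dg N P z < 1 - κ)).card : ℝ) ≤
        6 * (K : ℝ) ^ 2 * (2 * C ^ 2 + C) :=
      ap2_exc hC hN h hRp hK hk _ (fun z hz => (hTL z (mem_filter.1 hz).1).1)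
        fun z hz => (mem_filter.1 hz).2
    have h2 : ((T.filter (fun z => ap2_dg N P z < 1 - κ)).card : ℝ) ≤
        μ / 4 * N := le_of_mul_le_mul_left (h1.trans b4) hκ
    have h3 : (T.filter (fun z => ¬ ap2_dg N P z < 1 - κ)).card ≤
        (V0.filter (fun v => ∀ e ∈ M₀, v ∉ S e)).card := by
      have h4 : T.filter (fun z => ¬ ap2_dg N P z < 1 - κ) ⊆
          (V0.filter (fun v => ∀ e ∈ M₀, v ∉ S e)).image
            (Sum.elim (fun z : Fin (N + 1) => (z : ℕ)) fun _ => 0) := by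
        intro r hr'
        obtain ⟨h5, h6⟩ := mem_filter.1 hr'
        obtain ⟨h7, h8⟩ := hTL r h5
        have h9 : r ≤ N := (mem_Icc.1 (hR h7)).2
        refine mem_image.2 ⟨Sum.inl ⟨r, Nat.lt_succ_of_le h9⟩, mem_filter.2 ⟨?_, ?_⟩, rfl⟩
        · change Sum.inl _ ∈ disjSum _ _
          rw [inl_mem_disjSum]
          exact mem_filter.2 ⟨mem_univ _, h7, not_lt.1 h6⟩
        · intro e he' hre
          have h10 : e.1 ∈ Mf := mem_image.2 ⟨e, he', rfl⟩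
          have h13 : φf e.1 = e.2 := huniq e.1 _ e.2 (hφ e.1 h10) he'
          have h14 := (hSl e ⟨r, Nat.lt_succ_of_le h9⟩).1 hre
          apply h8 e.1 h10
          rw [h13]
          exact h14
      exact (card_le_card h4).trans card_image_le
    have h4 : (T.filter (fun z => ap2_dg N P z < 1 - κ)).card +
        (T.filter (fun z => ¬ ap2_dg N P z < 1 - κ)).card = T.card :=
      card_filter_add_card_filter_not _
    have h5 : (T.card : ℝ) = ((T.filter (fun z => ap2_dg N P z < 1 - κ)).card : ℝ) +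
        ((T.filter (fun z => ¬ ap2_dg N P z < 1 - κ)).card : ℝ) := by
      exact_mod_cast h4.symm
    have h6 : ((T.filter (fun z => ¬ ap2_dg N P z < 1 - κ)).card : ℝ) ≤
        ((V0.filter (fun v => ∀ e ∈ M₀, v ∉ S e)).card : ℝ) := by exact_mod_cast h3
    have h7 : 0 ≤ μ * N := by positivity
    linarith

end ap2b

theorem abs_pack (K : ℕ) (C μ : ℝ) (hC : 0 < C) (hμ : 0 < μ) :
    ∃ κ₁ : ℝ, 0 < κ₁ ∧ ∃ N₀ : ℕ, ∀ N : ℕ, N₀ ≤ N → ∀ (n : ℕ) (P : Fin n → RP N) (Rp : Finset ℕ),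
      (∀ p, (P p).Good C) → (∀ p, (P p).k + 1 ≤ K) → Rp ⊆ Icc 1 N → ∑ p, ((P p).k + 1) ≤ 2 * N →
      (∀ z ≤ N, ∑ p, ∑ i, (P p).pr i z ≤ 1) → (∀ r ∈ Rp, 1 ≤ ∑ p, ∑ i, (P p).pr i r) →
      (∀ z ≤ N, ∀ z' ≤ N, z ≠ z' → ∑ p, ∑ i, (P p).pr2 i z z' ≤ κ₁) →
      ∃ (M : Finset (Fin n)) (φ : (p : Fin n) → Fin ((P p).k + 1) → Fin (N + 1)),
        (∀ p ∈ M, (P p).Val (φ p)) ∧
        (∀ p ∈ M, ∀ q ∈ M, p ≠ q → Disjoint ((P p).Use (φ p)) ((P q).Use (φ q))) ∧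
        (n : ℝ) - M.card ≤ μ * N ∧
        ((Rp.filter (fun r => ∀ p ∈ M, r ∉ (P p).Use (φ p))).card : ℝ) ≤ μ * N := by
  obtain ⟨κ, hκ, hnib⟩ := nibble (3 * K + 1) (μ / 6) (by positivity)
  refine ⟨κ / 2, by positivity, ?_⟩
  obtain ⟨N₀, hN₀⟩ := exists_nat_ge ((K : ℝ) ^ 2 * (2 * C ^ 2 + C) / κ + 2 * (K : ℝ) * C ^ 2 / (κ / 2) +
    (K : ℝ) * C / κ + 24 * (K : ℝ) ^ 2 * (2 * C ^ 2 + C) / (κ * μ) + 1)
  refine ⟨N₀, fun N hN n P Rp h hK hR hk hone hRp hcd => ?_⟩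
  have hNr : (N₀ : ℝ) ≤ N := by exact_mod_cast hN
  have e1 : 0 ≤ (K : ℝ) ^ 2 * (2 * C ^ 2 + C) / κ := by positivity
  have e2 : 0 ≤ 2 * (K : ℝ) * C ^ 2 / (κ / 2) := by positivity
  have e3 : 0 ≤ (K : ℝ) * C / κ := by positivity
  have e4 : 0 ≤ 24 * (K : ℝ) ^ 2 * (2 * C ^ 2 + C) / (κ * μ) := by positivity
  have hN1 : (1 : ℝ) ≤ N := by linarith
  have hN' : (0 : ℝ) < N := by linarith
  have key : ∀ x y : ℝ, 0 < y → x / y ≤ N → x / N ≤ y := by
    intro x y hy hx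
    rw [div_le_iff₀ hy] at hx
    rw [div_le_iff₀ hN']
    linarith
  have b4 : 24 * (K : ℝ) ^ 2 * (2 * C ^ 2 + C) / (κ * μ) ≤ N := by linarith
  rw [div_le_iff₀ (by positivity)] at b4
  exact ap2_main hC (by exact_mod_cast hN1) h hR hone hRp hK hk hκ hμ hcd hnib
    (key _ _ hκ (by linarith)) (key _ _ (by positivity) (by linarith)) (key _ _ hκ (by linarith))
    (by linarith)

end SSB
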