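import Pool.Agent.Lib.MP_8a819d_co.BD.Chn

/-!
# MP_8a819d_co, uniformly integrable degrees: abstract random pieces (interface)

`RP N`: a rooted tree on `0, ..., k` with a Markov chain of labels `φ i` in `0, ..., N` (law `m` of the root, transition
probabilities `κ`, laws `Mg`), the labels `U i x y` used at the vertex `i` if the label of its parent is `x` and its own label is `y`
(at the root `x = y`), and bad events `Bd i x y`.
-/

set_option autoImplicit false

namespace SSB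

open Finset

structure RP (N : ℕ) where
  k : ℕ
  par : Fin (k + 1) → Fin (k + 1)
  m : Fin (N + 1) → ℝ
  κ : Fin (k + 1) → Fin (N + 1) → Fin (N + 1) → ℝ
  Mg : Fin (k + 1) → Fin (N + 1) → ℝ
  U : Fin (k + 1) → ℕ → ℕ → Finset ℕ
  Bd : Fin (k + 1) → ℕ → ℕ → Prop

variable {N : ℕ}

/-- probability of the labels `φ` -/
noncomputable def RP.cp (P : RP N) (φ : Fin (P.k + 1) → Fin (N + 1)) : ℝ := cw P.par P.m P.κ φ

/-- labels used at `i` -/
def RP.Us (P : RP N) (φ : Fin (P.k + 1) → Fin (N + 1)) (i : Fin (P.k + 1)) : Finset ℕ :=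
  P.U i (φ (P.par i)) (φ i)

/-- all used labels -/
def RP.Use (P : RP N) (φ : Fin (P.k + 1) → Fin (N + 1)) : Finset ℕ := univ.biUnion (P.Us φ)

/-- probability that `z` is used at `i` -/
noncomputable def RP.pr (P : RP N) (i : Fin (P.k + 1)) (z : ℕ) : ℝ :=
  ∑ φ : Fin (P.k + 1) → Fin (N + 1), if z ∈ P.Us φ i then P.cp φ else 0

/-- probability that `z` and `z'` are both used at `i` -/
noncomputable def RP.pr2 (P : RP N) (i : Fin (P.k + 1)) (z z' : ℕ) : ℝ :=
  ∑ φ : Fin (P.k + 1) → Fin (N + 1), if z ∈ P.Us φ i ∧ z' ∈ P.Us φ i then P.cp φ else 0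

open Classical in
/-- probability of the bad event at `i` -/
noncomputable def RP.prB (P : RP N) (i : Fin (P.k + 1)) : ℝ :=
  ∑ φ : Fin (P.k + 1) → Fin (N + 1), if P.Bd i (φ (P.par i)) (φ i) then P.cp φ else 0

structure RP.Good (P : RP N) (C : ℝ) : Prop where
  ok : ChOK P.par P.m P.κ P.Mg
  U_card : ∀ i x y, (P.U i x y).card ≤ 3
  U_le : ∀ i x y, ∀ z ∈ P.U i x y, z ≤ N
  lb : ∀ i z, LB P.m P.κ i (fun x y => if z ∈ P.U i x y then 1 else 0) (C / N)
  bad : ∀ i, P.prB i ≤ C / N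

structure RP.Val (P : RP N) (φ : Fin (P.k + 1) → Fin (N + 1)) : Prop where
  pos : P.cp φ ≠ 0
  nbad : ∀ i, ¬ P.Bd i (φ (P.par i)) (φ i)
  disj : ∀ i j, i ≠ j → Disjoint (P.Us φ i) (P.Us φ j)

open Classical in
/-- the weight of a valid labelling, `0` for the others -/
noncomputable def RP.wv (P : RP N) (φ : Fin (P.k + 1) → Fin (N + 1)) : ℝ :=
  if P.Val φ then P.cp φ else 0

end SSB
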