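import Pool.Agent.Lib.MP_8a819d_co.UI.AP0

/-!
# MP_8a819d_co, uniformly integrable degrees: abstract random pieces, 1. Probabilities

JOB AP1. Compare `BD/Pk1.lean` (`pk_inv`) and `BD/Pk2.lean` (`pk_one`, `pk_cod`), the proofs are the same.

* `cp_nonneg`, `cp_sum`: `cw_nonneg`, `cw_sum`.
* `pr_le`: `cw_hloc` with `Good.lb`.
* `rp_inv`: a labelling `φ` with `cp φ ≠ 0` which is not valid has a bad event at some `i` or a common used label `z ≤ N` of two
  different `i, j`; so `cp φ - wv φ ≤ ∑ i, [Bd i] cp φ + ∑ i j, [i ≠ j] ∑ z ≤ N, [z ∈ Us i] [z ∈ Us j] cp φ`, and the sum over `φ` is at most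
  `(k+1) C/N + (k+1)^2 (N+1) (C/N)^2` (`Good.bad`, `cw_two`).
* `rp_one`: `P (z ∈ Use) ≤ ∑ i, pr i z`.
* `rp_cod`: `P (z, z' ∈ Use) ≤ ∑ i, pr2 i z z' + ∑ i ≠ j, P (z ∈ Us i, z' ∈ Us j)`, the last terms are at most `(C/N)^2` (`cw_two`).
-/

set_option autoImplicit false

namespace SSB

open Finset

variable {N : ℕ} {P : RP N} {C : ℝ}

theorem cp_nonneg (h : P.Good C) (φ : Fin (P.k + 1) → Fin (N + 1)) : 0 ≤ P.cp φ := by
  exact cw_nonneg h.ok φ

theorem cp_sum (h : P.Good C) : ∑ φ, P.cp φ = 1 := by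
  exact cw_sum h.ok

theorem pr_nonneg (h : P.Good C) (i : Fin (P.k + 1)) (z : ℕ) : 0 ≤ P.pr i z := by
  refine Finset.sum_nonneg fun φ _ => ?_
  split_ifs
  · exact cp_nonneg h φ
  · exact le_refl _

theorem pr_le (h : P.Good C) (i : Fin (P.k + 1)) (z : ℕ) : P.pr i z ≤ C / N := by
  refine le_trans (le_of_eq ?_) (cw_hloc h.ok (h.lb i z))
  refine Finset.sum_congr rfl fun φ _ => ?_
  show (if z ∈ P.U i (φ (P.par i)) (φ i) then P.cp φ else 0) =
    P.cp φ * (if z ∈ P.U i (φ (P.par i)) (φ i) then 1 else 0)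
  rw [mul_ite, mul_one, mul_zero]

private theorem ap1_two (h : P.Good C) (hCN : 0 ≤ C / (N : ℝ)) (i j : Fin (P.k + 1)) (z z' : ℕ) :
    ∑ φ : Fin (P.k + 1) → Fin (N + 1),
      (if i ≠ j ∧ z ∈ P.Us φ i ∧ z' ∈ P.Us φ j then P.cp φ else 0) ≤ (C / N) * (C / N) := by
  by_cases hij : i = j
  · have h0 : ∀ φ : Fin (P.k + 1) → Fin (N + 1),
        (if i ≠ j ∧ z ∈ P.Us φ i ∧ z' ∈ P.Us φ j then P.cp φ else 0) = 0 := by
      intro φ
      rw [if_neg]
      exact fun h1 => h1.1 hij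
    rw [Finset.sum_congr rfl fun φ _ => h0 φ, Finset.sum_const_zero]
    exact mul_nonneg hCN hCN
  · have h1 := cw_two h.ok hij hCN (h.lb i z) (h.lb j z')
    refine le_trans (le_of_eq ?_) h1
    refine Finset.sum_congr rfl fun φ _ => ?_
    show (if i ≠ j ∧ z ∈ P.U i (φ (P.par i)) (φ i) ∧ z' ∈ P.U j (φ (P.par j)) (φ j) then
        P.cp φ else 0) =
      P.cp φ * ((if z ∈ P.U i (φ (P.par i)) (φ i) then 1 else 0) *
        (if z' ∈ P.U j (φ (P.par j)) (φ j) then 1 else 0))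
    by_cases h2 : z ∈ P.U i (φ (P.par i)) (φ i)
    · by_cases h3 : z' ∈ P.U j (φ (P.par j)) (φ j)
      · rw [if_pos ⟨hij, h2, h3⟩, if_pos h2, if_pos h3, mul_one, mul_one]
      · rw [if_neg (fun h4 => h3 h4.2.2), if_neg h3, mul_zero, mul_zero]
    · rw [if_neg (fun h4 => h2 h4.2.1), if_neg h2, zero_mul, mul_zero]

theorem rp_inv (h : P.Good C) (hN : 1 ≤ N) (hC : 0 < C) :
    ∑ φ, (P.cp φ - P.wv φ) ≤ ((P.k : ℝ) + 1) ^ 2 * (2 * C ^ 2 + C) / N := by
  classical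
  have hN' : (0 : ℝ) < N := by exact_mod_cast hN
  have hCN : (0 : ℝ) ≤ C / N := by positivity
  have hnn : ∀ φ : Fin (P.k + 1) → Fin (N + 1), 0 ≤ P.cp φ := fun φ => cp_nonneg h φ
  -- the two kinds of errors
  have hA : ∀ i : Fin (P.k + 1), ∑ φ : Fin (P.k + 1) → Fin (N + 1),
      (if P.Bd i (φ (P.par i)) (φ i) then P.cp φ else 0) ≤ C / N := by
    intro i
    refine le_trans (le_of_eq ?_) (h.bad i)
    unfold RP.prB
    refine Finset.sum_congr rfl fun φ _ => ?_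
    split_ifs <;> rfl
  have hB : ∀ (i j : Fin (P.k + 1)) (z : ℕ), ∑ φ : Fin (P.k + 1) → Fin (N + 1),
      (if i ≠ j ∧ z ∈ P.Us φ i ∧ z ∈ P.Us φ j then P.cp φ else 0) ≤ (C / N) * (C / N) :=
    fun i j z => ap1_two h hCN i j z z
  -- pointwise
  have hpt : ∀ φ : Fin (P.k + 1) → Fin (N + 1), P.cp φ - P.wv φ ≤
      (∑ i : Fin (P.k + 1), (if P.Bd i (φ (P.par i)) (φ i) then P.cp φ else 0)) +
      ∑ i : Fin (P.k + 1), ∑ j : Fin (P.k + 1), ∑ z ∈ range (N + 1),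
        (if i ≠ j ∧ z ∈ P.Us φ i ∧ z ∈ P.Us φ j then P.cp φ else 0) := by
    intro φ
    have hAn : ∀ i : Fin (P.k + 1), 0 ≤ (if P.Bd i (φ (P.par i)) (φ i) then P.cp φ else 0) := by
      intro i
      split_ifs
      · exact hnn φ
      · exact le_refl _
    have hBn : ∀ (i j : Fin (P.k + 1)) (z : ℕ),
        0 ≤ (if i ≠ j ∧ z ∈ P.Us φ i ∧ z ∈ P.Us φ j then P.cp φ else 0) := by
      intro i j z
      split_ifs
      · exact hnn φ
      · exact le_refl _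
    have hAs : 0 ≤ ∑ i : Fin (P.k + 1), (if P.Bd i (φ (P.par i)) (φ i) then P.cp φ else 0) :=
      Finset.sum_nonneg fun i _ => hAn i
    have hBs : 0 ≤ ∑ i : Fin (P.k + 1), ∑ j : Fin (P.k + 1), ∑ z ∈ range (N + 1),
        (if i ≠ j ∧ z ∈ P.Us φ i ∧ z ∈ P.Us φ j then P.cp φ else 0) :=
      Finset.sum_nonneg fun i _ => Finset.sum_nonneg fun j _ => Finset.sum_nonneg fun z _ =>
        hBn i j z
    by_cases hv : P.Val φ
    · have h1 : P.wv φ = P.cp φ := by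
        unfold RP.wv
        rw [if_pos hv]
      rw [h1, sub_self]
      exact add_nonneg hAs hBs
    · have h1 : P.wv φ = 0 := by
        unfold RP.wv
        rw [if_neg hv]
      rw [h1, sub_zero]
      by_cases h0 : P.cp φ = 0
      · exact le_of_eq_of_le h0 (add_nonneg hAs hBs)
      · by_cases hself : ∀ i, ¬ P.Bd i (φ (P.par i)) (φ i)
        · have hdis : ¬ ∀ i j, i ≠ j → Disjoint (P.Us φ i) (P.Us φ j) :=
            fun hd => hv ⟨h0, hself, hd⟩
          push Not at hdis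
          obtain ⟨i, j, hij, hd⟩ := hdis
          rw [Finset.not_disjoint_iff] at hd
          obtain ⟨z, hzi, hzj⟩ := hd
          have hzN : z ≤ N := h.U_le _ _ _ z hzi
          have h2 : P.cp φ ≤ (if i ≠ j ∧ z ∈ P.Us φ i ∧ z ∈ P.Us φ j then P.cp φ else 0) := by
            rw [if_pos ⟨hij, hzi, hzj⟩]
          have h3 : (if i ≠ j ∧ z ∈ P.Us φ i ∧ z ∈ P.Us φ j then P.cp φ else 0) ≤
              ∑ z ∈ range (N + 1),
                (if i ≠ j ∧ z ∈ P.Us φ i ∧ z ∈ P.Us φ j then P.cp φ else 0) :=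
            Finset.single_le_sum (f := fun z =>
              (if i ≠ j ∧ z ∈ P.Us φ i ∧ z ∈ P.Us φ j then P.cp φ else 0))
              (fun z _ => hBn i j z) (Finset.mem_range.2 (by omega))
          have h4 : ∑ z ∈ range (N + 1),
                (if i ≠ j ∧ z ∈ P.Us φ i ∧ z ∈ P.Us φ j then P.cp φ else 0) ≤
              ∑ j : Fin (P.k + 1), ∑ z ∈ range (N + 1),
                (if i ≠ j ∧ z ∈ P.Us φ i ∧ z ∈ P.Us φ j then P.cp φ else 0) :=
            Finset.single_le_sum (f := fun j => ∑ z ∈ range (N + 1),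
                (if i ≠ j ∧ z ∈ P.Us φ i ∧ z ∈ P.Us φ j then P.cp φ else 0))
              (fun j _ => Finset.sum_nonneg fun z _ => hBn i j z) (Finset.mem_univ j)
          have h5 : ∑ j : Fin (P.k + 1), ∑ z ∈ range (N + 1),
                (if i ≠ j ∧ z ∈ P.Us φ i ∧ z ∈ P.Us φ j then P.cp φ else 0) ≤
              ∑ i : Fin (P.k + 1), ∑ j : Fin (P.k + 1), ∑ z ∈ range (N + 1),
                (if i ≠ j ∧ z ∈ P.Us φ i ∧ z ∈ P.Us φ j then P.cp φ else 0) :=
            Finset.single_le_sum (f := fun i => ∑ j : Fin (P.k + 1), ∑ z ∈ range (N + 1),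
                (if i ≠ j ∧ z ∈ P.Us φ i ∧ z ∈ P.Us φ j then P.cp φ else 0))
              (fun i _ => Finset.sum_nonneg fun j _ => Finset.sum_nonneg fun z _ =>
                  hBn i j z) (Finset.mem_univ i)
          linarith
        · push Not at hself
          obtain ⟨i, hi⟩ := hself
          have h2 : P.cp φ ≤ (if P.Bd i (φ (P.par i)) (φ i) then P.cp φ else 0) := by
            rw [if_pos hi]
          have h3 : (if P.Bd i (φ (P.par i)) (φ i) then P.cp φ else 0) ≤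
              ∑ i : Fin (P.k + 1), (if P.Bd i (φ (P.par i)) (φ i) then P.cp φ else 0) :=
            Finset.single_le_sum (f := fun i => (if P.Bd i (φ (P.par i)) (φ i) then P.cp φ else 0))
              (fun i _ => hAn i) (Finset.mem_univ i)
          linarith
  -- summation
  have hsum := Finset.sum_le_sum fun (φ : Fin (P.k + 1) → Fin (N + 1))
    (_ : φ ∈ (univ : Finset (Fin (P.k + 1) → Fin (N + 1)))) => hpt φ
  rw [Finset.sum_add_distrib] at hsum
  have hS1 : ∑ φ : Fin (P.k + 1) → Fin (N + 1), ∑ i : Fin (P.k + 1),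
      (if P.Bd i (φ (P.par i)) (φ i) then P.cp φ else 0) ≤ ((P.k : ℝ) + 1) * (C / N) := by
    rw [Finset.sum_comm]
    refine (Finset.sum_le_sum fun i _ => hA i).trans (le_of_eq ?_)
    rw [Finset.sum_const, Finset.card_univ, Fintype.card_fin, nsmul_eq_mul]
    push_cast
    ring
  have hS2 : ∑ φ : Fin (P.k + 1) → Fin (N + 1), ∑ i : Fin (P.k + 1), ∑ j : Fin (P.k + 1),
      ∑ z ∈ range (N + 1), (if i ≠ j ∧ z ∈ P.Us φ i ∧ z ∈ P.Us φ j then P.cp φ else 0) ≤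
      ((P.k : ℝ) + 1) ^ 2 * (((N : ℝ) + 1) * ((C / N) * (C / N))) := by
    rw [Finset.sum_comm]
    have h1 : ∀ i : Fin (P.k + 1), ∑ φ : Fin (P.k + 1) → Fin (N + 1), ∑ j : Fin (P.k + 1),
        ∑ z ∈ range (N + 1), (if i ≠ j ∧ z ∈ P.Us φ i ∧ z ∈ P.Us φ j then P.cp φ else 0) ≤
        ((P.k : ℝ) + 1) * (((N : ℝ) + 1) * ((C / N) * (C / N))) := by
      intro i
      rw [Finset.sum_comm]
      have h2 : ∀ j : Fin (P.k + 1), ∑ φ : Fin (P.k + 1) → Fin (N + 1),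
          ∑ z ∈ range (N + 1), (if i ≠ j ∧ z ∈ P.Us φ i ∧ z ∈ P.Us φ j then P.cp φ else 0) ≤
          ((N : ℝ) + 1) * ((C / N) * (C / N)) := by
        intro j
        rw [Finset.sum_comm]
        refine (Finset.sum_le_sum fun z _ => hB i j z).trans (le_of_eq ?_)
        rw [Finset.sum_const, Finset.card_range, nsmul_eq_mul]
        push_cast
        ring
      refine (Finset.sum_le_sum fun j _ => h2 j).trans (le_of_eq ?_)
      rw [Finset.sum_const, Finset.card_univ, Fintype.card_fin, nsmul_eq_mul]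
      push_cast
      ring
    refine (Finset.sum_le_sum fun i _ => h1 i).trans (le_of_eq ?_)
    rw [Finset.sum_const, Finset.card_univ, Fintype.card_fin, nsmul_eq_mul]
    push_cast
    ring
  refine hsum.trans ((add_le_add hS1 hS2).trans ?_)
  have hk1 : (1 : ℝ) ≤ (P.k : ℝ) + 1 := by
    have : (0 : ℝ) ≤ (P.k : ℝ) := Nat.cast_nonneg _
    linarith
  have hk2 : (P.k : ℝ) + 1 ≤ ((P.k : ℝ) + 1) ^ 2 := by nlinarith
  have hN1 : (1 : ℝ) ≤ N := by exact_mod_cast hN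
  have e1 : ((N : ℝ) + 1) * ((C / N) * (C / N)) ≤ 2 * C ^ 2 / N := by
    have e2 : ((N : ℝ) + 1) * ((C / N) * (C / N)) = (N + 1) / N * (C ^ 2 / N) := by
      field_simp
    have e3 : ((N : ℝ) + 1) / N ≤ 2 := by
      rw [div_le_iff₀ hN']
      linarith
    have e4 : 0 ≤ C ^ 2 / (N : ℝ) := by positivity
    rw [e2]
    calc ((N : ℝ) + 1) / N * (C ^ 2 / N) ≤ 2 * (C ^ 2 / N) := mul_le_mul_of_nonneg_right e3 e4
      _ = 2 * C ^ 2 / N := by ring
  calc ((P.k : ℝ) + 1) * (C / N) + ((P.k : ℝ) + 1) ^ 2 * (((N : ℝ) + 1) * ((C / N) * (C / N)))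
      ≤ ((P.k : ℝ) + 1) ^ 2 * (C / N) + ((P.k : ℝ) + 1) ^ 2 * (2 * C ^ 2 / N) := by
        refine add_le_add (mul_le_mul_of_nonneg_right hk2 hCN) ?_
        exact mul_le_mul_of_nonneg_left e1 (by positivity)
    _ = ((P.k : ℝ) + 1) ^ 2 * (2 * C ^ 2 + C) / N := by ring

theorem rp_one (h : P.Good C) (z : ℕ) :
    ∑ φ, (if z ∈ P.Use φ then P.cp φ else 0) ≤ ∑ i, P.pr i z := by
  have h1 : ∑ i, P.pr i z = ∑ φ : Fin (P.k + 1) → Fin (N + 1), ∑ i : Fin (P.k + 1),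
      (if z ∈ P.Us φ i then P.cp φ else 0) := by
    rw [Finset.sum_comm]
    rfl
  rw [h1]
  refine Finset.sum_le_sum fun φ _ => ?_
  have hn : ∀ i : Fin (P.k + 1), 0 ≤ (if z ∈ P.Us φ i then P.cp φ else 0) := by
    intro i
    split_ifs
    · exact cp_nonneg h φ
    · exact le_refl _
  by_cases hz : z ∈ P.Use φ
  · rw [if_pos hz]
    have hz' := hz
    unfold RP.Use at hz'
    rw [Finset.mem_biUnion] at hz'
    obtain ⟨i, -, hi⟩ := hz'
    have h2 : P.cp φ ≤ (if z ∈ P.Us φ i then P.cp φ else 0) := by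
      rw [if_pos hi]
    exact h2.trans (Finset.single_le_sum (f := fun i => (if z ∈ P.Us φ i then P.cp φ else 0))
      (fun i _ => hn i) (Finset.mem_univ i))
  · rw [if_neg hz]
    exact Finset.sum_nonneg fun i _ => hn i

theorem rp_cod (h : P.Good C) (hC : 0 < C) (z z' : ℕ) :
    ∑ φ, (if z ∈ P.Use φ ∧ z' ∈ P.Use φ then P.cp φ else 0) ≤
      ∑ i, P.pr2 i z z' + ((P.k : ℝ) + 1) ^ 2 * C ^ 2 / (N : ℝ) ^ 2 := by
  have hCN : 0 ≤ C / (N : ℝ) := div_nonneg hC.le (Nat.cast_nonneg N)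
  have h1 : ∑ i, P.pr2 i z z' = ∑ φ : Fin (P.k + 1) → Fin (N + 1), ∑ i : Fin (P.k + 1),
      (if z ∈ P.Us φ i ∧ z' ∈ P.Us φ i then P.cp φ else 0) := by
    rw [Finset.sum_comm]
    rfl
  have hS2 : ∑ φ : Fin (P.k + 1) → Fin (N + 1), ∑ i : Fin (P.k + 1), ∑ j : Fin (P.k + 1),
      (if i ≠ j ∧ z ∈ P.Us φ i ∧ z' ∈ P.Us φ j then P.cp φ else 0) ≤
      ((P.k : ℝ) + 1) ^ 2 * C ^ 2 / (N : ℝ) ^ 2 := by
    rw [Finset.sum_comm]
    have h3 : ∀ i : Fin (P.k + 1), ∑ φ : Fin (P.k + 1) → Fin (N + 1), ∑ j : Fin (P.k + 1),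
        (if i ≠ j ∧ z ∈ P.Us φ i ∧ z' ∈ P.Us φ j then P.cp φ else 0) ≤
        ((P.k : ℝ) + 1) * ((C / N) * (C / N)) := by
      intro i
      rw [Finset.sum_comm]
      refine (Finset.sum_le_sum fun j _ => ap1_two h hCN i j z z').trans (le_of_eq ?_)
      rw [Finset.sum_const, Finset.card_univ, Fintype.card_fin, nsmul_eq_mul]
      push_cast
      ring
    refine (Finset.sum_le_sum fun i _ => h3 i).trans (le_of_eq ?_)
    rw [Finset.sum_const, Finset.card_univ, Fintype.card_fin, nsmul_eq_mul]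
    push_cast
    ring
  have hpt : ∀ φ : Fin (P.k + 1) → Fin (N + 1),
      (if z ∈ P.Use φ ∧ z' ∈ P.Use φ then P.cp φ else 0) ≤
      (∑ i : Fin (P.k + 1), (if z ∈ P.Us φ i ∧ z' ∈ P.Us φ i then P.cp φ else 0)) +
      ∑ i : Fin (P.k + 1), ∑ j : Fin (P.k + 1),
        (if i ≠ j ∧ z ∈ P.Us φ i ∧ z' ∈ P.Us φ j then P.cp φ else 0) := by
    intro φ
    have hAn : ∀ i : Fin (P.k + 1),
        0 ≤ (if z ∈ P.Us φ i ∧ z' ∈ P.Us φ i then P.cp φ else 0) := by
      intro i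
      split_ifs
      · exact cp_nonneg h φ
      · exact le_refl _
    have hBn : ∀ i j : Fin (P.k + 1),
        0 ≤ (if i ≠ j ∧ z ∈ P.Us φ i ∧ z' ∈ P.Us φ j then P.cp φ else 0) := by
      intro i j
      split_ifs
      · exact cp_nonneg h φ
      · exact le_refl _
    have hAs : 0 ≤ ∑ i : Fin (P.k + 1),
        (if z ∈ P.Us φ i ∧ z' ∈ P.Us φ i then P.cp φ else 0) :=
      Finset.sum_nonneg fun i _ => hAn i
    have hBs : 0 ≤ ∑ i : Fin (P.k + 1), ∑ j : Fin (P.k + 1),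
        (if i ≠ j ∧ z ∈ P.Us φ i ∧ z' ∈ P.Us φ j then P.cp φ else 0) :=
      Finset.sum_nonneg fun i _ => Finset.sum_nonneg fun j _ => hBn i j
    by_cases hz : z ∈ P.Use φ ∧ z' ∈ P.Use φ
    · rw [if_pos hz]
      obtain ⟨hz1, hz2⟩ := hz
      unfold RP.Use at hz1 hz2
      rw [Finset.mem_biUnion] at hz1 hz2
      obtain ⟨i, -, hi⟩ := hz1
      obtain ⟨j, -, hj⟩ := hz2
      by_cases hij : i = j
      · subst hij
        have h2 : P.cp φ ≤ (if z ∈ P.Us φ i ∧ z' ∈ P.Us φ i then P.cp φ else 0) := by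
          rw [if_pos ⟨hi, hj⟩]
        have h3 := Finset.single_le_sum
          (f := fun i => (if z ∈ P.Us φ i ∧ z' ∈ P.Us φ i then P.cp φ else 0))
          (fun i _ => hAn i) (Finset.mem_univ i)
        exact (h2.trans h3).trans (le_add_of_nonneg_right hBs)
      · have h2 : P.cp φ ≤
            (if i ≠ j ∧ z ∈ P.Us φ i ∧ z' ∈ P.Us φ j then P.cp φ else 0) := by
          rw [if_pos ⟨hij, hi, hj⟩]
        have h3 := Finset.single_le_sum
          (f := fun j => (if i ≠ j ∧ z ∈ P.Us φ i ∧ z' ∈ P.Us φ j then P.cp φ else 0))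
          (fun j _ => hBn i j) (Finset.mem_univ j)
        have h4 := Finset.single_le_sum
          (f := fun i => ∑ j : Fin (P.k + 1),
            (if i ≠ j ∧ z ∈ P.Us φ i ∧ z' ∈ P.Us φ j then P.cp φ else 0))
          (fun i _ => Finset.sum_nonneg fun j _ => hBn i j) (Finset.mem_univ i)
        exact ((h2.trans h3).trans h4).trans (le_add_of_nonneg_left hAs)
    · rw [if_neg hz]
      exact add_nonneg hAs hBs
  have hsum := Finset.sum_le_sum fun (φ : Fin (P.k + 1) → Fin (N + 1))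
    (_ : φ ∈ (univ : Finset (Fin (P.k + 1) → Fin (N + 1)))) => hpt φ
  rw [Finset.sum_add_distrib] at hsum
  rw [h1]
  exact hsum.trans (add_le_add (le_refl _) hS2)

end SSB
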