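import Pool.Agent.Lib.MP_8a819d_co.BD.Typ4

/-!
# MP_8a819d_co, uniformly integrable degrees: the coupling at a boundary vertex

A boundary vertex is a vertex of a piece (of type `O`) adjacent to a vertex outside the pieces which has the fixed label `c`; its
label `x` must satisfy `dd x c ∈ Q`. `JB c x y` is the joint law of the label `x` of a boundary vertex and the label `y` of a
neighbour of type `O` in the piece: `x, y` are chosen with the law `k x y / SS`, and if `dd x c ∉ Q` then `x` is replaced by a random element of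
`Hc c y`. So the law of `y` is exactly `mO`. `mB c` is the law of `x`.

JOB JB1: `Hc_card`, `dB_nonneg`, `dB_le`, `dB_supp`, `pB_sum`, `pB_le`. JOB JB2: the rest.

* `Hc_card`: as `Hs_card` in `BD/Typ2.lean` (`typ2a_card`): the integers in `[0.6 N, N]` are at least `0.4 N - 1` (in number); remove those not in
  `Q` (`≤ N / 1000`), those with `dd x y ∉ Q` (at most two `x` for each value in `[0, N] \ Q`: `≤ 2 (N / 1000 + 1)`, this includes
  `x = y`), those with `dd x c ∉ Q` (the same). So `|Hc| ≥ N / 4`.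
* `dB ≤ mO`: by symmetry of `k`, `∑ x ∈ Q, k x y = VV y`.
* `jb_right`: `∑ x ∈ Q, JB c x y = ∑ x ∈ Q, [dd x c ∈ Q] k x y / SS + dB c y = (∑ x ∈ Q, k x y) / SS = mO y`.
* `jb_le`: `k / SS ≤ (C₀/N) / (N/2)`, `dB ≤ mO ≤ (C₀/N) N / (N/2)`, `pB ≤ 4/N`.
* `mB_ge`: if `mB c x ≠ 0` then `dd x c ∈ Q` and `VV x ≠ 0`: otherwise all `k x y = 0`, so the second term is not `0` for some `y`: `x ∈ Hc c y`, so
  `x ≥ 0.6 N`, and `k x y' ≥ 1/N` for some `y'` (`TK.ge`, `Hc c' x` is not empty). So `mB c x ≥ VV x / SS ≥ (1/C₀) / (2N)`.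
* `kob_le`: `mO x ≥ (1/C₀) / (2N)` if it is not `0` (`V_ge`, `S_le`).
-/

set_option autoImplicit false

namespace SSB

open Finset

def Hc (N : ℕ) (Q : Finset ℕ) (c y : ℕ) : Finset ℕ :=
  Q.filter (fun x => 3 * N ≤ 5 * x ∧ x ≠ y ∧ dd x y ∈ Q ∧ dd x c ∈ Q)

noncomputable def pB (N : ℕ) (Q : Finset ℕ) (c y x : ℕ) : ℝ :=
  if x ∈ Hc N Q c y then 1 / ((Hc N Q c y).card : ℝ) else 0

noncomputable def dB (Q : Finset ℕ) (k : ℕ → ℕ → ℝ) (c y : ℕ) : ℝ :=
  ∑ x ∈ Q, (if dd x c ∈ Q then 0 else k x y) / SS Q k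

noncomputable def JB (N : ℕ) (Q : Finset ℕ) (k : ℕ → ℕ → ℝ) (c x y : ℕ) : ℝ :=
  (if dd x c ∈ Q then k x y / SS Q k else 0) + dB Q k c y * pB N Q c y x

noncomputable def mB (N : ℕ) (Q : Finset ℕ) (k : ℕ → ℕ → ℝ) (c x : ℕ) : ℝ := ∑ y ∈ Q, JB N Q k c x y

/-- probability of the label `y` of a child of a boundary vertex with the label `x` -/
noncomputable def KBO (N : ℕ) (Q : Finset ℕ) (k : ℕ → ℕ → ℝ) (c x y : ℕ) : ℝ :=
  if mB N Q k c x = 0 then mO Q k y else JB N Q k c x y / mB N Q k c x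

/-- probability of the label `y` of a boundary vertex whose parent has the label `x` -/
noncomputable def KOB (N : ℕ) (Q : Finset ℕ) (k : ℕ → ℕ → ℝ) (c x y : ℕ) : ℝ :=
  if mO Q k x = 0 then mB N Q k c y else JB N Q k c y x / mO Q k x

variable {N : ℕ} {Q L : Finset ℕ} {η C₀ : ℝ} {k : ℕ → ℕ → ℝ}

private theorem jb1_cov (N : ℕ) (Q : Finset ℕ) {a x : ℕ} (ha : a ≤ N) (hx : x ≤ N) (hd : dd x a ∉ Q) :
    x ∈ ((range (N + 1) \ Q).image fun z => a + z) ∪ ((range (N + 1) \ Q).image fun z => a - z) := by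
  have h4 : dd x a ∈ range (N + 1) \ Q := by
    rw [mem_sdiff, mem_range]
    refine ⟨?_, hd⟩
    unfold dd
    omega
  rw [mem_union]
  rcases le_total a x with hax | hax
  · left
    refine mem_image.mpr ⟨dd x a, h4, ?_⟩
    unfold dd
    omega
  · right
    refine mem_image.mpr ⟨dd x a, h4, ?_⟩
    unfold dd
    omega

private theorem jb1_cov_card (N : ℕ) (Q : Finset ℕ) (a : ℕ) :
    (((range (N + 1) \ Q).image fun z => a + z) ∪ ((range (N + 1) \ Q).image fun z => a - z)).card ≤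
      2 * (range (N + 1) \ Q).card := by
  have h4 := card_union_le ((range (N + 1) \ Q).image fun z => a + z)
    ((range (N + 1) \ Q).image fun z => a - z)
  have h5 : ((range (N + 1) \ Q).image fun z => a + z).card ≤ (range (N + 1) \ Q).card :=
    card_image_le
  have h6 : ((range (N + 1) \ Q).image fun z => a - z).card ≤ (range (N + 1) \ Q).card :=
    card_image_le
  omega

theorem Hc_card (h : TQ N Q L) {c y : ℕ} (hc : c ≤ N) (hy : y ≤ N) : N ≤ 4 * (Hc N Q c y).card := by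
  have hq : 999 * N ≤ 1000 * Q.card := by
    have h1 := h.Q_card
    have h2 : (999 : ℝ) * N ≤ 1000 * Q.card := by linarith
    exact_mod_cast h2
  have hN := h.big
  have hsub : Q ⊆ range (N + 1) := by
    intro x hx
    have := mem_Icc.mp (h.Q_sub hx)
    exact mem_range.mpr (by omega)
  have hcov : Icc ((3 * N + 4) / 5) N ⊆ Hc N Q c y ∪ (((Icc 1 N) \ Q) ∪
      ((((range (N + 1) \ Q).image fun z => y + z) ∪ ((range (N + 1) \ Q).image fun z => y - z)) ∪
      (((range (N + 1) \ Q).image fun z => c + z) ∪ ((range (N + 1) \ Q).image fun z => c - z)))) := by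
    intro x hx
    rw [mem_Icc] at hx
    have hx1 : 3 * N ≤ 5 * x := by omega
    by_cases hxQ : x ∈ Q
    · by_cases hd : dd x y ∈ Q
      · by_cases hd2 : dd x c ∈ Q
        · refine mem_union_left _ ?_
          rw [Hc, mem_filter]
          refine ⟨hxQ, hx1, ?_, hd, hd2⟩
          rintro rfl
          have h3 : dd x x = 0 := by
            unfold dd
            omega
          rw [h3] at hd
          have := mem_Icc.mp (h.Q_sub hd)
          omega
        · exact mem_union_right _ (mem_union_right _ (mem_union_right _ (jb1_cov N Q hc hx.2 hd2)))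
      · exact mem_union_right _ (mem_union_right _ (mem_union_left _ (jb1_cov N Q hy hx.2 hd)))
    · refine mem_union_right _ (mem_union_left _ ?_)
      rw [mem_sdiff, mem_Icc]
      exact ⟨⟨by omega, hx.2⟩, hxQ⟩
  have h1 := card_le_card hcov
  have h2 := card_union_le (Hc N Q c y) (((Icc 1 N) \ Q) ∪
      ((((range (N + 1) \ Q).image fun z => y + z) ∪ ((range (N + 1) \ Q).image fun z => y - z)) ∪
      (((range (N + 1) \ Q).image fun z => c + z) ∪ ((range (N + 1) \ Q).image fun z => c - z))))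
  have h3 := card_union_le ((Icc 1 N) \ Q)
      ((((range (N + 1) \ Q).image fun z => y + z) ∪ ((range (N + 1) \ Q).image fun z => y - z)) ∪
      (((range (N + 1) \ Q).image fun z => c + z) ∪ ((range (N + 1) \ Q).image fun z => c - z)))
  have h4 := card_union_le
      (((range (N + 1) \ Q).image fun z => y + z) ∪ ((range (N + 1) \ Q).image fun z => y - z))
      (((range (N + 1) \ Q).image fun z => c + z) ∪ ((range (N + 1) \ Q).image fun z => c - z))
  have h5 := jb1_cov_card N Q y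
  have h6 := jb1_cov_card N Q c
  have h7 : (range (N + 1) \ Q).card = N + 1 - Q.card := by
    rw [card_sdiff_of_subset hsub, card_range]
  have h8 : ((Icc 1 N) \ Q).card = N - Q.card := by
    rw [card_sdiff_of_subset h.Q_sub, Nat.card_Icc]
    omega
  rw [Nat.card_Icc] at h1
  omega

private theorem jb1_card_real (h : TQ N Q L) {c y : ℕ} (hc : c ≤ N) (hy : y ≤ N) :
    (0 : ℝ) < N ∧ (N : ℝ) ≤ 4 * (Hc N Q c y).card ∧ (0 : ℝ) < (Hc N Q c y).card := by
  have hN : (0 : ℝ) < N := by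
    have := h.big
    exact_mod_cast (by omega : 0 < N)
  have h1 : (N : ℝ) ≤ 4 * (Hc N Q c y).card := by exact_mod_cast Hc_card h hc hy
  exact ⟨hN, h1, by linarith⟩

theorem pB_sum (h : TQ N Q L) {c y : ℕ} (hc : c ≤ N) (hy : y ≤ N) : ∑ x ∈ Q, pB N Q c y x = 1 := by
  obtain ⟨-, -, h2⟩ := jb1_card_real h hc hy
  have h3 : Q ∩ Hc N Q c y = Hc N Q c y := inter_eq_right.mpr (filter_subset _ _)
  unfold pB
  rw [sum_ite_mem, h3, sum_const, nsmul_eq_mul, mul_one_div_cancel h2.ne']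

theorem pB_le (h : TQ N Q L) {c y : ℕ} (hc : c ≤ N) (hy : y ≤ N) (x : ℕ) :
    0 ≤ pB N Q c y x ∧ pB N Q c y x ≤ 4 / N := by
  obtain ⟨hN, h1, h2⟩ := jb1_card_real h hc hy
  unfold pB
  split_ifs
  · refine ⟨by positivity, ?_⟩
    rw [div_le_div_iff₀ h2 hN]
    linarith
  · exact ⟨le_rfl, by positivity⟩

theorem pB_supp {c x y : ℕ} (h : pB N Q c y x ≠ 0) :
    x ∈ Q ∧ 3 * N ≤ 5 * x ∧ x ≠ y ∧ dd x y ∈ Q ∧ dd x c ∈ Q := by
  have h1 : x ∈ Hc N Q c y := by
    by_contra h2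
    apply h
    unfold pB
    rw [if_neg h2]
  rw [Hc, mem_filter] at h1
  exact h1

private theorem jb1_SS_pos (h : TK N Q L η C₀ k) : 0 < SS Q k := by
  have hN : (0 : ℝ) < N := by
    have := h.tq.big
    exact_mod_cast (by omega : 0 < N)
  have := h.S_ge
  linarith

theorem dB_nonneg (h : TK N Q L η C₀ k) (c y : ℕ) : 0 ≤ dB Q k c y := by
  unfold dB
  refine sum_nonneg fun x _ => div_nonneg ?_ (jb1_SS_pos h).le
  split_ifs
  · exact le_rfl
  · exact h.nn x y

theorem dB_le (h : TK N Q L η C₀ k) (c y : ℕ) : dB Q k c y ≤ mO Q k y := by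
  have hS := jb1_SS_pos h
  unfold dB mO VV
  rw [sum_div]
  refine sum_le_sum fun x _ => div_le_div_of_nonneg_right ?_ hS.le
  split_ifs
  · exact h.nn y x
  · exact (h.symm x y).le

theorem dB_supp (h : TK N Q L η C₀ k) {c y : ℕ} (h0 : dB Q k c y ≠ 0) : y ∈ Q := by
  obtain ⟨x, -, hx⟩ := exists_ne_zero_of_sum_ne_zero h0
  refine (h.supp x y fun h1 => hx ?_).2.1
  rw [h1]
  split_ifs <;> exact zero_div _

private theorem jb2_N (h : TK N Q L η C₀ k) : (0 : ℝ) < N := by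
  have h1 : 0 < N := lt_of_lt_of_le (by norm_num) h.tq.big
  exact_mod_cast h1

private theorem jb2_le (h : TK N Q L η C₀ k) {x : ℕ} (hx : x ∈ Q) : x ≤ N :=
  (Finset.mem_Icc.1 (h.tq.Q_sub hx)).2

private theorem jb2_card (h : TK N Q L η C₀ k) : (Q.card : ℝ) ≤ N := by
  have h3 := Finset.card_le_card h.tq.Q_sub
  rw [Nat.card_Icc, Nat.add_sub_cancel] at h3
  exact_mod_cast h3

private theorem jb2_sumQ (h : TK N Q L η C₀ k) (f : ℕ → ℝ) (hf : ∀ x, x ∉ Q → f x = 0) :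
    ∑ x ∈ range (N + 1), f x = ∑ x ∈ Q, f x := by
  symm
  refine Finset.sum_subset (fun x hx => ?_) fun x _ hx => hf x hx
  rw [Finset.mem_range]
  exact Nat.lt_succ_of_le (jb2_le h hx)

private theorem jb2_pB_nn (c y x : ℕ) : 0 ≤ pB N Q c y x := by
  unfold pB
  split_ifs
  · positivity
  · exact le_rfl

private theorem jb2_fst_nn (h : TK N Q L η C₀ k) (c x y : ℕ) :
    (0 : ℝ) ≤ (if dd x c ∈ Q then k x y / SS Q k else 0) := by
  split_ifs
  · exact div_nonneg (h.nn x y) (SS_pos h).le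
  · exact le_rfl

private theorem jb2_mO_ge (h : TK N Q L η C₀ k) {x : ℕ} (h0 : mO Q k x ≠ 0) :
    1 / (2 * C₀ * N) ≤ mO Q k x := by
  have hN := jb2_N h
  have hC : (0 : ℝ) < C₀ := lt_of_lt_of_le zero_lt_one h.C_ge
  have hS := SS_pos h
  have hx : x ∈ Q := by
    by_contra hcon
    exact h0 (mO_supp h hcon)
  have h1 := h.V_ge x hx fun h2 => h0 ((mO_zero_iff h x).2 h2)
  unfold mO
  rw [div_le_div_iff₀ (by positivity) hS]
  have h2 : 1 / C₀ * (2 * C₀ * N) ≤ VV Q k x * (2 * C₀ * N) :=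
    mul_le_mul_of_nonneg_right h1 (by positivity)
  have h3 : 1 / C₀ * (2 * C₀ * (N : ℝ)) = 2 * N := by field_simp
  have h4 := h.S_le
  linarith

private theorem jb2_div (h : TK N Q L η C₀ k) {a b : ℝ} (_ha0 : 0 ≤ a)
    (ha : a ≤ 10 * C₀ / (N : ℝ) ^ 2) (hb : 1 / (2 * C₀ * N) ≤ b) : a / b ≤ 20 * C₀ ^ 2 / N := by
  have hN := jb2_N h
  have hC : (0 : ℝ) < C₀ := lt_of_lt_of_le zero_lt_one h.C_ge
  have hb0 : 0 < b := lt_of_lt_of_le (by positivity) hb
  rw [div_le_iff₀ hb0]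
  refine ha.trans ?_
  have h1 : 20 * C₀ ^ 2 / N * (1 / (2 * C₀ * N)) ≤ 20 * C₀ ^ 2 / N * b :=
    mul_le_mul_of_nonneg_left hb (by positivity)
  refine le_trans (le_of_eq ?_) h1
  field_simp
  ring

theorem jb_nonneg (h : TK N Q L η C₀ k) {c : ℕ} (hc : c ≤ N) (x y : ℕ) : 0 ≤ JB N Q k c x y := by
  exact add_nonneg (jb2_fst_nn h c x y) (mul_nonneg (dB_nonneg h c y) (jb2_pB_nn c y x))

theorem jb_supp (h : TK N Q L η C₀ k) {c x y : ℕ} (h0 : JB N Q k c x y ≠ 0) :
    x ∈ Q ∧ y ∈ Q ∧ dd x y ∈ Q ∧ dd x c ∈ Q := by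
  by_cases h1 : (if dd x c ∈ Q then k x y / SS Q k else 0) = 0
  · have h2 : dB Q k c y * pB N Q c y x ≠ 0 := by
      intro h3
      apply h0
      unfold JB
      rw [h1, h3, add_zero]
    have h4 := pB_supp (right_ne_zero_of_mul h2)
    exact ⟨h4.1, dB_supp h (left_ne_zero_of_mul h2), h4.2.2.2.1, h4.2.2.2.2⟩
  · have hd : dd x c ∈ Q := by
      by_contra hcon
      exact h1 (if_neg hcon)
    rw [if_pos hd] at h1
    have h2 : k x y ≠ 0 := by
      intro h3
      apply h1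
      rw [h3, zero_div]
    have h4 := h.supp x y h2
    exact ⟨h4.1, h4.2.1, h4.2.2.2, hd⟩

theorem jb_le (h : TK N Q L η C₀ k) {c : ℕ} (hc : c ≤ N) (x y : ℕ) :
    JB N Q k c x y ≤ 10 * C₀ / (N : ℝ) ^ 2 := by
  have hN := jb2_N h
  have hC : (0 : ℝ) ≤ C₀ := le_trans zero_le_one h.C_ge
  have hS := SS_pos h
  have h1 : (if dd x c ∈ Q then k x y / SS Q k else 0) ≤ 2 * C₀ / (N : ℝ) ^ 2 := by
    split_ifs
    · rw [div_le_div_iff₀ hS (by positivity)]
      have h2 : k x y * (N : ℝ) ^ 2 ≤ C₀ / N * (N : ℝ) ^ 2 :=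
        mul_le_mul_of_nonneg_right (h.le x y) (by positivity)
      have h3 : C₀ / N * (N : ℝ) ^ 2 = C₀ * N := by field_simp
      have h4 : C₀ * ((N : ℝ) / 2) ≤ C₀ * SS Q k := mul_le_mul_of_nonneg_left h.S_ge hC
      linarith
    · positivity
  have h2 : dB Q k c y * pB N Q c y x ≤ 8 * C₀ / (N : ℝ) ^ 2 := by
    by_cases h3 : dB Q k c y = 0
    · rw [h3, zero_mul]
      positivity
    · have hy := jb2_le h (dB_supp h h3)
      calc dB Q k c y * pB N Q c y x ≤ (2 * C₀ / N) * (4 / N) :=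
            mul_le_mul ((dB_le h c y).trans (mO_le h y)) (pB_le h.tq hc hy x).2
              (pB_le h.tq hc hy x).1 (by positivity)
        _ = 8 * C₀ / (N : ℝ) ^ 2 := by
            field_simp
            ring
  calc JB N Q k c x y ≤ 2 * C₀ / (N : ℝ) ^ 2 + 8 * C₀ / (N : ℝ) ^ 2 := add_le_add h1 h2
    _ = 10 * C₀ / (N : ℝ) ^ 2 := by ring

theorem jb_right (h : TK N Q L η C₀ k) {c : ℕ} (hc : c ≤ N) (y : ℕ) :
    ∑ x ∈ Q, JB N Q k c x y = mO Q k y := by
  have h1 : dB Q k c y * ∑ x ∈ Q, pB N Q c y x = dB Q k c y := by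
    by_cases h3 : dB Q k c y = 0
    · rw [h3, zero_mul]
    · rw [pB_sum h.tq hc (jb2_le h (dB_supp h h3)), mul_one]
  unfold JB
  rw [Finset.sum_add_distrib, ← Finset.mul_sum, h1]
  unfold dB mO VV
  rw [← Finset.sum_add_distrib, Finset.sum_div]
  refine Finset.sum_congr rfl fun x _ => ?_
  rw [h.symm y x]
  split_ifs
  · rw [zero_div, add_zero]
  · rw [zero_add]

theorem mB_nonneg (h : TK N Q L η C₀ k) {c : ℕ} (hc : c ≤ N) (x : ℕ) : 0 ≤ mB N Q k c x := by
  exact Finset.sum_nonneg fun y _ => jb_nonneg h hc x y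

theorem mB_supp (h : TK N Q L η C₀ k) {c x : ℕ} (h0 : mB N Q k c x ≠ 0) : x ∈ Q ∧ dd x c ∈ Q := by
  obtain ⟨y, _, hy⟩ := Finset.exists_ne_zero_of_sum_ne_zero h0
  have h1 := jb_supp h hy
  exact ⟨h1.1, h1.2.2.2⟩

theorem mB_le (h : TK N Q L η C₀ k) {c : ℕ} (hc : c ≤ N) (x : ℕ) : mB N Q k c x ≤ 10 * C₀ / N := by
  have hN := jb2_N h
  have hC : (0 : ℝ) ≤ C₀ := le_trans zero_le_one h.C_ge
  have h1 : mB N Q k c x ≤ ∑ _y ∈ Q, 10 * C₀ / (N : ℝ) ^ 2 :=
    Finset.sum_le_sum fun y _ => jb_le h hc x y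
  rw [Finset.sum_const, nsmul_eq_mul] at h1
  calc mB N Q k c x ≤ (Q.card : ℝ) * (10 * C₀ / (N : ℝ) ^ 2) := h1
    _ ≤ N * (10 * C₀ / (N : ℝ) ^ 2) :=
        mul_le_mul_of_nonneg_right (jb2_card h) (by positivity)
    _ = 10 * C₀ / N := by field_simp

theorem mB_ge (h : TK N Q L η C₀ k) {c : ℕ} (hc : c ≤ N) {x : ℕ} (h0 : mB N Q k c x ≠ 0) :
    1 / (2 * C₀ * N) ≤ mB N Q k c x := by
  have hN := jb2_N h
  have hC : (0 : ℝ) < C₀ := lt_of_lt_of_le zero_lt_one h.C_ge
  have hS := SS_pos h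
  have h1 := mB_supp h h0
  have hV : VV Q k x ≠ 0 := by
    intro hV
    obtain ⟨y, _, hy⟩ := Finset.exists_ne_zero_of_sum_ne_zero h0
    have h2 : dB Q k c y * pB N Q c y x ≠ 0 := by
      intro h3
      apply hy
      unfold JB
      rw [h3, k_zero h hV y, zero_div, ite_self, add_zero]
    have h4 := pB_supp (right_ne_zero_of_mul h2)
    have h5 := mO_ge h h4.1 h4.2.1
    rw [(mO_zero_iff h x).2 hV] at h5
    have h6 : (0 : ℝ) < 1 / (6 * (N : ℝ)) := by positivity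
    linarith
  have h2 : mO Q k x ≤ mB N Q k c x := by
    unfold mO mB VV
    rw [Finset.sum_div]
    refine Finset.sum_le_sum fun y _ => ?_
    have h3 : JB N Q k c x y = k x y / SS Q k + dB Q k c y * pB N Q c y x := by
      unfold JB
      rw [if_pos h1.2]
    rw [h3]
    exact le_add_of_nonneg_right (mul_nonneg (dB_nonneg h c y) (jb2_pB_nn c y x))
  exact (jb2_mO_ge h fun h3 => hV ((mO_zero_iff h x).1 h3)).trans h2

theorem mB_sum (h : TK N Q L η C₀ k) {c : ℕ} (hc : c ≤ N) :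
    ∑ x ∈ range (N + 1), mB N Q k c x = 1 := by
  rw [jb2_sumQ h _ fun x hx => by
    by_contra hcon
    exact hx (mB_supp h hcon).1]
  unfold mB
  rw [Finset.sum_comm, Finset.sum_congr rfl fun y _ => jb_right h hc y, mO_sum h]

theorem kbo_nonneg (h : TK N Q L η C₀ k) {c : ℕ} (hc : c ≤ N) (x y : ℕ) : 0 ≤ KBO N Q k c x y := by
  unfold KBO
  split_ifs
  · exact mO_nonneg h y
  · exact div_nonneg (jb_nonneg h hc x y) (mB_nonneg h hc x)

theorem kbo_sum (h : TK N Q L η C₀ k) {c : ℕ} (hc : c ≤ N) (x : ℕ) :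
    ∑ y ∈ range (N + 1), KBO N Q k c x y = 1 := by
  unfold KBO
  by_cases h0 : mB N Q k c x = 0
  · rw [Finset.sum_congr rfl fun y _ => if_pos h0, jb2_sumQ h _ fun y hy => mO_supp h hy,
      mO_sum h]
  · rw [Finset.sum_congr rfl fun y _ => if_neg h0, ← Finset.sum_div,
      jb2_sumQ h (fun y => JB N Q k c x y) fun y hy => by
        by_contra hcon
        exact hy (jb_supp h hcon).2.1]
    exact div_self h0

theorem kbo_le (h : TK N Q L η C₀ k) {c : ℕ} (hc : c ≤ N) (x y : ℕ) :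
    KBO N Q k c x y ≤ 20 * C₀ ^ 2 / N := by
  have hN := jb2_N h
  have hC : (0 : ℝ) < C₀ := lt_of_lt_of_le zero_lt_one h.C_ge
  unfold KBO
  split_ifs with h0
  · refine (mO_le h y).trans ?_
    rw [div_le_div_iff_of_pos_right hN]
    nlinarith [h.C_ge]
  · exact jb2_div h (jb_nonneg h hc x y) (jb_le h hc x y) (mB_ge h hc h0)

theorem kbo_cons (h : TK N Q L η C₀ k) {c : ℕ} (hc : c ≤ N) (y : ℕ) :
    ∑ x ∈ range (N + 1), mB N Q k c x * KBO N Q k c x y = mO Q k y := by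
  have h1 : ∀ x, mB N Q k c x * KBO N Q k c x y = JB N Q k c x y := by
    intro x
    unfold KBO
    split_ifs with h0
    · rw [h0, zero_mul]
      by_contra hcon
      have h2 := jb_supp h (Ne.symm hcon)
      exact hcon ((Finset.sum_eq_zero_iff_of_nonneg fun z _ => jb_nonneg h hc x z).1 h0 y
        h2.2.1).symm
    · field_simp
  rw [Finset.sum_congr rfl fun x _ => h1 x, jb2_sumQ h (fun x => JB N Q k c x y) fun x hx => by
        by_contra hcon
        exact hx (jb_supp h hcon).1, jb_right h hc y]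

theorem kbo_rule (h : TK N Q L η C₀ k) {c x y : ℕ} (h0 : mB N Q k c x * KBO N Q k c x y ≠ 0) :
    x ∈ Q ∧ y ∈ Q ∧ dd x y ∈ Q := by
  have h1 : mB N Q k c x ≠ 0 := left_ne_zero_of_mul h0
  have h2 : KBO N Q k c x y ≠ 0 := right_ne_zero_of_mul h0
  unfold KBO at h2
  rw [if_neg h1] at h2
  have h3 : JB N Q k c x y ≠ 0 := by
    intro h4
    apply h2
    rw [h4, zero_div]
  have h4 := jb_supp h h3
  exact ⟨h4.1, h4.2.1, h4.2.2.1⟩

theorem kob_nonneg (h : TK N Q L η C₀ k) {c : ℕ} (hc : c ≤ N) (x y : ℕ) : 0 ≤ KOB N Q k c x y := by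
  unfold KOB
  split_ifs
  · exact mB_nonneg h hc y
  · exact div_nonneg (jb_nonneg h hc y x) (mO_nonneg h x)

theorem kob_sum (h : TK N Q L η C₀ k) {c : ℕ} (hc : c ≤ N) (x : ℕ) :
    ∑ y ∈ range (N + 1), KOB N Q k c x y = 1 := by
  unfold KOB
  by_cases h0 : mO Q k x = 0
  · rw [Finset.sum_congr rfl fun y _ => if_pos h0, mB_sum h hc]
  · rw [Finset.sum_congr rfl fun y _ => if_neg h0, ← Finset.sum_div,
      jb2_sumQ h (fun y => JB N Q k c y x) fun y hy => by
        by_contra hcon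
        exact hy (jb_supp h hcon).1, jb_right h hc x]
    exact div_self h0

theorem kob_le (h : TK N Q L η C₀ k) {c : ℕ} (hc : c ≤ N) (x y : ℕ) :
    KOB N Q k c x y ≤ 20 * C₀ ^ 2 / N := by
  have hN := jb2_N h
  have hC : (0 : ℝ) < C₀ := lt_of_lt_of_le zero_lt_one h.C_ge
  unfold KOB
  split_ifs with h0
  · refine (mB_le h hc y).trans ?_
    rw [div_le_div_iff_of_pos_right hN]
    nlinarith [h.C_ge]
  · exact jb2_div h (jb_nonneg h hc y x) (jb_le h hc y x) (jb2_mO_ge h h0)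

theorem kob_cons (h : TK N Q L η C₀ k) {c : ℕ} (hc : c ≤ N) (y : ℕ) :
    ∑ x ∈ range (N + 1), mO Q k x * KOB N Q k c x y = mB N Q k c y := by
  have h1 : ∀ x, mO Q k x * KOB N Q k c x y = JB N Q k c y x := by
    intro x
    unfold KOB
    split_ifs with h0
    · rw [h0, zero_mul]
      by_contra hcon
      have h2 := jb_supp h (Ne.symm hcon)
      rw [← jb_right h hc x] at h0
      exact hcon ((Finset.sum_eq_zero_iff_of_nonneg fun z _ => jb_nonneg h hc z x).1 h0 y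
        h2.1).symm
    · field_simp
  rw [Finset.sum_congr rfl fun x _ => h1 x, jb2_sumQ h (fun x => JB N Q k c y x) fun x hx => by
        by_contra hcon
        exact hx (jb_supp h hcon).2.1]
  rfl

theorem kob_rule (h : TK N Q L η C₀ k) {c x y : ℕ} (h0 : mO Q k x * KOB N Q k c x y ≠ 0) :
    x ∈ Q ∧ y ∈ Q ∧ dd x y ∈ Q ∧ dd y c ∈ Q := by
  have h1 : mO Q k x ≠ 0 := left_ne_zero_of_mul h0
  have h2 : KOB N Q k c x y ≠ 0 := right_ne_zero_of_mul h0
  unfold KOB at h2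
  rw [if_neg h1] at h2
  have h3 : JB N Q k c y x ≠ 0 := by
    intro h4
    apply h2
    rw [h4, zero_div]
  have h4 := jb_supp h h3
  exact ⟨h4.2.1, h4.1, by rw [dd_comm]; exact h4.2.2.1, h4.2.2.2⟩

end SSB
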