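import Pool.Agent.Lib.MP_8a819d_co.UI.Ty8
import Pool.Agent.Lib.MP_8a819d_co.UI.JB

/-!
# MP_8a819d_co, uniformly integrable degrees: the data of the chain with boundary vertices

`mb c` the law of the label of a boundary vertex with the constant `c`; `kbo c x y` (`kob c x y`) the transition probabilities from
(to) such a vertex to (from) a neighbour of type `O`.
-/

set_option autoImplicit false

namespace SSB

open Finset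

structure ChainB (N : ℕ) (Q L : Finset ℕ) (rp prt : ℕ → ℕ) (np : ℝ) (c : Ty → Ty → ℝ) (C σ : ℝ)
    (M : Ty → ℕ → ℝ) (K : Ty → Ty → ℕ → ℕ → ℝ) (mb : ℕ → ℕ → ℝ) (kbo kob : ℕ → ℕ → ℕ → ℝ) : Prop where
  cd : ChainData N Q L rp prt np c C M K
  load' : ∀ z ∈ Q, np * M Ty.O z + (c Ty.O Ty.O * UU N Q rp M K Ty.O Ty.O z +
    c Ty.O Ty.P * UU N Q rp M K Ty.O Ty.P z + c Ty.P Ty.O * UU N Q rp M K Ty.P Ty.O z +
    c Ty.P Ty.U * UU N Q rp M K Ty.P Ty.U z + c Ty.U Ty.P * UU N Q rp M K Ty.U Ty.P z) ≤ 1 - σ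
  mb_nn : ∀ c ≤ N, ∀ x, 0 ≤ mb c x
  mb_sum : ∀ c ≤ N, ∑ x ∈ range (N + 1), mb c x = 1
  mb_le : ∀ c ≤ N, ∀ x, mb c x ≤ C / N
  mb_supp : ∀ c x, mb c x ≠ 0 → x ∈ Q ∧ dd x c ∈ Q
  kbo_nn : ∀ c ≤ N, ∀ x y, 0 ≤ kbo c x y
  kbo_sum : ∀ c ≤ N, ∀ x, ∑ y ∈ range (N + 1), kbo c x y = 1
  kbo_le : ∀ c ≤ N, ∀ x y, kbo c x y ≤ C / N
  kbo_cons : ∀ c ≤ N, ∀ y, ∑ x ∈ range (N + 1), mb c x * kbo c x y = M Ty.O y
  kbo_rule : ∀ c x y, mb c x * kbo c x y ≠ 0 → x ∈ Q ∧ y ∈ Q ∧ dd x y ∈ Q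
  kob_nn : ∀ c ≤ N, ∀ x y, 0 ≤ kob c x y
  kob_sum : ∀ c ≤ N, ∀ x, ∑ y ∈ range (N + 1), kob c x y = 1
  kob_le : ∀ c ≤ N, ∀ x y, kob c x y ≤ C / N
  kob_cons : ∀ c ≤ N, ∀ y, ∑ x ∈ range (N + 1), M Ty.O x * kob c x y = mb c y
  kob_rule : ∀ c x y, M Ty.O x * kob c x y ≠ 0 → x ∈ Q ∧ y ∈ Q ∧ dd x y ∈ Q ∧ dd y c ∈ Q

theorem chainB_exists (B δ : ℝ) (hB : 1 ≤ B) (hδ : 0 < δ) :
    ∃ ε C : ℝ, 0 < ε ∧ 1 ≤ C ∧ ∃ N₀ : ℕ, ∀ N : ℕ, N₀ ≤ N →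
    ∀ (t : ℕ) (Q L : Finset ℕ) (rp prt : ℕ → ℕ), Env N t Q L rp prt →
      (N : ℝ) - Q.card ≤ ε * N → L.Nonempty → (L.card : ℝ) ≤ ε * N →
    ∀ (σ : ℝ), 0 ≤ σ → ∀ (np : ℝ) (c : Ty → Ty → ℝ), 0 ≤ np → (∀ a b, 0 ≤ c a b) →
      c Ty.P Ty.U = c Ty.O Ty.P → c Ty.U Ty.P = (t - 1) * c Ty.O Ty.P →
      c Ty.P Ty.O ≤ B * c Ty.O Ty.P → δ * N ≤ c Ty.O Ty.P →
      (1 - ε) * N ≤ 2 * (np + (c Ty.O Ty.O + c Ty.O Ty.P + c Ty.P Ty.O + c Ty.P Ty.U + c Ty.U Ty.P)) →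
      np ≤ ε * N →
      2 * (np + (c Ty.O Ty.O + c Ty.O Ty.P + c Ty.P Ty.O + c Ty.P Ty.U + c Ty.U Ty.P)) - np ≤
        (1 - σ) * Q.card + (2 * t + 1) * (L.image rp).card →
      ∃ (M : Ty → ℕ → ℝ) (K : Ty → Ty → ℕ → ℕ → ℝ) (mb : ℕ → ℕ → ℝ) (kbo kob : ℕ → ℕ → ℕ → ℝ),
        ChainB N Q L rp prt np c C σ M K mb kbo kob := by
  obtain ⟨ε, C, C₀, hε, hC0, hC, N₀, hN₀⟩ := kernel_exists2 B δ hB hδ
  have hCC : 10 * C₀ ≤ C := by nlinarith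
  refine ⟨ε, C, hε, by nlinarith, max N₀ 1, ?_⟩
  intro N hN t Q L rp prt he hQc hLne hLc σ hσ np c hnp hc h42 h52 h32 h2N hlo hnpN hup
  obtain ⟨η, k, htk, hcd, hld⟩ := hN₀ N ((le_max_left _ _).trans hN) t Q L rp prt he hQc hLne hLc σ hσ
    np c hnp hc h42 h52 h32 h2N hlo hnpN hup
  have hN0 : (0 : ℝ) ≤ N := Nat.cast_nonneg N
  refine ⟨MM N Q L η k, KK N Q L prt η k, mB N Q k, KBO N Q k, KOB N Q k, ?_⟩
  exact
    { cd := hcd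
      load' := hld
      mb_nn := fun c hc x => mB_nonneg htk hc x
      mb_sum := fun c hc => mB_sum htk hc
      mb_le := fun c hc x => (mB_le htk hc x).trans (div_le_div_of_nonneg_right hCC hN0)
      mb_supp := fun c x h => mB_supp htk h
      kbo_nn := fun c hc x y => kbo_nonneg htk hc x y
      kbo_sum := fun c hc x => kbo_sum htk hc x
      kbo_le := fun c hc x y => (kbo_le htk hc x y).trans (div_le_div_of_nonneg_right hC hN0)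
      kbo_cons := fun c hc y => kbo_cons htk hc y
      kbo_rule := fun c x y h => kbo_rule htk h
      kob_nn := fun c hc x y => kob_nonneg htk hc x y
      kob_sum := fun c hc x => kob_sum htk hc x
      kob_le := fun c hc x y => (kob_le htk hc x y).trans (div_le_div_of_nonneg_right hC hN0)
      kob_cons := fun c hc y => kob_cons htk hc y
      kob_rule := fun c x y h => kob_rule htk h }

end SSB
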