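import Pool.Agent.Lib.MP_8a819d_co.UI.ChB
import Pool.Agent.Lib.MP_8a819d_co.UI.AP0

/-!
# MP_8a819d_co, uniformly integrable degrees: pieces with boundary vertices (interface)

`bd i = some c`: the vertex `i` of the piece is adjacent to a vertex outside the pieces with the fixed label `c`.
-/

set_option autoImplicit false

namespace SSB

open Finset

/-- the piece `p` with the boundary constants `bd` is well formed: the root is a boundary vertex; a boundary vertex and its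
neighbours are of type `O`, and two boundary vertices are not adjacent -/
structure Piece.WFB (p : Piece) (N : ℕ) (bd : Fin (p.k + 1) → Option ℕ) : Prop where
  wf : p.WF
  root : bd 0 ≠ none
  le : ∀ i c, bd i = some c → c ≤ N
  up : ∀ i, i ≠ 0 → bd i ≠ none → p.ty (p.par i) = Ty.O ∧ p.ty i = Ty.O ∧ bd (p.par i) = none
  dn : ∀ i, i ≠ 0 → bd (p.par i) ≠ none → p.ty (p.par i) = Ty.O ∧ p.ty i = Ty.O ∧ bd i = none

/-- the label of the edge from `i` (with the label `y`) to the outside -/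
def bds (o : Option ℕ) (y : ℕ) : Finset ℕ :=
  match o with
  | none => ∅
  | some c => {dd y c}

/-- the labels used at `i`, including the boundary edge -/
def Piece.usdB (p : Piece) (Q : Finset ℕ) (rp : ℕ → ℕ) (bd : Fin (p.k + 1) → Option ℕ)
    (φ : Fin (p.k + 1) → ℕ) (i : Fin (p.k + 1)) : Finset ℕ :=
  p.usd Q rp φ i ∪ bds (bd i) (φ i)

def Piece.usedB (p : Piece) (Q : Finset ℕ) (rp : ℕ → ℕ) (bd : Fin (p.k + 1) → Option ℕ)
    (φ : Fin (p.k + 1) → ℕ) : Finset ℕ :=
  univ.biUnion (p.usdB Q rp bd φ)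

/-- valid numberings of a piece with boundary -/
structure Piece.ValidB (p : Piece) (Q L : Finset ℕ) (rp prt : ℕ → ℕ) (bd : Fin (p.k + 1) → Option ℕ)
    (φ : Fin (p.k + 1) → ℕ) : Prop where
  val : p.Valid Q L rp prt φ
  bdQ : ∀ i c, bd i = some c → dd (φ i) c ∈ Q
  bds : ∀ i c, bd i = some c → dd (φ i) c ∉ p.usd Q rp φ i
  disj : ∀ i j, i ≠ j → Disjoint (p.usdB Q rp bd φ i) (p.usdB Q rp bd φ j)

/-- laws of the labels -/
def lawB (M : Ty → ℕ → ℝ) (mb : ℕ → ℕ → ℝ) (a : Ty) (o : Option ℕ) (x : ℕ) : ℝ :=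
  match o with
  | none => M a x
  | some c => mb c x

/-- transition probabilities -/
def trB (K : Ty → Ty → ℕ → ℕ → ℝ) (kbo kob : ℕ → ℕ → ℕ → ℝ) (a b : Ty) (oa ob : Option ℕ) (x y : ℕ) : ℝ :=
  match oa, ob with
  | some c, _ => kbo c x y
  | none, some c => kob c x y
  | none, none => K a b x y

/-- the random piece -/
noncomputable def Piece.rnd (p : Piece) (N : ℕ) (Q : Finset ℕ) (rp : ℕ → ℕ) (M : Ty → ℕ → ℝ)
    (K : Ty → Ty → ℕ → ℕ → ℝ) (mb : ℕ → ℕ → ℝ) (kbo kob : ℕ → ℕ → ℕ → ℝ)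
    (bd : Fin (p.k + 1) → Option ℕ) : RP N where
  k := p.k
  par := p.par
  m := fun x => lawB M mb (p.ty 0) (bd 0) x
  κ := fun i x y => trB K kbo kob (p.ty (p.par i)) (p.ty i) (bd (p.par i)) (bd i) x y
  Mg := fun i x => lawB M mb (p.ty i) (bd i) x
  U := fun i x y => ((if i = 0 then {y} else us Q rp (p.ty (p.par i)) (p.ty i) x y) ∪
    bds (bd i) y).filter (· ≤ N)
  Bd := fun i x y => (i ≠ 0 ∧ y ∈ Q ∧ y = dd x y) ∨
    ∃ c, bd i = some c ∧ dd y c ∈ (if i = 0 then {y} else us Q rp (p.ty (p.par i)) (p.ty i) x y)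

/-- the boundary vertices and their children -/
def Piece.invo (p : Piece) (bd : Fin (p.k + 1) → Option ℕ) : Finset (Fin (p.k + 1)) :=
  univ.filter (fun i => bd i ≠ none ∨ (i ≠ 0 ∧ bd (p.par i) ≠ none))

end SSB
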