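import Pool.Agent.Lib.MP_8a819d_co.UI.Unt
import Pool.Agent.Lib.MP_8a819d_co.UI.PB0
import Pool.Agent.Lib.MP_8a819d_co.BD.Em2

/-!
# MP_8a819d_co, uniformly integrable degrees: the boundary vertices of the pieces

`bdv p i = some s`: the vertex `emb p i` is adjacent to the element `s` of `S`. If the elements of `S` have the labels `g s`, the boundary constants are
`bdc g p i = (bdv p i).map g`.

JOB DcB1: `bdv_zero`, `bdv_some`, `bdv_edge`, `bdv_inj`, `bdc_wfb`. JOB DcB2: `invo_card`, `mult_card`, `np_leB`, `cnt_POB`.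

* `bdv_some`: for `i ≠ 0`: `s ∈ S`, `1 ≤ s`, `par s = emb p i`. (`s < n` by `S_sub`.)
* the vertices `emb p i` of the piece `p` have the top `emb p 0` (`topv par S (emb p i) = emb p 0`, induction on `i` with `emb_par`, `WF.par_lt`, `topv_step`, `topv_stop`, `emb_root`).
* `bdv_edge`: (a) `v ∉ S`, `par v ∈ S`: `v = emb p i` by `emb_surj`, and `i = 0` (otherwise `par v = emb p (par i) ∉ S`). (b) `v ∈ S`, `par v ∉ S`: `par v = emb p i`; `i ≠ 0` by `SepOK.deep` (otherwise
  `par (par v) = par (emb p 0) ∈ S`); the chosen `s` has `par s = emb p i = par v`, so `s = v` by `uniq`.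
* `bdv_inj`: `bdv p i = some s`, `bdv q j = some s`, `s ∈ S`, `i ≠ 0`, `j ≠ 0` imply `emb p i = par s = emb q j`.
* `bdc_wfb`: `WFB` for `bd = bdc g p` (`g s ≤ N` for `s ∈ S`). `up`: `i ≠ 0`, `bdv p i = some s`: `emb p i` is a neighbour of `s ∈ S` and `emb p (par i)` one of `emb p i`, so both are in `nbh (nbh S)`: type `O` (`far`).
  `bdv (par i) = none`: `par i ≠ 0` since otherwise `par (par (par s)) ∈ S` (`deep`); and if `par i ≠ 0` has an `s' ∈ S` with `par s' = emb p (par i)` then `s' = s` by `uniq` (same top), so `emb p i = emb p (par i)`,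
  contradiction to `par_lt`. `dn`: the same (`i` and `par i` exchanged; if `par i = 0` and `bdv i = some s`, `i ≠ 0`: `par (par (par s)) ∈ S`).
* `invo_card`: `(p, i) ↦ emb p i` is injective and maps `invo` to `nbh (nbh S)`.
* `mult_card`: the `(p, i)` with `bdv p i = some s` are mapped by `emb` injectively to the neighbours of `s` (children `emb p 0` of `s`, or `par s`), at most `pdeg s`; `g` is injective on `S`, so
  `bdc = some c` determines `s`.
* `np_leB`: the roots `emb p 0` are different elements of `nbh S`.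
* `cnt_POB`: compare `cnt_PO` in `BD/Em2.lean`; only the degrees of the vertices of type `P` are used.
-/

set_option autoImplicit false

namespace SSB

open Finset

open Classical in
/-- the neighbour in `S` of the vertex `i` of the piece `p` -/
noncomputable def bdv {np : ℕ} {pc : Fin np → Piece} (par : ℕ → ℕ) (S : Finset ℕ)
    (emb : (p : Fin np) → Fin ((pc p).k + 1) → ℕ) (p : Fin np) (i : Fin ((pc p).k + 1)) : Option ℕ :=
  if i = 0 then some (par (emb p 0)) else
    if h : ∃ s ∈ S, 1 ≤ s ∧ par s = emb p i then some h.choose else none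

noncomputable def bdc {np : ℕ} {pc : Fin np → Piece} (par : ℕ → ℕ) (S : Finset ℕ)
    (emb : (p : Fin np) → Fin ((pc p).k + 1) → ℕ) (g : ℕ → ℕ) (p : Fin np)
    (i : Fin ((pc p).k + 1)) : Option ℕ :=
  (bdv par S emb p i).map g

variable {n t D np N : ℕ} {par : ℕ → ℕ} {S : Finset ℕ} {ty : ℕ → Ty} {pc : Fin np → Piece}
  {emb : (p : Fin np) → Fin ((pc p).k + 1) → ℕ}

theorem bdv_zero (p : Fin np) : bdv par S emb p 0 = some (par (emb p 0)) := by
  unfold bdv
  rw [if_pos rfl]

theorem bdv_some {p : Fin np} {i : Fin ((pc p).k + 1)} (hi : i ≠ 0) {s : ℕ}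
    (h : bdv par S emb p i = some s) : s ∈ S ∧ 1 ≤ s ∧ par s = emb p i := by
  classical
  unfold bdv at h
  rw [if_neg hi] at h
  split_ifs at h with hc
  · have h1 := Option.some.inj h
    rw [← h1]
    exact hc.choose_spec

private theorem dcb1_pos (h : Deco n par t S ty np pc emb) (p : Fin np)
    (i : Fin ((pc p).k + 1)) : 1 ≤ emb p i := by
  rcases Nat.eq_zero_or_pos (emb p i) with h1 | h1
  · exact absurd (h1 ▸ h.zero_mem) (h.emb_S p i)
  · exact h1

theorem topv_emb (hpar : IsPar n par) (h : Deco n par t S ty np pc emb) (p : Fin np)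
    (i : Fin ((pc p).k + 1)) : topv par S (emb p i) = emb p 0 := by
  have key : ∀ m : ℕ, ∀ i : Fin ((pc p).k + 1), (i : ℕ) = m → topv par S (emb p i) = emb p 0 := by
    intro m
    induction m using Nat.strong_induction_on with
    | _ m ih =>
      intro i him
      by_cases hi : i = 0
      · rw [hi]
        exact topv_stop (h.emb_root p).2
      · have h1 := h.emb_par p i hi
        have h2 := (h.wf p).par_lt i hi
        have h3 : par (emb p i) ∉ S := by
          rw [h1]
          exact h.emb_S p _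
        have h4 : 1 ≤ emb p i := dcb1_pos h p i
        rw [topv_step (hpar _ h4 (h.emb_lt p i)) h3, h1]
        refine ih _ ?_ _ rfl
        rw [← him]
        exact h2
  exact key i i rfl

theorem bdv_edge (hpar : IsPar n par) (hs : SepOK n par S) (h : Deco n par t S ty np pc emb) :
    (∀ v < n, 1 ≤ v → v ∉ S → par v ∈ S → ∃ p, v = emb p 0 ∧ bdv par S emb p 0 = some (par v)) ∧
    (∀ v ∈ S, 1 ≤ v → par v ∉ S → ∃ p i, i ≠ 0 ∧ par v = emb p i ∧ bdv par S emb p i = some v) := by
  classical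
  constructor
  · intro v hv hv1 hvS hpS
    obtain ⟨p, i, hpi⟩ := h.emb_surj v hv hvS
    have hi : i = 0 := by
      by_contra hi
      rw [← hpi, h.emb_par p i hi] at hpS
      exact h.emb_S p _ hpS
    rw [hi] at hpi
    refine ⟨p, hpi.symm, ?_⟩
    rw [bdv_zero, hpi]
  · intro v hvS hv1 hpS
    have hvn : v < n := mem_range.1 (h.S_sub hvS)
    have hpn : par v < n := (hpar v hv1 hvn).trans hvn
    obtain ⟨p, i, hpi⟩ := h.emb_surj (par v) hpn hpS
    have hi : i ≠ 0 := by
      intro hi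
      have h1 := (hs.deep v hvS hv1 hpS).1
      rw [← hpi, hi] at h1
      exact h1 (h.emb_root p).2
    refine ⟨p, i, hi, hpi.symm, ?_⟩
    have hex : ∃ s ∈ S, 1 ≤ s ∧ par s = emb p i := ⟨v, hvS, hv1, hpi.symm⟩
    have h2 : hex.choose = v := by
      obtain ⟨h3, h4, h5⟩ := hex.choose_spec
      refine hs.uniq _ h3 v hvS h4 hv1 ?_ hpS ?_
      · rw [h5]
        exact h.emb_S p i
      · rw [h5, hpi]
    unfold bdv
    rw [if_neg hi, dif_pos hex, h2]

theorem bdc_wfb (hpar : IsPar n par) (hs : SepOK n par S) (hty : TyB n par t D S ty)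
    (h : Deco n par t S ty np pc emb) {g : ℕ → ℕ} (hg : ∀ s ∈ S, g s ≤ N) (p : Fin np) :
    (pc p).WFB N (bdc par S emb g p) := by
  have hnone : ∀ i : Fin ((pc p).k + 1), bdc par S emb g p i = none → bdv par S emb p i = none := by
    intro i hi
    unfold bdc at hi
    exact Option.map_eq_none_iff.1 hi
  have hnone' : ∀ i : Fin ((pc p).k + 1), bdv par S emb p i = none → bdc par S emb g p i = none := by
    intro i hi
    unfold bdc
    rw [hi]
    rfl
  have hsome : ∀ i : Fin ((pc p).k + 1), bdc par S emb g p i ≠ none →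
      ∃ s, bdv par S emb p i = some s := by
    intro i hi
    rcases Option.eq_none_or_eq_some (bdv par S emb p i) with h1 | ⟨s, h1⟩
    · exact absurd (hnone' i h1) hi
    · exact ⟨s, h1⟩
  have htop := topv_emb hpar h p
  have hpos := dcb1_pos h p
  have hlt := h.emb_lt p
  have hroot := h.emb_root p
  -- a boundary vertex which is not the root
  have key : ∀ (i : Fin ((pc p).k + 1)) (s : ℕ), i ≠ 0 → bdv par S emb p i = some s →
      s ∈ S ∧ 1 ≤ s ∧ par s = emb p i ∧ par s ∉ S ∧ (pc p).par i ≠ 0 ∧ s < n ∧ par (emb p i) =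
        emb p ((pc p).par i) := by
    intro i s hi hb
    obtain ⟨h1, h2, h3⟩ := bdv_some hi hb
    have h4 : par s ∉ S := by
      rw [h3]
      exact h.emb_S p i
    have h5 := h.emb_par p i hi
    refine ⟨h1, h2, h3, h4, ?_, mem_range.1 (h.S_sub h1), h5⟩
    intro h6
    have h7 := (hs.deep s h1 h2 h4).2
    rw [h3, h5, h6] at h7
    exact h7 hroot.2
  have huniq : ∀ (i j : Fin ((pc p).k + 1)) (s s' : ℕ), i ≠ 0 → j ≠ 0 →
      bdv par S emb p i = some s → bdv par S emb p j = some s' → emb p i = emb p j := by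
    intro i j s s' hi hj hb hb'
    obtain ⟨h1, h2, h3, h4, -⟩ := key i s hi hb
    obtain ⟨h1', h2', h3', h4', -⟩ := key j s' hj hb'
    have h5 : s = s' := by
      refine hs.uniq s h1 s' h1' h2 h2' h4 h4' ?_
      rw [h3, h3', htop i, htop j]
    rw [← h3, ← h3', h5]
  have hnb : ∀ x y : ℕ, 1 ≤ x → x < n → par x = y → y ∈ nbh n par {x} ∧ x ∈ nbh n par {y} := by
    intro x y hx hxn hxy
    exact ⟨mem_nbh.2 (Or.inr (Or.inl ⟨x, mem_singleton_self x, hx, hxn, hxy⟩)),
      mem_nbh.2 (Or.inr (Or.inr ⟨hxn, hx, by rw [hxy]; exact mem_singleton_self y⟩))⟩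
  have hnS1 : ∀ x ∈ S, 1 ≤ x → x < n → par x ∈ nbh n par S := fun x hx h1 h2 =>
    mem_nbh.2 (Or.inr (Or.inl ⟨x, hx, h1, h2, rfl⟩))
  have hup : ∀ (X : Finset ℕ) (x : ℕ), x ∈ X → 1 ≤ x → x < n → par x ∈ nbh n par X :=
    fun X x hx h1 h2 => mem_nbh.2 (Or.inr (Or.inl ⟨x, hx, h1, h2, rfl⟩))
  have hdn : ∀ (X : Finset ℕ) (x : ℕ), par x ∈ X → 1 ≤ x → x < n → x ∈ nbh n par X :=
    fun X x hx h1 h2 => mem_nbh.2 (Or.inr (Or.inr ⟨h2, h1, hx⟩))
  have hself : ∀ (X : Finset ℕ) (x : ℕ), x ∈ X → x ∈ nbh n par X := fun X x hx =>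
    mem_nbh.2 (Or.inl hx)
  refine ⟨h.wf p, ?_, ?_, ?_, ?_⟩
  · intro h1
    have h2 := hnone 0 h1
    rw [bdv_zero] at h2
    cases h2
  · intro i c hc
    unfold bdc at hc
    obtain ⟨s, h1, h2⟩ := Option.map_eq_some_iff.1 hc
    rw [← h2]
    refine hg s ?_
    by_cases hi : i = 0
    · rw [hi, bdv_zero] at h1
      rw [← Option.some.inj h1]
      exact hroot.2
    · exact (bdv_some hi h1).1
  · intro i hi hb
    obtain ⟨s, hbs⟩ := hsome i hb
    obtain ⟨h1, h2, h3, h4, h5, h6, h7⟩ := key i s hi hbs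
    have e1 : emb p i ∈ nbh n par S := by
      rw [← h3]
      exact hup S s h1 h2 h6
    have e2 : emb p ((pc p).par i) ∈ nbh n par (nbh n par S) := by
      rw [← h7]
      exact hup _ _ e1 (hpos i) (hlt i)
    refine ⟨?_, ?_, ?_⟩
    · rw [h.emb_ty]
      exact hty.far _ e2
    · rw [h.emb_ty]
      exact hty.far _ (hself _ _ e1)
    · rcases Option.eq_none_or_eq_some (bdv par S emb p ((pc p).par i)) with h8 | ⟨s', h8⟩
      · exact hnone' _ h8
      · exfalso
        have h9 := huniq i ((pc p).par i) s s' hi h5 hbs h8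
        have h10 := hpar (emb p i) (hpos i) (hlt i)
        rw [h7] at h10
        omega
  · intro i hi hb
    obtain ⟨s, hbs⟩ := hsome _ hb
    have h7 := h.emb_par p i hi
    have e0 : emb p ((pc p).par i) ∈ nbh n par S := by
      by_cases hp0 : (pc p).par i = 0
      · rw [hp0]
        exact hdn S _ hroot.2 hroot.1 (hlt 0)
      · obtain ⟨h1, h2, h3, h4, h5, h6, -⟩ := key _ s hp0 hbs
        rw [← h3]
        exact hup S s h1 h2 h6
    have e2 : emb p i ∈ nbh n par (nbh n par S) := by
      refine hdn _ _ ?_ (hpos i) (hlt i)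
      rw [h7]
      exact e0
    refine ⟨?_, ?_, ?_⟩
    · rw [h.emb_ty]
      exact hty.far _ (hself _ _ e0)
    · rw [h.emb_ty]
      exact hty.far _ e2
    · rcases Option.eq_none_or_eq_some (bdv par S emb p i) with h8 | ⟨s', h8⟩
      · exact hnone' _ h8
      · exfalso
        obtain ⟨h1, h2, h3, h4, h5, h6, -⟩ := key i s' hi h8
        have h9 := huniq i ((pc p).par i) s' s hi h5 h8 hbs
        have h10 := hpar (emb p i) (hpos i) (hlt i)
        rw [h7] at h10
        omega

theorem bdc_mem (h : Deco n par t S ty np pc emb) {g : ℕ → ℕ} {p : Fin np} {i : Fin ((pc p).k + 1)}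
    {c : ℕ} (hc : bdc par S emb g p i = some c) : ∃ s ∈ S, bdv par S emb p i = some s ∧ g s = c := by
  unfold bdc at hc
  obtain ⟨s, h1, h2⟩ := Option.map_eq_some_iff.1 hc
  refine ⟨s, ?_, h1, h2⟩
  by_cases hi : i = 0
  · rw [hi, bdv_zero] at h1
    rw [← Option.some.inj h1]
    exact (h.emb_root p).2
  · exact (bdv_some hi h1).1

private theorem dcb2_inj (h : Deco n par t S ty np pc emb) (p : Fin np) :
    Function.Injective (emb p) := by
  intro i j hij
  have h1 := @h.emb_inj ⟨p, i⟩ ⟨p, j⟩ hij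
  exact eq_of_heq (Sigma.mk.inj h1).2

private theorem dcb2_same (h : Deco n par t S ty np pc emb) {p q : Fin np} {i : Fin ((pc p).k + 1)}
    {j : Fin ((pc q).k + 1)} (hij : emb p i = emb q j) : p = q := by
  have h1 := @h.emb_inj ⟨p, i⟩ ⟨q, j⟩ hij
  exact congrArg Sigma.fst h1

private theorem dcb2_pos (h : Deco n par t S ty np pc emb) (p : Fin np)
    (i : Fin ((pc p).k + 1)) : 1 ≤ emb p i := by
  rcases Nat.eq_zero_or_pos (emb p i) with h0 | h0
  · exfalso
    have := h.emb_S p i
    rw [h0] at this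
    exact this h.zero_mem
  · exact h0

private theorem dcb2_child (h : Deco n par t S ty np pc emb) {p : Fin np}
    {j : Fin ((pc p).k + 1)} (hj : j ≠ 0) : emb p j ∈ chs n par (emb p ((pc p).par j)) := by
  rw [mem_chs]
  exact ⟨h.emb_lt p j, dcb2_pos h p j, h.emb_par p j hj⟩

private theorem dcb2_ne {g : ℕ → ℕ} {p : Fin np} {i : Fin ((pc p).k + 1)}
    (hi : bdc par S emb g p i ≠ none) : ∃ s, bdv par S emb p i = some s := by
  unfold bdc at hi
  cases hb : bdv par S emb p i with
  | none =>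
    rw [hb] at hi
    exact absurd rfl hi
  | some s => exact ⟨s, rfl⟩

private theorem dcb2_nbh (h : Deco n par t S ty np pc emb) {g : ℕ → ℕ} {p : Fin np}
    {i : Fin ((pc p).k + 1)} (hi : bdc par S emb g p i ≠ none) : emb p i ∈ nbh n par S := by
  obtain ⟨s, hs⟩ := dcb2_ne hi
  rw [mem_nbh]
  by_cases h0 : i = 0
  · subst h0
    exact Or.inr (Or.inr ⟨h.emb_lt p 0, (h.emb_root p).1, (h.emb_root p).2⟩)
  · obtain ⟨h1, h2, h3⟩ := bdv_some h0 hs
    exact Or.inr (Or.inl ⟨s, h1, h2, mem_range.1 (h.S_sub h1), h3⟩)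

theorem invo_card (hpar : IsPar n par) (h : Deco n par t S ty np pc emb) (g : ℕ → ℕ) :
    ∑ p, ((pc p).invo (bdc par S emb g p)).card ≤ (nbh n par (nbh n par S)).card := by
  have h1 : ∑ p, ((pc p).invo (bdc par S emb g p)).card =
      ((univ : Finset (Fin np)).sigma (fun p => (pc p).invo (bdc par S emb g p))).card :=
    (card_sigma _ _).symm
  rw [h1]
  refine card_le_card_of_injOn (fun x => emb x.1 x.2) ?_ (h.emb_inj.injOn)
  rintro ⟨p, i⟩ hx
  rw [mem_coe, mem_sigma] at hx
  have hx2 : i ∈ (pc p).invo (bdc par S emb g p) := hx.2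
  unfold Piece.invo at hx2
  rw [mem_filter] at hx2
  show emb p i ∈ ((nbh n par (nbh n par S) : Finset ℕ) : Set ℕ)
  rw [mem_coe, mem_nbh]
  rcases hx2.2 with hb | ⟨hi0, hb⟩
  · exact Or.inl (dcb2_nbh h hb)
  · refine Or.inr (Or.inr ⟨h.emb_lt p i, dcb2_pos h p i, ?_⟩)
    rw [h.emb_par p i hi0]
    exact dcb2_nbh h hb

private theorem dcb2_pdeg (s : ℕ) :
    ((if s = 0 then (∅ : Finset ℕ) else {par s}) ∪ chs n par s).card ≤ pdeg n par s := by
  refine (card_union_le _ _).trans ?_
  unfold pdeg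
  by_cases h0 : s = 0
  · rw [if_pos h0, if_pos h0, card_empty]
    omega
  · rw [if_neg h0, if_neg h0, card_singleton]
    omega

theorem mult_card (hpar : IsPar n par) (h : Deco n par t S ty np pc emb) {g : ℕ → ℕ}
    (hg : Set.InjOn g (S : Set ℕ)) {Δ : ℕ} (hΔ : ∀ v < n, pdeg n par v ≤ Δ) (c : ℕ) :
    ∑ p, (univ.filter (fun i => bdc par S emb g p i = some c)).card ≤ Δ := by
  by_cases hex : ∃ p, ∃ i, bdc par S emb g p i = some c
  · obtain ⟨p₀, i₀, h₀⟩ := hex
    obtain ⟨s, hs, -, hgs⟩ := bdc_mem h h₀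
    have key : ∀ p i, bdc par S emb g p i = some c → bdv par S emb p i = some s := by
      intro p i hpi
      obtain ⟨s', hs', hb, hgs'⟩ := bdc_mem h hpi
      have h2 : s' = s := hg (mem_coe.2 hs') (mem_coe.2 hs) (hgs'.trans hgs.symm)
      rw [← h2]
      exact hb
    have h1 : ∑ p, (univ.filter (fun i => bdc par S emb g p i = some c)).card =
        ((univ : Finset (Fin np)).sigma
          (fun p => univ.filter (fun i => bdc par S emb g p i = some c))).card :=
      (card_sigma _ _).symm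
    rw [h1]
    refine le_trans ?_ ((dcb2_pdeg (n := n) (par := par) s).trans
      (hΔ s (mem_range.1 (h.S_sub hs))))
    refine card_le_card_of_injOn (fun x => emb x.1 x.2) ?_ (h.emb_inj.injOn)
    rintro ⟨p, i⟩ hx
    rw [mem_coe, mem_sigma] at hx
    have hx2 : i ∈ univ.filter (fun i => bdc par S emb g p i = some c) := hx.2
    rw [mem_filter] at hx2
    have hb := key p i hx2.2
    show emb p i ∈ (((if s = 0 then (∅ : Finset ℕ) else {par s}) ∪ chs n par s : Finset ℕ) : Set ℕ)
    rw [mem_coe, mem_union]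
    by_cases h0 : i = 0
    · subst h0
      rw [bdv_zero] at hb
      refine Or.inr ?_
      rw [mem_chs]
      exact ⟨h.emb_lt p 0, (h.emb_root p).1, Option.some.inj hb⟩
    · obtain ⟨_, h2, h3⟩ := bdv_some h0 hb
      refine Or.inl ?_
      rw [if_neg (by omega), mem_singleton]
      exact h3.symm
  · have h1 : ∀ p ∈ (univ : Finset (Fin np)),
        (univ.filter (fun i => bdc par S emb g p i = some c)).card = 0 := by
      intro p _
      rw [card_eq_zero, filter_eq_empty_iff]
      intro i _ hi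
      exact hex ⟨p, i, hi⟩
    rw [sum_congr rfl h1, sum_const_zero]
    exact Nat.zero_le _

theorem np_leB (hpar : IsPar n par) (h : Deco n par t S ty np pc emb) : np ≤ (nbh n par S).card := by
  have h1 : (univ.image (fun p : Fin np => emb p 0)).card = np := by
    rw [card_image_of_injective, card_univ, Fintype.card_fin]
    intro p q hpq
    exact dcb2_same h hpq
  have h2 : univ.image (fun p : Fin np => emb p 0) ⊆ nbh n par S := by
    intro v hv
    obtain ⟨p, _, rfl⟩ := mem_image.1 hv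
    rw [mem_nbh]
    exact Or.inr (Or.inr ⟨h.emb_lt p 0, (h.emb_root p).1, (h.emb_root p).2⟩)
  have h3 := card_le_card h2
  rw [h1] at h3
  exact h3

private theorem dcb2_okP (h : Deco n par t S ty np pc emb) {p : Fin np} {i : Fin ((pc p).k + 1)}
    (hi : (pc p).ty i = Ty.P) : i ≠ 0 ∧ ((pc p).ty ((pc p).par i) = Ty.O ∨
      (pc p).ty ((pc p).par i) = Ty.U) := by
  have hi0 : i ≠ 0 := by
    rintro rfl
    rw [(h.wf p).root] at hi
    exact absurd hi (by decide)
  refine ⟨hi0, ?_⟩
  have h1 := (h.wf p).ok i hi0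
  rw [hi] at h1
  cases h2 : (pc p).ty ((pc p).par i)
  · exact Or.inl rfl
  · rw [h2] at h1; exact absurd h1 (by decide)
  · exact Or.inr rfl

theorem cnt_POB (hpar : IsPar n par) (h : Deco n par t S ty np pc emb) (ht : 1 ≤ t)
    (hD : ∀ v < n, ty v = Ty.P → pdeg n par v ≤ D) (p : Fin np) :
    (pc p).cnt Ty.P Ty.O ≤ D * t * ((vx emb p).filter (fun v => ty v = Ty.U)).card := by
  have hP : (univ.filter (fun i => (pc p).ty i = Ty.P)).card ≤
      t * ((vx emb p).filter (fun v => ty v = Ty.U)).card := by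
    have h1 : univ.filter (fun i => (pc p).ty i = Ty.P) ⊆
        univ.filter (fun i => i ≠ 0 ∧ (pc p).ty ((pc p).par i) = Ty.O ∧ (pc p).ty i = Ty.P) ∪
        univ.filter (fun i => i ≠ 0 ∧ (pc p).ty ((pc p).par i) = Ty.U ∧ (pc p).ty i = Ty.P) := by
      intro i hi
      have hiP := (mem_filter.1 hi).2
      obtain ⟨hi0, h2⟩ := dcb2_okP h hiP
      rw [mem_union, mem_filter, mem_filter]
      rcases h2 with h2 | h2
      · exact Or.inl ⟨mem_univ _, hi0, h2, hiP⟩
      · exact Or.inr ⟨mem_univ _, hi0, h2, hiP⟩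
    have h2 := (card_le_card h1).trans (card_union_le _ _)
    have h3 := cnt_OP h hpar p
    have h4 := cnt_UP h hpar ht p
    unfold Piece.cnt at h3 h4
    rw [h3, h4] at h2
    refine h2.trans (le_of_eq ?_)
    obtain ⟨s, rfl⟩ : ∃ s, t = s + 1 := ⟨t - 1, by omega⟩
    rw [Nat.add_sub_cancel]
    ring
  unfold Piece.cnt
  have hfib := card_le_mul_card_image_of_maps_to (s := univ.filter (fun i => i ≠ 0 ∧
      (pc p).ty ((pc p).par i) = Ty.P ∧ (pc p).ty i = Ty.O))
    (t := univ.filter (fun i => (pc p).ty i = Ty.P)) (f := (pc p).par) (n := D)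
    (by
      intro i hi
      rw [mem_filter] at hi
      rw [mem_filter]
      exact ⟨mem_univ _, hi.2.2.1⟩)
    (by
      intro j hj
      have hjlt := h.emb_lt p j
      have hjP : ty (emb p j) = Ty.P := by
        rw [← h.emb_ty]
        exact (mem_filter.1 hj).2
      have h1 : ((univ.filter (fun i => i ≠ 0 ∧ (pc p).ty ((pc p).par i) = Ty.P ∧
          (pc p).ty i = Ty.O)).filter (fun i => (pc p).par i = j)).card ≤
          (chs n par (emb p j)).card := by
        refine card_le_card_of_injOn (emb p) ?_ ((dcb2_inj h p).injOn)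
        intro i hi
        rw [mem_coe, mem_filter, mem_filter] at hi
        have := dcb2_child h hi.1.2.1
        rw [hi.2] at this
        exact this
      refine h1.trans ?_
      have h2 := hD _ hjlt hjP
      unfold pdeg at h2
      omega)
  refine hfib.trans ?_
  rw [mul_assoc]
  exact Nat.mul_le_mul_left _ hP

end SSB
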