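import Pool.Agent.Lib.MP_8a819d_co.BD.Defs

/-!
# MP_8a819d_co, uniformly integrable degrees: parity

The sum of the values of the items of `range n \ Λ` and of the labels of the units (`t = 1`) is, modulo `2`, the sum of the labels of
the vertices of even degree.
-/

set_option autoImplicit false

namespace SSB

open Finset

private theorem emq_dd (a b : ℕ) : ((dd a b : ℕ) : ZMod 2) = a + b := by
  have h1 : dd a b % 2 = (a + b) % 2 := by
    unfold dd
    omega
  have h2 : ((dd a b : ℕ) : ZMod 2) = ((a + b : ℕ) : ZMod 2) :=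
    (ZMod.natCast_eq_natCast_iff' _ _ _).2 h1
  rw [h2, Nat.cast_add]

private theorem emq_chs {n : ℕ} {par : ℕ → ℕ} (hpar : IsPar n par) (G : ℕ → ZMod 2) :
    ∑ v ∈ (range n).filter (fun v => 1 ≤ v), G (par v) =
      ∑ u ∈ range n, ((chs n par u).card : ZMod 2) * G u := by
  classical
  rw [← sum_fiberwise_of_maps_to (t := range n) (g := par) fun v hv => by
    rw [mem_filter, mem_range] at hv
    exact mem_range.2 ((hpar v hv.2 hv.1).trans hv.1)]
  refine sum_congr rfl fun u _ => ?_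
  have h1 : ((range n).filter (fun v => 1 ≤ v)).filter (fun v => par v = u) = chs n par u := by
    ext v
    rw [mem_filter, mem_filter, mem_range, mem_chs, and_assoc]
  rw [h1]
  have h2 : ∑ v ∈ chs n par u, G (par v) = ∑ _v ∈ chs n par u, G u :=
    sum_congr rfl fun v hv => by rw [(mem_chs.1 hv).2.2]
  rw [h2, sum_const, nsmul_eq_mul]

/-- the vertices of even degree -/
def evn (n : ℕ) (par : ℕ → ℕ) : Finset ℕ := (range n).filter (fun u => pdeg n par u % 2 = 0)

theorem mem_evn {n : ℕ} {par : ℕ → ℕ} {u : ℕ} : u ∈ evn n par ↔ u < n ∧ pdeg n par u % 2 = 0 := by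
  unfold evn
  rw [mem_filter, mem_range]

theorem parity_gen {n : ℕ} {par : ℕ → ℕ} (hpar : IsPar n par)
    {Λ : Finset ℕ} (hΛ : Λ ⊆ range n)
    (hΛ1 : ∀ v ∈ Λ, 1 ≤ v ∧ chs n par v = ∅) {f : ℕ → ℕ} {Lb : Finset ℕ}
    (hbij : Set.BijOn (fun v => f (par v)) Λ Lb) :
    (∑ x ∈ items par (range n \ Λ), val par f x + ∑ c ∈ Lb, c + ∑ u ∈ evn n par, f u) % 2 = 0 := by
  classical
  have hparT : ∀ v ∈ range n \ Λ, 1 ≤ v → par v ∈ range n \ Λ := fun v hv h1 => by
    rw [mem_sdiff, mem_range] at hv ⊢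
    refine ⟨(hpar v h1 hv.1).trans hv.1, fun hΛ' => ?_⟩
    have h2 : v ∈ chs n par (par v) := mem_chs.2 ⟨hv.1, h1, rfl⟩
    rw [(hΛ1 _ hΛ').2] at h2
    exact absurd h2 (notMem_empty v)
  -- the sum over the items
  have e1 : ((∑ x ∈ items par (range n \ Λ), val par f x : ℕ) : ZMod 2) =
      ∑ v ∈ range n \ Λ, (f v : ZMod 2) +
        ∑ v ∈ (range n \ Λ).filter (fun v => 1 ≤ v), ((f v : ZMod 2) + f (par v)) := by
    have h2 : (range n \ Λ).filter (fun i => 1 ≤ i ∧ par i ∈ range n \ Λ) =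
        (range n \ Λ).filter (fun v => 1 ≤ v) :=
      filter_congr fun v hv => ⟨fun h => h.1, fun h => ⟨h, hparT v hv h⟩⟩
    have h3 : Disjoint ((range n \ Λ).image Sum.inl : Finset (ℕ ⊕ ℕ))
        (((range n \ Λ).filter (fun v => 1 ≤ v)).image Sum.inr) := by
      rw [disjoint_left]
      intro x hx hx'
      obtain ⟨a, -, rfl⟩ := mem_image.1 hx
      obtain ⟨b, -, hb⟩ := mem_image.1 hx'
      exact absurd hb Sum.inr_ne_inl
    unfold items
    rw [h2, sum_union h3, sum_image (fun a _ b _ h => Sum.inl.inj h),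
      sum_image (fun a _ b _ h => Sum.inr.inj h), Nat.cast_add, Nat.cast_sum, Nat.cast_sum]
    refine congrArg₂ (· + ·) rfl (sum_congr rfl fun v _ => ?_)
    exact emq_dd _ _
  -- the sum of the labels
  have e2 : ((∑ c ∈ Lb, c : ℕ) : ZMod 2) = ∑ v ∈ Λ, (f (par v) : ZMod 2) := by
    rw [Nat.cast_sum]
    symm
    refine sum_bij (fun v _ => f (par v)) (fun v hv => ?_) (fun v hv w hw h => ?_)
      (fun c hc => ?_) (fun v hv => rfl)
    · exact mem_coe.1 (hbij.mapsTo (mem_coe.2 hv))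
    · exact hbij.injOn (mem_coe.2 hv) (mem_coe.2 hw) h
    · obtain ⟨v, hv, hvc⟩ := hbij.surjOn (mem_coe.2 hc)
      exact ⟨v, mem_coe.1 hv, hvc⟩
  -- the number of children
  have e3 : ∑ v ∈ (range n \ Λ).filter (fun v => 1 ≤ v), (f (par v) : ZMod 2) +
      ∑ v ∈ Λ, (f (par v) : ZMod 2) =
        ∑ u ∈ range n \ Λ, ((chs n par u).card : ZMod 2) * f u := by
    have h1 : (range n).filter (fun v => 1 ≤ v) =
        (range n \ Λ).filter (fun v => 1 ≤ v) ∪ Λ := by
      ext v
      simp only [mem_filter, mem_union, mem_sdiff]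
      constructor
      · rintro ⟨h1, h2⟩
        by_cases hv : v ∈ Λ
        · exact Or.inr hv
        · exact Or.inl ⟨⟨h1, hv⟩, h2⟩
      · rintro (⟨⟨h1, -⟩, h2⟩ | h)
        · exact ⟨h1, h2⟩
        · exact ⟨hΛ h, (hΛ1 v h).1⟩
    have h2 : Disjoint ((range n \ Λ).filter (fun v => 1 ≤ v)) Λ :=
      disjoint_of_subset_left (filter_subset _ _) sdiff_disjoint
    have h3 := emq_chs hpar (fun u => (f u : ZMod 2))
    rw [h1, sum_union h2] at h3
    rw [h3, ← sum_sdiff hΛ, add_eq_left]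
    refine sum_eq_zero fun u hu => ?_
    rw [(hΛ1 u hu).2, card_empty, Nat.cast_zero, zero_mul]
  -- the vertices of even degree
  have e4 : evn n par = (range n \ Λ).filter (fun u => pdeg n par u % 2 = 0) := by
    ext u
    rw [mem_evn, mem_filter, mem_sdiff, mem_range]
    constructor
    · rintro ⟨h1, h2⟩
      refine ⟨⟨h1, fun hu => ?_⟩, h2⟩
      obtain ⟨h3, h4⟩ := hΛ1 u hu
      unfold pdeg at h2
      rw [h4, card_empty, if_neg (by omega)] at h2
      omega
    · rintro ⟨⟨h1, -⟩, h2⟩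
      exact ⟨h1, h2⟩
  have e6 : ((∑ x ∈ items par (range n \ Λ), val par f x + ∑ c ∈ Lb, c +
      ∑ u ∈ evn n par, f u : ℕ) : ZMod 2) = 0 := by
    rw [Nat.cast_add, Nat.cast_add, e1, e2, sum_add_distrib, add_assoc _ _ (∑ v ∈ Λ, _),
      add_assoc (∑ v ∈ (range n \ Λ).filter (fun v => 1 ≤ v), (f v : ZMod 2)), e3, Nat.cast_sum, e4]
    have h1 : ∑ v ∈ (range n \ Λ).filter (fun v => 1 ≤ v), (f v : ZMod 2) =
        ∑ u ∈ range n \ Λ, (if u = 0 then (0 : ZMod 2) else 1) * f u := by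
      rw [sum_filter]
      refine sum_congr rfl fun u _ => ?_
      by_cases hu : u = 0
      · rw [if_pos hu, if_neg (by omega), zero_mul]
      · rw [if_neg hu, if_pos (by omega), one_mul]
    rw [h1, sum_filter, ← sum_add_distrib, ← sum_add_distrib, ← sum_add_distrib]
    refine sum_eq_zero fun u hu => ?_
    have h2 : ((pdeg n par u : ℕ) : ZMod 2) =
        ((chs n par u).card : ZMod 2) + (if u = 0 then 0 else 1) := by
      unfold pdeg
      rw [Nat.cast_add]
      refine congrArg₂ (· + ·) rfl ?_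
      by_cases hu0 : u = 0
      · rw [if_pos hu0, if_pos hu0, Nat.cast_zero]
      · rw [if_neg hu0, if_neg hu0, Nat.cast_one]
    have h3 : (f u : ZMod 2) + ((if u = 0 then (0 : ZMod 2) else 1) * f u +
        ((chs n par u).card : ZMod 2) * f u) =
        (1 + (pdeg n par u : ℕ)) * f u := by
      rw [h2]
      ring
    have h4 : (1 : ZMod 2) + 1 = 0 := rfl
    rw [h3]
    by_cases hev : pdeg n par u % 2 = 0
    · rw [if_pos hev]
      have h5 : ((pdeg n par u : ℕ) : ZMod 2) = ((0 : ℕ) : ZMod 2) :=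
        (ZMod.natCast_eq_natCast_iff' _ _ _).2 hev
      rw [h5, Nat.cast_zero, add_zero, one_mul]
      have h6 : (f u : ZMod 2) + f u = (1 + 1) * f u := by ring
      rw [h6, h4, zero_mul]
    · rw [if_neg hev]
      have h5 : ((pdeg n par u : ℕ) : ZMod 2) = ((1 : ℕ) : ZMod 2) :=
        (ZMod.natCast_eq_natCast_iff' _ _ _).2 (by omega)
      rw [h5, Nat.cast_one, h4, zero_mul, add_zero]
  have h7 := (ZMod.natCast_eq_zero_iff _ _).1 e6
  exact Nat.mod_eq_zero_of_dvd h7

end SSB
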