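import Pool.Agent.Lib.MP_8a819d_co.BD.Late

/-!
# MP_8a819d_co, uniformly integrable degrees: late vertices in increasing order

`ext1U`: one more vertex `v`, with at most `Δ` neighbours inside `W`, a prescribed parity of its label.
`lateU`: all the vertices of `T \ W`, in increasing order; each of them has at most `c` children in `W`; the
parities of the new labels are prescribed.
-/

set_option autoImplicit false

namespace SSB

open Finset

private theorem ltU_main {n : ℕ} {par : ℕ → ℕ} (hpar : IsPar n par) {W : Finset ℕ}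
    (hW : W ⊆ range n) {v : ℕ} (hv : v < n) (hvW : v ∉ W) :
    ∃ (Nb : Finset ℕ) (e : ℕ → ℕ ⊕ ℕ), Nb ⊆ W ∧ Nb.card = wdeg n par W v ∧
      (∀ u ∈ Nb, ∀ u' ∈ Nb, e u = e u' → u = u') ∧ (∀ u ∈ Nb, ∃ i, e u = Sum.inr i) ∧
      items par (insert v W) = items par W ∪ insert (Sum.inl v) (Nb.image e) ∧
      (∀ u ∈ Nb, e u ∉ items par W) ∧
      ∀ f f' : ℕ → ℕ, (∀ i ∈ W, f' i = f i) → ∀ u ∈ Nb,
        val par f' (e u) = dd (f' v) (f u) := by
  let Pn : Finset ℕ := if 1 ≤ v ∧ par v ∈ W then {par v} else ∅
  let Cn : Finset ℕ := (chs n par v).filter (· ∈ W)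
  have hCn : ∀ u, u ∈ Cn ↔ (u < n ∧ 1 ≤ u ∧ par u = v) ∧ u ∈ W := by
    intro u
    change u ∈ (chs n par v).filter (· ∈ W) ↔ _
    rw [mem_filter, mem_chs]
  have hPn : ∀ u, u ∈ Pn ↔ (1 ≤ v ∧ par v ∈ W) ∧ u = par v := by
    intro u
    change u ∈ (if 1 ≤ v ∧ par v ∈ W then ({par v} : Finset ℕ) else ∅) ↔ _
    split_ifs with h
    · rw [mem_singleton]
      exact ⟨fun h' => ⟨h, h'⟩, fun h' => h'.2⟩
    · exact ⟨fun h' => absurd h' (notMem_empty _), fun h' => absurd h'.1 h⟩
  have hClt : ∀ u, u ∈ Cn → v < u := by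
    intro u hu
    obtain ⟨⟨h1, h2, h3⟩, -⟩ := (hCn u).1 hu
    have := hpar u h2 h1
    omega
  have hPlt : ∀ u, u ∈ Pn → u < v := by
    intro u hu
    obtain ⟨⟨h1, -⟩, h2⟩ := (hPn u).1 hu
    have := hpar v h1 hv
    omega
  let e : ℕ → ℕ ⊕ ℕ := fun u => if u < v then Sum.inr v else Sum.inr u
  have heP : ∀ u, u ∈ Pn → e u = Sum.inr v := by
    intro u hu
    change (if u < v then (Sum.inr v : ℕ ⊕ ℕ) else Sum.inr u) = _
    rw [if_pos (hPlt u hu)]
  have heC : ∀ u, u ∈ Cn → e u = Sum.inr u := by
    intro u hu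
    have := hClt u hu
    change (if u < v then (Sum.inr v : ℕ ⊕ ℕ) else Sum.inr u) = _
    rw [if_neg (by omega)]
  refine ⟨Cn ∪ Pn, e, ?_, ?_, ?_, ?_, ?_, ?_, ?_⟩
  · intro u hu
    rcases mem_union.1 hu with hu | hu
    · exact ((hCn u).1 hu).2
    · obtain ⟨⟨-, h1⟩, h2⟩ := (hPn u).1 hu
      rw [h2]
      exact h1
  · rw [card_union_of_disjoint]
    · unfold wdeg
      congr 1
      change (if 1 ≤ v ∧ par v ∈ W then ({par v} : Finset ℕ) else ∅).card = _
      split_ifs with h
      · exact card_singleton _
      · exact card_empty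
    · rw [disjoint_left]
      intro u h1 h2
      have := hClt u h1
      have := hPlt u h2
      omega
  · intro u hu u' hu' h
    rcases mem_union.1 hu with hu | hu <;> rcases mem_union.1 hu' with hu' | hu'
    · rw [heC u hu, heC u' hu'] at h
      exact Sum.inr.inj h
    · rw [heC u hu, heP u' hu'] at h
      have := Sum.inr.inj h
      have := hClt u hu
      omega
    · rw [heP u hu, heC u' hu'] at h
      have := Sum.inr.inj h
      have := hClt u' hu'
      omega
    · rw [((hPn u).1 hu).2, ((hPn u').1 hu').2]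
  · intro u hu
    rcases mem_union.1 hu with hu | hu
    · exact ⟨u, heC u hu⟩
    · exact ⟨v, heP u hu⟩
  · ext x
    rw [mem_union, mem_insert, mem_image]
    rcases x with i | i
    · rw [mem_items_inl, mem_items_inl, mem_insert]
      constructor
      · rintro (h | h)
        · exact Or.inr (Or.inl (by rw [h]))
        · exact Or.inl h
      · rintro (h | h | ⟨u, hu, h⟩)
        · exact Or.inr h
        · exact Or.inl (Sum.inl.inj h)
        · rcases mem_union.1 hu with hu | hu
          · rw [heC u hu] at h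
            exact absurd h (by simp)
          · rw [heP u hu] at h
            exact absurd h (by simp)
    · rw [mem_items_inr, mem_items_inr, mem_insert, mem_insert]
      constructor
      · rintro ⟨h1, h2, h3⟩
        rcases h1 with h1 | h1
        · subst h1
          have h4 := hpar i h2 hv
          have h5 : par i ∈ W := by
            rcases h3 with h3 | h3
            · omega
            · exact h3
          have h6 : par i ∈ Pn := (hPn _).2 ⟨⟨h2, h5⟩, rfl⟩
          exact Or.inr (Or.inr ⟨par i, mem_union_right _ h6, heP _ h6⟩)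
        · rcases h3 with h3 | h3
          · have h6 : i ∈ Cn := (hCn i).2 ⟨⟨mem_range.1 (hW h1), h2, h3⟩, h1⟩
            exact Or.inr (Or.inr ⟨i, mem_union_left _ h6, heC _ h6⟩)
          · exact Or.inl ⟨h1, h2, h3⟩
      · rintro (⟨h1, h2, h3⟩ | h | ⟨u, hu, h⟩)
        · exact ⟨Or.inr h1, h2, Or.inr h3⟩
        · exact absurd h (by simp)
        · rcases mem_union.1 hu with hu | hu
          · rw [heC u hu] at h
            have h' := Sum.inr.inj h
            subst h'
            obtain ⟨⟨h1, h2, h3⟩, h4⟩ := (hCn u).1 hu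
            exact ⟨Or.inr h4, h2, Or.inl h3⟩
          · rw [heP u hu] at h
            have h' := Sum.inr.inj h
            subst h'
            obtain ⟨⟨h1, h2⟩, -⟩ := (hPn u).1 hu
            exact ⟨Or.inl rfl, h1, Or.inr h2⟩
  · intro u hu h
    rcases mem_union.1 hu with hu | hu
    · rw [heC u hu, mem_items_inr] at h
      rw [((hCn u).1 hu).1.2.2] at h
      exact hvW h.2.2
    · rw [heP u hu, mem_items_inr] at h
      exact hvW h.1
  · intro f f' hff u hu
    rcases mem_union.1 hu with hu | hu
    · rw [heC u hu, val_inr, ((hCn u).1 hu).1.2.2, hff u ((hCn u).1 hu).2, dd_comm]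
    · obtain ⟨⟨h1, h2⟩, h3⟩ := (hPn u).1 hu
      rw [heP u hu, val_inr, hff _ h2, h3]

theorem ext1U {Δ n N : ℕ} {par : ℕ → ℕ} {R : Finset ℕ} {l : ℝ} (hsel : Sel Δ N R l)
    (hpar : IsPar n par) {W : Finset ℕ} (hW : W ⊆ range n) {v : ℕ} (hv : v < n) (hvW : v ∉ W)
    (hdeg : wdeg n par W v ≤ Δ) {f : ℕ → ℕ} (hinj : Set.InjOn (val par f) (items par W))
    (hval : ∀ x ∈ items par W, 1 ≤ val par f x ∧ val par f x ≤ N)
    (hF : ((((items par W).image (val par f)).filter (· ∈ R)).card : ℝ) ≤ l * N) (b : ℕ) :
    ∃ f' : ℕ → ℕ, (∀ i ∈ W, f' i = f i) ∧ Set.InjOn (val par f') (items par (insert v W)) ∧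
      (∀ x ∈ items par (insert v W), x ∉ items par W → val par f' x ∈ R) ∧
      ((((items par (insert v W)).image (val par f')).filter (· ∈ R)).card ≤
        (((items par W).image (val par f)).filter (· ∈ R)).card + (Δ + 1)) ∧
      f' v % 2 = b % 2 := by
  classical
  obtain ⟨Nb, e, hNW, hNc, heI, heR, hit, heW, hval'⟩ := ltU_main hpar hW hv hvW
  have hfin : ∀ i ∈ W, ∀ j ∈ W, f i = f j → i = j := by
    intro i hi j hj h
    have h1 := hinj (mem_coe.2 (mem_items_inl.2 hi)) (mem_coe.2 (mem_items_inl.2 hj)) h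
    exact Sum.inl.inj h1
  have hfN : Set.InjOn f (Nb : Set ℕ) := fun i hi j hj h =>
    hfin i (hNW (mem_coe.1 hi)) j (hNW (mem_coe.1 hj)) h
  have hYc : (Nb.image f).card = wdeg n par W v := by
    rw [card_image_of_injOn hfN, hNc]
  have hYs : Nb.image f ⊆ Icc 1 N := by
    intro y hy
    obtain ⟨u, hu, rfl⟩ := mem_image.1 hy
    have h1 := hval (Sum.inl u) (mem_items_inl.2 (hNW hu))
    rw [val_inl] at h1
    exact mem_Icc.2 h1
  obtain ⟨a, haR, hab, haF, haY, haYY⟩ := hsel (Nb.image f)
    (((items par W).image (val par f)).filter (· ∈ R)) b hYs (by rw [hYc]; exact hdeg) hF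
  have hf'W : ∀ i ∈ W, Function.update f v a i = f i := fun i hi =>
    Function.update_of_ne (fun h : i = v => hvW (h ▸ hi)) _ _
  have hf'v : Function.update f v a v = a := Function.update_self _ _ _
  have hold : ∀ x ∈ items par W, val par (Function.update f v a) x = val par f x := by
    intro x hx
    rcases x with i | i
    · rw [val_inl, val_inl]
      exact hf'W i (mem_items_inl.1 hx)
    · obtain ⟨h1, -, h2⟩ := mem_items_inr.1 hx
      rw [val_inr, val_inr, hf'W i h1, hf'W _ h2]
  have hnew : ∀ u ∈ Nb, val par (Function.update f v a) (e u) = dd a (f u) := by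
    intro u hu
    rw [hval' f _ hf'W u hu, hf'v]
  have hnv : val par (Function.update f v a) (Sum.inl v) = a := hf'v
  have hsep : ∀ z, z ∈ R → z ∉ ((items par W).image (val par f)).filter (· ∈ R) →
      ∀ x ∈ items par W, val par f x ≠ z := by
    intro z hz hz' x hx h
    exact hz' (mem_filter.2 ⟨mem_image.2 ⟨x, hx, h⟩, hz⟩)
  have hsepN : ∀ x ∈ items par W, ∀ y ∈ insert (Sum.inl v) (Nb.image e),
      val par (Function.update f v a) x ≠ val par (Function.update f v a) y := by
    intro x hx y hy
    rw [hold x hx]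
    rcases mem_insert.1 hy with rfl | hy
    · rw [hnv]
      exact hsep a haR haF x hx
    · obtain ⟨u, hu, rfl⟩ := mem_image.1 hy
      rw [hnew u hu]
      have h1 := haY (f u) (mem_image_of_mem f hu)
      exact hsep _ h1.1 h1.2.1 x hx
  refine ⟨Function.update f v a, hf'W, ?_, ?_, ?_, ?_⟩
  · intro x hx y hy hxy
    rw [mem_coe, hit, mem_union] at hx hy
    rcases hx with hx | hx <;> rcases hy with hy | hy
    · rw [hold x hx, hold y hy] at hxy
      exact hinj (mem_coe.2 hx) (mem_coe.2 hy) hxy
    · exact absurd hxy (hsepN x hx y hy)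
    · exact absurd hxy.symm (hsepN y hy x hx)
    · rcases mem_insert.1 hx with hx | hx <;> rcases mem_insert.1 hy with hy | hy
      · rw [hx, hy]
      · obtain ⟨u, hu, h1⟩ := mem_image.1 hy
        rw [hx, ← h1, hnv, hnew u hu] at hxy
        exact absurd hxy.symm (haY (f u) (mem_image_of_mem f hu)).2.2
      · obtain ⟨u, hu, h1⟩ := mem_image.1 hx
        rw [hy, ← h1, hnv, hnew u hu] at hxy
        exact absurd hxy (haY (f u) (mem_image_of_mem f hu)).2.2
      · obtain ⟨u, hu, h1⟩ := mem_image.1 hx
        obtain ⟨u', hu', h2⟩ := mem_image.1 hy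
        rw [← h1, ← h2, hnew u hu, hnew u' hu'] at hxy
        rw [← h1, ← h2]
        by_contra hne
        have h3 : f u ≠ f u' := by
          intro h
          have h4 := hfin u (hNW hu) u' (hNW hu') h
          exact hne (by rw [h4])
        exact haYY (f u) (mem_image_of_mem f hu) (f u') (mem_image_of_mem f hu') h3 hxy
  · intro x hx hxW
    rw [hit, mem_union] at hx
    rcases hx with hx | hx
    · exact absurd hx hxW
    · rcases mem_insert.1 hx with hx | hx
      · rw [hx, hnv]
        exact haR
      · obtain ⟨u, hu, h1⟩ := mem_image.1 hx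
        rw [← h1, hnew u hu]
        exact (haY (f u) (mem_image_of_mem f hu)).1
  · have hsub : ((items par (insert v W)).image (val par (Function.update f v a))).filter
        (· ∈ R) ⊆ (((items par W).image (val par f)).filter (· ∈ R)) ∪
          insert a ((Nb.image f).image (dd a)) := by
      intro z hz
      obtain ⟨hz1, hz2⟩ := mem_filter.1 hz
      obtain ⟨x, hx, rfl⟩ := mem_image.1 hz1
      rw [hit, mem_union] at hx
      rcases hx with hx | hx
      · refine mem_union_left _ (mem_filter.2 ⟨?_, hz2⟩)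
        rw [hold x hx]
        exact mem_image_of_mem _ hx
      · refine mem_union_right _ ?_
        rcases mem_insert.1 hx with hx | hx
        · rw [hx, hnv]
          exact mem_insert_self _ _
        · obtain ⟨u, hu, h1⟩ := mem_image.1 hx
          rw [← h1, hnew u hu]
          exact mem_insert_of_mem (mem_image_of_mem _ (mem_image_of_mem f hu))
    refine (card_le_card hsub).trans ((card_union_le _ _).trans (Nat.add_le_add_left ?_ _))
    refine (card_insert_le _ _).trans (Nat.add_le_add_right ?_ 1)
    exact card_image_le.trans (by rw [hYc]; exact hdeg)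
  · rw [hf'v]
    exact hab

private theorem ltU_val {par f f' : ℕ → ℕ} {W : Finset ℕ} (h : ∀ i ∈ W, f' i = f i)
    {x : ℕ ⊕ ℕ} (hx : x ∈ items par W) : val par f' x = val par f x := by
  rcases x with i | i
  · rw [mem_items_inl] at hx
    rw [val_inl, val_inl, h i hx]
  · rw [mem_items_inr] at hx
    rw [val_inr, val_inr, h i hx.1, h _ hx.2.2]

/-- all the vertices of `T \ W` get labels in `R`, in increasing order; `c` bounds the number of children in
`W` of a vertex of `T \ W`; the parities `b` of the new labels are prescribed -/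
theorem lateU {c n N : ℕ} {par : ℕ → ℕ} {R : Finset ℕ} {l : ℝ} (hsel : Sel (c + 1) N R l)
    (hR : R ⊆ Icc 1 N) (hpar : IsPar n par) (b : ℕ → ℕ) (m : ℕ) :
    ∀ (T W : Finset ℕ) (f : ℕ → ℕ), (T \ W).card = m → W ⊆ T → T ⊆ range n →
      (∀ v ∈ T \ W, ((chs n par v).filter (· ∈ W)).card ≤ c) →
      Set.InjOn (val par f) (items par W) →
      (∀ x ∈ items par W, 1 ≤ val par f x ∧ val par f x ≤ N) →
      ((((items par W).image (val par f)).filter (· ∈ R)).card : ℝ) + (c + 2) * m ≤ l * N →
      ∃ f' : ℕ → ℕ, (∀ i ∈ W, f' i = f i) ∧ Set.InjOn (val par f') (items par T) ∧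
        (∀ x ∈ items par T, x ∉ items par W → val par f' x ∈ R) ∧
        ((((items par T).image (val par f')).filter (· ∈ R)).card : ℝ) ≤
          (((items par W).image (val par f)).filter (· ∈ R)).card + (c + 2) * m ∧
        ∀ v ∈ T \ W, f' v % 2 = b v % 2 := by
  classical
  induction m with
  | zero =>
    intro T W f hm hWT hT hch hinj hval hc
    have hTW : T = W := by
      rw [card_eq_zero, sdiff_eq_empty_iff_subset] at hm
      exact Subset.antisymm hm hWT
    subst hTW
    refine ⟨f, fun _ _ => rfl, hinj, fun x hx hx' => absurd hx hx', ?_, ?_⟩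
    · simp
    · intro v hv
      rw [sdiff_self] at hv
      exact absurd hv (notMem_empty v)
  | succ m ih =>
    intro T W f hm hWT hT hch hinj hval hc
    have hne : (T \ W).Nonempty := by
      rw [← card_pos, hm]
      exact Nat.succ_pos m
    obtain ⟨v, hv', hmin⟩ : ∃ v ∈ T \ W, ∀ u ∈ T \ W, v ≤ u :=
      ⟨(T \ W).min' hne, (T \ W).min'_mem hne, fun u hu => (T \ W).min'_le u hu⟩
    have hv := mem_sdiff.1 hv'
    have hvn : v < n := mem_range.mp (hT hv.1)
    have hmm : (0 : ℝ) ≤ (c + 2) * ((m + 1 : ℕ) : ℝ) := by positivity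
    have hwd : wdeg n par W v ≤ c + 1 := by
      unfold wdeg
      refine Nat.add_le_add (hch v hv') ?_
      split_ifs <;> omega
    obtain ⟨f1, h1, h2, h3, h4, h5⟩ := ext1U hsel hpar (hWT.trans hT) hvn hv.2 hwd
      hinj hval (by linarith) (b v)
    have h4' : ((((items par (insert v W)).image (val par f1)).filter (· ∈ R)).card : ℝ) ≤
        (((items par W).image (val par f)).filter (· ∈ R)).card + (c + 2) := by
      have h6 : ((((items par (insert v W)).image (val par f1)).filter (· ∈ R)).card : ℝ) ≤
          (((((items par W).image (val par f)).filter (· ∈ R)).card + (c + 1 + 1) : ℕ) : ℝ) := by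
        exact_mod_cast h4
      push_cast at h6
      linarith
    have hcard : (T \ insert v W).card = m := by
      have e1 : T \ insert v W = (T \ W).erase v := by
        ext x
        simp only [mem_sdiff, mem_insert, mem_erase, not_or]
        tauto
      rw [e1, card_erase_of_mem hv', hm, Nat.add_sub_cancel]
    have hval1 : ∀ x ∈ items par (insert v W), 1 ≤ val par f1 x ∧ val par f1 x ≤ N := by
      intro x hx
      by_cases hxW : x ∈ items par W
      · rw [ltU_val h1 hxW]
        exact hval x hxW
      · exact mem_Icc.mp (hR (h3 x hx hxW))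
    have hch1 : ∀ u ∈ T \ insert v W, ((chs n par u).filter (· ∈ insert v W)).card ≤ c := by
      intro u hu
      rw [mem_sdiff, mem_insert, not_or] at hu
      have hu' : u ∈ T \ W := mem_sdiff.2 ⟨hu.1, hu.2.2⟩
      have hvu := hmin u hu'
      have e1 : (chs n par u).filter (· ∈ insert v W) = (chs n par u).filter (· ∈ W) := by
        refine filter_congr fun x hx => ?_
        rw [mem_insert]
        constructor
        · rintro (h | h)
          · exfalso
            obtain ⟨g1, g2, g3⟩ := mem_chs.1 hx
            have g4 := hpar x g2 g1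
            rw [g3, h] at g4
            omega
          · exact h
        · exact fun h => Or.inr h
      rw [e1]
      exact hch u hu'
    obtain ⟨f', g1, g2, g3, g4, g5⟩ := ih T (insert v W) f1 hcard
      (insert_subset_iff.mpr ⟨hv.1, hWT⟩) hT hch1 h2 hval1 (by
        push_cast at hc
        linarith)
    refine ⟨f', fun i hi => ?_, g2, fun x hx hxW => ?_, ?_, fun u hu => ?_⟩
    · rw [g1 i (mem_insert_of_mem hi), h1 i hi]
    · by_cases hx' : x ∈ items par (insert v W)
      · rw [ltU_val g1 hx']
        exact h3 x hx' hxW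
      · exact g3 x hx hx'
    · push_cast
      linarith
    · by_cases huv : u = v
      · rw [huv, g1 v (mem_insert_self v W)]
        exact h5
      · refine g5 u (mem_sdiff.2 ⟨(mem_sdiff.1 hu).1, ?_⟩)
        rw [mem_insert, not_or]
        exact ⟨huv, (mem_sdiff.1 hu).2⟩

end SSB
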