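import Pool.Agent.Lib.MP_8a819d_co.BD.Defs

/-!
# MP_8a819d_co, uniformly integrable degrees: from the embedding theorem for a class of trees to the result

`EmbStatementC t Cl`: the embedding theorem for the parent arrays in the class `Cl` (a predicate on `n` and
the parent array). `SSP_ofC`: with the absorber theorem it gives `SSP`. (The proof is the one of `SSP_of`.)
-/

set_option autoImplicit false

namespace SSB

open Finset

/-- the embedding theorem for a class of parent arrays -/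
def EmbStatementC (t : ℕ) (Cl : ℕ → (ℕ → ℕ) → Prop) : Prop :=
  ∃ ε : ℝ, 0 < ε ∧ ∀ ζ : ℝ, 0 < ζ → ζ ≤ ε → ∀ β : ℝ, 0 < β → ∃ n₀ : ℕ, ∀ n : ℕ, n₀ ≤ n →
    ∃ R : Finset ℕ, (∀ x ∈ R, ζ * (2 * n - 1 : ℕ) < x ∧ x ≤ 2 * n - 1) ∧
      (R.card : ℝ) ≤ β * (2 * n - 1 : ℕ) ∧
      ∀ (A : Finset ℕ) (D : Finset (ℕ × ℕ)), AbsData t (2 * n - 1) R A D ε β →
        ∀ par : ℕ → ℕ, IsPar n par → Cl n par →
          n ≤ 4 * ((range n).filter (fun i => pdeg n par i = t)).card →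
          ∃ (Λ : Finset ℕ) (u : ℕ → ℕ × ℕ) (f : ℕ → ℕ),
            Λ ⊆ range n ∧
            (∀ v ∈ Λ, 1 ≤ v ∧ pdeg n par v = t ∧ par v ∉ Λ ∧ ∀ c ∈ chs n par v, c ∉ Λ) ∧
            Set.BijOn u Λ D ∧
            (∀ v ∈ Λ, insert (f (par v)) ((chs n par v).image f) = {(u v).1, (u v).2}) ∧
            Set.InjOn (val par f) (items par (range n \ Λ)) ∧
            (∀ x ∈ items par (range n \ Λ),
              1 ≤ val par f x ∧ val par f x ≤ 2 * n - 1 ∧ val par f x ∉ A) ∧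
            (t = 1 → (∑ x ∈ items par (range n \ Λ), val par f x + ∑ c ∈ labs D, c + n) % 2 = 0)

/-- the items which disappear with `v` -/
private def zfuX (n : ℕ) (par : ℕ → ℕ) (v : ℕ) : Finset (ℕ ⊕ ℕ) :=
  insert (Sum.inl v) (insert (Sum.inr v) ((chs n par v).image Sum.inr))

private theorem zfu_inl {n : ℕ} {par : ℕ → ℕ} {v i : ℕ} : Sum.inl i ∈ zfuX n par v ↔ i = v := by
  simp [zfuX]

private theorem zfu_inr {n : ℕ} {par : ℕ → ℕ} {v i : ℕ} :
    Sum.inr i ∈ zfuX n par v ↔ i = v ∨ i ∈ chs n par v := by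
  simp [zfuX]

private theorem zfu_card_X {n : ℕ} {par : ℕ → ℕ} (hpar : IsPar n par) {v : ℕ} (h1 : 1 ≤ v)
    (hv : v < n) : (zfuX n par v).card = pdeg n par v + 1 := by
  unfold zfuX pdeg
  rw [card_insert_of_notMem, card_insert_of_notMem, card_image_of_injective _ Sum.inr_injective,
    if_neg (by omega)]
  · intro h
    rw [mem_image] at h
    obtain ⟨c, hc, hcv⟩ := h
    have h2 : c = v := Sum.inr_injective hcv
    rw [h2] at hc
    have h3 := (mem_chs.1 hc).2.2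
    have h4 := hpar v h1 hv
    omega
  · simp

private theorem zfu_card_items {n : ℕ} {par : ℕ → ℕ} (hn : 1 ≤ n) (hpar : IsPar n par) :
    (items par (range n)).card = 2 * n - 1 := by
  unfold items
  rw [card_union_of_disjoint, card_image_of_injective _ Sum.inl_injective,
    card_image_of_injective _ Sum.inr_injective, card_range]
  · have h1 : (range n).filter (fun i => 1 ≤ i ∧ par i ∈ range n) = (range n).erase 0 := by
      ext i
      simp only [mem_filter, mem_range, mem_erase]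
      constructor
      · rintro ⟨h1, h2, -⟩
        exact ⟨by omega, h1⟩
      · rintro ⟨h1, h2⟩
        have h3 := hpar i (by omega) h2
        exact ⟨h2, by omega, by omega⟩
    rw [h1, card_erase_of_mem (mem_range.2 hn), card_range]
    omega
  · rw [disjoint_left]
    intro x hx hy
    rw [mem_image] at hx hy
    obtain ⟨i, -, rfl⟩ := hx
    obtain ⟨j, -, hj⟩ := hy
    exact absurd hj (by simp)

private theorem zfu_split {n : ℕ} {par : ℕ → ℕ} {Λ : Finset ℕ} {t : ℕ} (hpar : IsPar n par)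
    (hΛ : Λ ⊆ range n)
    (hv : ∀ v ∈ Λ, 1 ≤ v ∧ pdeg n par v = t ∧ par v ∉ Λ ∧ ∀ c ∈ chs n par v, c ∉ Λ) :
    items par (range n) = items par (range n \ Λ) ∪ Λ.biUnion (zfuX n par) := by
  ext x
  rw [mem_union, mem_biUnion]
  cases x with
  | inl i =>
    simp only [mem_items_inl, zfu_inl, mem_sdiff]
    constructor
    · intro h
      by_cases hi : i ∈ Λ
      · exact Or.inr ⟨i, hi, rfl⟩
      · exact Or.inl ⟨h, hi⟩
    · rintro (h | ⟨v, hvΛ, rfl⟩)
      · exact h.1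
      · exact hΛ hvΛ
  | inr i =>
    simp only [mem_items_inr, zfu_inr, mem_sdiff]
    constructor
    · rintro ⟨h1, h2, h3⟩
      by_cases hi : i ∈ Λ
      · exact Or.inr ⟨i, hi, Or.inl rfl⟩
      · by_cases hp : par i ∈ Λ
        · exact Or.inr ⟨par i, hp, Or.inr (mem_chs.2 ⟨mem_range.1 h1, h2, rfl⟩)⟩
        · exact Or.inl ⟨⟨h1, hi⟩, h2, h3, hp⟩
    · rintro (⟨⟨h1, -⟩, h2, h3, -⟩ | ⟨v, hvΛ, rfl | hc⟩)
      · exact ⟨h1, h2, h3⟩
      · have h4 := mem_range.1 (hΛ hvΛ)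
        have h5 := hpar i (hv i hvΛ).1 h4
        exact ⟨hΛ hvΛ, (hv i hvΛ).1, mem_range.2 (by omega)⟩
      · obtain ⟨h4, h5, h6⟩ := mem_chs.1 hc
        exact ⟨mem_range.2 h4, h5, by rw [h6]; exact hΛ hvΛ⟩

private theorem zfu_disj1 {n : ℕ} {par : ℕ → ℕ} {Λ : Finset ℕ} :
    Disjoint (items par (range n \ Λ)) (Λ.biUnion (zfuX n par)) := by
  rw [disjoint_left]
  intro x hx hy
  rw [mem_biUnion] at hy
  obtain ⟨v, hvΛ, hy⟩ := hy
  cases x with
  | inl i =>
    rw [mem_items_inl, mem_sdiff] at hx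
    rw [zfu_inl] at hy
    rw [hy] at hx
    exact hx.2 hvΛ
  | inr i =>
    rw [mem_items_inr, mem_sdiff, mem_sdiff] at hx
    rw [zfu_inr] at hy
    rcases hy with hy | hy
    · rw [hy] at hx
      exact hx.1.2 hvΛ
    · rw [(mem_chs.1 hy).2.2] at hx
      exact hx.2.2.2 hvΛ

private theorem zfu_disj2 {n : ℕ} {par : ℕ → ℕ} {Λ : Finset ℕ} {t : ℕ}
    (hv : ∀ v ∈ Λ, 1 ≤ v ∧ pdeg n par v = t ∧ par v ∉ Λ ∧ ∀ c ∈ chs n par v, c ∉ Λ) :
    ∀ v ∈ Λ, ∀ w ∈ Λ, v ≠ w → Disjoint (zfuX n par v) (zfuX n par w) := by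
  intro v hvΛ w hwΛ hne
  rw [disjoint_left]
  intro x hx hy
  cases x with
  | inl i =>
    rw [zfu_inl] at hx hy
    exact hne (hx.symm.trans hy)
  | inr i =>
    rw [zfu_inr] at hx hy
    rcases hx with hx | hx <;> rcases hy with hy | hy
    · exact hne (hx.symm.trans hy)
    · rw [hx] at hy
      exact (hv w hwΛ).2.2.2 v hy hvΛ
    · rw [hy] at hx
      exact (hv v hvΛ).2.2.2 w hx hwΛ
    · exact hne ((mem_chs.1 hx).2.2.symm.trans (mem_chs.1 hy).2.2)

private theorem zfu_count {n : ℕ} {par : ℕ → ℕ} {Λ : Finset ℕ} {t : ℕ} (hn : 1 ≤ n) (hpar : IsPar n par)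
    (hΛ : Λ ⊆ range n)
    (hv : ∀ v ∈ Λ, 1 ≤ v ∧ pdeg n par v = t ∧ par v ∉ Λ ∧ ∀ c ∈ chs n par v, c ∉ Λ) :
    (items par (range n \ Λ)).card + (t + 1) * Λ.card = 2 * n - 1 := by
  rw [← zfu_card_items hn hpar, zfu_split hpar hΛ hv, card_union_of_disjoint zfu_disj1,
    card_biUnion (fun v hvΛ w hwΛ hne => zfu_disj2 hv v hvΛ w hwΛ hne)]
  congr 1
  have h1 : ∀ v ∈ Λ, (zfuX n par v).card = t + 1 := by
    intro v hvΛ
    rw [zfu_card_X hpar (hv v hvΛ).1 (mem_range.1 (hΛ hvΛ)), (hv v hvΛ).2.1]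
  rw [Finset.sum_congr rfl h1, Finset.sum_const, smul_eq_mul, mul_comm]

/-- the labels of the items which disappear with `v` -/
private theorem zfu_image {n t : ℕ} {par f f' : ℕ → ℕ} {Λ : Finset ℕ} {v : ℕ} {d : ℕ × ℕ} {s : Finset ℕ}
    (hvΛ : v ∈ Λ)
    (hv : ∀ v ∈ Λ, 1 ≤ v ∧ pdeg n par v = t ∧ par v ∉ Λ ∧ ∀ c ∈ chs n par v, c ∉ Λ)
    (hf' : ∀ i, i ∉ Λ → f' i = f i)
    (hd : insert (f (par v)) ((chs n par v).image f) = {d.1, d.2})
    (hs : s = {f' v, dd (f' v) d.1, dd (f' v) d.2}) :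
    (zfuX n par v).image (val par f') = s := by
  have h1 : s = insert (f' v) (({d.1, d.2} : Finset ℕ).image (fun y => dd (f' v) y)) := by
    rw [hs, image_insert, image_singleton]
  rw [h1, ← hd]
  unfold zfuX
  rw [image_insert, image_insert, image_insert, image_image, image_image, val_inl, val_inr,
    hf' _ (hv v hvΛ).2.2.1]
  congr 2
  refine Finset.image_congr fun c hc => ?_
  have hc' : c ∈ chs n par v := hc
  show val par f' (Sum.inr c) = dd (f' v) (f c)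
  rw [val_inr, (mem_chs.1 hc').2.2, hf' c ((hv v hvΛ).2.2.2 c hc'), dd_comm]

/-- the absorber theorem and the embedding theorem for the class `Cl` give the result for `Cl` -/
theorem SSP_ofC (t : ℕ) (h1 : AbsStatement t) (Cl : ℕ → (ℕ → ℕ) → Prop)
    (h2 : EmbStatementC t Cl) :
    ∃ n₀ : ℕ, ∀ n : ℕ, n₀ ≤ n → ∀ par : ℕ → ℕ, IsPar n par → Cl n par →
      n ≤ 4 * ((range n).filter (fun i => pdeg n par i = t)).card → SSP n par := by
  obtain ⟨ε, hε, h2'⟩ := h2
  obtain ⟨ζ, hζ, hζε, β, hβ, N₀, h1'⟩ := h1 ε hε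
  obtain ⟨n₀, h2''⟩ := h2' ζ hζ hζε β hβ
  refine ⟨max (max n₀ N₀) 1, fun n hn par hpar hΔ hcard => ?_⟩
  have hn0 : n₀ ≤ n := (le_max_left _ _).trans ((le_max_left _ _).trans hn)
  have hnN : N₀ ≤ n := (le_max_right _ _).trans ((le_max_left _ _).trans hn)
  have hn1 : 1 ≤ n := (le_max_right _ _).trans hn
  obtain ⟨R, hR1, hR2, h3⟩ := h2'' n hn0
  obtain ⟨A, D, hAD, h4⟩ := h1' (2 * n - 1) (by omega) R hR1 hR2
  obtain ⟨Λ, u, f, hΛ, hv, hu, hnb, hinj, hval, hpty⟩ := h3 A D hAD par hpar hΔ hcard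
  obtain ⟨Us, hUs⟩ : ∃ Us : Finset ℕ, Us = (items par (range n \ Λ)).image (val par f) := ⟨_, rfl⟩
  obtain ⟨J, hJ⟩ : ∃ J : Finset ℕ, J = Icc 1 (2 * n - 1) \ (A ∪ Us) := ⟨_, rfl⟩
  have hUsI : Us ⊆ Icc 1 (2 * n - 1) := by
    intro y hy
    rw [hUs, mem_image] at hy
    obtain ⟨x, hx, rfl⟩ := hy
    exact mem_Icc.2 ⟨(hval x hx).1, (hval x hx).2.1⟩
  have hAUs : Disjoint A Us := by
    rw [disjoint_left]
    intro y hyA hy
    rw [hUs, mem_image] at hy
    obtain ⟨x, hx, rfl⟩ := hy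
    exact (hval x hx).2.2 hyA
  have hAI : A ⊆ Icc 1 (2 * n - 1) := hAD.A_sub
  have hAUI : A ∪ Us ⊆ Icc 1 (2 * n - 1) := union_subset hAI hUsI
  have hJI : J ⊆ Icc 1 (2 * n - 1) := by
    rw [hJ]
    exact sdiff_subset
  have hJA : Disjoint J A := by
    rw [disjoint_left]
    intro y hy hyA
    rw [hJ, mem_sdiff] at hy
    exact hy.2 (mem_union_left _ hyA)
  have hJU : Disjoint J Us := by
    rw [disjoint_left]
    intro y hy hyU
    rw [hJ, mem_sdiff] at hy
    exact hy.2 (mem_union_right _ hyU)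
  have hparT : ∀ v ∈ Λ, par v ∈ range n \ Λ := by
    intro v hvΛ
    have h5 := mem_range.1 (hΛ hvΛ)
    have h6 := hpar v (hv v hvΛ).1 h5
    exact mem_sdiff.2 ⟨mem_range.2 (by omega), (hv v hvΛ).2.2.1⟩
  have hlabs : labs D ⊆ Us := by
    intro y hy
    rw [mem_labs] at hy
    obtain ⟨d, hd, hyd⟩ := hy
    obtain ⟨v, hvΛ, rfl⟩ := hu.surjOn hd
    have hvΛ' : v ∈ Λ := hvΛ
    have h5 : y ∈ insert (f (par v)) ((chs n par v).image f) := by
      rw [hnb v hvΛ', mem_insert, mem_singleton]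
      exact hyd
    rw [hUs, mem_image]
    rw [mem_insert, mem_image] at h5
    rcases h5 with h5 | ⟨c, hc, h5⟩
    · exact ⟨Sum.inl (par v), mem_items_inl.2 (hparT v hvΛ'), h5.symm⟩
    · refine ⟨Sum.inl c, mem_items_inl.2 (mem_sdiff.2 ⟨mem_range.2 (mem_chs.1 hc).1,
        (hv v hvΛ').2.2.2 c hc⟩), h5⟩
  have hJL : Disjoint J (labs D) := disjoint_of_subset_right hlabs hJU
  -- cardinalities
  have hcardU : Us.card = (items par (range n \ Λ)).card := by
    rw [hUs]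
    exact card_image_of_injOn hinj
  have hcount := zfu_count hn1 hpar hΛ hv
  have hDΛ : D.card = Λ.card := by
    have h5 : D = Λ.image u := by
      have h6 := hu.image_eq
      rw [← coe_image] at h6
      exact (Finset.coe_injective h6).symm
    rw [h5]
    exact card_image_of_injOn hu.injOn
  have hcardAU : (A ∪ Us).card = A.card + Us.card := card_union_of_disjoint hAUs
  have hcardJ : J.card = (2 * n - 1) - (A ∪ Us).card := by
    rw [hJ, card_sdiff_of_subset hAUI, Nat.card_Icc]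
    omega
  have hcardle : (A ∪ Us).card ≤ 2 * n - 1 := by
    have h5 := card_le_card hAUI
    rwa [Nat.card_Icc, Nat.add_sub_cancel] at h5
  have hJcard : J.card + A.card = (t + 1) * D.card := by
    rw [hDΛ]
    omega
  have hparity : t = 1 → (∑ x ∈ A, x + ∑ x ∈ J, x + ∑ x ∈ labs D, x) % 2 = 0 := by
    intro ht1
    have h5 := hpty ht1
    have h6 : ∑ x ∈ items par (range n \ Λ), val par f x = ∑ y ∈ Us, y := by
      rw [hUs, Finset.sum_image hinj]
    rw [h6] at h5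
    have h7 : ∑ y ∈ J, y + ∑ y ∈ A ∪ Us, y = ∑ y ∈ Icc 1 (2 * n - 1), y := by
      rw [hJ]
      exact Finset.sum_sdiff hAUI
    rw [Finset.sum_union hAUs] at h7
    have h8 : ∑ y ∈ Icc 1 (2 * n - 1), y = n * (2 * n - 1) := by
      have h9 : (∑ y ∈ range (2 * n), y) * 2 = 2 * n * (2 * n - 1) := Finset.sum_range_id_mul_two _
      have h10 : ∑ y ∈ range (2 * n), y = ∑ y ∈ Icc 1 (2 * n - 1), y := by
        rw [← Finset.sum_subset (s₁ := Icc 1 (2 * n - 1)) (s₂ := range (2 * n))]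
        · intro y hy
          rw [mem_Icc] at hy
          exact mem_range.2 (by omega)
        · intro y hy hy'
          rw [mem_range] at hy
          rw [mem_Icc] at hy'
          omega
      rw [h10] at h9
      have h11 : 2 * n * (2 * n - 1) = n * (2 * n - 1) * 2 := by ring
      rw [h11] at h9
      exact Nat.eq_of_mul_eq_mul_right (by norm_num) h9
    have h12 : n * (2 * n - 1) % 2 = n % 2 := by
      obtain ⟨k, hk⟩ : ∃ k, 2 * n - 1 = 2 * k + 1 := ⟨n - 1, by omega⟩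
      rw [hk, Nat.mul_mod]
      have h13 : (2 * k + 1) % 2 = 1 := by omega
      rw [h13, mul_one, Nat.mod_mod]
    omega
  obtain ⟨b, hb1, hb2, hb3⟩ := h4 J hJI hJA hJL hJcard hparity
  -- the new labels
  have hb1' : ∀ v ∈ Λ, ∃ a, b (u v) = {a, dd a (u v).1, dd a (u v).2} := by
    intro v hvΛ
    obtain ⟨a, ha, -⟩ := hb1 (u v) (hu.mapsTo hvΛ)
    exact ⟨a, ha⟩
  choose! av hav using hb1'
  classical
  obtain ⟨f', hf'⟩ : ∃ f' : ℕ → ℕ, f' = fun i => if i ∈ Λ then av i else f i := ⟨_, rfl⟩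
  have hf'1 : ∀ i, i ∉ Λ → f' i = f i := by
    intro i hi
    rw [hf']
    exact if_neg hi
  have hf'2 : ∀ i, i ∈ Λ → f' i = av i := by
    intro i hi
    rw [hf']
    exact if_pos hi
  have hX : ∀ v ∈ Λ, (zfuX n par v).image (val par f') = b (u v) := by
    intro v hvΛ
    refine zfu_image hvΛ hv hf'1 (hnb v hvΛ) ?_
    rw [hf'2 v hvΛ]
    exact hav v hvΛ
  have hXinj : ∀ v ∈ Λ, Set.InjOn (val par f') (zfuX n par v) := by
    intro v hvΛ
    rw [← card_image_iff, hX v hvΛ, zfu_card_X hpar (hv v hvΛ).1 (mem_range.1 (hΛ hvΛ)),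
      (hv v hvΛ).2.1]
    obtain ⟨a, -, -, h5⟩ := hb1 (u v) (hu.mapsTo hvΛ)
    exact h5
  have hT : ∀ x ∈ items par (range n \ Λ), val par f' x = val par f x := by
    intro x hx
    cases x with
    | inl i =>
      rw [mem_items_inl, mem_sdiff] at hx
      rw [val_inl, val_inl, hf'1 i hx.2]
    | inr i =>
      rw [mem_items_inr, mem_sdiff, mem_sdiff] at hx
      rw [val_inr, val_inr, hf'1 i hx.1.2, hf'1 _ hx.2.2.2]
  have hTU : ∀ x ∈ items par (range n \ Λ), val par f' x ∈ Us := by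
    intro x hx
    rw [hT x hx, hUs]
    exact mem_image_of_mem _ hx
  have hXb : ∀ v ∈ Λ, ∀ x ∈ zfuX n par v, val par f' x ∈ b (u v) := by
    intro v hvΛ x hx
    rw [← hX v hvΛ]
    exact mem_image_of_mem _ hx
  have hbAJ : ∀ v ∈ Λ, b (u v) ⊆ A ∪ J := by
    intro v hvΛ
    rw [← hb3]
    exact subset_biUnion_of_mem b (hu.mapsTo hvΛ)
  have hbU : ∀ v ∈ Λ, Disjoint (b (u v)) Us := by
    intro v hvΛ
    refine disjoint_of_subset_left (hbAJ v hvΛ) ?_
    rw [disjoint_union_left]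
    exact ⟨hAUs, hJU⟩
  refine ⟨f', ?_, ?_⟩
  · intro x hx y hy hxy
    rw [zfu_split hpar hΛ hv, mem_coe, mem_union, mem_biUnion] at hx hy
    rcases hx with hx | ⟨v, hvΛ, hx⟩ <;> rcases hy with hy | ⟨w, hwΛ, hy⟩
    · rw [hT x hx, hT y hy] at hxy
      exact hinj hx hy hxy
    · exfalso
      have h5 := hTU x hx
      rw [hxy] at h5
      exact (disjoint_left.1 (hbU w hwΛ)) (hXb w hwΛ y hy) h5
    · exfalso
      have h5 := hTU y hy
      rw [← hxy] at h5
      exact (disjoint_left.1 (hbU v hvΛ)) (hXb v hvΛ x hx) h5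
    · by_cases hvw : v = w
      · subst hvw
        exact hXinj v hvΛ hx hy hxy
      · exfalso
        have h5 : u v ≠ u w := fun h => hvw (hu.injOn hvΛ hwΛ h)
        have h6 := hb2 (u v) (hu.mapsTo hvΛ) (u w) (hu.mapsTo hwΛ) h5
        have h7 := hXb v hvΛ x hx
        rw [hxy] at h7
        exact (disjoint_left.1 h6) h7 (hXb w hwΛ y hy)
  · intro x hx
    have h5 : val par f' x ∈ Icc 1 (2 * n - 1) := by
      rw [zfu_split hpar hΛ hv, mem_union, mem_biUnion] at hx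
      rcases hx with hx | ⟨v, hvΛ, hx⟩
      · exact hUsI (hTU x hx)
      · exact (union_subset hAI hJI) (hbAJ v hvΛ (hXb v hvΛ x hx))
    exact mem_Icc.1 h5

end SSB
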