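import Pool.Agent.Lib.MP_8a819d_co.UI.EmU
import Pool.Agent.Lib.MP_8a819d_co.UI.EmP
import Pool.Agent.Lib.MP_8a819d_co.UI.LtU
import Pool.Agent.Lib.MP_8a819d_co.UI.SspU
import Pool.Agent.Lib.MP_8a819d_co.BD.Em5

/-!
# MP_8a819d_co, uniformly integrable degrees: the embedding theorem

The separator is numbered first, in increasing order (`lateU`), then the pieces (`emb_coreU`), then the remaining vertices, again in
increasing order (`lateU`). All the parities of the labels of the separator and of the remaining vertices are prescribed; if `t = 1` one of them is chosen so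
that the sum of the labels of the vertices of even degree is right (`parity_gen`), and if there is no such vertex `parity_odd` applies.
-/

set_option autoImplicit false

namespace SSB

open Finset

private theorem emf_val {par : ℕ → ℕ} {W : Finset ℕ} {f f' : ℕ → ℕ} (h : ∀ i ∈ W, f' i = f i)
    {x : ℕ ⊕ ℕ} (hx : x ∈ items par W) : val par f' x = val par f x := by
  rcases x with i | i
  · rw [mem_items_inl] at hx
    exact h i hx
  · rw [mem_items_inr] at hx
    rw [val_inr, val_inr, h i hx.1, h _ hx.2.2]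

private theorem emf_bij {D : Finset (ℕ × ℕ)} (hU : UnitOK 1 D) :
    Set.BijOn (fun d : ℕ × ℕ => d.1) (D : Set (ℕ × ℕ)) (labs D : Finset ℕ) := by
  have h1 := hU.1 rfl
  refine ⟨fun d hd => ?_, fun d hd d' hd' h => ?_, fun x hx => ?_⟩
  · exact mem_coe.2 (mem_labs.2 ⟨d, mem_coe.1 hd, Or.inl rfl⟩)
  · have h2 := h1 d (mem_coe.1 hd)
    have h3 := h1 d' (mem_coe.1 hd')
    have h4 : d.1 = d'.1 := h
    exact Prod.ext h4 (by rw [← h2, ← h3, h4])
  · obtain ⟨d, hd, h2⟩ := mem_labs.1 (mem_coe.1 hx)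
    refine ⟨d, mem_coe.2 hd, ?_⟩
    have h3 := h1 d hd
    rcases h2 with h2 | h2
    · exact h2.symm
    · exact h3.trans h2.symm

private theorem emf_items {par : ℕ → ℕ} (W : Finset ℕ) : (items par W).card ≤ 2 * W.card := by
  unfold items
  refine (card_union_le _ _).trans ?_
  have h1 : (W.image (Sum.inl : ℕ → ℕ ⊕ ℕ)).card ≤ W.card := card_image_le
  have h2 : ((W.filter (fun i => 1 ≤ i ∧ par i ∈ W)).image (Sum.inr : ℕ → ℕ ⊕ ℕ)).card ≤ W.card :=
    card_image_le.trans (card_filter_le _ _)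
  omega

/-- a sum of labels of which all but one are even -/
private theorem emf_sum {E : Finset ℕ} {w m : ℕ} (hw : w ∈ E) {f : ℕ → ℕ}
    (hf : ∀ u ∈ E, f u % 2 = (if u = w then m else 0) % 2) : (∑ u ∈ E, f u) % 2 = m % 2 := by
  rw [Finset.sum_nat_mod, sum_congr rfl hf, ← Finset.sum_nat_mod, sum_ite_eq' E w (fun _ => m),
    if_pos hw]

theorem embU (t : ℕ) (ht : t = 1 ∨ t = 2) (h : ℕ → ℕ) :
    EmbStatementC t (fun n par => UIc n par h) := by
  classical
  obtain ⟨εc, hεc, hcore⟩ := emb_coreU t ht h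
  refine ⟨min εc (1 / 64), lt_min hεc (by norm_num), ?_⟩
  intro ζ hζ hζε β hβ
  have hζ1 : ζ * (16 * (((3 : ℕ) : ℝ) + 1)) ≤ 1 := by
    have h1 : ζ ≤ 1 / 64 := hζε.trans (min_le_right _ _)
    push_cast
    linarith
  obtain ⟨q, hq⟩ := primes_exist 3 (min β εc) (lt_min hβ hεc)
  obtain ⟨l, hl, N₁, hsel⟩ := select hq hζ hζ1
  obtain ⟨n₁, hcore⟩ := hcore β hβ (l / 16) (by positivity)
  refine ⟨max (max n₁ N₁) 1, fun n hn => ?_⟩
  have hn1 : n₁ ≤ n := le_trans (le_trans (le_max_left _ _) (le_max_left _ _)) hn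
  have hN1 : N₁ ≤ n := le_trans (le_trans (le_max_right _ _) (le_max_left _ _)) hn
  have hn0 : 1 ≤ n := le_trans (le_max_right _ _) hn
  obtain ⟨R, hRdef⟩ : ∃ R : Finset ℕ, R = rsv 3 q ζ (2 * n - 1) := ⟨_, rfl⟩
  have hs : Sel 3 (2 * n - 1) R l := by
    rw [hRdef]
    exact hsel (2 * n - 1) (by omega)
  have hR1 : ∀ x ∈ R, ζ * (2 * n - 1 : ℕ) < x ∧ x ≤ 2 * n - 1 := by
    intro x hx
    rw [hRdef, rsv, mem_filter, mem_Icc] at hx
    exact ⟨hx.2.1, hx.1.2⟩
  have hR2 : (R.card : ℝ) ≤ min β εc * (2 * n - 1 : ℕ) := by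
    rw [hRdef]
    exact rsv_card hq ζ _
  have hN0 : (0 : ℝ) ≤ ((2 * n - 1 : ℕ) : ℝ) := Nat.cast_nonneg _
  have hRβ : (R.card : ℝ) ≤ β * ((2 * n - 1 : ℕ) : ℝ) :=
    hR2.trans (mul_le_mul_of_nonneg_right (min_le_left _ _) hN0)
  have hRε : (R.card : ℝ) ≤ εc * ((2 * n - 1 : ℕ) : ℝ) :=
    hR2.trans (mul_le_mul_of_nonneg_right (min_le_right _ _) hN0)
  refine ⟨R, hR1, hRβ, ?_⟩
  intro A D hAbs par hpar hui hcnt
  have hRI : R ⊆ Icc 1 (2 * n - 1) := by
    rw [hRdef]
    exact filter_subset _ _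
  have hAbs' : AbsData t (2 * n - 1) R A D εc β :=
    { A_sub := hAbs.A_sub
      D_sub := hAbs.D_sub
      AD := hAbs.AD
      AR := hAbs.AR
      DR := hAbs.DR
      unit := hAbs.unit
      A_le := hAbs.A_le.trans (mul_le_mul_of_nonneg_right (min_le_left _ _) hN0)
      D_le := hAbs.D_le.trans (mul_le_mul_of_nonneg_right (min_le_left _ _) hN0)
      gap := hAbs.gap }
  obtain ⟨S, ty, hTy, hsep, hSl, hcore⟩ := hcore n hn1 R A D hRI hRε hRβ hAbs' par hpar hui hcnt
  obtain ⟨N, hN⟩ : ∃ N : ℕ, N = 2 * n - 1 := ⟨_, rfl⟩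
  rw [← hN] at hs hR1 hRI hAbs' hAbs hSl hcore hN0 ⊢
  have hlN : 0 ≤ l * N := by positivity
  -- the vertices of even degree
  obtain ⟨E, hE⟩ : ∃ E : Finset ℕ, E = evn n par := ⟨_, rfl⟩
  have hEn : ∀ u ∈ E, u < n ∧ pdeg n par u % 2 = 0 := fun u hu => by
    rw [hE] at hu
    exact mem_evn.1 hu
  obtain ⟨w₀, v₀, hv₀, hcase⟩ : ∃ (w₀ v₀ : ℕ), v₀ < n ∧
      (E = ∅ ∨ (E ⊆ S ∧ w₀ ∈ E) ∨ (v₀ ∈ E ∧ v₀ ∉ S)) := by
    by_cases hES : E ⊆ S
    · rcases E.eq_empty_or_nonempty with h1 | ⟨w, hw⟩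
      · exact ⟨0, 0, by omega, Or.inl h1⟩
      · exact ⟨w, 0, by omega, Or.inr (Or.inl ⟨hES, hw⟩)⟩
    · rw [not_subset] at hES
      obtain ⟨v, hv, hvS⟩ := hES
      exact ⟨0, v, (hEn v hv).1, Or.inr (Or.inr ⟨hv, hvS⟩)⟩
  -- the separator
  have hie : items par (∅ : Finset ℕ) = ∅ := by
    unfold items
    simp
  obtain ⟨g, -, hg1, hg2, -, hg3⟩ := lateU (c := 2) hs hRI hpar (fun v => if v = w₀ then n else 0)
    (S \ ∅).card S ∅ (fun _ => 0) rfl (empty_subset _) hsep.sub
    (fun v _ => by simp) (by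
      rw [hie]
      simp) (by
      rw [hie]
      simp) (by
      rw [hie, image_empty, filter_empty, card_empty, sdiff_empty]
      push_cast
      linarith)
  rw [sdiff_empty] at hg3
  have hg2' : ∀ x ∈ items par S, val par g x ∈ R := fun x hx => hg2 x hx (by
    rw [hie]
    exact notMem_empty x)
  obtain ⟨f, W, Λ, hΛ, hdisj, hWn, hSW, hfS, hv₀W, hinj, hval, hnb, hbij, hins, hcard, hch⟩ :=
    hcore g hg1 hg2' v₀ hv₀
  have hWT : W ⊆ range n \ Λ := by
    intro x hx
    rw [mem_sdiff]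
    exact ⟨hWn hx, fun h => disjoint_left.1 hdisj hx h⟩
  have hTn : range n \ Λ ⊆ range n := sdiff_subset
  have hused : (((items par W).image (val par f)).filter (· ∈ R)).card ≤ 2 * S.card := by
    have h1 : ((items par W).image (val par f)).filter (· ∈ R) ⊆
        (items par S).image (val par f) := by
      intro z hz
      obtain ⟨hz1, hz2⟩ := mem_filter.1 hz
      obtain ⟨x, hx, rfl⟩ := mem_image.1 hz1
      exact mem_image_of_mem _ ((hval x hx).2.2.2 hz2)
    exact (card_le_card h1).trans (card_image_le.trans (emf_items S))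
  -- the remaining vertices
  obtain ⟨f', hf'1, hf'2, hf'3, -, hf'4⟩ := lateU (c := 2) hs hRI hpar
    (fun v => if v = v₀ then n + ∑ u ∈ E.filter (· ∈ W), f u else 0)
    ((range n \ Λ) \ W).card (range n \ Λ) W f rfl hWT hTn
    (fun v hv => by
      rw [mem_sdiff, mem_sdiff, mem_range] at hv
      exact hch v hv.1.1 hv.2 hv.1.2) hinj
    (fun x hx => ⟨(hval x hx).1, (hval x hx).2.1⟩) (by
      have h1 : (((((items par W).image (val par f)).filter (· ∈ R)).card : ℕ) : ℝ) ≤
          2 * (S.card : ℝ) := by exact_mod_cast hused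
      push_cast
      linarith)
  have hΛn : Λ ⊆ range n := fun v hv => mem_range.2 (hΛ v hv).1
  have hU1 : ∀ v ∈ Λ, 1 ≤ v ∧ pdeg n par v = t := fun v hv => by
    have := hTy.U1 v (hΛ v hv).1 (hΛ v hv).2
    exact ⟨this.1, this.2.2.1⟩
  -- parity
  have hpty : t = 1 → (∑ x ∈ items par (range n \ Λ), val par f' x + ∑ c ∈ labs D, c + n) % 2 = 0 := by
    intro ht1
    have hchs : ∀ v ∈ Λ, 1 ≤ v ∧ chs n par v = ∅ := by
      intro v hv
      obtain ⟨h4, h5⟩ := hU1 v hv
      refine ⟨h4, ?_⟩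
      unfold pdeg at h5
      rw [if_neg (by omega : ¬ v = 0)] at h5
      exact card_eq_zero.1 (by omega)
    have hUn : UnitOK 1 D := ht1 ▸ hAbs.unit
    have hb1 : Set.BijOn (fun v => (unitOf D (f (par v))).1) (Λ : Set ℕ) (labs D : Finset ℕ) :=
      (emf_bij hUn).comp hbij
    have hb2 : Set.BijOn (fun v => f' (par v)) (Λ : Set ℕ) (labs D : Finset ℕ) := by
      refine hb1.congr fun v hv => ?_
      have hvΛ := mem_coe.1 hv
      have h5 := hins v hvΛ
      rw [(hchs v hvΛ).2, image_empty] at h5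
      have h6 : (unitOf D (f (par v))).1 ∈
          ({(unitOf D (f (par v))).1, (unitOf D (f (par v))).2} : Finset ℕ) := by
        simp
      rw [← h5] at h6
      have h7 : (unitOf D (f (par v))).1 = f (par v) := by simpa using h6
      show (unitOf D (f (par v))).1 = f' (par v)
      rw [h7, hf'1 _ (hnb v hvΛ).1]
    by_cases hE0 : E = ∅
    · refine parity_odd hpar hn0 (fun i hi => ?_) hΛn hchs hb2
      by_contra hc
      have h1 : i ∈ E := by
        rw [hE]
        exact mem_evn.2 ⟨hi, by omega⟩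
      rw [hE0] at h1
      exact absurd h1 (notMem_empty i)
    · have hpg := parity_gen hpar hΛn hchs hb2
      rw [← hE] at hpg
      have hkey : (∑ u ∈ E, f' u) % 2 = n % 2 := by
        rcases hcase with h1 | ⟨h1, h2⟩ | ⟨h1, h2⟩
        · exact absurd h1 hE0
        · refine emf_sum h2 fun u hu => ?_
          rw [hf'1 u (hSW (h1 hu)), hfS u (h1 hu)]
          exact hg3 u (h1 hu)
        · have h3 : v₀ ∉ W ∧ v₀ ∉ Λ := hv₀W h2
          have h4 : (∑ u ∈ E.filter (fun u => ¬ u ∈ W), f' u) % 2 =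
              (n + ∑ u ∈ E.filter (· ∈ W), f u) % 2 := by
            refine emf_sum (mem_filter.2 ⟨h1, h3.1⟩) fun u hu => ?_
            obtain ⟨hu1, hu2⟩ := mem_filter.1 hu
            refine hf'4 u ?_
            rw [mem_sdiff, mem_sdiff, mem_range]
            refine ⟨⟨(hEn u hu1).1, fun hc => ?_⟩, hu2⟩
            have h5 := (hU1 u hc).2
            have h6 := (hEn u hu1).2
            omega
          have h5 : ∑ u ∈ E.filter (· ∈ W), f' u = ∑ u ∈ E.filter (· ∈ W), f u :=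
            sum_congr rfl fun u hu => hf'1 u (mem_filter.1 hu).2
          have h6 := sum_filter_add_sum_filter_not E (· ∈ W) f'
          rw [← h6, h5]
          omega
      omega
  refine ⟨Λ, fun v => unitOf D (f' (par v)), f', hΛn, ?_, ?_, ?_, hf'2, ?_, hpty⟩
  · intro v hv
    refine ⟨(hU1 v hv).1, (hU1 v hv).2, fun hc => disjoint_left.1 hdisj (hnb v hv).1 hc,
      fun c hc hc' => disjoint_left.1 hdisj ((hnb v hv).2 c hc) hc'⟩
  · refine hbij.congr fun v hv => ?_
    show unitOf D (f (par v)) = unitOf D (f' (par v))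
    rw [hf'1 _ (hnb v (mem_coe.1 hv)).1]
  · intro v hv
    have h1 : f' (par v) = f (par v) := hf'1 _ (hnb v hv).1
    have h2 : (chs n par v).image f' = (chs n par v).image f :=
      image_congr fun c hc => hf'1 c ((hnb v hv).2 c (mem_coe.1 hc))
    show insert (f' (par v)) ((chs n par v).image f') =
      {(unitOf D (f' (par v))).1, (unitOf D (f' (par v))).2}
    rw [h1, h2]
    exact hins v hv
  · intro x hx
    by_cases hxW : x ∈ items par W
    · rw [emf_val hf'1 hxW]
      exact ⟨(hval x hxW).1, (hval x hxW).2.1, (hval x hxW).2.2.1⟩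
    · have h1 := hf'3 x hx hxW
      have h2 := mem_Icc.1 (hRI h1)
      exact ⟨h2.1, h2.2, fun hc => disjoint_left.1 hAbs.AR hc h1⟩

end SSB
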