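import Pool.Agent.Lib.MP_8a819d_co.UI.DcB
import Pool.Agent.Lib.MP_8a819d_co.BD.Em3

/-!
# MP_8a819d_co, uniformly integrable degrees: gluing the numberings of the pieces and of `S`

`Gl` is the data of `BD/Em3.lean` for the pieces; `g` is a numbering of `S`. The numbering `fB` is `g` on `S` and `fG` elsewhere.
The items of `WG ∪ S` are the items of `WG`, the items of `S` and the edges between `S` and the boundary vertices of the
covered pieces.
-/

set_option autoImplicit false

namespace SSB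

open Finset

variable {n t np N D₀ : ℕ} {par : ℕ → ℕ} {S : Finset ℕ} {ty : ℕ → Ty} {pc : Fin np → Piece}
  {emb : (p : Fin np) → Fin ((pc p).k + 1) → ℕ} {Q L : Finset ℕ} {rp prt : ℕ → ℕ}
  {M H : Finset (Fin np)} {φ : (p : Fin np) → Fin ((pc p).k + 1) → ℕ} {hv hr : Fin np → ℕ}
  {g : ℕ → ℕ}

structure GlB (n t np N D₀ : ℕ) (par : ℕ → ℕ) (S : Finset ℕ) (ty : ℕ → Ty) (pc : Fin np → Piece)
    (emb : (p : Fin np) → Fin ((pc p).k + 1) → ℕ) (Q L : Finset ℕ) (rp prt : ℕ → ℕ)
    (M H : Finset (Fin np)) (φ : (p : Fin np) → Fin ((pc p).k + 1) → ℕ) (hv hr : Fin np → ℕ)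
    (g : ℕ → ℕ) : Prop where
  gl : Gl n t np N par S ty pc emb Q L rp prt M H φ hv hr
  sep : SepOK n par S
  tyb : TyB n par t D₀ S ty
  vb : ∀ p ∈ M, (pc p).ValidB Q L rp prt (bdc par S emb g p) (φ p)
  db : ∀ p ∈ M, ∀ q ∈ M, p ≠ q → Disjoint ((pc p).usedB Q rp (bdc par S emb g p) (φ p))
    ((pc q).usedB Q rp (bdc par S emb g q) (φ q))
  g_inj : Set.InjOn (val par g) (items par S)
  g_val : ∀ x ∈ items par S, val par g x ∉ Q ∧ val par g x ∉ L

open Classical in
/-- the glued numbering -/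
noncomputable def fB (n : ℕ) (par : ℕ → ℕ) (S : Finset ℕ)
    (emb : (p : Fin np) → Fin ((pc p).k + 1) → ℕ) (prt : ℕ → ℕ)
    (M H : Finset (Fin np)) (φ : (p : Fin np) → Fin ((pc p).k + 1) → ℕ) (hv hr : Fin np → ℕ)
    (g : ℕ → ℕ) (v : ℕ) : ℕ :=
  if v ∈ S then g v else fG n par emb prt M H φ hv hr v

private theorem emg_vx (h : Gl n t np N par S ty pc emb Q L rp prt M H φ hv hr) {v : ℕ}
    (hvW : v ∈ WG n par ty emb L prt M H φ hv hr) : v < n ∧ v ∉ S ∧
      ((∃ p ∈ M, ∃ i, v = emb p i) ∨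
      (∃ q ∈ H, v ∈ vx emb q ∧ ty v = Ty.P ∧ (v = par (hv q) ∨ v ∈ chs n par (hv q)))) := by
  unfold WG at hvW
  rw [Finset.mem_sdiff, Finset.mem_union, Finset.mem_union] at hvW
  rcases hvW.1 with (h1 | h1) | h1
  · obtain ⟨p, hp, hvp⟩ := Finset.mem_biUnion.1 h1
    obtain ⟨i, _, hi⟩ := Finset.mem_image.1 hvp
    rw [← hi]
    exact ⟨h.deco.emb_lt p i, h.deco.emb_S p i, Or.inl ⟨p, hp, i, rfl⟩⟩
  · obtain ⟨q, hq, rfl⟩ := Finset.mem_image.1 h1
    obtain ⟨hq1, hq2⟩ := h.hv_mem q hq
    obtain ⟨h2, h3, h4, _⟩ := vx_nb h hq1 hq2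
    have h5 := h.deco.tyok.U1 _ h2 hq2
    have h6 := h.hpar _ h3 h2
    exact ⟨by omega, h5.2.2.2.1, Or.inr ⟨q, hq, h4, h5.2.2.2.2.1, Or.inl rfl⟩⟩
  · obtain ⟨q, hq, hc⟩ := Finset.mem_biUnion.1 h1
    obtain ⟨hq1, hq2⟩ := h.hv_mem q hq
    obtain ⟨h2, _, _, h4⟩ := vx_nb h hq1 hq2
    have h5 := (h.deco.tyok.U1 _ h2 hq2).2.2.2.2.2 v hc
    exact ⟨(mem_chs.1 hc).1, h5.1, Or.inr ⟨q, hq, (h4 v hc).1, (h4 v hc).2, Or.inr hc⟩⟩

private theorem emg_fS {v : ℕ} (hv' : v ∈ S) : fB n par S emb prt M H φ hv hr g v = g v := by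
  unfold fB
  rw [if_pos hv']

private theorem emg_fW {v : ℕ} (hv' : v ∉ S) :
    fB n par S emb prt M H φ hv hr g v = fG n par emb prt M H φ hv hr v := by
  unfold fB
  rw [if_neg hv']

/-- the cross edge at the vertex `i` of the piece `p` -/
private def crs (par : ℕ → ℕ) (S : Finset ℕ) (emb : (p : Fin np) → Fin ((pc p).k + 1) → ℕ)
    (p : Fin np) (i : Fin ((pc p).k + 1)) (x : ℕ ⊕ ℕ) : Prop :=
  ∃ s, bdv par S emb p i = some s ∧ x = if i = 0 then Sum.inr (emb p 0) else Sum.inr s

private theorem emg_crs {p : Fin np} {i : Fin ((pc p).k + 1)} {x y : ℕ ⊕ ℕ}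
    (hx : crs par S emb p i x) (hy : crs par S emb p i y) : x = y := by
  obtain ⟨s, h1, h2⟩ := hx
  obtain ⟨s', h3, h4⟩ := hy
  rw [h1] at h3
  rw [h2, h4, Option.some.inj h3]

/-- the items of `WG ∪ S` -/
private theorem emg_cases (h : GlB n t np N D₀ par S ty pc emb Q L rp prt M H φ hv hr g) {x : ℕ ⊕ ℕ}
    (hx : x ∈ items par (WG n par ty emb L prt M H φ hv hr ∪ S)) :
    (x ∈ items par (WG n par ty emb L prt M H φ hv hr) ∧
      val par (fB n par S emb prt M H φ hv hr g) x = val par (fG n par emb prt M H φ hv hr) x) ∨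
    (x ∈ items par S ∧ val par (fB n par S emb prt M H φ hv hr g) x = val par g x) ∨
    (∃ p ∈ M, ∃ i, crs par S emb p i x ∧
      val par (fB n par S emb prt M H φ hv hr g) x ∈ Q ∧
      val par (fB n par S emb prt M H φ hv hr g) x ∈ bds (bdc par S emb g p i) (φ p i) ∧
      val par (fB n par S emb prt M H φ hv hr g) x ∉ (pc p).usd Q rp (φ p) i) := by
  have hgl := h.gl
  have hfM : ∀ p ∈ M, ∀ i, fB n par S emb prt M H φ hv hr g (emb p i) = φ p i := by
    intro p hp i
    rw [emg_fW (hgl.deco.emb_S p i), fG_cov hgl hp]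
  rcases x with v | v
  · rw [mem_items_inl, mem_union] at hx
    rcases hx with hx | hx
    · left
      refine ⟨mem_items_inl.2 hx, ?_⟩
      rw [val_inl, val_inl, emg_fW (emg_vx hgl hx).2.1]
    · right; left
      refine ⟨mem_items_inl.2 hx, ?_⟩
      rw [val_inl, val_inl, emg_fS hx]
  · rw [mem_items_inr, mem_union, mem_union] at hx
    obtain ⟨hx1, hx2, hx3⟩ := hx
    rcases hx1 with hx1 | hx1
    · have hvS := (emg_vx hgl hx1).2.1
      have hvn := (emg_vx hgl hx1).1
      rcases hx3 with hx3 | hx3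
      · left
        refine ⟨mem_items_inr.2 ⟨hx1, hx2, hx3⟩, ?_⟩
        rw [val_inr, val_inr, emg_fW hvS, emg_fW (emg_vx hgl hx3).2.1]
      · -- `v` outside `S`, its parent in `S`
        right; right
        obtain ⟨p, hp1, hp2⟩ := (bdv_edge hgl.hpar h.sep hgl.deco).1 v hvn hx2 hvS hx3
        have hpM : p ∈ M := by
          rcases (emg_vx hgl hx1).2.2 with ⟨q, hq, i, hi⟩ | ⟨q, hq, -, hP, -⟩
          · have h1 := @hgl.deco.emb_inj ⟨p, 0⟩ ⟨q, i⟩ (by
              show emb p 0 = emb q i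
              rw [← hp1, ← hi])
            have h2 : p = q := congrArg Sigma.fst h1
            rw [h2]
            exact hq
          · exact absurd hx3 (hgl.deco.tyok.P1 v hvn hP).2.2.1
        have hbc : bdc par S emb g p 0 = some (g (par v)) := by
          unfold bdc
          rw [hp2]
          rfl
        have hval : val par (fB n par S emb prt M H φ hv hr g) (Sum.inr v) =
            dd (φ p 0) (g (par v)) := by
          rw [val_inr, emg_fS hx3, hp1, hfM p hpM, ← hp1]
        refine ⟨p, hpM, 0, ⟨par v, hp2, ?_⟩, ?_, ?_, ?_⟩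
        · rw [if_pos rfl, ← hp1]
        · rw [hval]
          exact (h.vb p hpM).bdQ 0 _ hbc
        · rw [hval, hbc]
          exact Finset.mem_singleton_self _
        · rw [hval]
          exact (h.vb p hpM).bds 0 _ hbc
    · rcases hx3 with hx3 | hx3
      · -- `v` in `S`, its parent outside
        right; right
        have hpS := (emg_vx hgl hx3).2.1
        have hpn := (emg_vx hgl hx3).1
        obtain ⟨p, i, hi0, hp1, hp2⟩ := (bdv_edge hgl.hpar h.sep hgl.deco).2 v hx1 hx2 hpS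
        have hvn : v < n := mem_range.1 (hgl.deco.S_sub hx1)
        have hfar : ty (par v) = Ty.O := by
          refine h.tyb.far _ ?_
          rw [mem_nbh]
          left
          rw [mem_nbh]
          right; left
          exact ⟨v, hx1, hx2, hvn, rfl⟩
        have hpM : p ∈ M := by
          rcases (emg_vx hgl hx3).2.2 with ⟨q, hq, j, hj⟩ | ⟨q, hq, -, hP, -⟩
          · have h1 := @hgl.deco.emb_inj ⟨p, i⟩ ⟨q, j⟩ (by
              show emb p i = emb q j
              rw [← hp1, ← hj])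
            have h2 : p = q := congrArg Sigma.fst h1
            rw [h2]
            exact hq
          · rw [hfar] at hP
            exact absurd hP (by decide)
        have hbc : bdc par S emb g p i = some (g v) := by
          unfold bdc
          rw [hp2]
          rfl
        have hval : val par (fB n par S emb prt M H φ hv hr g) (Sum.inr v) =
            dd (φ p i) (g v) := by
          rw [val_inr, emg_fS hx1, hp1, hfM p hpM, dd_comm]
        refine ⟨p, hpM, i, ⟨v, hp2, ?_⟩, ?_, ?_, ?_⟩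
        · rw [if_neg hi0]
        · rw [hval]
          exact (h.vb p hpM).bdQ i _ hbc
        · rw [hval, hbc]
          exact Finset.mem_singleton_self _
        · rw [hval]
          exact (h.vb p hpM).bds i _ hbc
      · right; left
        refine ⟨mem_items_inr.2 ⟨hx1, hx2, hx3⟩, ?_⟩
        rw [val_inr, val_inr, emg_fS hx1, emg_fS hx3]

private theorem emg_same (h : GlB n t np N D₀ par S ty pc emb Q L rp prt M H φ hv hr g) {p q : Fin np}
    (hp : p ∈ M) (hq : q ∈ M) {i : Fin ((pc p).k + 1)} {j : Fin ((pc q).k + 1)} {z : ℕ}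
    (hz : z ∈ (pc p).usdB Q rp (bdc par S emb g p) (φ p) i)
    (hz' : z ∈ (pc q).usdB Q rp (bdc par S emb g q) (φ q) j) :
    (⟨p, i⟩ : Σ p : Fin np, Fin ((pc p).k + 1)) = ⟨q, j⟩ := by
  have hpq : p = q := by
    by_contra hne
    have hd := h.db p hp q hq hne
    rw [Finset.disjoint_left] at hd
    exact hd (Finset.mem_biUnion.2 ⟨i, Finset.mem_univ _, hz⟩)
      (Finset.mem_biUnion.2 ⟨j, Finset.mem_univ _, hz'⟩)
  subst hpq
  have hij : i = j := by
    by_contra hne
    have hd := (h.vb p hp).disj i j hne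
    rw [Finset.disjoint_left] at hd
    exact hd hz hz'
  rw [hij]

private theorem emg_inj (h : GlB n t np N D₀ par S ty pc emb Q L rp prt M H φ hv hr g) :
    Set.InjOn (val par (fB n par S emb prt M H φ hv hr g))
      (items par (WG n par ty emb L prt M H φ hv hr ∪ S)) := by
  have hgl := h.gl
  have hQL : ∀ z, z ∈ Q → z ∈ L → False := fun z h1 h2 =>
    Finset.disjoint_left.1 hgl.env.QL h1 h2
  have h13 : ∀ x ∈ items par (WG n par ty emb L prt M H φ hv hr),
      val par (fB n par S emb prt M H φ hv hr g) x = val par (fG n par emb prt M H φ hv hr) x →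
      ∀ y, ∀ p ∈ M, ∀ i, crs par S emb p i y →
      val par (fB n par S emb prt M H φ hv hr g) y ∈ Q →
      val par (fB n par S emb prt M H φ hv hr g) y ∈ bds (bdc par S emb g p i) (φ p i) →
      val par (fB n par S emb prt M H φ hv hr g) y ∉ (pc p).usd Q rp (φ p) i →
      val par (fB n par S emb prt M H φ hv hr g) x ≠
        val par (fB n par S emb prt M H φ hv hr g) y := by
    intro x hx hxv y q hq j hcy hyQ hyb hyn he
    rw [hxv] at he
    rcases item_cases hgl hx with ⟨hxQ, p, hp, i, hxi, hxu⟩ | ⟨v, rfl, hvP, hvL⟩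
    · rw [he] at hxu
      have h1 := emg_same h hp hq (z := val par (fB n par S emb prt M H φ hv hr g) y)
        (mem_union_left _ hxu) (mem_union_right _ hyb)
      have h2 : p = q := congrArg Sigma.fst h1
      subst h2
      have h3 : i = j := by simpa using h1
      subst h3
      exact hyn hxu
    · rw [val_inl] at he
      rw [he] at hvL
      exact hQL _ hyQ hvL
  have h12 : ∀ x ∈ items par (WG n par ty emb L prt M H φ hv hr), ∀ y ∈ items par S,
      val par (fG n par emb prt M H φ hv hr) x ≠ val par g y := by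
    intro x hx y hy he
    have h1 := h.g_val y hy
    rcases WG_val hgl hx with h2 | h2
    · rw [he] at h2
      exact h1.1 h2
    · rw [he] at h2
      exact h1.2 h2
  intro x hx y hy hxy
  rcases emg_cases h (mem_coe.1 hx) with ⟨x1, x2⟩ | ⟨x1, x2⟩ | ⟨p, hp, i, x1, x2, x3, x4⟩
  · rcases emg_cases h (mem_coe.1 hy) with ⟨y1, y2⟩ | ⟨y1, y2⟩ | ⟨q, hq, j, y1, y2, y3, y4⟩
    · rw [x2, y2] at hxy
      exact WG_inj hgl (mem_coe.2 x1) (mem_coe.2 y1) hxy
    · rw [x2, y2] at hxy
      exact absurd hxy (h12 x x1 y y1)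
    · exact absurd hxy (h13 x x1 x2 y q hq j y1 y2 y3 y4)
  · rcases emg_cases h (mem_coe.1 hy) with ⟨y1, y2⟩ | ⟨y1, y2⟩ | ⟨q, hq, j, y1, y2, y3, y4⟩
    · rw [x2, y2] at hxy
      exact absurd hxy.symm (h12 y y1 x x1)
    · rw [x2, y2] at hxy
      exact h.g_inj (mem_coe.2 x1) (mem_coe.2 y1) hxy
    · rw [← hxy, x2] at y2
      exact absurd y2 (h.g_val x x1).1
  · rcases emg_cases h (mem_coe.1 hy) with ⟨y1, y2⟩ | ⟨y1, y2⟩ | ⟨q, hq, j, y1, y2, y3, y4⟩
    · exact absurd hxy.symm (h13 y y1 y2 x p hp i x1 x2 x3 x4)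
    · rw [hxy, y2] at x2
      exact absurd x2 (h.g_val y y1).1
    · rw [hxy] at x3
      have h1 := emg_same h hp hq (z := val par (fB n par S emb prt M H φ hv hr g) y)
        (mem_union_right _ x3) (mem_union_right _ y3)
      have h2 : p = q := congrArg Sigma.fst h1
      subst h2
      have h3 : i = j := by simpa using h1
      subst h3
      exact emg_crs x1 y1

/-- the numbering of the covered pieces, of `S` and of the neighbours of the hosts -/
theorem glueB (h : GlB n t np N D₀ par S ty pc emb Q L rp prt M H φ hv hr g) :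
    ∃ (f : ℕ → ℕ) (W Λ : Finset ℕ), (∀ v ∈ Λ, v < n ∧ ty v = Ty.U) ∧ Disjoint W Λ ∧ W ⊆ range n ∧
      S ⊆ W ∧ (∀ v ∈ S, f v = g v) ∧
      Set.InjOn (val par f) (items par W) ∧
      (∀ x ∈ items par W, (val par f x ∈ Q ∨ val par f x ∈ L) ∨
        (x ∈ items par S ∧ val par f x = val par g x)) ∧
      (∀ v ∈ Λ, par v ∈ W ∧ f (par v) ∈ L ∧ ∀ c ∈ chs n par v, c ∈ W ∧ f c = prt (f (par v))) ∧
      Set.BijOn (fun v => rp (f (par v))) Λ (L.image rp) ∧
      (∀ p ∈ M, vx emb p ⊆ W ∪ Λ) ∧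
      (∀ p, p ∉ M → p ∉ H → Disjoint (vx emb p) W) ∧
      ∀ v < n, v ∉ W → v ∉ Λ → ((chs n par v).filter (· ∈ W)).card ≤ 2 := by
  have hgl := h.gl
  have hLS : ∀ v ∈ LG n par ty emb L prt M H φ hv hr, v ∉ S ∧ par v ∉ S ∧
      ∀ c ∈ chs n par v, c ∉ S := by
    intro v hv'
    obtain ⟨h1, h2, -⟩ := LG_nb hgl hv'
    obtain ⟨-, h3, -, h4, -, h5⟩ := hgl.deco.tyok.U1 v h1 h2
    exact ⟨h3, h4, fun c hc => (h5 c hc).1⟩
  refine ⟨fB n par S emb prt M H φ hv hr g, WG n par ty emb L prt M H φ hv hr ∪ S,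
    LG n par ty emb L prt M H φ hv hr, ?_, ?_, ?_, subset_union_right, fun v hv' => emg_fS hv',
    emg_inj h, ?_, ?_, ?_, ?_, ?_, ?_⟩
  · intro v hvL
    exact ⟨(LG_nb hgl hvL).1, (LG_nb hgl hvL).2.1⟩
  · rw [Finset.disjoint_left]
    intro v hvW hvL
    rcases mem_union.1 hvW with h1 | h1
    · exact (LG_nb hgl hvL).2.2.1 h1
    · exact (hLS v hvL).1 h1
  · intro v hvW
    rcases mem_union.1 hvW with h1 | h1
    · exact mem_range.2 (emg_vx hgl h1).1
    · exact hgl.deco.S_sub h1
  · intro x hx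
    rcases emg_cases h hx with ⟨x1, x2⟩ | ⟨x1, x2⟩ | ⟨p, hp, i, x1, x2, x3, x4⟩
    · left
      rw [x2]
      exact WG_val hgl x1
    · right
      exact ⟨x1, x2⟩
    · left; left
      exact x2
  · intro v hvL
    obtain ⟨-, -, -, h1, h2, h3⟩ := LG_nb hgl hvL
    obtain ⟨-, h4, h5⟩ := hLS v hvL
    rw [emg_fW h4]
    refine ⟨mem_union_left _ h1, h2, fun c hc => ⟨mem_union_left _ (h3 c hc).1, ?_⟩⟩
    rw [emg_fW (h5 c hc)]
    exact (h3 c hc).2
  · refine (LG_bij hgl).congr fun v hvL => ?_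
    show rp (fG n par emb prt M H φ hv hr (par v)) = rp (fB n par S emb prt M H φ hv hr g (par v))
    rw [emg_fW (hLS v (mem_coe.1 hvL)).2.1]
  · intro p hp v hvx
    rw [Finset.mem_union]
    by_cases hLM : v ∈ LM n par ty emb L prt M H φ hv hr
    · exact Or.inr (Finset.mem_union_left _ hLM)
    · refine Or.inl (Finset.mem_union_left _ ?_)
      unfold WG
      rw [Finset.mem_sdiff, Finset.mem_union, Finset.mem_union, Finset.mem_biUnion]
      exact ⟨Or.inl (Or.inl ⟨p, hp, hvx⟩), hLM⟩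
  · intro p hpM hpH
    rw [Finset.disjoint_left]
    intro v hvx hvW
    obtain ⟨i, -, rfl⟩ := Finset.mem_image.1 hvx
    rcases mem_union.1 hvW with h1 | h1
    · rcases (emg_vx hgl h1).2.2 with ⟨q, hq, j, hj⟩ | ⟨q, hq, hvq, -⟩
      · have h2 := @hgl.deco.emb_inj ⟨p, i⟩ ⟨q, j⟩ hj
        have h3 : p = q := congrArg Sigma.fst h2
        exact hpM (h3 ▸ hq)
      · obtain ⟨j, -, hj⟩ := Finset.mem_image.1 hvq
        have h2 := @hgl.deco.emb_inj ⟨p, i⟩ ⟨q, j⟩ hj.symm
        have h3 : p = q := congrArg Sigma.fst h2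
        exact hpH (h3 ▸ hq)
    · exact hgl.deco.emb_S p i h1
  · intro v hvn hvW hvL
    have hvS : v ∉ S := fun hc => hvW (mem_union_right _ hc)
    obtain ⟨p, i, hpi⟩ := hgl.deco.emb_surj v hvn hvS
    have hvp : v ∈ vx emb p := Finset.mem_image.2 ⟨i, mem_univ _, hpi⟩
    have hv1 : 1 ≤ v := by
      rcases Nat.eq_zero_or_pos v with h0 | h0
      · rw [h0] at hvS
        exact absurd hgl.deco.zero_mem hvS
      · exact h0
    have hpM : p ∉ M := by
      intro hpM
      refine hvW (mem_union_left _ ?_)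
      unfold WG
      rw [Finset.mem_sdiff, Finset.mem_union, Finset.mem_union, Finset.mem_biUnion]
      refine ⟨Or.inl (Or.inl ⟨p, hpM, hvp⟩), fun hc => hvL ?_⟩
      exact Finset.mem_union_left _ hc
    -- the children in `S`
    have c1 : ((chs n par v).filter (· ∈ S)).card ≤ 1 := by
      rw [Finset.card_le_one]
      intro a ha b hb
      rw [mem_filter, mem_chs] at ha hb
      refine h.sep.uniq a ha.2 b hb.2 ha.1.2.1 hb.1.2.1 ?_ ?_ ?_
      · rw [ha.1.2.2]
        exact hvS
      · rw [hb.1.2.2]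
        exact hvS
      · rw [ha.1.2.2, hb.1.2.2]
    -- the children in the pieces
    have c2 : ((chs n par v).filter (· ∈ WG n par ty emb L prt M H φ hv hr)).card ≤ 1 := by
      have key : ∀ a ∈ (chs n par v).filter (· ∈ WG n par ty emb L prt M H φ hv hr),
          p ∈ H ∧ a = par (hv p) := by
        intro a ha
        rw [mem_filter] at ha
        obtain ⟨ha1, ha2, ha3⟩ := mem_chs.1 ha.1
        obtain ⟨-, haS, hacase⟩ := emg_vx hgl ha.2
        have hap : a ∈ vx emb p := (vx_par hgl.deco hgl.hpar ha1 ha2 haS (by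
          rw [ha3]
          exact hvS)).2 (by
            rw [ha3]
            exact hvp)
        have hsame : ∀ q, a ∈ vx emb q → q = p := by
          intro q hq
          by_contra hne
          exact Finset.disjoint_left.1 (vx_disj hgl.deco hne) hq hap
        rcases hacase with ⟨q, hq, j, hj⟩ | ⟨q, hq, haq, -, hor⟩
        · have h1 := hsame q (Finset.mem_image.2 ⟨j, mem_univ _, hj.symm⟩)
          rw [h1] at hq
          exact absurd hq hpM
        · have h1 := hsame q haq
          rw [h1] at hq hor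
          refine ⟨hq, ?_⟩
          rcases hor with hor | hor
          · exact hor
          · exfalso
            refine hvL ?_
            have h2 := (mem_chs.1 hor).2.2
            rw [ha3] at h2
            rw [h2]
            exact Finset.mem_union_right _ (Finset.mem_image.2 ⟨p, hq, rfl⟩)
      rw [Finset.card_le_one]
      intro a ha b hb
      rw [(key a ha).2, (key b hb).2]
    have c3 : (chs n par v).filter (· ∈ WG n par ty emb L prt M H φ hv hr ∪ S) ⊆
        (chs n par v).filter (· ∈ WG n par ty emb L prt M H φ hv hr) ∪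
          (chs n par v).filter (· ∈ S) := by
      intro a ha
      rw [mem_filter, mem_union] at ha
      rw [mem_union, mem_filter, mem_filter]
      rcases ha.2 with h1 | h1
      · exact Or.inl ⟨ha.1, h1⟩
      · exact Or.inr ⟨ha.1, h1⟩
    have c4 := (card_le_card c3).trans (card_union_le _ _)
    omega

end SSB
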