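import Pool.Agent.Lib.MP_8a819d_co.UI.PB2
import Pool.Agent.Lib.MP_8a819d_co.UI.AP

/-!
# MP_8a819d_co, uniformly integrable degrees: packing of pieces with boundary

JOB PkB1 (`packB`). JOB PkB2 (`packB_on` from `packB`).

`packB`: `ε, C` from `chainB_exists B δ`. Given `K, μ`: `κ₁, N₁` from `abs_pack K (5 C) μ`; `κ₀ = κ₁ / (8 C)`, `N₀` large: `40 C^2 / N ≤ κ₁ / 2`. Apply `chainB_exists` with
the real numbers `c a b = ∑ p, cnt a b`, `np = n`; the sum of all `cnt a b` over the five allowed types is `∑ p, k` (`em`: every `i ≠ 0` has exactly one of the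
five types by `WF.ok`), so `n + (c O O + ... + c U P) = ∑ p, (k + 1)`. Apply `abs_pack` to `P p = (pc p).rnd ...`, `Rp = L.image rp ⊆ Icc 1 N` (`Env`): `rnd_good`, `load_le`,
`load_rep`, `cod_le`. `Val` gives `ValidB` (`rnd_val`) and `Use φ = usedB` (`rnd_use`, `Val.pos`).

`packB_on`: reindex a subset `X` of the pieces as in `packing_on` of `BD/Em4.lean` (`em4a_enum`).
-/

set_option autoImplicit false

namespace SSB

open Finset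

private theorem pkb1_cnt (p : Piece) (hp : p.WF) :
    p.cnt Ty.O Ty.O + p.cnt Ty.O Ty.P + p.cnt Ty.P Ty.O + p.cnt Ty.P Ty.U + p.cnt Ty.U Ty.P = p.k := by
  classical
  unfold Piece.cnt
  simp only [Finset.card_filter]
  rw [← Finset.sum_add_distrib, ← Finset.sum_add_distrib, ← Finset.sum_add_distrib,
    ← Finset.sum_add_distrib]
  have h1 : ∀ i : Fin (p.k + 1),
      (if i ≠ 0 ∧ p.ty (p.par i) = Ty.O ∧ p.ty i = Ty.O then 1 else 0) +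
      (if i ≠ 0 ∧ p.ty (p.par i) = Ty.O ∧ p.ty i = Ty.P then 1 else 0) +
      (if i ≠ 0 ∧ p.ty (p.par i) = Ty.P ∧ p.ty i = Ty.O then 1 else 0) +
      (if i ≠ 0 ∧ p.ty (p.par i) = Ty.P ∧ p.ty i = Ty.U then 1 else 0) +
      (if i ≠ 0 ∧ p.ty (p.par i) = Ty.U ∧ p.ty i = Ty.P then 1 else 0) =
      if i = 0 then 0 else 1 := by
    intro i
    by_cases hi : i = 0
    · simp [hi]
    · have h2 := hp.ok i hi
      rw [if_neg hi]
      generalize p.ty (p.par i) = a at h2 ⊢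
      generalize p.ty i = b at h2 ⊢
      cases a <;> cases b <;> simp_all [okTy]
  rw [Finset.sum_congr rfl fun i _ => h1 i, Fin.sum_univ_succ]
  simp [Fin.succ_ne_zero]

theorem packB (B δ : ℝ) (hB : 1 ≤ B) (hδ : 0 < δ) : ∃ ε C : ℝ, 0 < ε ∧ 1 ≤ C ∧
    ∀ (K : ℕ) (μ : ℝ), 0 < μ → ∃ κ₀ : ℝ, 0 < κ₀ ∧ ∃ N₀ : ℕ, ∀ N : ℕ, N₀ ≤ N →
    ∀ (t : ℕ) (Q L : Finset ℕ) (rp prt : ℕ → ℕ), Env N t Q L rp prt →
      (N : ℝ) - Q.card ≤ ε * N → L.Nonempty → (L.card : ℝ) ≤ ε * N →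
    ∀ (n : ℕ) (pc : Fin n → Piece) (bd : (p : Fin n) → Fin ((pc p).k + 1) → Option ℕ),
      (∀ p, (pc p).WFB N (bd p)) → (∀ p, (pc p).k + 1 ≤ K) →
      (∀ p i c, bd p i = some c → 1 ≤ c ∧ c ∉ Q) →
    ∀ (e2 : ℕ), e2 = ∑ p, (pc p).cnt Ty.O Ty.P →
      e2 = ∑ p, (pc p).cnt Ty.P Ty.U → (t - 1) * e2 = ∑ p, (pc p).cnt Ty.U Ty.P →
      ((∑ p, (pc p).cnt Ty.P Ty.O : ℕ) : ℝ) ≤ B * e2 → δ * N ≤ e2 →
      (1 - ε) * N ≤ 2 * ((∑ p, ((pc p).k + 1) : ℕ) : ℝ) → (n : ℝ) ≤ ε * N →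
      ∑ p, ((pc p).k + 1) ≤ 2 * N →
    ∀ (σ : ℝ), 0 ≤ σ →
      (2 * ((∑ p, ((pc p).k + 1) : ℕ) : ℝ) - n : ℝ) ≤
        (1 - σ) * Q.card + (2 * t + 1) * (L.image rp).card →
      5 * C * ((∑ p, ((pc p).invo (bd p)).card : ℕ) : ℝ) ≤ σ * N →
      (∀ c, ((∑ p, (univ.filter (fun i => bd p i = some c)).card : ℕ) : ℝ) ≤ κ₀ * N) →
      ∃ (M : Finset (Fin n)) (φ : (p : Fin n) → Fin ((pc p).k + 1) → ℕ),
        (∀ p ∈ M, (pc p).ValidB Q L rp prt (bd p) (φ p)) ∧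
        (∀ p ∈ M, ∀ q ∈ M, p ≠ q →
          Disjoint ((pc p).usedB Q rp (bd p) (φ p)) ((pc q).usedB Q rp (bd q) (φ q))) ∧
        (n : ℝ) - M.card ≤ μ * N ∧
        (((L.image rp).filter (fun r => ∀ p ∈ M, r ∉ (pc p).usedB Q rp (bd p) (φ p))).card : ℝ) ≤
          μ * N := by
  obtain ⟨ε, C, hε, hC, N₁, hch⟩ := chainB_exists B δ hB hδ
  refine ⟨ε, C, hε, hC, fun K μ hμ => ?_⟩
  have hC0 : 0 < C := by linarith
  obtain ⟨κ₁, hκ₁, N₂, hpk⟩ := abs_pack K (5 * C) μ (by positivity) hμ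
  obtain ⟨N₃, hN₃⟩ := exists_nat_ge (80 * C ^ 2 / κ₁)
  refine ⟨κ₁ / (8 * C), by positivity, max (max N₁ N₂) (max N₃ 1), ?_⟩
  intro N hN t Q L rp prt he hQ hL hLc n pc bd hWF hK hcQ e2 he2 he2' he5 hPO hδN h1 hnp h2N σ hσ
    hup hinv hbd
  have hN1 : N₁ ≤ N := (le_max_left _ _).trans ((le_max_left _ _).trans hN)
  have hN2 : N₂ ≤ N := (le_max_right _ _).trans ((le_max_left _ _).trans hN)
  have hN3 : N₃ ≤ N := (le_max_left _ _).trans ((le_max_right _ _).trans hN)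
  have hN4 : 1 ≤ N := (le_max_right _ _).trans ((le_max_right _ _).trans hN)
  have hNr : (1 : ℝ) ≤ N := by exact_mod_cast hN4
  have hNpos : (0 : ℝ) < N := by linarith
  have hsum : ((∑ p, ((pc p).k + 1) : ℕ) : ℝ) = n + ((((∑ p, (pc p).cnt Ty.O Ty.O : ℕ) : ℝ)) +
      ((∑ p, (pc p).cnt Ty.O Ty.P : ℕ) : ℝ) + ((∑ p, (pc p).cnt Ty.P Ty.O : ℕ) : ℝ) +
      ((∑ p, (pc p).cnt Ty.P Ty.U : ℕ) : ℝ) + ((∑ p, (pc p).cnt Ty.U Ty.P : ℕ) : ℝ)) := by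
    have h3 : ∑ p, ((pc p).k + 1) = n + ((∑ p, (pc p).cnt Ty.O Ty.O) + (∑ p, (pc p).cnt Ty.O Ty.P) +
        (∑ p, (pc p).cnt Ty.P Ty.O) + (∑ p, (pc p).cnt Ty.P Ty.U) +
        (∑ p, (pc p).cnt Ty.U Ty.P)) := by
      rw [Finset.sum_add_distrib, Finset.sum_const, Finset.card_univ, Fintype.card_fin,
        smul_eq_mul, mul_one, add_comm, ← Finset.sum_add_distrib, ← Finset.sum_add_distrib,
        ← Finset.sum_add_distrib, ← Finset.sum_add_distrib]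
      congr 1
      exact Finset.sum_congr rfl fun p _ => (pkb1_cnt (pc p) (hWF p).wf).symm
    exact_mod_cast h3
  have ht1 : 1 ≤ t := by rcases he.t_le with h | h <;> omega
  obtain ⟨M, Kr, mb, kbo, kob, hcb⟩ : ∃ (M : Ty → ℕ → ℝ) (Kr : Ty → Ty → ℕ → ℕ → ℝ)
      (mb : ℕ → ℕ → ℝ) (kbo kob : ℕ → ℕ → ℕ → ℝ),
      ChainB N Q L rp prt n (fun a b => ((∑ p, (pc p).cnt a b : ℕ) : ℝ)) C σ M Kr mb kbo kob := by
    refine hch N hN1 t Q L rp prt he hQ hL hLc σ hσ (n : ℝ)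
      (fun a b => ((∑ p, (pc p).cnt a b : ℕ) : ℝ)) (Nat.cast_nonneg _)
      (fun a b => Nat.cast_nonneg _) ?_ ?_ ?_ ?_ ?_ hnp ?_
    · show ((∑ p, (pc p).cnt Ty.P Ty.U : ℕ) : ℝ) = ((∑ p, (pc p).cnt Ty.O Ty.P : ℕ) : ℝ)
      rw [← he2, ← he2']
    · show ((∑ p, (pc p).cnt Ty.U Ty.P : ℕ) : ℝ) =
        ((t : ℝ) - 1) * ((∑ p, (pc p).cnt Ty.O Ty.P : ℕ) : ℝ)
      rw [← he2, ← he5, Nat.cast_mul, Nat.cast_sub ht1, Nat.cast_one]
    · show ((∑ p, (pc p).cnt Ty.P Ty.O : ℕ) : ℝ) ≤ B * ((∑ p, (pc p).cnt Ty.O Ty.P : ℕ) : ℝ)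
      rw [← he2]
      exact hPO
    · show δ * N ≤ ((∑ p, (pc p).cnt Ty.O Ty.P : ℕ) : ℝ)
      rw [← he2]
      exact hδN
    · rw [← hsum]
      exact h1
    · rw [← hsum]
      exact hup
  have hQs := he.Q_sub
  have hRp : L.image rp ⊆ Icc 1 N := by
    intro r hr
    obtain ⟨x, hx, rfl⟩ := mem_image.1 hr
    exact he.L_sub (he.rp_mem x hx)
  obtain ⟨Mf, φ, hv, hd, hm, hr⟩ := hpk N hN2 n
    (fun p => (pc p).rnd N Q rp M Kr mb kbo kob (bd p)) (L.image rp)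
    (fun p => rnd_good hQs hcb (hWF p) (hcQ p)) (fun p => hK p) hRp h2N
    (fun z hz => load_le he hN4 hcb hWF hinv hcQ hz)
    (fun r hr => load_rep he hN4 hcb hWF hcQ hr)
    (fun z _ z' _ hzz => by
      refine (cod_le hQs hC hcb hWF h2N hbd hzz).trans ?_
      have h3 : 4 * C * (κ₁ / (8 * C) * N) / N = κ₁ / 2 := by
        field_simp
        ring
      have h4 : 40 * C ^ 2 / (N : ℝ) ≤ κ₁ / 2 := by
        have h5 : 80 * C ^ 2 / κ₁ ≤ N := hN₃.trans (by exact_mod_cast hN3)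
        rw [div_le_iff₀ hκ₁] at h5
        rw [div_le_iff₀ hNpos]
        linarith
      rw [h3]
      linarith)
  have hUse : ∀ p ∈ Mf, ((pc p).rnd N Q rp M Kr mb kbo kob (bd p)).Use (φ p) =
      (pc p).usedB Q rp (bd p) (fun j => (φ p j : ℕ)) := by
    intro p hp
    unfold RP.Use Piece.usedB
    exact Finset.biUnion_congr rfl fun i _ => rnd_use he hcb (hWF p) (hv p hp).pos i
  refine ⟨Mf, fun p i => (φ p i : ℕ), fun p hp => rnd_val he hcb (hWF p) (hv p hp), ?_, hm, ?_⟩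
  · intro p hp q hq hpq
    rw [← hUse p hp, ← hUse q hq]
    exact hd p hp q hq hpq
  · refine le_trans ?_ hr
    have h3 : (L.image rp).filter (fun r => ∀ p ∈ Mf, r ∉ (pc p).usedB Q rp (bd p)
        (fun j => (φ p j : ℕ))) = (L.image rp).filter (fun r => ∀ p ∈ Mf,
          r ∉ ((pc p).rnd N Q rp M Kr mb kbo kob (bd p)).Use (φ p)) := by
      refine Finset.filter_congr fun r _ => ?_
      exact forall₂_congr fun p hp => by rw [hUse p hp]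
    rw [h3]

private theorem pkb2_enum {np : ℕ} (X : Finset (Fin np)) :
    ∃ e' : Fin X.card → Fin np, Function.Injective e' ∧ (∀ p, p ∈ X ↔ ∃ i, e' i = p) ∧
      ∀ f : Fin np → ℕ, ∑ i, f (e' i) = ∑ p ∈ X, f p := by
  refine ⟨fun i => (X.equivFin.symm i : Fin np), ?_, ?_, ?_⟩
  · intro i j hij
    exact X.equivFin.symm.injective (Subtype.ext hij)
  · intro p
    constructor
    · intro hp
      exact ⟨X.equivFin ⟨p, hp⟩, by simp⟩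
    · rintro ⟨i, rfl⟩
      exact (X.equivFin.symm i).2
  · intro f
    rw [Equiv.sum_comp X.equivFin.symm (fun x : X => f x), Finset.sum_coe_sort X f]

theorem packB_on (B δ : ℝ) (hB : 1 ≤ B) (hδ : 0 < δ) : ∃ ε C : ℝ, 0 < ε ∧ 1 ≤ C ∧
    ∀ (K : ℕ) (μ : ℝ), 0 < μ → ∃ κ₀ : ℝ, 0 < κ₀ ∧ ∃ N₀ : ℕ, ∀ N : ℕ, N₀ ≤ N →
    ∀ (t : ℕ) (Q L : Finset ℕ) (rp prt : ℕ → ℕ), Env N t Q L rp prt →
      (N : ℝ) - Q.card ≤ ε * N → L.Nonempty → (L.card : ℝ) ≤ ε * N →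
    ∀ (np : ℕ) (pc : Fin np → Piece) (bd : (p : Fin np) → Fin ((pc p).k + 1) → Option ℕ)
      (X : Finset (Fin np)),
      (∀ p ∈ X, (pc p).WFB N (bd p)) → (∀ p ∈ X, (pc p).k + 1 ≤ K) →
      (∀ p ∈ X, ∀ i c, bd p i = some c → 1 ≤ c ∧ c ∉ Q) →
    ∀ (e2 : ℕ), e2 = ∑ p ∈ X, (pc p).cnt Ty.O Ty.P →
      e2 = ∑ p ∈ X, (pc p).cnt Ty.P Ty.U → (t - 1) * e2 = ∑ p ∈ X, (pc p).cnt Ty.U Ty.P →
      ((∑ p ∈ X, (pc p).cnt Ty.P Ty.O : ℕ) : ℝ) ≤ B * e2 → δ * N ≤ e2 →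
      (1 - ε) * N ≤ 2 * ((∑ p ∈ X, ((pc p).k + 1) : ℕ) : ℝ) → (X.card : ℝ) ≤ ε * N →
      ∑ p ∈ X, ((pc p).k + 1) ≤ 2 * N →
    ∀ (σ : ℝ), 0 ≤ σ →
      (2 * ((∑ p ∈ X, ((pc p).k + 1) : ℕ) : ℝ) - X.card : ℝ) ≤
        (1 - σ) * Q.card + (2 * t + 1) * (L.image rp).card →
      5 * C * ((∑ p ∈ X, ((pc p).invo (bd p)).card : ℕ) : ℝ) ≤ σ * N →
      (∀ c, ((∑ p ∈ X, (univ.filter (fun i => bd p i = some c)).card : ℕ) : ℝ) ≤ κ₀ * N) →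
      ∃ (M : Finset (Fin np)) (φ : (p : Fin np) → Fin ((pc p).k + 1) → ℕ), M ⊆ X ∧
        (∀ p ∈ M, (pc p).ValidB Q L rp prt (bd p) (φ p)) ∧
        (∀ p ∈ M, ∀ q ∈ M, p ≠ q →
          Disjoint ((pc p).usedB Q rp (bd p) (φ p)) ((pc q).usedB Q rp (bd q) (φ q))) ∧
        (X.card : ℝ) - M.card ≤ μ * N ∧
        (((L.image rp).filter (fun r => ∀ p ∈ M, r ∉ (pc p).usedB Q rp (bd p) (φ p))).card : ℝ) ≤
          μ * N := by
  classical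
  obtain ⟨ε, C, hε, hC, hP⟩ := packB B δ hB hδ
  refine ⟨ε, C, hε, hC, fun K μ hμ => ?_⟩
  obtain ⟨κ₀, hκ₀, N₀, hN₀⟩ := hP K μ hμ
  refine ⟨κ₀, hκ₀, N₀, ?_⟩
  intro N hN t Q L rp prt hE hQ hLn hL np pc bd X hWF hK hc e2 h1 h2 h3 h4 h5 h6 h7 h8 σ hσ h9 h10 h11
  obtain ⟨e', hinj, himg, hsum⟩ := pkb2_enum X
  have hmem : ∀ i, e' i ∈ X := fun i => (himg _).2 ⟨i, rfl⟩
  obtain ⟨M', φ', hV, hD, hcc, hr⟩ := hN₀ N hN t Q L rp prt hE hQ hLn hL X.card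
    (fun i => pc (e' i)) (fun i => bd (e' i)) (fun i => hWF _ (hmem i)) (fun i => hK _ (hmem i))
    (fun i => hc _ (hmem i)) e2
    (by rw [h1]; exact (hsum fun p => (pc p).cnt Ty.O Ty.P).symm)
    (by rw [h2]; exact (hsum fun p => (pc p).cnt Ty.P Ty.U).symm)
    (by rw [h3]; exact (hsum fun p => (pc p).cnt Ty.U Ty.P).symm)
    (by
      have h12 := hsum fun p => (pc p).cnt Ty.P Ty.O
      rw [h12]
      exact h4)
    h5
    (by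
      have h12 := hsum fun p => (pc p).k + 1
      rw [h12]
      exact h6)
    h7
    (by
      have h12 := hsum fun p => (pc p).k + 1
      rw [h12]
      exact h8)
    σ hσ
    (by
      have h12 := hsum fun p => (pc p).k + 1
      rw [h12]
      exact h9)
    (by
      have h12 := hsum fun p => ((pc p).invo (bd p)).card
      rw [h12]
      exact h10)
    (by
      intro c
      have h12 := hsum fun p => (univ.filter (fun i => bd p i = some c)).card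
      rw [h12]
      exact h11 c)
  obtain ⟨φ, hφ⟩ : ∃ φ : (p : Fin np) → Fin ((pc p).k + 1) → ℕ, ∀ i, φ (e' i) = φ' i := by
    have h12 : ∀ p : Fin np, ∃ ψ : Fin ((pc p).k + 1) → ℕ, ∀ i, ∀ h : p = e' i,
        (Eq.rec (motive := fun q _ => Fin ((pc q).k + 1) → ℕ) ψ h) = φ' i := by
      intro p
      by_cases h : ∃ i, p = e' i
      · obtain ⟨i, rfl⟩ := h
        refine ⟨φ' i, fun j hj => ?_⟩
        have hij : i = j := hinj hj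
        subst hij
        rfl
      · exact ⟨fun _ => 0, fun i hi => (h ⟨i, hi⟩).elim⟩
    choose φ hφ using h12
    exact ⟨φ, fun i => hφ (e' i) i rfl⟩
  refine ⟨M'.image e', φ, ?_, ?_, ?_, ?_, ?_⟩
  · intro p hp
    obtain ⟨i, -, rfl⟩ := mem_image.1 hp
    exact hmem i
  · intro p hp
    obtain ⟨i, hi, rfl⟩ := mem_image.1 hp
    rw [hφ i]
    exact hV i hi
  · intro p hp q hq hpq
    obtain ⟨i, hi, rfl⟩ := mem_image.1 hp
    obtain ⟨j, hj, rfl⟩ := mem_image.1 hq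
    rw [hφ i, hφ j]
    exact hD i hi j hj fun h => hpq (by rw [h])
  · rw [card_image_of_injective _ hinj]
    exact hcc
  · refine le_trans ?_ hr
    refine Nat.cast_le.2 (card_le_card fun r hr' => ?_)
    rw [mem_filter] at hr' ⊢
    refine ⟨hr'.1, fun i hi => ?_⟩
    have h12 := hr'.2 (e' i) (mem_image_of_mem _ hi)
    rw [hφ i] at h12
    exact h12

end SSB
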