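import Pool.Agent.Lib.MP_8a819d_co.UI.EmG
import Pool.Agent.Lib.MP_8a819d_co.UI.PkB
import Pool.Agent.Lib.MP_8a819d_co.BD.Em4

/-!
# MP_8a819d_co, uniformly integrable degrees: the core of the embedding theorem

Compare `emb_core` in `BD/Em4.lean`. The separator `S` is numbered first (by `g`, in the reserve), then the pieces are packed; the
vertex `v₀`, if it is not in `S`, stays without a label.
-/

set_option autoImplicit false

namespace SSB

open Finset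

private theorem emu_RU {n t np K : ℕ} {par : ℕ → ℕ} {S : Finset ℕ} {ty : ℕ → Ty} {pc : Fin np → Piece}
    {emb : (p : Fin np) → Fin ((pc p).k + 1) → ℕ} (h : Deco n par t S ty np pc emb)
    (hK : ∀ p, (pc p).k + 1 ≤ K) :
    ((range n).filter (fun v => ty v = Ty.U)).card ≤
      ((univ : Finset (Fin np)).filter (fun p => ∃ v ∈ vx emb p, ty v = Ty.U)).card * K := by
  have h1 : ((univ : Finset (Fin np)).filter (fun p => ∃ v ∈ vx emb p, ty v = Ty.U)).card * K =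
      ∑ _p ∈ (univ : Finset (Fin np)).filter (fun p => ∃ v ∈ vx emb p, ty v = Ty.U), K := by
    rw [sum_const, smul_eq_mul]
  rw [← units_sum h, h1, sum_filter]
  refine sum_le_sum fun p _ => ?_
  split_ifs with hc
  · exact (card_filter_le _ _).trans ((vx_card h p).le.trans (hK p))
  · rw [filter_eq_empty_iff.2 (fun v hv hU => hc ⟨v, hv, hU⟩), card_empty]

private theorem emu_Q {N : ℕ} (A R : Finset ℕ) (L : Finset ℕ) :
    N ≤ (Icc 1 N \ (A ∪ L ∪ R)).card + (A.card + L.card + R.card) := by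
  have h1 := card_le_card_sdiff_add_card (s := Icc 1 N) (t := A ∪ L ∪ R)
  have h2 := card_union_le (A ∪ L) R
  have h3 := card_union_le A L
  rw [Nat.card_Icc] at h1
  omega

private theorem emu_bij {t : ℕ} (ht : t = 1 ∨ t = 2) {D : Finset (ℕ × ℕ)} (hD : UnitOK t D)
    {Λ : Finset ℕ} {g : ℕ → ℕ} (hg : ∀ v ∈ Λ, g v ∈ labs D)
    (hb : Set.BijOn (fun v => rpD D (g v)) Λ ((labs D).image (rpD D))) :
    Set.BijOn (fun v => unitOf D (g v)) Λ D := by
  refine ⟨?_, ?_, ?_⟩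
  · intro v hv
    exact (unitOf_mem (hg v hv)).1
  · intro v hv w hw hvw
    refine hb.2.1 hv hw ?_
    change (unitOf D (g v)).1 = (unitOf D (g w)).1
    exact congrArg Prod.fst hvw
  · intro d hd
    have h1 : d.1 ∈ labs D := mem_labs.2 ⟨d, hd, Or.inl rfl⟩
    have h2 : rpD D d.1 ∈ (((labs D).image (rpD D) : Finset ℕ) : Set ℕ) :=
      mem_coe.2 (mem_image_of_mem _ h1)
    obtain ⟨v, hv, hv2⟩ := hb.2.2 h2
    refine ⟨v, hv, ?_⟩
    have h3 : unitOf D d.1 = d := unitOf_eq ht hD hd (Or.inl rfl)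
    have h4 : (unitOf D (g v)).1 = d.1 := by
      have h5 : rpD D (g v) = rpD D d.1 := hv2
      unfold rpD at h5
      rw [h5, h3]
    exact unit_unique ht hD (unitOf_mem (hg v hv)).1 hd (Or.inl h4.symm) (Or.inl rfl)

private theorem emu_nb {n t : ℕ} (ht : t = 1 ∨ t = 2) {par : ℕ → ℕ} {D : Finset (ℕ × ℕ)}
    (hD : UnitOK t D) (hfib : ∀ x ∈ labs D, t = 1 → prtD D x = x) {v : ℕ} {f : ℕ → ℕ} (hv1 : 1 ≤ v)
    (hdeg : pdeg n par v = t) (hL : f (par v) ∈ labs D)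
    (hc : ∀ c ∈ chs n par v, f c = prtD D (f (par v))) :
    insert (f (par v)) ((chs n par v).image f) =
      {(unitOf D (f (par v))).1, (unitOf D (f (par v))).2} := by
  rw [← unit_pair ht hD hL]
  unfold pdeg at hdeg
  rw [if_neg (by omega)] at hdeg
  rcases ht with rfl | rfl
  · have h1 : chs n par v = ∅ := card_eq_zero.1 (by omega)
    rw [h1, image_empty, hfib _ hL rfl]
    simp
  · obtain ⟨c, h1⟩ := card_eq_one.1 (show (chs n par v).card = 1 by omega)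
    rw [h1, image_singleton, hc c (by rw [h1]; exact mem_singleton_self c)]

private theorem emu_rest {n t np K : ℕ} {par : ℕ → ℕ} {S : Finset ℕ} {ty : ℕ → Ty}
    {pc : Fin np → Piece} {emb : (p : Fin np) → Fin ((pc p).k + 1) → ℕ}
    (h : Deco n par t S ty np pc emb) (hK : ∀ p, (pc p).k + 1 ≤ K) {M : Finset (Fin np)}
    {W Λ : Finset ℕ} (hS : S ⊆ W) (hM : ∀ p ∈ M, vx emb p ⊆ W ∪ Λ) :
    ((range n \ Λ) \ W).card ≤ (univ \ M).card * K := by
  have h1 : (range n \ Λ) \ W ⊆ (univ \ M).biUnion (vx emb) := by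
    intro v hv
    rw [mem_sdiff, mem_sdiff, mem_range] at hv
    obtain ⟨⟨h2, h3⟩, h4⟩ := hv
    have h5 : v ∉ S := fun h5 => h4 (hS h5)
    obtain ⟨p, i, hp⟩ := h.emb_surj v h2 h5
    have h6 : v ∈ vx emb p := by
      unfold vx
      exact mem_image.2 ⟨i, mem_univ _, hp⟩
    refine mem_biUnion.2 ⟨p, mem_sdiff.2 ⟨mem_univ _, fun hpM => ?_⟩, h6⟩
    rcases mem_union.1 (hM p hpM h6) with h7 | h7
    · exact h4 h7
    · exact h3 h7
  refine (card_le_card h1).trans ?_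
  refine card_biUnion_le.trans ?_
  rw [← smul_eq_mul, ← sum_const]
  exact sum_le_sum fun p _ => (vx_card h p).le.trans (hK p)

private theorem emu_p0 {n t np : ℕ} {par : ℕ → ℕ} {S : Finset ℕ} {ty : ℕ → Ty}
    {pc : Fin np → Piece} {emb : (p : Fin np) → Fin ((pc p).k + 1) → ℕ}
    (h : Deco n par t S ty np pc emb) (v : ℕ) :
    ((univ : Finset (Fin np)).filter (fun p => v ∈ vx emb p)).card ≤ 1 := by
  rw [card_le_one]
  intro p hp q hq
  by_contra hne
  exact Finset.disjoint_left.1 (vx_disj h hne) (mem_filter.1 hp).2 (mem_filter.1 hq).2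

private theorem emu_nbh {n : ℕ} {par : ℕ → ℕ} (X : Finset ℕ) : X ⊆ nbh n par X := fun _ hx =>
  mem_nbh.2 (Or.inl hx)

private theorem emu_usB {p : Piece} {Q L : Finset ℕ} {rp prt : ℕ → ℕ}
    {bd : Fin (p.k + 1) → Option ℕ} {φ : Fin (p.k + 1) → ℕ} (h : p.ValidB Q L rp prt bd φ)
    {r : ℕ} (hr : r ∉ Q) : r ∈ p.usedB Q rp bd φ ↔ r ∈ p.usedS Q rp φ := by
  unfold Piece.usedB Piece.usedS
  rw [mem_biUnion, mem_biUnion]
  refine exists_congr fun i => and_congr_right fun _ => ?_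
  unfold Piece.usdB
  rw [mem_union]
  constructor
  · rintro (h1 | h1)
    · exact h1
    · exfalso
      have h2 := h.bdQ i
      cases h3 : bd i with
      | none =>
        rw [h3] at h1
        exact absurd h1 (notMem_empty r)
      | some c =>
        rw [h3] at h1
        have h4 : r = dd (φ i) c := mem_singleton.1 h1
        exact hr (h4 ▸ h2 c h3)
  · exact fun h1 => Or.inl h1

private theorem emu_sub {p : Piece} {Q : Finset ℕ} {rp : ℕ → ℕ}
    {bd : Fin (p.k + 1) → Option ℕ} {φ : Fin (p.k + 1) → ℕ} :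
    p.usedS Q rp φ ⊆ p.usedB Q rp bd φ :=
  biUnion_mono fun _ _ => subset_union_left

theorem emb_coreU (t : ℕ) (ht : t = 1 ∨ t = 2) (h : ℕ → ℕ) : ∃ ε : ℝ, 0 < ε ∧ ∀ β : ℝ, 0 < β →
    ∀ l : ℝ, 0 < l → ∃ n₀ : ℕ, ∀ n : ℕ, n₀ ≤ n →
    ∀ (R A : Finset ℕ) (D : Finset (ℕ × ℕ)), R ⊆ Icc 1 (2 * n - 1) →
      (R.card : ℝ) ≤ ε * (2 * n - 1 : ℕ) → (R.card : ℝ) ≤ β * (2 * n - 1 : ℕ) →
      AbsData t (2 * n - 1) R A D ε β →
    ∀ par : ℕ → ℕ, IsPar n par → UIc n par h →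
      n ≤ 4 * ((range n).filter (fun i => pdeg n par i = t)).card →
      ∃ (S : Finset ℕ) (ty : ℕ → Ty), TyOK n par t S ty ∧ SepOK n par S ∧
        (S.card : ℝ) ≤ l * (2 * n - 1 : ℕ) ∧
        ∀ g : ℕ → ℕ, Set.InjOn (val par g) (items par S) →
          (∀ x ∈ items par S, val par g x ∈ R) → ∀ v₀ < n,
        ∃ (f : ℕ → ℕ) (W Λ : Finset ℕ), (∀ v ∈ Λ, v < n ∧ ty v = Ty.U) ∧ Disjoint W Λ ∧
          W ⊆ range n ∧ S ⊆ W ∧ (∀ v ∈ S, f v = g v) ∧ (v₀ ∉ S → v₀ ∉ W ∧ v₀ ∉ Λ) ∧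
          Set.InjOn (val par f) (items par W) ∧
          (∀ x ∈ items par W, 1 ≤ val par f x ∧ val par f x ≤ 2 * n - 1 ∧ val par f x ∉ A ∧
            (val par f x ∈ R → x ∈ items par S)) ∧
          (∀ v ∈ Λ, par v ∈ W ∧ ∀ c ∈ chs n par v, c ∈ W) ∧
          Set.BijOn (fun v => unitOf D (f (par v))) Λ D ∧
          (∀ v ∈ Λ, insert (f (par v)) ((chs n par v).image f) =
            {(unitOf D (f (par v))).1, (unitOf D (f (par v))).2}) ∧
          ((((range n \ Λ) \ W).card : ℕ) : ℝ) ≤ l * (2 * n - 1 : ℕ) ∧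
          ∀ v < n, v ∉ W → v ∉ Λ → ((chs n par v).filter (· ∈ W)).card ≤ 2 := by
  classical
  obtain ⟨D₀, hD₀⟩ : ∃ D₀ : ℕ, D₀ = max 2 (h 16) := ⟨_, rfl⟩
  obtain ⟨D₁, hD₁⟩ : ∃ D₁ : ℝ, D₁ = ((D₀ : ℝ) + 1) ^ 3 := ⟨_, rfl⟩
  have hD₀0 : (0 : ℝ) ≤ D₀ := Nat.cast_nonneg D₀
  have hD₁p : 0 < D₁ := by
    rw [hD₁]
    positivity
  obtain ⟨εp, C, hεp, hC, hpack⟩ := packB_on (2 * D₀ + 1) (1 / (32 * D₁)) (by linarith)
    (by positivity)
  refine ⟨min (εp / 8) (1 / 100), lt_min (by positivity) (by norm_num), ?_⟩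
  intro β hβ l hl
  obtain ⟨ε, hεd⟩ : ∃ ε : ℝ, ε = min (εp / 8) (1 / 100) := ⟨_, rfl⟩
  rw [← hεd]
  have hε1 : ε ≤ εp / 8 := hεd ▸ min_le_left _ _
  -- the constants
  obtain ⟨m, hm16, hmC, hmε, hml⟩ : ∃ m : ℕ, 16 ≤ m ∧ 5 * C ≤ β * m ∧ 64 ≤ εp * m ∧
      64 ≤ l * m := by
    refine ⟨16 + ⌈5 * C / β⌉₊ + ⌈64 / εp⌉₊ + ⌈64 / l⌉₊, by omega, ?_, ?_, ?_⟩
    · have h1 : 5 * C / β ≤ ((16 + ⌈5 * C / β⌉₊ + ⌈64 / εp⌉₊ + ⌈64 / l⌉₊ : ℕ) : ℝ) := by
        refine (Nat.le_ceil _).trans ?_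
        exact_mod_cast (by omega)
      rwa [div_le_iff₀ hβ, mul_comm _ β] at h1
    · have h1 : 64 / εp ≤ ((16 + ⌈5 * C / β⌉₊ + ⌈64 / εp⌉₊ + ⌈64 / l⌉₊ : ℕ) : ℝ) := by
        refine (Nat.le_ceil _).trans ?_
        exact_mod_cast (by omega)
      rwa [div_le_iff₀ hεp, mul_comm] at h1
    · have h1 : 64 / l ≤ ((16 + ⌈5 * C / β⌉₊ + ⌈64 / εp⌉₊ + ⌈64 / l⌉₊ : ℕ) : ℝ) := by
        refine (Nat.le_ceil _).trans ?_
        exact_mod_cast (by omega)
      rwa [div_le_iff₀ hl, mul_comm] at h1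
  obtain ⟨K, n₁, hK1, hdeco⟩ := decoB_exists h m hm16
  have hKpos : (0 : ℝ) < K := by exact_mod_cast hK1
  obtain ⟨μ, hμ, hμδ, hμl, hμε⟩ : ∃ μ : ℝ, 0 < μ ∧ 96 * D₁ * (K * μ) ≤ 1 ∧ 16 * (K * μ) ≤ l ∧
      16 * (K * μ) ≤ εp := by
    refine ⟨min (min (1 / (96 * D₁)) (l / 16)) (εp / 16) / K, by positivity, ?_, ?_, ?_⟩
    · rw [mul_div_cancel₀ _ hKpos.ne']
      have h1 : min (min (1 / (96 * D₁)) (l / 16)) (εp / 16) ≤ 1 / (96 * D₁) :=
        (min_le_left _ _).trans (min_le_left _ _)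
      rw [le_div_iff₀ (by positivity)] at h1
      linarith
    · rw [mul_div_cancel₀ _ hKpos.ne']
      have h1 : min (min (1 / (96 * D₁)) (l / 16)) (εp / 16) ≤ l / 16 :=
        (min_le_left _ _).trans (min_le_right _ _)
      linarith
    · rw [mul_div_cancel₀ _ hKpos.ne']
      have h1 : min (min (1 / (96 * D₁)) (l / 16)) (εp / 16) ≤ εp / 16 := min_le_right _ _
      linarith
  obtain ⟨κ₀, hκ₀, N₁, hN₁⟩ := hpack K μ hμ
  obtain ⟨m', hm'1, hm'κ⟩ : ∃ m' : ℕ, 1 ≤ m' ∧ 1 ≤ κ₀ * m' := by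
    refine ⟨1 + ⌈1 / κ₀⌉₊, by omega, ?_⟩
    have h1 : 1 / κ₀ ≤ ((1 + ⌈1 / κ₀⌉₊ : ℕ) : ℝ) := by
      refine (Nat.le_ceil _).trans ?_
      exact_mod_cast (by omega)
    rwa [div_le_iff₀ hκ₀, mul_comm] at h1
  obtain ⟨n₂, hmax⟩ := ui_max h m' hm'1
  refine ⟨n₁ + N₁ + n₂ + 1 + ⌈1 / μ⌉₊, ?_⟩
  intro n hn R A D hR hRε hRβ hA par hpar hui h4
  have ht2 : t ≤ 2 := by rcases ht with rfl | rfl <;> norm_num
  obtain ⟨S, ty, np, pc, emb, hsep, htyb, hD, hKp, hS2, hU⟩ :=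
    hdeco n (by omega) par t ht2 hpar hui h4
  rw [← hD₀] at htyb hU
  obtain ⟨N, hN⟩ : ∃ N : ℕ, N = 2 * n - 1 := ⟨_, rfl⟩
  rw [← hN] at hR hRε hRβ hA ⊢
  have hnN : n ≤ N := by omega
  have hNn : N + 1 = 2 * n := by omega
  have hnN' : (n : ℝ) ≤ N := by exact_mod_cast hnN
  have hNn' : (N : ℝ) + 1 = 2 * n := by exact_mod_cast hNn
  have hn0 : (0 : ℝ) ≤ n := Nat.cast_nonneg n
  have hN0 : (0 : ℝ) ≤ N := Nat.cast_nonneg N
  have hμn : 1 ≤ μ * n := by
    have h1 : 1 / μ ≤ n := (Nat.le_ceil _).trans (by exact_mod_cast (by omega : ⌈1 / μ⌉₊ ≤ n))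
    rwa [div_le_iff₀ hμ, mul_comm] at h1
  have hμN : 1 ≤ μ * N := hμn.trans (mul_le_mul_of_nonneg_left hnN' hμ.le)
  -- the separator and its neighbourhoods
  obtain ⟨s2, hs2⟩ : ∃ s2 : ℕ, s2 = (nbh n par (nbh n par S)).card := ⟨_, rfl⟩
  rw [← hs2] at hS2
  have hSs : S.card ≤ s2 := by
    rw [hs2]
    exact card_le_card ((emu_nbh S).trans (emu_nbh _))
  have hnps : np ≤ s2 := by
    rw [hs2]
    exact (np_leB hpar hD).trans (card_le_card (emu_nbh _))
  have hs2' : (m : ℝ) * s2 ≤ n := by exact_mod_cast hS2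
  have hs20 : (0 : ℝ) ≤ s2 := Nat.cast_nonneg _
  have hs2ε : 64 * (s2 : ℝ) ≤ εp * n := by
    have h1 := mul_le_mul_of_nonneg_right hmε hs20
    have h2 := mul_le_mul_of_nonneg_left hs2' hεp.le
    linarith
  have hs2l : 64 * (s2 : ℝ) ≤ l * n := by
    have h1 := mul_le_mul_of_nonneg_right hml hs20
    have h2 := mul_le_mul_of_nonneg_left hs2' hl.le
    linarith
  have hs2C : 5 * C * (s2 : ℝ) ≤ β * n := by
    have h1 := mul_le_mul_of_nonneg_right hmC hs20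
    have h2 := mul_le_mul_of_nonneg_left hs2' hβ.le
    linarith
  have hnε : εp * n ≤ εp * N := mul_le_mul_of_nonneg_left hnN' hεp.le
  have hnl : l * n ≤ l * N := mul_le_mul_of_nonneg_left hnN' hl.le
  have hnβ : β * n ≤ β * N := mul_le_mul_of_nonneg_left hnN' hβ.le
  have hSr : (S.card : ℝ) ≤ s2 := by exact_mod_cast hSs
  have hlN0 : 0 ≤ l * N := by positivity
  refine ⟨S, ty, hD.tyok, hsep, by linarith, ?_⟩
  intro g hg1 hg2 v₀ hv₀
  -- sizes of the absorber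
  have hlD : (labs D).card = t * D.card := hA.unit.2
  have hlD2 : ((labs D).card : ℝ) ≤ 2 * (ε * N) := by
    have h1 : (labs D).card ≤ 2 * D.card := by
      rw [hlD]
      exact Nat.mul_le_mul_right _ ht2
    have h2 : ((labs D).card : ℝ) ≤ 2 * D.card := by exact_mod_cast h1
    have h3 := hA.D_le
    linarith
  have hεN : 8 * (ε * N) ≤ εp * N := by
    have h1 := mul_le_mul_of_nonneg_right hε1 hN0
    linarith
  have hεpN : 0 ≤ εp * N := by positivity
  have hDpos : 0 < D.card := by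
    by_contra hc
    have h1 : D.card = 0 := by omega
    have h2 := hA.gap
    rw [h1, Nat.cast_zero, mul_zero] at h2
    have h3 : (0 : ℝ) ≤ A.card := Nat.cast_nonneg _
    have h5 : (0 : ℝ) < N := by exact_mod_cast (by omega : 0 < N)
    have h4 : 0 < β * N := mul_pos hβ h5
    linarith
  have hLne : (labs D).Nonempty := by
    rw [← card_pos, hlD]
    rcases ht with rfl | rfl <;> omega
  have henv := env_D ht (A := A) (R := R) hA.unit hA.D_sub
  have hQ := emu_Q (N := N) A R (labs D)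
  obtain ⟨Q, hQd⟩ : ∃ Q : Finset ℕ, Q = Icc 1 N \ (A ∪ labs D ∪ R) := ⟨_, rfl⟩
  rw [← hQd] at henv hQ
  have hQ' : (N : ℝ) ≤ Q.card + (A.card + (labs D).card + R.card) := by exact_mod_cast hQ
  have hQN : (Q.card : ℝ) ≤ N := by
    have h1 : Q.card ≤ (Icc 1 N).card := by
      rw [hQd]
      exact card_le_card sdiff_subset
    rw [Nat.card_Icc] at h1
    exact_mod_cast (by omega : Q.card ≤ N)
  have hRQ : ∀ x ∈ R, x ∉ Q := by
    intro x hx hxQ
    rw [hQd, mem_sdiff, mem_union] at hxQ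
    exact hxQ.2 (Or.inr hx)
  -- the labels of the separator
  have hgR : ∀ s ∈ S, g s ∈ R := fun s hs => hg2 (Sum.inl s) (mem_items_inl.2 hs)
  have hgN : ∀ s ∈ S, g s ≤ N := fun s hs => (mem_Icc.1 (hR (hgR s hs))).2
  have hginj : Set.InjOn g (S : Set ℕ) := by
    intro a ha b hb hab
    have h1 := hg1 (mem_coe.2 (mem_items_inl.2 (mem_coe.1 ha)))
      (mem_coe.2 (mem_items_inl.2 (mem_coe.1 hb))) hab
    exact Sum.inl_injective h1
  -- the pieces
  obtain ⟨P₀, hP₀⟩ : ∃ P₀ : Finset (Fin np), P₀ = (univ : Finset (Fin np)).filter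
      (fun p => v₀ ∈ vx emb p) := ⟨_, rfl⟩
  have hP₀c : P₀.card ≤ 1 := by
    rw [hP₀]
    exact emu_p0 hD v₀
  obtain ⟨RU, hRU⟩ : ∃ RU : Finset (Fin np), RU = (univ : Finset (Fin np)).filter
      (fun p => ∃ v ∈ vx emb p, ty v = Ty.U) := ⟨_, rfl⟩
  have hRUc := emu_RU hD hKp
  rw [← hRU] at hRUc
  obtain ⟨nU, hnU⟩ : ∃ nU : ℕ, nU = ((range n).filter (fun v => ty v = Ty.U)).card := ⟨_, rfl⟩
  rw [← hnU] at hRUc hU
  have hU' : (n : ℝ) ≤ 8 * (D₁ * nU) := by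
    rw [hD₁]
    exact_mod_cast hU
  have hRUc' : (nU : ℝ) ≤ (RU.card : ℝ) * K := by exact_mod_cast hRUc
  have hKμN : 96 * D₁ * (K * (μ * N)) ≤ N := by
    have h1 := mul_le_mul_of_nonneg_right hμδ hN0
    linarith
  have hKμl : 16 * (K * (μ * N)) ≤ l * N := by
    have h1 := mul_le_mul_of_nonneg_right hμl hN0
    linarith
  have hKμε : 16 * (K * (μ * N)) ≤ εp * N := by
    have h1 := mul_le_mul_of_nonneg_right hμε hN0
    linarith
  have hceil1 : (⌈μ * N⌉₊ : ℝ) ≤ 2 * (μ * N) := by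
    have h1 := Nat.ceil_lt_add_one (a := μ * N) (by positivity)
    linarith
  have hNnU : (N : ℝ) ≤ 16 * (D₁ * nU) := by linarith
  have hKN : 6 * (K * (μ * N)) ≤ nU := by
    have h1 : 96 * D₁ * (K * (μ * N)) ≤ 16 * (D₁ * nU) := hKμN.trans hNnU
    have h2 : D₁ * (6 * (K * (μ * N))) ≤ D₁ * nU := by linarith
    exact le_of_mul_le_mul_left h2 hD₁p
  have hceil2 : ⌈μ * N⌉₊ ≤ (RU \ P₀).card := by
    have h1 : K * (6 * (μ * N)) ≤ K * (RU.card : ℝ) := by linarith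
    have h2 : 6 * (μ * N) ≤ RU.card := le_of_mul_le_mul_left h1 hKpos
    have h3 : (⌈μ * N⌉₊ : ℝ) + 1 ≤ RU.card := by linarith
    have h4 : ⌈μ * N⌉₊ + 1 ≤ RU.card := by exact_mod_cast h3
    have h5 := le_card_sdiff P₀ RU
    omega
  obtain ⟨Rs, hRs1, hRs2⟩ := exists_subset_card_eq hceil2
  have hRs3 : (Rs.card : ℝ) ≤ 2 * (μ * N) := by rw [hRs2]; exact hceil1
  obtain ⟨Y, hY⟩ : ∃ Y : Finset (Fin np), Y = Rs ∪ P₀ := ⟨_, rfl⟩
  have hYc : (Y.card : ℝ) ≤ 3 * (μ * N) := by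
    have h1 : Y.card ≤ Rs.card + 1 := by
      rw [hY]
      exact (card_union_le _ _).trans (Nat.add_le_add_left hP₀c _)
    have h2 : (Y.card : ℝ) ≤ Rs.card + 1 := by exact_mod_cast h1
    linarith
  obtain ⟨X, hX⟩ : ∃ X : Finset (Fin np), X = univ \ Y := ⟨_, rfl⟩
  have hXR : X.card + Y.card = np := by
    rw [hX, card_sdiff_add_card_eq_card (subset_univ Y), card_univ, Fintype.card_fin]
  have hsplit : ∀ g : Fin np → ℕ, ∑ p ∈ X, g p + ∑ p ∈ Y, g p = ∑ p, g p := by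
    intro g
    rw [hX]
    exact sum_sdiff (subset_univ Y)
  obtain ⟨u, hu⟩ : ∃ u : Fin np → ℕ, u = fun p => ((vx emb p).filter (fun v => ty v = Ty.U)).card :=
    ⟨_, rfl⟩
  have huK : ∀ p, u p ≤ K := fun p => by
    rw [hu]
    exact (card_filter_le _ _).trans ((vx_card hD p).le.trans (hKp p))
  have hYK : ∀ g : Fin np → ℕ, (∀ p, g p ≤ K) → ∑ p ∈ Y, g p ≤ Y.card * K := fun g hg => by
    rw [← smul_eq_mul, ← sum_const]
    exact sum_le_sum fun p _ => hg p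
  have hutot : ∑ p, u p = nU := by
    rw [hu, hnU]
    exact units_sum hD
  obtain ⟨e2, he2⟩ : ∃ e2 : ℕ, e2 = ∑ p ∈ X, u p := ⟨_, rfl⟩
  have hYK2 : (Y.card : ℝ) * K ≤ 3 * (K * (μ * N)) := by
    have h1 := mul_le_mul_of_nonneg_right hYc hKpos.le
    linarith
  have he2δ : 1 / (32 * D₁) * N ≤ e2 := by
    have h1 := hsplit u
    have h2 := hYK u huK
    rw [← he2, hutot] at h1
    have h3 : (nU : ℝ) ≤ e2 + Y.card * K := by exact_mod_cast (by omega)
    have h4 : (nU : ℝ) ≤ 2 * e2 := by linarith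
    have h5 : (N : ℝ) ≤ (32 * D₁) * e2 := by
      have h6 := mul_le_mul_of_nonneg_left h4 hD₁p.le
      linarith
    rw [one_div, inv_mul_le_iff₀ (by positivity)]
    exact h5
  have hS1 : 1 ≤ S.card := card_pos.2 ⟨0, hD.zero_mem⟩
  have hsk := sum_k hD
  have hskX := hsplit (fun p => (pc p).k + 1)
  have hskR := hYK (fun p => (pc p).k + 1) hKp
  obtain ⟨sX, hsX⟩ : ∃ sX : ℕ, sX = ∑ p ∈ X, ((pc p).k + 1) := ⟨_, rfl⟩
  rw [← hsX] at hskX
  have hsX1 : (n : ℝ) ≤ sX + Y.card * K + S.card := by exact_mod_cast (by omega)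
  have hsX2 : sX + S.card ≤ n := by omega
  have hwfb : ∀ p, (pc p).WFB N (bdc par S emb g p) := fun p => bdc_wfb hpar hsep htyb hD hgN p
  obtain ⟨M, φ, hMX, hval, hdis, hMc, hUc⟩ := hN₁ N (by omega) t Q (labs D) (rpD D) (prtD D) henv
    (by
      have h1 := hA.A_le
      linarith) hLne (by linarith) np pc (fun p => bdc par S emb g p) X (fun p _ => hwfb p)
    (fun p _ => hKp p)
    (by
      intro p _ i c hc
      obtain ⟨s, hs, -, hsc⟩ := bdc_mem hD hc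
      have h1 := hgR s hs
      rw [hsc] at h1
      exact ⟨(mem_Icc.1 (hR h1)).1, hRQ c h1⟩) e2
    (by
      rw [he2, hu]
      exact sum_congr rfl fun p _ => (cnt_OP hD hpar p).symm)
    (by
      rw [he2, hu]
      exact sum_congr rfl fun p _ => (cnt_PU hD p).symm)
    (by
      rw [he2, hu, mul_sum]
      exact sum_congr rfl fun p _ => (cnt_UP hD hpar (by omega) p).symm)
    (by
      have h1 : ∑ p ∈ X, (pc p).cnt Ty.P Ty.O ≤ D₀ * t * e2 := by
        rw [he2, hu, mul_sum]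
        exact sum_le_sum fun p _ => cnt_POB hpar hD (by omega) htyb.deg p
      have h2 : D₀ * t * e2 ≤ D₀ * 2 * e2 := Nat.mul_le_mul_right _ (Nat.mul_le_mul_left _ ht2)
      have h3 : ((∑ p ∈ X, (pc p).cnt Ty.P Ty.O : ℕ) : ℝ) ≤ D₀ * 2 * e2 := by
        exact_mod_cast h1.trans h2
      have h4 : (0 : ℝ) ≤ e2 := Nat.cast_nonneg _
      linarith) he2δ
    (by
      rw [← hsX]
      have h5 : (S.card : ℝ) ≤ s2 := hSr
      linarith)
    (by
      have h2 : (X.card : ℝ) ≤ s2 := by exact_mod_cast (by omega)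
      linarith)
    (by
      rw [← hsX]
      omega) β hβ.le
    (by
      rw [← hsX, rp_image ht hA.unit]
      have h1 := hA.gap
      have h2 : ((labs D).card : ℝ) = t * D.card := by exact_mod_cast hlD
      have h3 : ((sX + S.card : ℕ) : ℝ) ≤ n := by exact_mod_cast hsX2
      push_cast at h3
      have h4 : (1 : ℝ) ≤ S.card := by exact_mod_cast hS1
      have h5 : (0 : ℝ) ≤ X.card := Nat.cast_nonneg _
      have h6 := mul_le_mul_of_nonneg_left hQN hβ.le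
      nlinarith)
    (by
      have h1 : ∑ p ∈ X, ((pc p).invo (bdc par S emb g p)).card ≤ s2 := by
        rw [hs2]
        refine le_trans ?_ (invo_card hpar hD g)
        exact sum_le_sum_of_subset (subset_univ X)
      have h2 : ((∑ p ∈ X, ((pc p).invo (bdc par S emb g p)).card : ℕ) : ℝ) ≤ s2 := by
        exact_mod_cast h1
      have h3 := mul_le_mul_of_nonneg_left h2 (by positivity : 0 ≤ 5 * C)
      linarith)
    (by
      intro c
      have hΔ : ∀ v < n, pdeg n par v ≤ n / m' := by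
        intro v hv
        rw [Nat.le_div_iff_mul_le (by omega), mul_comm]
        exact hmax n par (by omega) hui v hv
      have h1 : ∑ p ∈ X, (univ.filter (fun i => bdc par S emb g p i = some c)).card ≤ n / m' := by
        refine le_trans ?_ (mult_card hpar hD hginj hΔ c)
        exact sum_le_sum_of_subset (subset_univ X)
      have h2 : (((n / m' : ℕ) : ℝ)) * m' ≤ n := by
        exact_mod_cast Nat.div_mul_le_self n m'
      have h3 : ((∑ p ∈ X, (univ.filter (fun i => bdc par S emb g p i = some c)).card : ℕ) : ℝ) ≤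
          ((n / m' : ℕ) : ℝ) := by exact_mod_cast h1
      have h4 : (0 : ℝ) ≤ ((n / m' : ℕ) : ℝ) := Nat.cast_nonneg _
      have h5 : ((n / m' : ℕ) : ℝ) ≤ κ₀ * n := by
        have h6 := mul_le_mul_of_nonneg_right hm'κ h4
        have h7 := mul_le_mul_of_nonneg_left h2 hκ₀.le
        linarith
      have h8 : κ₀ * n ≤ κ₀ * N := mul_le_mul_of_nonneg_left hnN' hκ₀.le
      linarith)
  -- the hosts
  have hMQ : ∀ r ∈ (labs D).image (rpD D), r ∉ Q := by
    intro r hr hrQ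
    obtain ⟨x, hx, rfl⟩ := mem_image.1 hr
    exact Finset.disjoint_left.1 henv.QL hrQ (henv.rp_mem x hx)
  have hUeq : ((labs D).image (rpD D)).filter
        (fun r => ∀ p ∈ M, r ∉ (pc p).usedB Q (rpD D) (bdc par S emb g p) (φ p)) =
      ((labs D).image (rpD D)).filter (fun r => ∀ p ∈ M, r ∉ (pc p).usedS Q (rpD D) (φ p)) := by
    refine filter_congr fun r hr => ?_
    refine forall₂_congr fun p hp => not_congr ?_
    exact emu_usB (hval p hp) (hMQ r hr)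
  rw [hUeq] at hUc
  obtain ⟨H, hv, hr, hH1, hH2, hH3⟩ := choose_hosts (emb := emb) (ty := ty) Rs
    (fun p hp => by
      have h1 := (mem_sdiff.1 (hRs1 hp)).1
      rw [hRU, mem_filter] at h1
      exact h1.2) _ (by
      rw [hRs2]
      have h1 := hUc.trans (Nat.le_ceil (μ * N))
      exact_mod_cast h1)
  have hMY : ∀ p ∈ M, p ∉ Y := by
    intro p hp
    have h1 := hMX hp
    rw [hX, mem_sdiff] at h1
    exact h1.2
  have hG : Gl n t np N par S ty pc emb Q (labs D) (rpD D) (prtD D) M H φ hv hr :=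
    { deco := hD
      hpar := hpar
      env := henv
      valid := fun p hp => (hval p hp).val
      disj := fun p hp q hq hpq => disjoint_of_subset_left emu_sub
        (disjoint_of_subset_right emu_sub (hdis p hp q hq hpq))
      HM := by
        rw [Finset.disjoint_left]
        intro p hp hpH
        refine hMY p hp ?_
        rw [hY]
        exact mem_union_left _ (hH1 hpH)
      hv_mem := hH3
      hr_bij := by
        rw [coe_filter] at hH2
        exact hH2 }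
  have hGB : GlB n t np N D₀ par S ty pc emb Q (labs D) (rpD D) (prtD D) M H φ hv hr g :=
    { gl := hG
      sep := hsep
      tyb := htyb
      vb := hval
      db := hdis
      g_inj := hg1
      g_val := fun x hx => ⟨hRQ _ (hg2 x hx), fun hc =>
        Finset.disjoint_left.1 hA.DR hc (hg2 x hx)⟩ }
  obtain ⟨f, W, Λ, g1, g2, g3, g3', g3'', g4, g5, g6, g7, g8, g9, g10⟩ := glueB hGB
  refine ⟨f, W, Λ, g1, g2, g3, g3', g3'', ?_, g4, ?_, ?_, ?_, ?_, ?_, g10⟩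
  · intro hv₀S
    obtain ⟨p, i, hpi⟩ := hD.emb_surj v₀ hv₀ hv₀S
    have hvp : v₀ ∈ vx emb p := Finset.mem_image.2 ⟨i, mem_univ _, hpi⟩
    have hpP : p ∈ P₀ := by
      rw [hP₀]
      exact mem_filter.2 ⟨mem_univ _, hvp⟩
    have hpM : p ∉ M := fun hc => hMY p hc (by
      rw [hY]
      exact mem_union_right _ hpP)
    have hpH : p ∉ H := fun hc => (mem_sdiff.1 (hRs1 (hH1 hc))).2 hpP
    have hdW := g9 p hpM hpH
    rw [Finset.disjoint_left] at hdW
    refine ⟨hdW hvp, fun hc => ?_⟩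
    obtain ⟨h1, h2⟩ := g1 v₀ hc
    obtain ⟨h3, h5, h6, h7, -⟩ := hD.tyok.U1 v₀ h1 h2
    exact hdW ((vx_par hD hpar h1 h3 h5 h7).1 hvp) (g6 v₀ hc).1
  · intro x hx
    rcases g5 x hx with (h1 | h1) | ⟨h1, h2⟩
    · have h1' := h1
      rw [hQd, mem_sdiff, mem_union, mem_union, mem_Icc, not_or, not_or] at h1
      exact ⟨h1.1.1, h1.1.2, h1.2.1.1, fun h3 => absurd h1' (hRQ _ h3)⟩
    · have h2 := mem_Icc.1 (hA.D_sub h1)
      exact ⟨h2.1, h2.2, fun h3 => Finset.disjoint_left.1 hA.AD h3 h1,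
        fun h3 => absurd h3 (Finset.disjoint_left.1 hA.DR h1)⟩
    · rw [h2]
      have h3 := hg2 x h1
      have h5 := mem_Icc.1 (hR h3)
      exact ⟨h5.1, h5.2, fun h6 => Finset.disjoint_left.1 hA.AR h6 h3, fun _ => h1⟩
  · exact fun v hv => ⟨(g6 v hv).1, fun c hc => ((g6 v hv).2.2 c hc).1⟩
  · exact emu_bij ht hA.unit (fun v hv => (g6 v hv).2.1) g7
  · intro v hv
    obtain ⟨h1, h2⟩ := g1 v hv
    obtain ⟨h3, h4, h5, h6, h7, h8⟩ := hD.tyok.U1 v h1 h2
    exact emu_nb ht hA.unit (fun x hx => (henv.fib x hx).1) h3 h5 (g6 v hv).2.1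
      (fun c hc => ((g6 v hv).2.2 c hc).2)
  · have h1 := emu_rest hD hKp g3' g8
    have h2 : ((((range n \ Λ) \ W).card : ℕ) : ℝ) ≤ ((univ \ M).card : ℕ) * K := by
      exact_mod_cast h1
    refine h2.trans ?_
    have h3 : (univ \ M).card + M.card = np := by
      rw [card_sdiff_add_card_eq_card (subset_univ M), card_univ, Fintype.card_fin]
    have h4 : (((univ \ M).card : ℕ) : ℝ) ≤ 4 * (μ * N) := by
      have h5 : (((univ \ M).card : ℕ) : ℝ) + M.card = X.card + Y.card := by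
        exact_mod_cast h3.trans hXR.symm
      linarith
    have h5 : (((univ \ M).card : ℕ) : ℝ) * K ≤ 4 * (μ * N) * K :=
      mul_le_mul_of_nonneg_right h4 hKpos.le
    have h6 : 0 ≤ K * (μ * N) := by positivity
    linarith

end SSB
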