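import Pool.Agent.Lib.MP_8a819d_co.UI.EmF
import Pool.Agent.Lib.MP_8a819d_co.BD.Zf
import Pool.Agent.Lib.MP_8a819d_co.BD.Ab

/-! # MP_8a819d_co: large trees with uniformly integrable degrees are simply sequential -/

set_option autoImplicit false

namespace SSB

open Finset

/-- large parent arrays with uniformly integrable degrees are simply sequential -/
theorem ui_goal (h : ℕ → ℕ) : ∃ n₀ : ℕ, ∀ (n : ℕ) (par : ℕ → ℕ), n₀ ≤ n → IsPar n par →
    UIc n par h → SSP n par := by
  obtain ⟨n₁, h₁⟩ := SSP_ofC 1 abs1 _ (embU 1 (Or.inl rfl) h)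
  obtain ⟨n₂, h₂⟩ := SSP_ofC 2 abs2 _ (embU 2 (Or.inr rfl) h)
  refine ⟨max 2 (max n₁ n₂), fun n par hn hpar hui => ?_⟩
  have a1 : 2 ≤ n := le_trans (le_max_left _ _) hn
  have a2 : n₁ ≤ n := le_trans (le_trans (le_max_left _ _) (le_max_right _ _)) hn
  have a3 : n₂ ≤ n := le_trans (le_trans (le_max_right _ _) (le_max_right _ _)) hn
  rcases many_low n par a1 hpar with hc | hc
  · exact h₁ n a2 par hpar hui hc
  · exact h₂ n a3 par hpar hui hc

end SSB
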