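import Pool.Agent.Lib.MP_8a819d_co.UI.Zu
import Pool.Agent.Lib.MP_8a819d_co.UI.FinU

/-!
# MP_8a819d_co, uniformly integrable degrees: consequences of the theorem for parent arrays

`ui_graph`: for `SimpleGraph`. `sq_graph`: bounded mean of the squares of the degrees.
`almost_all`: all but `o(1)` of the labelled trees.
-/

set_option autoImplicit false

namespace SSB

open Finset Classical

theorem ui_graph (h : ℕ → ℕ) : ∃ n₀ : ℕ, ∀ (n : ℕ) (G : SimpleGraph (Fin n)), n₀ ≤ n →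
    G.IsTree → (∀ k, 1 ≤ k → k * ∑ v ∈ (univ : Finset (Fin n)).filter
      (fun v => h k < (G.neighborSet v).ncard), (G.neighborSet v).ncard ≤ n) → SSq.Simply G := by
  obtain ⟨n₀, h₀⟩ := ui_goal h
  refine ⟨n₀, fun n G hn hG hu => ?_⟩
  obtain ⟨par, σ, hpar, hd, hS⟩ := tree_to_parU hG
  refine hS (h₀ n par hn hpar (uic_of_graph hd ?_))
  exact hu

theorem sq_graph (C : ℕ) : ∃ n₀ : ℕ, ∀ (n : ℕ) (G : SimpleGraph (Fin n)), n₀ ≤ n →
    G.IsTree → ∑ v, (G.neighborSet v).ncard ^ 2 ≤ C * n → SSq.Simply G := by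
  obtain ⟨n₀, h₀⟩ := ui_graph (fun k => (C + 1) * k)
  refine ⟨n₀, fun n G hn hG hu => h₀ n G hn hG fun k hk => ?_⟩
  have h1 : (C + 1) * k * ∑ v ∈ (univ : Finset (Fin n)).filter
      (fun v => (C + 1) * k < (G.neighborSet v).ncard), (G.neighborSet v).ncard ≤
      ∑ v, (G.neighborSet v).ncard ^ 2 := by
    rw [mul_sum]
    refine le_trans (sum_le_sum fun v hv => ?_)
      (sum_le_sum_of_subset (filter_subset (fun v => (C + 1) * k < (G.neighborSet v).ncard) univ))
    rw [mem_filter] at hv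
    rw [pow_two]
    exact Nat.mul_le_mul hv.2.le le_rfl
  have h2 : (C + 1) * (k * ∑ v ∈ (univ : Finset (Fin n)).filter
      (fun v => (C + 1) * k < (G.neighborSet v).ncard), (G.neighborSet v).ncard) ≤ (C + 1) * n := by
    rw [← mul_assoc]
    refine h1.trans (hu.trans ?_)
    exact Nat.mul_le_mul (Nat.le_succ C) le_rfl
  exact Nat.le_of_mul_le_mul_left h2 (Nat.succ_pos C)

theorem almost_all (ε : ℝ) (hε : 0 < ε) : ∃ n₀ : ℕ, ∀ n : ℕ, n₀ ≤ n →
    (({G : SimpleGraph (Fin n) | G.IsTree ∧ ¬ SSq.Simply G}.ncard : ℕ) : ℝ) ≤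
      ε * (({G : SimpleGraph (Fin n) | G.IsTree}.ncard : ℕ) : ℝ) := by
  obtain ⟨C, hC⟩ := exists_nat_gt (6 / ε)
  obtain ⟨n₀, h₀⟩ := sq_graph C
  refine ⟨max n₀ 1, fun n hn => ?_⟩
  have hn0 := (le_max_left n₀ 1).trans hn
  have hn1 := (le_max_right n₀ 1).trans hn
  have h1 : {G : SimpleGraph (Fin n) | G.IsTree}.ncard = (trees n).card := by
    rw [← Set.ncard_coe_finset]
    congr 1
    ext G
    simp [trees]
  have h2 : {G : SimpleGraph (Fin n) | G.IsTree ∧ ¬ SSq.Simply G}.ncard ≤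
      ((trees n).filter (fun G => C * n < ∑ v, dg G v ^ 2)).card := by
    rw [← Set.ncard_coe_finset]
    refine Set.ncard_le_ncard ?_ (Set.toFinite _)
    intro G hG
    rw [mem_coe, mem_filter]
    refine ⟨mem_filter.2 ⟨mem_univ _, hG.1⟩, ?_⟩
    by_contra hc
    refine hG.2 (h₀ n G hn0 hG.1 ?_)
    simp only [dg_eq]
    exact not_lt.1 hc
  have h3 := few_large n C hn1
  have h4 : (C : ℝ) * (((trees n).filter (fun G => C * n < ∑ v, dg G v ^ 2)).card : ℝ) ≤
      6 * ((trees n).card : ℝ) := by exact_mod_cast h3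
  have hC0 : 0 < (C : ℝ) := lt_trans (by positivity) hC
  have h5 : 6 < (C : ℝ) * ε := by
    rw [div_lt_iff₀ hε] at hC
    exact hC
  have h6 : (((trees n).filter (fun G => C * n < ∑ v, dg G v ^ 2)).card : ℝ) ≤
      ε * ((trees n).card : ℝ) := by
    by_contra hcon
    push Not at hcon
    have h7 : (0 : ℝ) ≤ ((trees n).card : ℝ) := Nat.cast_nonneg _
    have h8 := mul_lt_mul_of_pos_left hcon hC0
    nlinarith
  rw [h1]
  exact (Nat.cast_le.2 h2).trans h6

end SSB
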