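import Pool.Agent.Lib.MP_8a819d_co.UI.PB0

/-!
# MP_8a819d_co, uniformly integrable degrees: pieces with boundary, 1. The random piece is good

JOB PB1a: `rnd_ok`, `rnd_lb`. JOB PB1b: `rnd_bad`, `rnd_good`, `rnd_rule`, `rnd_val`, `rnd_use`. Compare `BD/Pk1.lean`.

`rnd_ok` (compare `pk_ok`): for `i ≠ 0` there are three cases: `bd (par i) = some c` (then `ty i = O`, `bd i = none` by `dn`): `kbo_sum`, `kbo_cons`;
`bd (par i) = none`, `bd i = some c` (`ty (par i) = O` by `up`): `kob_sum`, `kob_cons`; both `none`: `K_sum`, `cons` with `WF.ok`. The sums over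
`Fin (N + 1)` are sums over `range (N + 1)` (`Fin.sum_univ_eq_sum_range`). The root: `bd 0 = some c`: `mb_sum`.
`rnd_lb`: the root: `bd 0 = some c`, `U 0 y y ⊆ {y, dd y c}`: at most `3` values `y` with `z ∈ U`, each of probability at most `C / N`. `i ≠ 0`: both
`none`: `U ⊆ us`, `bdK`. `bd (par i) = some c`: `U ⊆ us O O x y = {y, dd x y}`, at most `3` values `y` for given `x, z`, `kbo_le`. `bd i = some c`:
`U ⊆ {y, dd x y, dd y c}`: at most `5` values `y`, `kob_le`.
`rnd_bad`: the root: `y = dd y c`: at most one `y` (`c = 2 y`, or `c = 0`: then `dd y 0 = y` for all `y`, but `mb 0 y ≠ 0` and `y = dd y c ∈ Q`; to exclude this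
the constants are `≥ 1`, see the hypothesis `hc0`), probability at most `C / N`. `i ≠ 0` (`cw_edge`): `y ∈ Q`, `y = dd x y`: both `none`: `bdS`; otherwise
for given `x` at most one `y` (`2 y = x`, as `y ∈ Q` is positive, so `x > y`), `kbo_le`, `kob_le`; `bd i = some c`: `dd y c = y` (at most one `y`) or
`dd y c = dd x y` (`x = c` or `2 y = x + c`; `x = c` is impossible as `x ∈ Q` (`kob_rule`) and `c ∉ Q`, hypothesis `hcQ`): at most one `y` for each `x`.
The total is at most `3 C / N`.
`rnd_rule` (compare `pk_rule`): if `cp φ ≠ 0` then all laws `Mg i (φ i)` are positive (strong induction with `ChOK.cons`), all `rule`s hold and `dd (φ i) c ∈ Q` at the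
boundary vertices (`mb_supp`, `kbo_rule`, `kob_rule`, `cd.rule`).
`rnd_val`: `Val φ` gives `ValidB`: `rule`, `bdQ` by `rnd_rule`; `self`, `bds` by `nbad`; the used labels are at most `N` (`used_le` in `BD/Pk1.lean`: `us_le_N`), so the
filter in `U` does nothing (`rnd_use`) and `disj` is `Val.disj`.
-/

set_option autoImplicit false

namespace SSB

open Finset

variable {N t : ℕ} {Q L : Finset ℕ} {rp prt : ℕ → ℕ} {np C σ : ℝ} {c : Ty → Ty → ℝ}
  {M : Ty → ℕ → ℝ} {K : Ty → Ty → ℕ → ℕ → ℝ} {mb : ℕ → ℕ → ℝ} {kbo kob : ℕ → ℕ → ℕ → ℝ}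
  {p : Piece} {bd : Fin (p.k + 1) → Option ℕ}

private theorem pb1a_few {b : ℝ} (hb : 0 ≤ b) {f : ℕ → ℝ} (hf : ∀ y, f y ≤ b)
    (P : ℕ → Prop) [DecidablePred P] (S : Finset ℕ) (n : ℕ) (hS : S.card ≤ n) (hP : ∀ y, P y → y ∈ S) :
    ∑ y : Fin (N + 1), f y * (if P y then 1 else 0) ≤ n * b := by
  rw [Fin.sum_univ_eq_sum_range (fun y => f y * (if P y then (1 : ℝ) else 0)) (N + 1)]
  have h1 : ∀ y ∈ range (N + 1), f y * (if P y then (1 : ℝ) else 0) ≤ if y ∈ S then b else 0 := by
    intro y _
    by_cases h : P y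
    · rw [if_pos h, if_pos (hP y h), mul_one]
      exact hf y
    · rw [if_neg h, mul_zero]
      split_ifs
      · exact hb
      · exact le_rfl
  refine (Finset.sum_le_sum h1).trans ?_
  rw [← Finset.sum_filter, Finset.sum_const, nsmul_eq_mul]
  refine mul_le_mul_of_nonneg_right ?_ hb
  have h2 : ((range (N + 1)).filter (· ∈ S)).card ≤ S.card :=
    Finset.card_le_card fun y hy => (Finset.mem_filter.1 hy).2
  exact_mod_cast h2.trans hS

theorem rnd_ok (h : ChainB N Q L rp prt np c C σ M K mb kbo kob) (hp : p.WFB N bd) :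
    ChOK (p.rnd N Q rp M K mb kbo kob bd).par (p.rnd N Q rp M K mb kbo kob bd).m
      (p.rnd N Q rp M K mb kbo kob bd).κ (p.rnd N Q rp M K mb kbo kob bd).Mg := by
  refine { par_zero := hp.wf.par_zero, par_lt := hp.wf.par_lt, m_nn := ?_, m_sum := ?_,
           κ_nn := ?_, κ_sum := ?_, root := rfl, cons := ?_ }
  · intro x
    show 0 ≤ lawB M mb (p.ty 0) (bd 0) x
    rcases h0 : bd 0 with _ | c
    · exact h.cd.M_nn _ _
    · exact h.mb_nn c (hp.le 0 c h0) _
  · show ∑ x : Fin (N + 1), lawB M mb (p.ty 0) (bd 0) x = 1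
    rw [Fin.sum_univ_eq_sum_range (fun x => lawB M mb (p.ty 0) (bd 0) x) (N + 1)]
    rcases h0 : bd 0 with _ | c
    · exact h.cd.M_sum _
    · exact h.mb_sum c (hp.le 0 c h0)
  · intro i x y
    show 0 ≤ trB K kbo kob (p.ty (p.par i)) (p.ty i) (bd (p.par i)) (bd i) x y
    rcases h0 : bd (p.par i) with _ | c
    · rcases h1 : bd i with _ | c
      · exact h.cd.K_nn _ _ _ _
      · exact h.kob_nn c (hp.le i c h1) _ _
    · exact h.kbo_nn c (hp.le _ c h0) _ _
  · intro i hi x
    have hi' : i ≠ (0 : Fin (p.k + 1)) := hi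
    show ∑ y : Fin (N + 1), trB K kbo kob (p.ty (p.par i)) (p.ty i) (bd (p.par i)) (bd i) x y = 1
    rw [Fin.sum_univ_eq_sum_range
      (fun y => trB K kbo kob (p.ty (p.par i)) (p.ty i) (bd (p.par i)) (bd i) x y) (N + 1)]
    rcases h0 : bd (p.par i) with _ | c
    · rcases h1 : bd i with _ | c
      · exact h.cd.K_sum _ _ _ (hp.wf.ok i hi')
      · exact h.kob_sum c (hp.le i c h1) _
    · exact h.kbo_sum c (hp.le _ c h0) _
  · intro i hi y
    have hi' : i ≠ (0 : Fin (p.k + 1)) := hi
    show ∑ x : Fin (N + 1), lawB M mb (p.ty (p.par i)) (bd (p.par i)) x *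
      trB K kbo kob (p.ty (p.par i)) (p.ty i) (bd (p.par i)) (bd i) x y = lawB M mb (p.ty i) (bd i) y
    rw [Fin.sum_univ_eq_sum_range
      (fun x => lawB M mb (p.ty (p.par i)) (bd (p.par i)) x *
        trB K kbo kob (p.ty (p.par i)) (p.ty i) (bd (p.par i)) (bd i) x y) (N + 1)]
    rcases h0 : bd (p.par i) with _ | c
    · rcases h1 : bd i with _ | c
      · exact h.cd.cons _ _ _ (hp.wf.ok i hi') (Nat.lt_succ_iff.1 y.2)
      · have h2 := hp.up i hi' (by rw [h1]; exact Option.some_ne_none c)
        rw [h2.1]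
        exact h.kob_cons c (hp.le i c h1) _
    · have h2 := hp.dn i hi' (by rw [h0]; exact Option.some_ne_none c)
      rw [h2.2.2, h2.2.1]
      exact h.kbo_cons c (hp.le _ c h0) _

theorem rnd_lb (h : ChainB N Q L rp prt np c C σ M K mb kbo kob) (hp : p.WFB N bd)
    (i : Fin (p.k + 1)) (z : ℕ) :
    LB (p.rnd N Q rp M K mb kbo kob bd).m (p.rnd N Q rp M K mb kbo kob bd).κ i
      (fun x y => if z ∈ (p.rnd N Q rp M K mb kbo kob bd).U i x y then 1 else 0) (5 * C / N) := by
  have hC : 0 ≤ C / (N : ℝ) := div_nonneg h.cd.C_pos.le (Nat.cast_nonneg _)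
  have e5 : 5 * C / (N : ℝ) = 5 * (C / N) := mul_div_assoc _ _ _
  have h35 : ((3 : ℕ) : ℝ) * (C / N) ≤ 5 * (C / N) := by
    push_cast
    linarith
  have h55 : ((5 : ℕ) : ℝ) * (C / N) ≤ 5 * (C / N) := by
    push_cast
    exact le_rfl
  refine ⟨?_, ?_, ?_⟩
  · intro x y
    show (0 : ℝ) ≤ if z ∈ (p.rnd N Q rp M K mb kbo kob bd).U i x y then 1 else 0
    split_ifs
    · exact zero_le_one
    · exact le_rfl
  · intro hi
    subst hi
    rw [e5]
    rcases h0 : bd 0 with _ | c
    · exact absurd h0 hp.root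
    · have hcN := hp.le 0 c h0
      refine le_trans (le_of_eq_of_le ?_ (pb1a_few (N := N) hC (f := fun y => mb c y)
        (fun y => h.mb_le c hcN y)
        (fun y => z ∈ (p.rnd N Q rp M K mb kbo kob bd).U 0 y y) {z, c + z, c - z} 3
        Finset.card_le_three ?_)) h35
      · refine Finset.sum_congr rfl fun y _ => ?_
        show lawB M mb (p.ty 0) (bd 0) y * _ = _
        rw [h0]
        rfl
      · intro y hy
        have hy' : z ∈ (({y} : Finset ℕ) ∪ bds (bd 0) y) := (Finset.mem_filter.1 hy).1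
        rw [h0] at hy'
        have hy2 : z ∈ (({y} : Finset ℕ) ∪ {dd y c}) := hy'
        rw [Finset.mem_union, Finset.mem_singleton, Finset.mem_singleton] at hy2
        rw [Finset.mem_insert, Finset.mem_insert, Finset.mem_singleton]
        unfold dd at hy2
        omega
  · intro hi x
    have hi' : i ≠ (0 : Fin (p.k + 1)) := hi
    have hU : ∀ y : ℕ, z ∈ (p.rnd N Q rp M K mb kbo kob bd).U i x y →
        z ∈ us Q rp (p.ty (p.par i)) (p.ty i) x y ∪ bds (bd i) y := by
      intro y hy
      have hy' : z ∈ (if i = 0 then ({y} : Finset ℕ) else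
        us Q rp (p.ty (p.par i)) (p.ty i) x y) ∪ bds (bd i) y := (Finset.mem_filter.1 hy).1
      rw [if_neg hi'] at hy'
      exact hy'
    rw [e5]
    rcases h0 : bd (p.par i) with _ | c
    · rcases h1 : bd i with _ | c
      · refine le_trans ?_ (le_trans (h.cd.bdK (p.ty (p.par i)) (p.ty i) x z (hp.wf.ok i hi'))
          (by linarith))
        rw [← Fin.sum_univ_eq_sum_range (fun y => (if z ∈ us Q rp (p.ty (p.par i)) (p.ty i) x y then
          K (p.ty (p.par i)) (p.ty i) x y else 0)) (N + 1)]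
        refine Finset.sum_le_sum fun y _ => ?_
        show trB K kbo kob (p.ty (p.par i)) (p.ty i) (bd (p.par i)) (bd i) x y * _ ≤ _
        rw [h0, h1]
        show K (p.ty (p.par i)) (p.ty i) x y *
          (if z ∈ (p.rnd N Q rp M K mb kbo kob bd).U i x y then 1 else 0) ≤ _
        by_cases hz : z ∈ (p.rnd N Q rp M K mb kbo kob bd).U i x y
        · have hz' := hU y hz
          rw [h1] at hz'
          have hz2 : z ∈ us Q rp (p.ty (p.par i)) (p.ty i) x y := by
            rcases Finset.mem_union.1 hz' with h2 | h2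
            · exact h2
            · exact absurd h2 (Finset.notMem_empty z)
          rw [if_pos hz, if_pos hz2, mul_one]
        · rw [if_neg hz, mul_zero]
          split_ifs
          · exact h.cd.K_nn _ _ _ _
          · exact le_rfl
      · have hcN := hp.le i c h1
        have h2 := hp.up i hi' (by rw [h1]; exact Option.some_ne_none c)
        refine le_trans (le_of_eq_of_le ?_ (pb1a_few (N := N) hC (f := fun y => kob c x y)
          (fun y => h.kob_le c hcN x y)
          (fun y => z ∈ (p.rnd N Q rp M K mb kbo kob bd).U i x y)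
          {z, x + z, x - z, c + z, c - z} 5 Finset.card_le_five ?_)) h55
        · refine Finset.sum_congr rfl fun y _ => ?_
          show trB K kbo kob (p.ty (p.par i)) (p.ty i) (bd (p.par i)) (bd i) x y * _ = _
          rw [h0, h1]
          rfl
        · intro y hy
          have hy' := hU y hy
          rw [h1, h2.1, h2.2.1] at hy'
          have hy2 : z ∈ (({(y : ℕ), dd x y} : Finset ℕ) ∪ {dd y c}) := hy'
          rw [Finset.mem_union, Finset.mem_insert, Finset.mem_singleton, Finset.mem_singleton] at hy2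
          rw [Finset.mem_insert, Finset.mem_insert, Finset.mem_insert, Finset.mem_insert,
            Finset.mem_singleton]
          unfold dd at hy2
          omega
    · have hcN := hp.le _ c h0
      have h2 := hp.dn i hi' (by rw [h0]; exact Option.some_ne_none c)
      refine le_trans (le_of_eq_of_le ?_ (pb1a_few (N := N) hC (f := fun y => kbo c x y)
        (fun y => h.kbo_le c hcN x y)
        (fun y => z ∈ (p.rnd N Q rp M K mb kbo kob bd).U i x y)
        {z, x + z, x - z} 3 Finset.card_le_three ?_)) h35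
      · refine Finset.sum_congr rfl fun y _ => ?_
        show trB K kbo kob (p.ty (p.par i)) (p.ty i) (bd (p.par i)) (bd i) x y * _ = _
        rw [h0]
        rfl
      · intro y hy
        have hy' := hU y hy
        rw [h2.2.2, h2.1, h2.2.1] at hy'
        have hy2 : z ∈ (({(y : ℕ), dd x y} : Finset ℕ) ∪ ∅) := hy'
        rw [Finset.union_empty, Finset.mem_insert, Finset.mem_singleton] at hy2
        rw [Finset.mem_insert, Finset.mem_insert, Finset.mem_singleton]
        unfold dd at hy2
        omega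

private theorem pb1b_law_nn (h : ChainB N Q L rp prt np c C σ M K mb kbo kob) (hp : p.WFB N bd)
    (i : Fin (p.k + 1)) (x : ℕ) : 0 ≤ lawB M mb (p.ty i) (bd i) x := by
  cases hb : bd i with
  | none => exact h.cd.M_nn _ _
  | some c => exact h.mb_nn c (hp.le i c hb) x

private theorem pb1b_law_sum (h : ChainB N Q L rp prt np c C σ M K mb kbo kob) (hp : p.WFB N bd)
    (i : Fin (p.k + 1)) : ∑ x : Fin (N + 1), lawB M mb (p.ty i) (bd i) x = 1 := by
  rw [Fin.sum_univ_eq_sum_range (fun x => lawB M mb (p.ty i) (bd i) x) (N + 1)]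
  cases hb : bd i with
  | none => exact h.cd.M_sum _
  | some c => exact h.mb_sum c (hp.le i c hb)

private theorem pb1b_tr_nn (h : ChainB N Q L rp prt np c C σ M K mb kbo kob) (hp : p.WFB N bd)
    (i : Fin (p.k + 1)) (x y : ℕ) :
    0 ≤ trB K kbo kob (p.ty (p.par i)) (p.ty i) (bd (p.par i)) (bd i) x y := by
  cases hb : bd (p.par i) with
  | some c => exact h.kbo_nn c (hp.le _ c hb) x y
  | none =>
    cases hb' : bd i with
    | none => exact h.cd.K_nn _ _ _ _
    | some c => exact h.kob_nn c (hp.le _ c hb') x y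

open Classical in
private theorem pb1b_prB_zero (P : RP N) (hok : ChOK P.par P.m P.κ P.Mg) :
    P.prB 0 = ∑ y : Fin (N + 1), P.Mg 0 y * (if P.Bd 0 y y then 1 else 0) := by
  rw [← cw_one hok 0 (fun y : Fin (N + 1) => if P.Bd 0 y y then (1 : ℝ) else 0)]
  unfold RP.prB
  refine Finset.sum_congr rfl fun φ _ => ?_
  rw [hok.par_zero]
  by_cases h4 : P.Bd 0 (φ 0) (φ 0)
  · rw [if_pos h4, if_pos h4, mul_one]
    rfl
  · rw [if_neg h4, if_neg h4, mul_zero]

open Classical in
private theorem pb1b_prB_succ (P : RP N) (hok : ChOK P.par P.m P.κ P.Mg) (i : Fin (P.k + 1))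
    (hi : i ≠ 0) : P.prB i = ∑ x : Fin (N + 1), ∑ y : Fin (N + 1),
      P.Mg (P.par i) x * P.κ i x y * (if P.Bd i x y then 1 else 0) := by
  rw [← cw_edge hok i hi (fun x y : Fin (N + 1) => if P.Bd i x y then (1 : ℝ) else 0)]
  unfold RP.prB
  refine Finset.sum_congr rfl fun φ _ => ?_
  by_cases h4 : P.Bd i (φ (P.par i)) (φ i)
  · rw [if_pos h4, if_pos h4, mul_one]
    rfl
  · rw [if_neg h4, if_neg h4, mul_zero]

/-- a sum over few values -/
private theorem pb1b_cnt {f : Fin (N + 1) → ℝ} {b : ℝ} (hb : 0 ≤ b) (hf : ∀ y, f y ≤ b)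
    (P : Fin (N + 1) → Prop) [DecidablePred P] (A : Finset ℕ) {n : ℕ} (hn : A.card ≤ n)
    (hA : ∀ y, P y → (y : ℕ) ∈ A) :
    ∑ y, f y * (if P y then 1 else 0) ≤ n * b := by
  have h1 : ∑ y, f y * (if P y then (1 : ℝ) else 0) = ∑ y ∈ univ.filter P, f y := by
    rw [Finset.sum_filter]
    refine Finset.sum_congr rfl fun y _ => ?_
    split_ifs
    · rw [mul_one]
    · rw [mul_zero]
  have h2 : (univ.filter P).card ≤ A.card := by
    refine Finset.card_le_card_of_injOn (fun y : Fin (N + 1) => (y : ℕ)) ?_ ?_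
    · intro y hy
      exact hA y (Finset.mem_filter.1 hy).2
    · intro y _ z _ hyz
      exact Fin.ext hyz
  rw [h1]
  calc ∑ y ∈ univ.filter P, f y ≤ ∑ y ∈ univ.filter P, b := Finset.sum_le_sum fun y _ => hf y
    _ = ((univ.filter P).card : ℝ) * b := by rw [Finset.sum_const, nsmul_eq_mul]
    _ ≤ n * b := by
      refine mul_le_mul_of_nonneg_right ?_ hb
      exact_mod_cast h2.trans hn

theorem rnd_bad (hQ : Q ⊆ Icc 1 N) (h : ChainB N Q L rp prt np c C σ M K mb kbo kob) (hp : p.WFB N bd)
    (hcQ : ∀ i c, bd i = some c → 1 ≤ c ∧ c ∉ Q) (i : Fin (p.k + 1)) :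
    (p.rnd N Q rp M K mb kbo kob bd).prB i ≤ 5 * C / N := by
  classical
  have hok := rnd_ok h hp
  have hC := h.cd.C_pos
  have hCN : (0 : ℝ) ≤ C / N := div_nonneg hC.le (Nat.cast_nonneg _)
  have h5 : 5 * C / (N : ℝ) = 5 * (C / N) := by ring
  have hpos : ∀ x ∈ Q, 1 ≤ x := fun x hx => (Finset.mem_Icc.1 (hQ hx)).1
  rw [h5]
  by_cases hi : i = 0
  · subst hi
    obtain ⟨c, hc⟩ := Option.ne_none_iff_exists'.1 hp.root
    have hc1 := (hcQ 0 c hc).1
    refine (le_of_eq (pb1b_prB_zero _ hok)).trans ?_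
    show ∑ y : Fin (N + 1), lawB M mb (p.ty 0) (bd 0) y *
      (if (p.rnd N Q rp M K mb kbo kob bd).Bd (0 : Fin (p.k + 1)) y y then (1 : ℝ) else 0) ≤
        5 * (C / N)
    have h6 : ∀ y : Fin (N + 1), lawB M mb (p.ty 0) (bd 0) y ≤ C / N := by
      intro y
      rw [hc]
      exact h.mb_le c (hp.le 0 c hc) y
    have h7 := pb1b_cnt hCN h6
      (fun y : Fin (N + 1) => (p.rnd N Q rp M K mb kbo kob bd).Bd (0 : Fin (p.k + 1)) y y)
      {c / 2} (n := 1) (by simp)
      (by
        intro y hy
        rw [Finset.mem_singleton]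
        rcases hy with ⟨h4, -⟩ | ⟨c', hc', h4⟩
        · exact absurd rfl h4
        · rw [if_pos rfl, Finset.mem_singleton] at h4
          have h6 : c = c' := Option.some.inj (hc.symm.trans hc')
          rw [← h6] at h4
          unfold dd at h4
          omega)
    refine h7.trans ?_
    push_cast
    linarith
  · refine (le_of_eq (pb1b_prB_succ _ hok i hi)).trans ?_
    show ∑ x : Fin (N + 1), ∑ y : Fin (N + 1), lawB M mb (p.ty (p.par i)) (bd (p.par i)) x *
      trB K kbo kob (p.ty (p.par i)) (p.ty i) (bd (p.par i)) (bd i) x y *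
      (if (p.rnd N Q rp M K mb kbo kob bd).Bd i x y then (1 : ℝ) else 0) ≤ 5 * (C / N)
    by_cases hbb : bd (p.par i) = none ∧ bd i = none
    · obtain ⟨hb, hb'⟩ := hbb
      have h3 := h.cd.bdS (p.ty (p.par i)) (p.ty i) (hp.wf.ok i hi)
      refine le_trans (le_trans (le_of_eq ?_) h3) (by linarith)
      rw [← Fin.sum_univ_eq_sum_range (fun x => ∑ y ∈ range (N + 1),
        (if y ∈ Q ∧ y = dd x y then M (p.ty (p.par i)) x * K (p.ty (p.par i)) (p.ty i) x y
          else 0)) (N + 1)]
      refine Finset.sum_congr rfl fun x _ => ?_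
      rw [← Fin.sum_univ_eq_sum_range (fun y =>
        (if y ∈ Q ∧ y = dd (x : ℕ) y then
          M (p.ty (p.par i)) (x : ℕ) * K (p.ty (p.par i)) (p.ty i) (x : ℕ) y else 0)) (N + 1)]
      refine Finset.sum_congr rfl fun y _ => ?_
      have h4 : (p.rnd N Q rp M K mb kbo kob bd).Bd i x y ↔ ((y : ℕ) ∈ Q ∧ (y : ℕ) = dd x y) := by
        constructor
        · rintro (⟨-, h4⟩ | ⟨c', hc', -⟩)
          · exact h4
          · rw [hb'] at hc'
            exact absurd hc' (by simp)
        · intro h4
          exact Or.inl ⟨hi, h4⟩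
      rw [hb, hb']
      show M (p.ty (p.par i)) x * K (p.ty (p.par i)) (p.ty i) x y *
        (if (p.rnd N Q rp M K mb kbo kob bd).Bd i x y then (1 : ℝ) else 0) = _
      by_cases h5 : (y : ℕ) ∈ Q ∧ (y : ℕ) = dd x y
      · rw [if_pos h5, if_pos (h4.2 h5), mul_one]
      · rw [if_neg h5, if_neg (fun h6 => h5 (h4.1 h6)), mul_zero]
    · -- the bound for every `x`
      have h3 : ∀ x : Fin (N + 1), lawB M mb (p.ty (p.par i)) (bd (p.par i)) x ≠ 0 →
          ∑ y : Fin (N + 1), trB K kbo kob (p.ty (p.par i)) (p.ty i) (bd (p.par i)) (bd i) x y *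
            (if (p.rnd N Q rp M K mb kbo kob bd).Bd i x y then (1 : ℝ) else 0) ≤ 3 * (C / N) := by
        intro x hx
        cases hb : bd (p.par i) with
        | some c =>
          rw [hb] at hx
          have hxQ : (x : ℕ) ∈ Q := (h.mb_supp c x hx).1
          have hx1 := hpos _ hxQ
          obtain ⟨ha, ha', hb'⟩ := hp.dn i hi (by rw [hb]; simp)
          have h6 : ∀ y : Fin (N + 1), trB K kbo kob (p.ty (p.par i)) (p.ty i) (some c) (bd i) x y ≤
              C / N := fun y => h.kbo_le c (hp.le _ c hb) x y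
          have h7 := pb1b_cnt hCN h6
            (fun y : Fin (N + 1) => (p.rnd N Q rp M K mb kbo kob bd).Bd i x y) {(x : ℕ) / 2} (n := 3)
            (by simp)
            (by
              intro y hy
              rw [Finset.mem_singleton]
              rcases hy with ⟨-, -, h4⟩ | ⟨c', hc', -⟩
              · unfold dd at h4
                omega
              · rw [hb'] at hc'
                exact absurd hc' (by simp))
          refine h7.trans (le_of_eq ?_)
          push_cast
          ring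
        | none =>
          cases hb' : bd i with
          | none => exact absurd ⟨hb, hb'⟩ hbb
          | some c =>
            obtain ⟨hc1, hcQ'⟩ := hcQ i c hb'
            obtain ⟨ha, ha', -⟩ := hp.up i hi (by rw [hb']; simp)
            rw [hb, ha] at hx
            have hxQ : (x : ℕ) ∈ Q := h.cd.M_O x hx
            have hx1 := hpos _ hxQ
            have hxc : (x : ℕ) ≠ c := fun h0 => hcQ' (h0 ▸ hxQ)
            have h6 : ∀ y : Fin (N + 1), trB K kbo kob (p.ty (p.par i)) (p.ty i) none (some c) x y ≤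
                C / N := fun y => h.kob_le c (hp.le _ c hb') x y
            have h7 := pb1b_cnt hCN h6
              (fun y : Fin (N + 1) => (p.rnd N Q rp M K mb kbo kob bd).Bd i x y)
              {(x : ℕ) / 2, c / 2, ((x : ℕ) + c) / 2} (n := 3) Finset.card_le_three
              (by
                intro y hy
                rw [Finset.mem_insert, Finset.mem_insert, Finset.mem_singleton]
                rcases hy with ⟨-, -, h4⟩ | ⟨c', hc', h4⟩
                · left
                  unfold dd at h4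
                  omega
                · have h8 : c = c' := Option.some.inj (hb'.symm.trans hc')
                  rw [if_neg hi, ha, ha', ← h8] at h4
                  have h9 : dd (y : ℕ) c ∈ ({(y : ℕ), dd (x : ℕ) y} : Finset ℕ) := h4
                  rw [Finset.mem_insert, Finset.mem_singleton] at h9
                  rcases h9 with h9 | h9
                  · right; left
                    unfold dd at h9
                    omega
                  · right; right
                    unfold dd at h9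
                    omega)
            refine h7.trans (le_of_eq ?_)
            push_cast
            ring
      have h4 : ∀ x : Fin (N + 1), ∑ y : Fin (N + 1), lawB M mb (p.ty (p.par i)) (bd (p.par i)) x *
          trB K kbo kob (p.ty (p.par i)) (p.ty i) (bd (p.par i)) (bd i) x y *
          (if (p.rnd N Q rp M K mb kbo kob bd).Bd i x y then (1 : ℝ) else 0) ≤
          lawB M mb (p.ty (p.par i)) (bd (p.par i)) x * (3 * (C / N)) := by
        intro x
        have h5 : ∑ y : Fin (N + 1), lawB M mb (p.ty (p.par i)) (bd (p.par i)) x *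
            trB K kbo kob (p.ty (p.par i)) (p.ty i) (bd (p.par i)) (bd i) x y *
            (if (p.rnd N Q rp M K mb kbo kob bd).Bd i x y then (1 : ℝ) else 0) =
            lawB M mb (p.ty (p.par i)) (bd (p.par i)) x * ∑ y : Fin (N + 1),
            trB K kbo kob (p.ty (p.par i)) (p.ty i) (bd (p.par i)) (bd i) x y *
            (if (p.rnd N Q rp M K mb kbo kob bd).Bd i x y then (1 : ℝ) else 0) := by
          rw [Finset.mul_sum]
          exact Finset.sum_congr rfl fun y _ => mul_assoc _ _ _
        rw [h5]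
        by_cases hx : lawB M mb (p.ty (p.par i)) (bd (p.par i)) x = 0
        · rw [hx, zero_mul, zero_mul]
        · exact mul_le_mul_of_nonneg_left (h3 x hx) (pb1b_law_nn h hp _ _)
      refine (Finset.sum_le_sum fun x _ => h4 x).trans ?_
      rw [← Finset.sum_mul, pb1b_law_sum h hp]
      linarith

private theorem pb1b_us_card (a b : Ty) (x y : ℕ) : (us Q rp a b x y).card ≤ 2 := by
  cases a <;> cases b <;> unfold us <;> simp only [] <;> (try split_ifs) <;>
    first | exact Finset.card_le_two | simp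

theorem rnd_good (hQ : Q ⊆ Icc 1 N) (h : ChainB N Q L rp prt np c C σ M K mb kbo kob) (hp : p.WFB N bd)
    (hcQ : ∀ i c, bd i = some c → 1 ≤ c ∧ c ∉ Q) :
    (p.rnd N Q rp M K mb kbo kob bd).Good (5 * C) := by
  refine ⟨rnd_ok h hp, ?_, ?_, rnd_lb h hp, rnd_bad hQ h hp hcQ⟩
  · intro i x y
    refine (Finset.card_filter_le _ _).trans ((Finset.card_union_le _ _).trans ?_)
    have h1 : (if i = 0 then {y} else us Q rp (p.ty (p.par i)) (p.ty i) x y : Finset ℕ).card ≤ 2 := by
      split_ifs
      · simp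
      · exact pb1b_us_card _ _ _ _
    have h2 : (bds (bd i) y).card ≤ 1 := by
      cases bd i with
      | none => exact Nat.zero_le _
      | some c => exact (Finset.card_singleton _).le
    exact Nat.add_le_add h1 h2
  · intro i x y z hz
    exact (Finset.mem_filter.1 hz).2

theorem rnd_rule (h : ChainB N Q L rp prt np c C σ M K mb kbo kob) (hp : p.WFB N bd)
    {φ : Fin (p.k + 1) → Fin (N + 1)} (hφ : (p.rnd N Q rp M K mb kbo kob bd).cp φ ≠ 0) :
    (φ 0 : ℕ) ∈ Q ∧ (∀ i, i ≠ 0 →
      rule Q L prt (p.ty (p.par i)) (p.ty i) (φ (p.par i)) (φ i)) ∧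
      ∀ i c, bd i = some c → dd (φ i) c ∈ Q := by
  have hok := rnd_ok h hp
  have hφ' : lawB M mb (p.ty 0) (bd 0) (φ 0) * ∏ i : Fin p.k,
      trB K kbo kob (p.ty (p.par i.succ)) (p.ty i.succ) (bd (p.par i.succ)) (bd i.succ)
        (φ (p.par i.succ)) (φ i.succ) ≠ 0 := hφ
  have h0 : lawB M mb (p.ty 0) (bd 0) (φ 0) ≠ 0 := left_ne_zero_of_mul hφ'
  have hprod := right_ne_zero_of_mul hφ'
  rw [Finset.prod_ne_zero_iff] at hprod
  have hK : ∀ i : Fin (p.k + 1), i ≠ 0 →
      trB K kbo kob (p.ty (p.par i)) (p.ty i) (bd (p.par i)) (bd i) (φ (p.par i)) (φ i) ≠ 0 := by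
    intro i hi
    obtain ⟨j, rfl⟩ := Fin.exists_succ_eq.2 hi
    exact hprod j (Finset.mem_univ j)
  have hMpos : ∀ n : ℕ, ∀ i : Fin (p.k + 1), i.val = n → 0 < lawB M mb (p.ty i) (bd i) (φ i) := by
    intro n
    induction n using Nat.strong_induction_on with
    | _ n ih =>
      intro i hin
      by_cases hi : i = 0
      · subst hi
        exact lt_of_le_of_ne (pb1b_law_nn h hp _ _) (Ne.symm h0)
      · have hlt := hp.wf.par_lt i hi
        have h1 : 0 < lawB M mb (p.ty (p.par i)) (bd (p.par i)) (φ (p.par i)) := by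
          apply ih (p.par i).val _ (p.par i) rfl
          rw [← hin]
          exact hlt
        have h2 : 0 < trB K kbo kob (p.ty (p.par i)) (p.ty i) (bd (p.par i)) (bd i)
            (φ (p.par i)) (φ i) := lt_of_le_of_ne (pb1b_tr_nn h hp _ _ _) (Ne.symm (hK i hi))
        have h3 : ∑ x : Fin (N + 1), lawB M mb (p.ty (p.par i)) (bd (p.par i)) x *
            trB K kbo kob (p.ty (p.par i)) (p.ty i) (bd (p.par i)) (bd i) x (φ i) =
            lawB M mb (p.ty i) (bd i) (φ i) := hok.cons i hi (φ i)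
        rw [← h3]
        refine lt_of_lt_of_le (mul_pos h1 h2) ?_
        exact Finset.single_le_sum
          (f := fun x : Fin (N + 1) => lawB M mb (p.ty (p.par i)) (bd (p.par i)) x *
            trB K kbo kob (p.ty (p.par i)) (p.ty i) (bd (p.par i)) (bd i) x (φ i))
          (fun x _ => mul_nonneg (pb1b_law_nn h hp _ _) (pb1b_tr_nn h hp _ _ _))
          (Finset.mem_univ _)
  have hbd : ∀ i c, bd i = some c → (φ i : ℕ) ∈ Q ∧ dd (φ i) c ∈ Q := by
    intro i c hc
    have h1 := hMpos _ i rfl
    rw [hc] at h1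
    exact h.mb_supp c (φ i) h1.ne'
  refine ⟨?_, ?_, fun i c hc => (hbd i c hc).2⟩
  · obtain ⟨c, hc⟩ := Option.ne_none_iff_exists'.1 hp.root
    exact (hbd 0 c hc).1
  · intro i hi
    have h1 := (hMpos _ (p.par i) rfl).ne'
    have h2 := hK i hi
    cases hb : bd (p.par i) with
    | some c =>
      obtain ⟨ha, ha', -⟩ := hp.dn i hi (by rw [hb]; simp)
      rw [hb] at h1 h2
      rw [ha, ha']
      exact h.kbo_rule c (φ (p.par i)) (φ i) (mul_ne_zero h1 h2)
    | none =>
      cases hb' : bd i with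
      | some c =>
        obtain ⟨ha, ha', -⟩ := hp.up i hi (by rw [hb']; simp)
        rw [hb, ha] at h1
        rw [hb, hb'] at h2
        rw [ha, ha']
        obtain ⟨h3, h4, h5, -⟩ := h.kob_rule c (φ (p.par i)) (φ i) (mul_ne_zero h1 h2)
        exact ⟨h3, h4, h5⟩
      | none =>
        rw [hb] at h1
        rw [hb, hb'] at h2
        exact h.cd.rule _ _ _ _ (hp.wf.ok i hi) (mul_ne_zero h1 h2)

private theorem pb1b_us_le (he : Env N t Q L rp prt) {a b : Ty} (hab : okTy a b = true) {x y z : ℕ}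
    (hx : x ≤ N) (hy : y ≤ N) (hr : rule Q L prt a b x y) (hz : z ∈ us Q rp a b x y) : z ≤ N := by
  have hd : dd x y ≤ N := by
    unfold dd
    omega
  have hpair : z ∈ ({y, dd x y} : Finset ℕ) → z ≤ N := by
    intro h1
    rw [Finset.mem_insert, Finset.mem_singleton] at h1
    rcases h1 with h1 | h1
    · rw [h1]
      exact hy
    · rw [h1]
      exact hd
  cases a <;> cases b <;> first | exact absurd hab (by decide) | skip
  · exact hpair hz
  · have hz' : z ∈ (if y ∈ Q then ({y, dd x y} : Finset ℕ) else {rp y, dd x y}) := hz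
    by_cases hyQ : y ∈ Q
    · rw [if_pos hyQ] at hz'
      exact hpair hz'
    · rw [if_neg hyQ, Finset.mem_insert, Finset.mem_singleton] at hz'
      have hr' : x ∈ Q ∧ (y ∈ Q ∨ y ∈ L) ∧ dd x y ∈ Q := hr
      have hyL : y ∈ L := hr'.2.1.resolve_left hyQ
      rcases hz' with h1 | h1
      · rw [h1]
        exact (Finset.mem_Icc.1 (he.L_sub (he.rp_mem y hyL))).2
      · rw [h1]
        exact hd
  · exact hpair hz
  · have hz' : z ∈ (if x ∈ Q then ({y, dd x y} : Finset ℕ) else ∅) := hz
    split_ifs at hz' with hxQ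
    · exact hpair hz'
    · exact absurd hz' (Finset.notMem_empty z)
  · have hz' : z ∈ (if x ∈ Q then ({y, dd x y} : Finset ℕ) else ∅) := hz
    split_ifs at hz' with hxQ
    · exact hpair hz'
    · exact absurd hz' (Finset.notMem_empty z)

/-- the labels used by a labelling of positive probability -/
theorem rnd_use (he : Env N t Q L rp prt) (h : ChainB N Q L rp prt np c C σ M K mb kbo kob)
    (hp : p.WFB N bd) {φ : Fin (p.k + 1) → Fin (N + 1)}
    (hφ : (p.rnd N Q rp M K mb kbo kob bd).cp φ ≠ 0) (i : Fin (p.k + 1)) :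
    (p.rnd N Q rp M K mb kbo kob bd).Us φ i = p.usdB Q rp bd (fun j => (φ j : ℕ)) i := by
  have hl : ∀ j, (φ j : ℕ) ≤ N := fun j => Nat.lt_succ_iff.1 (φ j).2
  have h1 : ((if i = 0 then {(φ i : ℕ)} else
      us Q rp (p.ty (p.par i)) (p.ty i) (φ (p.par i)) (φ i)) : Finset ℕ) =
      p.usd Q rp (fun j => (φ j : ℕ)) i := by
    unfold Piece.usd
    by_cases hi : i = 0
    · rw [if_pos hi, if_pos hi, hi]
    · rw [if_neg hi, if_neg hi]
  have h2 : (p.rnd N Q rp M K mb kbo kob bd).Us φ i =
      (((if i = 0 then {(φ i : ℕ)} else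
      us Q rp (p.ty (p.par i)) (p.ty i) (φ (p.par i)) (φ i)) : Finset ℕ) ∪
        bds (bd i) (φ i)).filter (· ≤ N) := rfl
  rw [h2, h1]
  unfold Piece.usdB
  rw [Finset.filter_eq_self]
  intro z hz
  rcases Finset.mem_union.1 hz with h3 | h3
  · unfold Piece.usd at h3
    by_cases hi : i = 0
    · rw [if_pos hi, Finset.mem_singleton] at h3
      rw [h3]
      exact hl 0
    · rw [if_neg hi] at h3
      exact pb1b_us_le he (hp.wf.ok i hi) (hl _) (hl _) ((rnd_rule h hp hφ).2.1 i hi) h3
  · cases hb : bd i with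
    | none =>
      rw [hb] at h3
      exact absurd h3 (Finset.notMem_empty z)
    | some c =>
      rw [hb] at h3
      have h4 : z = dd (φ i) c := Finset.mem_singleton.1 h3
      have h5 := hp.le i c hb
      have h6 := hl i
      rw [h4]
      unfold dd
      omega

theorem rnd_val (he : Env N t Q L rp prt) (h : ChainB N Q L rp prt np c C σ M K mb kbo kob)
    (hp : p.WFB N bd) {φ : Fin (p.k + 1) → Fin (N + 1)}
    (hφ : (p.rnd N Q rp M K mb kbo kob bd).Val φ) :
    p.ValidB Q L rp prt bd (fun j => (φ j : ℕ)) := by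
  obtain ⟨h1, h2, h3⟩ := rnd_rule h hp hφ.pos
  have hd : ∀ i j, i ≠ j → Disjoint (p.usdB Q rp bd (fun j => (φ j : ℕ)) i)
      (p.usdB Q rp bd (fun j => (φ j : ℕ)) j) := by
    intro i j hij
    rw [← rnd_use he h hp hφ.pos i, ← rnd_use he h hp hφ.pos j]
    exact hφ.disj i j hij
  refine ⟨⟨h1, h2, ?_, ?_⟩, h3, ?_, hd⟩
  · intro i hi hQ' hs
    exact hφ.nbad i (Or.inl ⟨hi, hQ', hs⟩)
  · intro i j hij
    exact Finset.disjoint_of_subset_left Finset.subset_union_left
      (Finset.disjoint_of_subset_right Finset.subset_union_left (hd i j hij))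
  · intro i c hc hs
    refine hφ.nbad i (Or.inr ⟨c, hc, ?_⟩)
    unfold Piece.usd at hs
    by_cases hi : i = 0
    · rw [if_pos hi] at hs
      rw [if_pos hi]
      have h4 : dd (φ i : ℕ) c ∈ ({(φ 0 : ℕ)} : Finset ℕ) := hs
      rw [← hi] at h4
      exact h4
    · rw [if_neg hi] at hs
      rw [if_neg hi]
      exact hs

end SSB
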