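import Pool.Agent.Lib.MP_8a819d_co.UI.PB1

/-!
# MP_8a819d_co, uniformly integrable degrees: pieces with boundary, 2. Loads and codegrees

JOB PB2a: `pr_le_UU`, `pr_zero`, `load_le`, `load_rep`. JOB PB2b: `pr2_le`, `cod_le`. Compare `BD/Pk2.lean`.

* `pr_eq_UU`: for `i ∉ invo` (so `i ≠ 0`, both `bd i`, `bd (par i)` are `none`) and `z ≤ N`: `pr i z = UU (ty (par i)) (ty i) z` by `cw_edge`.
* `pr_zero`: `z ∉ Q`, `i ∈ invo`: the used labels at `i` are in `Q` (`rnd_rule`, `ty i = O` or ...): `pr i z = 0`. (If `i = 0`: `{φ 0, dd (φ 0) c} ⊆ Q`. If `i ≠ 0`: both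
  types are `O`, `us O O x y = {y, dd x y} ⊆ Q` by `rule`, and `dd y c ∈ Q`.)
* `load_le`: `∑ i, pr i z ≤ ∑ i ∉ invo, UU + |invo| 5 C / N` (`pr_le`). Sum over `p`, sort the `i ≠ 0` by types as in `tot_count` (`UU ≥ 0`, so the `i ∈ invo`, `i ≠ 0`
  may be added): for `z ∈ Q`: `≤ (1 - σ) + (5 C / N) ∑ |invo| ≤ 1` (`load'`, `n * M O z ≥ 0`). For `z ∉ Q`: the terms `i ∈ invo` vanish; the others are `UU = 0` unless
  `z ∈ L.image rp` and the type is `(O, P)` (`zero`); then the sum is `cnt O P * UU O P z = 1` (`rep`).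
* `load_rep`: `z ∈ L.image rp` (`z ∉ Q` by `Env`): every `i` with types `(O, P)` is not in `invo` (`up`, `dn`: types `O`), so the sum is at least
  `∑ p, cnt O P * UU O P z = 1`.
* `pr2_le`: `z ≠ z'`. `i ∉ invo`: `U ⊆ us`, `bdJ`. `i ≠ 0`, `bd (par i) = some c`: `U ⊆ {y, dd x y}`: `y = z`, `dd x y = z'` or vice versa: at most `4` pairs `(x, y)`, each of
  probability at most `(C/N)^2` (`mb_le`, `kbo_le`). `i ≠ 0`, `bd i = some c`: `U ⊆ {y, dd x y, dd y c}`; the pairs `(y, dd x y)`, `(dd x y, dd y c)` (and vice versa) determine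
  `(x, y)` up to `4` possibilities each: at most `16` pairs `(x, y)`, each of probability at most `(C/N)^2` (`bdM`, `kob_le`); the pair `(y, dd y c)`: `y = z`, `dd z c = z'` or
  vice versa: probability at most `C/N` each (`mb_le`, by `cw_one`), only if `dd z c = z'` or `dd z' c = z`. `i = 0`: only the last kind.
* `cod_le`: `dd z c = z'` or `dd z' c = z` implies `c = z + z'` or `c = dd z z'`; so there are at most `2 ω` vertices `(p, i)` with such a constant.
-/

set_option autoImplicit false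

namespace SSB

open Finset

variable {N t : ℕ} {Q L : Finset ℕ} {rp prt : ℕ → ℕ} {np C σ : ℝ} {c : Ty → Ty → ℝ}
  {M : Ty → ℕ → ℝ} {K : Ty → Ty → ℕ → ℕ → ℝ} {mb : ℕ → ℕ → ℝ} {kbo kob : ℕ → ℕ → ℕ → ℝ}
  {p : Piece} {bd : Fin (p.k + 1) → Option ℕ}

private theorem pb2_edge (h : ChainB N Q L rp prt np c C σ M K mb kbo kob) (hp : p.WFB N bd)
    {i : Fin (p.k + 1)} (hi : i ≠ 0) (R : ℕ → ℕ → Prop) [∀ x y, Decidable (R x y)] :
    ∑ φ : Fin (p.k + 1) → Fin (N + 1),
      (if R (φ (p.par i)) (φ i) then (p.rnd N Q rp M K mb kbo kob bd).cp φ else 0) =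
      ∑ x ∈ range (N + 1), ∑ y ∈ range (N + 1),
        if R x y then lawB M mb (p.ty (p.par i)) (bd (p.par i)) x *
          trB K kbo kob (p.ty (p.par i)) (p.ty i) (bd (p.par i)) (bd i) x y else 0 := by
  have h1 := cw_edge (rnd_ok h hp) i hi
    (fun x y : Fin (N + 1) => if R (x : ℕ) (y : ℕ) then (1 : ℝ) else 0)
  have h2 : ∑ φ : Fin (p.k + 1) → Fin (N + 1),
      (if R (φ (p.par i)) (φ i) then (p.rnd N Q rp M K mb kbo kob bd).cp φ else 0) =
      ∑ φ : Fin (p.k + 1) → Fin (N + 1), (p.rnd N Q rp M K mb kbo kob bd).cp φ *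
        (if R (φ (p.par i)) (φ i) then (1 : ℝ) else 0) := by
    refine Finset.sum_congr rfl fun φ _ => ?_
    rw [mul_ite, mul_one, mul_zero]
  rw [h2]
  refine h1.trans ?_
  rw [← Fin.sum_univ_eq_sum_range (fun x => ∑ y ∈ range (N + 1),
    if R x y then lawB M mb (p.ty (p.par i)) (bd (p.par i)) x *
      trB K kbo kob (p.ty (p.par i)) (p.ty i) (bd (p.par i)) (bd i) x y else 0)]
  refine Finset.sum_congr rfl fun x _ => ?_
  rw [← Fin.sum_univ_eq_sum_range (fun y =>
    if R x y then lawB M mb (p.ty (p.par i)) (bd (p.par i)) x *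
      trB K kbo kob (p.ty (p.par i)) (p.ty i) (bd (p.par i)) (bd i) x y else 0)]
  refine Finset.sum_congr rfl fun y _ => ?_
  rw [mul_ite, mul_one, mul_zero]
  rfl

private theorem pb2_one (h : ChainB N Q L rp prt np c C σ M K mb kbo kob) (hp : p.WFB N bd)
    (i : Fin (p.k + 1)) (R : ℕ → Prop) [∀ y, Decidable (R y)] :
    ∑ φ : Fin (p.k + 1) → Fin (N + 1),
      (if R (φ i) then (p.rnd N Q rp M K mb kbo kob bd).cp φ else 0) =
      ∑ y ∈ range (N + 1), if R y then lawB M mb (p.ty i) (bd i) y else 0 := by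
  have h1 := cw_one (rnd_ok h hp) i
    (fun y : Fin (N + 1) => if R (y : ℕ) then (1 : ℝ) else 0)
  have h2 : ∑ φ : Fin (p.k + 1) → Fin (N + 1),
      (if R (φ i) then (p.rnd N Q rp M K mb kbo kob bd).cp φ else 0) =
      ∑ φ : Fin (p.k + 1) → Fin (N + 1), (p.rnd N Q rp M K mb kbo kob bd).cp φ *
        (if R (φ i) then (1 : ℝ) else 0) := by
    refine Finset.sum_congr rfl fun φ _ => ?_
    rw [mul_ite, mul_one, mul_zero]
  rw [h2]
  refine h1.trans ?_
  rw [← Fin.sum_univ_eq_sum_range (fun y => if R y then lawB M mb (p.ty i) (bd i) y else 0)]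
  refine Finset.sum_congr rfl fun y _ => ?_
  rw [mul_ite, mul_one, mul_zero]
  rfl

private theorem pb2_cp_nonneg (h : ChainB N Q L rp prt np c C σ M K mb kbo kob) (hp : p.WFB N bd)
    (φ : Fin (p.k + 1) → Fin (N + 1)) : 0 ≤ (p.rnd N Q rp M K mb kbo kob bd).cp φ :=
  cw_nonneg (rnd_ok h hp) φ

private theorem pb2_pr_nonneg (h : ChainB N Q L rp prt np c C σ M K mb kbo kob) (hp : p.WFB N bd)
    (i : Fin (p.k + 1)) (z : ℕ) : 0 ≤ (p.rnd N Q rp M K mb kbo kob bd).pr i z := by
  refine Finset.sum_nonneg fun φ _ => ?_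
  split_ifs
  · exact pb2_cp_nonneg h hp φ
  · exact le_refl 0

private theorem pb2_pr_le (h : ChainB N Q L rp prt np c C σ M K mb kbo kob) (hp : p.WFB N bd)
    (i : Fin (p.k + 1)) (z : ℕ) : (p.rnd N Q rp M K mb kbo kob bd).pr i z ≤ 5 * C / N := by
  refine le_of_eq_of_le ?_ (cw_hloc (rnd_ok h hp) (rnd_lb h hp i z))
  refine Finset.sum_congr rfl fun φ _ => ?_
  rw [mul_ite, mul_one, mul_zero]
  rfl

private theorem pb2_invo (hp : p.WFB N bd) {i : Fin (p.k + 1)} (hi : i ∉ p.invo bd) :
    i ≠ 0 ∧ bd i = none ∧ bd (p.par i) = none := by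
  unfold Piece.invo at hi
  rw [Finset.mem_filter, not_and] at hi
  have h1 := hi (Finset.mem_univ i)
  rw [not_or] at h1
  have h2 : i ≠ 0 := by
    intro h0
    exact h1.1 (h0 ▸ hp.root)
  refine ⟨h2, not_not.1 h1.1, ?_⟩
  by_contra h3
  exact h1.2 ⟨h2, h3⟩

private theorem pb2_invo_ty (hp : p.WFB N bd) {i : Fin (p.k + 1)} (hi : i ∈ p.invo bd) :
    p.ty i = Ty.O := by
  unfold Piece.invo at hi
  rw [Finset.mem_filter] at hi
  by_cases h0 : i = 0
  · rw [h0]
    exact hp.wf.root
  · rcases hi.2 with h1 | h1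
    · exact (hp.up i h0 h1).2.1
    · exact (hp.dn i h0 h1.2).2.1

private theorem pb2_UU_nonneg (h : ChainB N Q L rp prt np c C σ M K mb kbo kob) (a b : Ty) (z : ℕ) :
    0 ≤ UU N Q rp M K a b z := by
  unfold UU
  refine Finset.sum_nonneg fun x _ => Finset.sum_nonneg fun y _ => ?_
  split_ifs
  · exact mul_nonneg (h.cd.M_nn _ _) (h.cd.K_nn _ _ _ _)
  · exact le_refl 0

private theorem pb2_types {p : Piece} (hp : p.WF) (F : Ty → Ty → ℝ) :
    ∑ i ∈ univ.filter (fun i : Fin (p.k + 1) => i ≠ 0), F (p.ty (p.par i)) (p.ty i) =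
      (p.cnt Ty.O Ty.O : ℝ) * F Ty.O Ty.O + (p.cnt Ty.O Ty.P : ℝ) * F Ty.O Ty.P +
      (p.cnt Ty.P Ty.O : ℝ) * F Ty.P Ty.O + (p.cnt Ty.P Ty.U : ℝ) * F Ty.P Ty.U +
      (p.cnt Ty.U Ty.P : ℝ) * F Ty.U Ty.P := by
  have h1 : ∀ a b : Ty, (p.cnt a b : ℝ) * F a b =
      ∑ i ∈ univ.filter (fun i : Fin (p.k + 1) => i ≠ 0),
        if p.ty (p.par i) = a ∧ p.ty i = b then F a b else 0 := by
    intro a b
    unfold Piece.cnt
    rw [← Finset.filter_filter, Finset.natCast_card_filter, Finset.sum_mul]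
    refine Finset.sum_congr rfl fun i _ => ?_
    rw [ite_mul, one_mul, zero_mul]
  rw [h1, h1, h1, h1, h1, ← Finset.sum_add_distrib, ← Finset.sum_add_distrib,
    ← Finset.sum_add_distrib, ← Finset.sum_add_distrib]
  refine Finset.sum_congr rfl fun i hi => ?_
  have h2 := hp.ok i (Finset.mem_filter.1 hi).2
  generalize p.ty (p.par i) = a at h2 ⊢
  generalize p.ty i = b at h2 ⊢
  cases a <;> cases b <;> simp [okTy] at h2 ⊢

private theorem pb2_OP {p : Piece} (w : ℝ) : (p.cnt Ty.O Ty.P : ℝ) * w =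
    ∑ i : Fin (p.k + 1), if i ≠ 0 ∧ p.ty (p.par i) = Ty.O ∧ p.ty i = Ty.P then w else 0 := by
  unfold Piece.cnt
  rw [Finset.natCast_card_filter, Finset.sum_mul]
  refine Finset.sum_congr rfl fun i _ => ?_
  rw [ite_mul, one_mul, zero_mul]

private theorem pb2_rep (he : Env N t Q L rp prt) {z : ℕ} (hz : z ∈ L.image rp) : z ∉ Q ∧ z ≤ N := by
  obtain ⟨x, hx, rfl⟩ := Finset.mem_image.1 hz
  have h1 := he.rp_mem x hx
  have h2 := he.L_sub h1
  rw [Finset.mem_Icc] at h2
  exact ⟨fun h3 => Finset.disjoint_left.1 he.QL h3 h1, h2.2⟩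

theorem pr_eq_UU (h : ChainB N Q L rp prt np c C σ M K mb kbo kob) (hp : p.WFB N bd)
    {i : Fin (p.k + 1)} (hi : i ∉ p.invo bd) {z : ℕ} (hz : z ≤ N) :
    (p.rnd N Q rp M K mb kbo kob bd).pr i z = UU N Q rp M K (p.ty (p.par i)) (p.ty i) z := by
  obtain ⟨h0, h1, h2⟩ := pb2_invo hp hi
  have h3 := pb2_edge h hp h0 (fun x y => z ∈ us Q rp (p.ty (p.par i)) (p.ty i) x y)
  rw [h1, h2] at h3
  unfold UU
  refine Eq.trans ?_ h3
  unfold RP.pr
  refine Finset.sum_congr rfl fun φ _ => ?_
  have h4 : z ∈ (p.rnd N Q rp M K mb kbo kob bd).Us φ i ↔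
      z ∈ us Q rp (p.ty (p.par i)) (p.ty i) (φ (p.par i)) (φ i) := by
    have h5 : (p.rnd N Q rp M K mb kbo kob bd).Us φ i =
        ((if i = 0 then {(φ i : ℕ)} else us Q rp (p.ty (p.par i)) (p.ty i) (φ (p.par i)) (φ i)) ∪
          bds (bd i) (φ i)).filter (· ≤ N) := rfl
    rw [h5, Finset.mem_filter, if_neg h0, h1]
    unfold bds
    rw [Finset.union_empty]
    exact ⟨fun h6 => h6.1, fun h6 => ⟨h6, hz⟩⟩
  by_cases h6 : z ∈ us Q rp (p.ty (p.par i)) (p.ty i) (φ (p.par i)) (φ i)
  · rw [if_pos h6, if_pos (h4.2 h6)]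
  · rw [if_neg h6, if_neg fun h7 => h6 (h4.1 h7)]

theorem pr_zero (h : ChainB N Q L rp prt np c C σ M K mb kbo kob) (hp : p.WFB N bd)
    {i : Fin (p.k + 1)} (hi : i ∈ p.invo bd) {z : ℕ} (hz : z ∉ Q) :
    (p.rnd N Q rp M K mb kbo kob bd).pr i z = 0 := by
  unfold RP.pr
  refine Finset.sum_eq_zero fun φ _ => ?_
  rw [ite_eq_right_iff]
  intro h1
  by_contra h2
  obtain ⟨r1, r2, r3⟩ := rnd_rule h hp h2
  have h5 : (p.rnd N Q rp M K mb kbo kob bd).Us φ i =
      ((if i = 0 then {(φ i : ℕ)} else us Q rp (p.ty (p.par i)) (p.ty i) (φ (p.par i)) (φ i)) ∪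
        bds (bd i) (φ i)).filter (· ≤ N) := rfl
  rw [h5, Finset.mem_filter, Finset.mem_union] at h1
  apply hz
  rcases h1.1 with h6 | h6
  · by_cases h0 : i = 0
    · rw [if_pos h0, Finset.mem_singleton, h0] at h6
      rw [h6]
      exact r1
    · rw [if_neg h0] at h6
      have h7 : p.ty (p.par i) = Ty.O ∧ p.ty i = Ty.O := by
        unfold Piece.invo at hi
        rw [Finset.mem_filter] at hi
        rcases hi.2 with h8 | h8
        · exact ⟨(hp.up i h0 h8).1, (hp.up i h0 h8).2.1⟩
        · exact ⟨(hp.dn i h0 h8.2).1, (hp.dn i h0 h8.2).2.1⟩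
      have h9 := r2 i h0
      rw [h7.1, h7.2] at h6 h9
      have h10 : (φ (p.par i) : ℕ) ∈ Q ∧ (φ i : ℕ) ∈ Q ∧ dd (φ (p.par i)) (φ i) ∈ Q := h9
      have h11 : z ∈ ({(φ i : ℕ), dd (φ (p.par i)) (φ i)} : Finset ℕ) := h6
      rw [Finset.mem_insert, Finset.mem_singleton] at h11
      rcases h11 with h12 | h12
      · rw [h12]
        exact h10.2.1
      · rw [h12]
        exact h10.2.2
  · cases h7 : bd i with
    | none =>
      rw [h7] at h6
      unfold bds at h6
      exact absurd h6 (Finset.notMem_empty z)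
    | some c' =>
      rw [h7] at h6
      unfold bds at h6
      rw [Finset.mem_singleton] at h6
      rw [h6]
      exact r3 i c' h7

theorem load_le {n : ℕ} {pc : Fin n → Piece} {bd : (p : Fin n) → Fin ((pc p).k + 1) → Option ℕ}
    (he : Env N t Q L rp prt) (hN : 1 ≤ N)
    (h : ChainB N Q L rp prt n (fun a b => ((∑ p, (pc p).cnt a b : ℕ) : ℝ)) C σ M K mb kbo kob)
    (hp : ∀ p, (pc p).WFB N (bd p)) (hσ : 5 * C * ((∑ p, ((pc p).invo (bd p)).card : ℕ) : ℝ) ≤ σ * N)
    (hcQ : ∀ p i c, bd p i = some c → 1 ≤ c ∧ c ∉ Q)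
    {z : ℕ} (hz : z ≤ N) :
    ∑ p, ∑ i : Fin ((pc p).k + 1), ((pc p).rnd N Q rp M K mb kbo kob (bd p)).pr i z ≤ 1 := by
  have hN0 : (0 : ℝ) < N := by exact_mod_cast hN
  by_cases hzQ : z ∈ Q
  · have h1 : ∀ p, ∑ i : Fin ((pc p).k + 1), ((pc p).rnd N Q rp M K mb kbo kob (bd p)).pr i z ≤
        (((pc p).cnt Ty.O Ty.O : ℝ) * UU N Q rp M K Ty.O Ty.O z +
          ((pc p).cnt Ty.O Ty.P : ℝ) * UU N Q rp M K Ty.O Ty.P z +
          ((pc p).cnt Ty.P Ty.O : ℝ) * UU N Q rp M K Ty.P Ty.O z +
          ((pc p).cnt Ty.P Ty.U : ℝ) * UU N Q rp M K Ty.P Ty.U z +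
          ((pc p).cnt Ty.U Ty.P : ℝ) * UU N Q rp M K Ty.U Ty.P z) +
          (((pc p).invo (bd p)).card : ℝ) * (5 * C / N) := by
      intro p
      rw [← pb2_types (hp p).wf (fun a b => UU N Q rp M K a b z)]
      have h2 : ∑ i : Fin ((pc p).k + 1), ((pc p).rnd N Q rp M K mb kbo kob (bd p)).pr i z ≤
          ∑ i : Fin ((pc p).k + 1),
            ((if i ≠ 0 then UU N Q rp M K ((pc p).ty ((pc p).par i)) ((pc p).ty i) z else 0) +
              (if i ∈ (pc p).invo (bd p) then 5 * C / N else 0)) := by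
        refine Finset.sum_le_sum fun i _ => ?_
        by_cases hi : i ∈ (pc p).invo (bd p)
        · rw [if_pos hi]
          have h3 := pb2_pr_le h (hp p) i z
          have h4 : (0 : ℝ) ≤ (if i ≠ 0 then
              UU N Q rp M K ((pc p).ty ((pc p).par i)) ((pc p).ty i) z else 0) := by
            split_ifs
            · exact pb2_UU_nonneg h _ _ _
            · exact le_refl 0
          linarith
        · rw [if_neg hi, if_pos (pb2_invo (hp p) hi).1, add_zero]
          exact (pr_eq_UU h (hp p) hi hz).le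
      refine h2.trans (le_of_eq ?_)
      rw [Finset.sum_add_distrib, Finset.sum_filter, Finset.sum_ite_mem, Finset.univ_inter,
        Finset.sum_const, nsmul_eq_mul]
    have h5 := h.load' z hzQ
    have h6 : 0 ≤ M Ty.O z := h.cd.M_nn _ _
    have h7 : (0 : ℝ) ≤ (n : ℝ) * M Ty.O z := mul_nonneg (Nat.cast_nonneg n) h6
    refine (Finset.sum_le_sum fun p _ => h1 p).trans ?_
    rw [Finset.sum_add_distrib, Finset.sum_add_distrib, Finset.sum_add_distrib,
      Finset.sum_add_distrib, Finset.sum_add_distrib, ← Finset.sum_mul, ← Finset.sum_mul,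
      ← Finset.sum_mul, ← Finset.sum_mul, ← Finset.sum_mul, ← Finset.sum_mul]
    have h8 : (∑ p, (((pc p).invo (bd p)).card : ℝ)) * (5 * C / N) ≤ σ := by
      have h9 : (∑ p, (((pc p).invo (bd p)).card : ℝ)) =
          ((∑ p, ((pc p).invo (bd p)).card : ℕ) : ℝ) := by
        rw [Nat.cast_sum]
      rw [h9, ← mul_div_assoc, div_le_iff₀ hN0]
      linarith
    simp only [Nat.cast_sum] at h5
    linarith
  · have h1 : ∀ p, ∑ i : Fin ((pc p).k + 1), ((pc p).rnd N Q rp M K mb kbo kob (bd p)).pr i z ≤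
        if z ∈ L.image rp then ((pc p).cnt Ty.O Ty.P : ℝ) * UU N Q rp M K Ty.O Ty.P z else 0 := by
      intro p
      by_cases hzL : z ∈ L.image rp
      · rw [if_pos hzL, pb2_OP]
        refine Finset.sum_le_sum fun i _ => ?_
        by_cases hi : i ∈ (pc p).invo (bd p)
        · rw [pr_zero h (hp p) hi hzQ]
          split_ifs
          · exact pb2_UU_nonneg h _ _ _
          · exact le_refl 0
        · rw [pr_eq_UU h (hp p) hi hz]
          have h0 := (pb2_invo (hp p) hi).1
          by_cases h2 : (pc p).ty ((pc p).par i) = Ty.O ∧ (pc p).ty i = Ty.P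
          · rw [if_pos ⟨h0, h2⟩, h2.1, h2.2]
          · rw [if_neg fun h3 => h2 h3.2]
            exact (h.cd.zero _ _ z ((hp p).wf.ok i h0) hzQ fun _ => h2).le
      · rw [if_neg hzL]
        refine (Finset.sum_eq_zero fun i _ => ?_).le
        by_cases hi : i ∈ (pc p).invo (bd p)
        · exact pr_zero h (hp p) hi hzQ
        · rw [pr_eq_UU h (hp p) hi hz]
          exact h.cd.zero _ _ z ((hp p).wf.ok i (pb2_invo (hp p) hi).1) hzQ fun h4 => absurd h4 hzL
    refine (Finset.sum_le_sum fun p _ => h1 p).trans ?_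
    by_cases hzL : z ∈ L.image rp
    · simp only [if_pos hzL]
      rw [← Finset.sum_mul, ← Nat.cast_sum]
      exact (h.cd.rep z hzL).le
    · simp only [if_neg hzL]
      rw [Finset.sum_const_zero]
      norm_num

theorem load_rep {n : ℕ} {pc : Fin n → Piece} {bd : (p : Fin n) → Fin ((pc p).k + 1) → Option ℕ}
    (he : Env N t Q L rp prt) (hN : 1 ≤ N)
    (h : ChainB N Q L rp prt n (fun a b => ((∑ p, (pc p).cnt a b : ℕ) : ℝ)) C σ M K mb kbo kob)
    (hp : ∀ p, (pc p).WFB N (bd p)) (hcQ : ∀ p i c, bd p i = some c → 1 ≤ c ∧ c ∉ Q)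
    {z : ℕ} (hz : z ∈ L.image rp) :
    1 ≤ ∑ p, ∑ i : Fin ((pc p).k + 1), ((pc p).rnd N Q rp M K mb kbo kob (bd p)).pr i z := by
  obtain ⟨hzQ, hzN⟩ := pb2_rep he hz
  have h1 : ∀ p, ((pc p).cnt Ty.O Ty.P : ℝ) * UU N Q rp M K Ty.O Ty.P z ≤
      ∑ i : Fin ((pc p).k + 1), ((pc p).rnd N Q rp M K mb kbo kob (bd p)).pr i z := by
    intro p
    rw [pb2_OP]
    refine Finset.sum_le_sum fun i _ => ?_
    split_ifs with h2
    · have h3 : i ∉ (pc p).invo (bd p) := by
        intro h4
        have h5 := pb2_invo_ty (hp p) h4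
        rw [h2.2.2] at h5
        exact Ty.noConfusion h5
      rw [pr_eq_UU h (hp p) h3 hzN, h2.2.1, h2.2.2]
    · exact pb2_pr_nonneg h (hp p) i z
  refine le_trans ?_ (Finset.sum_le_sum fun p _ => h1 p)
  rw [← Finset.sum_mul, ← Nat.cast_sum]
  exact (h.cd.rep z hz).ge

private theorem pb2b_pairs {w : ℕ → ℕ → ℝ} {B : ℝ} (hB : 0 ≤ B) (hw : ∀ x y, w x y ≤ B) (m : ℕ)
    (R : ℕ → ℕ → Prop) [∀ x y, Decidable (R x y)] (S : Finset (ℕ × ℕ))
    (hS : ∀ x y, R x y → (x, y) ∈ S) :
    ∑ x ∈ range m, ∑ y ∈ range m, (if R x y then w x y else 0) ≤ (S.card : ℝ) * B := by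
  classical
  rw [← Finset.sum_product' (range m) (range m) (fun x y => if R x y then w x y else 0)]
  have h1 : ∑ q ∈ range m ×ˢ range m, (if R q.1 q.2 then w q.1 q.2 else 0) ≤
      ∑ q ∈ range m ×ˢ range m, (if q ∈ S then B else 0) := by
    refine Finset.sum_le_sum fun q _ => ?_
    by_cases h2 : R q.1 q.2
    · rw [if_pos h2, if_pos (hS _ _ h2)]
      exact hw _ _
    · rw [if_neg h2]
      split_ifs
      · exact hB
      · exact le_refl 0
  refine h1.trans ?_
  rw [Finset.sum_ite_mem, Finset.sum_const, nsmul_eq_mul]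
  refine mul_le_mul_of_nonneg_right ?_ hB
  exact_mod_cast Finset.card_le_card Finset.inter_subset_right

private theorem pb2b_col {w : ℕ → ℕ → ℝ} {B : ℝ} (hw0 : ∀ x y, 0 ≤ w x y) (m : ℕ)
    (hc : ∀ y, ∑ x ∈ range m, w x y ≤ B) (a : ℕ) (D : Prop) [Decidable D] :
    ∑ x ∈ range m, ∑ y ∈ range m, (if y = a ∧ D then w x y else 0) ≤ if D then B else 0 := by
  by_cases hD : D
  · rw [if_pos hD]
    refine le_trans ?_ (hc a)
    refine Finset.sum_le_sum fun x _ => ?_
    have h1 : ∀ y ∈ range m, (if y = a ∧ D then w x y else 0) = if y = a then w x y else 0 := by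
      intro y _
      by_cases hy : y = a
      · rw [if_pos ⟨hy, hD⟩, if_pos hy]
      · rw [if_neg fun h => hy h.1, if_neg hy]
    rw [Finset.sum_congr rfl h1, Finset.sum_ite_eq']
    split_ifs
    · exact le_refl _
    · exact hw0 x a
  · rw [if_neg hD]
    refine (Finset.sum_eq_zero fun x _ => Finset.sum_eq_zero fun y _ => ?_).le
    rw [if_neg fun h => hD h.2]

private theorem pb2b_row {w : ℕ → ℝ} {B : ℝ} (hw0 : ∀ y, 0 ≤ w y) (hw : ∀ y, w y ≤ B) (m a : ℕ)
    (D : Prop) [Decidable D] :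
    ∑ y ∈ range m, (if y = a ∧ D then w y else 0) ≤ if D then B else 0 := by
  by_cases hD : D
  · rw [if_pos hD]
    have h1 : ∀ y ∈ range m, (if y = a ∧ D then w y else 0) = if y = a then w y else 0 := by
      intro y _
      by_cases hy : y = a
      · rw [if_pos ⟨hy, hD⟩, if_pos hy]
      · rw [if_neg fun h => hy h.1, if_neg hy]
    rw [Finset.sum_congr rfl h1, Finset.sum_ite_eq']
    split_ifs
    · exact hw a
    · exact (hw0 a).trans (hw a)
  · rw [if_neg hD]
    refine (Finset.sum_eq_zero fun y _ => ?_).le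
    rw [if_neg fun h => hD h.2]

private theorem pb2b_cond {B : ℝ} (hB : 0 ≤ B) {o : Option ℕ} {c' z z' : ℕ} (ho : o = some c') :
    ((if dd z c' = z' then B else 0) + (if dd z' c' = z then B else 0)) ≤
      (if o = some (z + z') ∨ o = some (dd z z') then 2 * B else 0) := by
  by_cases h1 : o = some (z + z') ∨ o = some (dd z z')
  · rw [if_pos h1]
    split_ifs <;> linarith
  · rw [if_neg h1]
    rw [not_or] at h1
    have h2 : c' ≠ z + z' := fun h => h1.1 (h ▸ ho)
    have h3 : c' ≠ dd z z' := fun h => h1.2 (h ▸ ho)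
    have h4 : ¬ dd z c' = z' := by
      unfold dd at h3 ⊢
      omega
    have h5 : ¬ dd z' c' = z := by
      unfold dd at h3 ⊢
      omega
    rw [if_neg h4, if_neg h5, add_zero]

private theorem pb2b_card4 (a b c d : ℕ × ℕ) : ((({a, b, c, d} : Finset (ℕ × ℕ)).card : ℕ) : ℝ) ≤ 4 := by
  exact_mod_cast (Finset.card_le_four : ({a, b, c, d} : Finset (ℕ × ℕ)).card ≤ 4)

private def pb2b_S (c z z' : ℕ) : Finset (ℕ × ℕ) :=
  ({(z + z', z), (z - z', z), (z' + z, z'), (z' - z, z')} : Finset (ℕ × ℕ)) ∪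
    (({(c + z' + z, c + z'), (c + z' - z, c + z'), (c - z' + z, c - z'),
        (c - z' - z, c - z')} : Finset (ℕ × ℕ)) ∪
     ({(c + z + z', c + z), (c + z - z', c + z), (c - z + z', c - z),
        (c - z - z', c - z)} : Finset (ℕ × ℕ)))

private theorem pb2b_cardS (c z z' : ℕ) : (((pb2b_S c z z').card : ℕ) : ℝ) ≤ 12 := by
  have h1 : (pb2b_S c z z').card ≤ 12 := by
    unfold pb2b_S
    refine (Finset.card_union_le _ _).trans ?_
    refine (add_le_add Finset.card_le_four ((Finset.card_union_le _ _).trans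
      (add_le_add Finset.card_le_four Finset.card_le_four))).trans ?_
    norm_num
  exact_mod_cast h1

private theorem pb2b_dd {x y w : ℕ} (h : w = dd x y) : x = y + w ∨ x = y - w := by
  unfold dd at h
  omega

private theorem pb2b_memA {c z z' : ℕ} {q : ℕ × ℕ}
    (h : q ∈ ({(z + z', z), (z - z', z), (z' + z, z'), (z' - z, z')} : Finset (ℕ × ℕ))) :
    q ∈ pb2b_S c z z' := Finset.mem_union_left _ h

private theorem pb2b_memB {c z z' : ℕ} {q : ℕ × ℕ}
    (h : q ∈ ({(c + z' + z, c + z'), (c + z' - z, c + z'), (c - z' + z, c - z'),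
        (c - z' - z, c - z')} : Finset (ℕ × ℕ))) :
    q ∈ pb2b_S c z z' := Finset.mem_union_right _ (Finset.mem_union_left _ h)

private theorem pb2b_memC {c z z' : ℕ} {q : ℕ × ℕ}
    (h : q ∈ ({(c + z + z', c + z), (c + z - z', c + z), (c - z + z', c - z),
        (c - z - z', c - z)} : Finset (ℕ × ℕ))) :
    q ∈ pb2b_S c z z' := Finset.mem_union_right _ (Finset.mem_union_right _ h)

private theorem pb2b_mem {c x y z z' : ℕ} (hz : z ≠ z') (g5 : (z = y ∨ z = dd x y) ∨ z = dd y c)
    (g6 : (z' = y ∨ z' = dd x y) ∨ z' = dd y c) :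
    (x, y) ∈ pb2b_S c z z' ∨ (y = z ∧ dd z c = z') ∨ (y = z' ∧ dd z' c = z) := by
  rcases g5 with (g5 | g5) | g5 <;> rcases g6 with (g6 | g6) | g6
  · exact absurd (g5.trans g6.symm) hz
  · left
    subst g5
    apply pb2b_memA
    rcases pb2b_dd g6 with h | h
    · rw [h]
      simp only [Finset.mem_insert, true_or]
    · rw [h]
      simp only [Finset.mem_insert, true_or, or_true]
  · right; left
    exact ⟨g5.symm, by rw [g6, g5]⟩
  · left
    subst g6
    apply pb2b_memA
    rcases pb2b_dd g5 with h | h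
    · rw [h]
      simp only [Finset.mem_insert, true_or, or_true]
    · rw [h]
      simp only [Finset.mem_insert, Finset.mem_singleton, or_true]
  · exact absurd (g5.trans g6.symm) hz
  · left
    apply pb2b_memB
    rcases pb2b_dd g6 with h | h <;> rcases pb2b_dd g5 with h' | h' <;>
      rw [h', h] <;> simp only [Finset.mem_insert, Finset.mem_singleton, true_or, or_true]
  · right; right
    exact ⟨g6.symm, by rw [g5, g6]⟩
  · left
    apply pb2b_memC
    rcases pb2b_dd g5 with h | h <;> rcases pb2b_dd g6 with h' | h' <;>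
      rw [h', h] <;> simp only [Finset.mem_insert, Finset.mem_singleton, true_or, or_true]
  · exact absurd (g5.trans g6.symm) hz

private theorem pb2b_inv (hp : p.WFB N bd) {i : Fin (p.k + 1)} {x y z : ℕ} (h0 : i ≠ 0)
    (hz : z ∈ (p.rnd N Q rp M K mb kbo kob bd).U i x y) :
    z ∈ us Q rp (p.ty (p.par i)) (p.ty i) x y ∨ z ∈ bds (bd i) y := by
  have h1 : z ∈ ((if i = 0 then {y} else us Q rp (p.ty (p.par i)) (p.ty i) x y) ∪
      bds (bd i) y).filter (· ≤ N) := hz
  rw [Finset.mem_filter, Finset.mem_union, if_neg h0] at h1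
  exact h1.1

theorem pr2_le (hQ : Q ⊆ Icc 1 N) (hC : 1 ≤ C) (h : ChainB N Q L rp prt np c C σ M K mb kbo kob)
    (hp : p.WFB N bd) (i : Fin (p.k + 1)) {z z' : ℕ} (hz : z ≠ z') :
    (p.rnd N Q rp M K mb kbo kob bd).pr2 i z z' ≤ 20 * C ^ 2 / (N : ℝ) ^ 2 +
      (if bd i = some (z + z') ∨ bd i = some (dd z z') then 2 * (C / N) else 0) := by
  have hC0 : (0 : ℝ) ≤ C := by linarith
  have hCN : (0 : ℝ) ≤ C / N := div_nonneg hC0 (Nat.cast_nonneg N)
  have hq : (C / (N : ℝ)) * (C / (N : ℝ)) = C ^ 2 / (N : ℝ) ^ 2 := by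
    rw [div_mul_div_comm, ← sq, ← sq]
  have hq0 : (0 : ℝ) ≤ C ^ 2 / (N : ℝ) ^ 2 := by positivity
  have h20 : 20 * C ^ 2 / (N : ℝ) ^ 2 = 20 * (C ^ 2 / (N : ℝ) ^ 2) := mul_div_assoc _ _ _
  have hif : (0 : ℝ) ≤ (if bd i = some (z + z') ∨ bd i = some (dd z z') then 2 * (C / N) else 0) := by
    split_ifs
    · linarith
    · exact le_refl 0
  rw [h20]
  by_cases h0 : i = 0
  · -- the root
    have hr : bd i ≠ none := by
      rw [h0]
      exact hp.root
    obtain ⟨c', hc'⟩ := Option.ne_none_iff_exists'.1 hr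
    have hc'N := hp.le i c' hc'
    have h1 : (p.rnd N Q rp M K mb kbo kob bd).pr2 i z z' =
        ∑ y ∈ range (N + 1), if (z ∈ (({y} ∪ bds (bd i) y).filter (· ≤ N)) ∧
          z' ∈ (({y} ∪ bds (bd i) y).filter (· ≤ N))) then lawB M mb (p.ty i) (bd i) y else 0 := by
      refine Eq.trans ?_ (pb2_one h hp i (fun y => z ∈ (({y} ∪ bds (bd i) y).filter (· ≤ N)) ∧
          z' ∈ (({y} ∪ bds (bd i) y).filter (· ≤ N))))
      unfold RP.pr2
      refine Finset.sum_congr rfl fun φ _ => ?_
      have h2 : (p.rnd N Q rp M K mb kbo kob bd).Us φ i =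
          (({(φ i : ℕ)} ∪ bds (bd i) (φ i)).filter (· ≤ N)) := by
        have h3 : (p.rnd N Q rp M K mb kbo kob bd).Us φ i =
          ((if i = 0 then {(φ i : ℕ)} else
            us Q rp (p.ty (p.par i)) (p.ty i) (φ (p.par i)) (φ i)) ∪
            bds (bd i) (φ i)).filter (· ≤ N) := rfl
        rw [h3, if_pos h0]
      rw [h2]
    rw [h1]
    have h4 : ∀ y ∈ range (N + 1), (if (z ∈ (({y} ∪ bds (bd i) y).filter (· ≤ N)) ∧
          z' ∈ (({y} ∪ bds (bd i) y).filter (· ≤ N))) then lawB M mb (p.ty i) (bd i) y else 0) ≤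
        (if y = z ∧ dd z c' = z' then mb c' y else 0) +
          (if y = z' ∧ dd z' c' = z then mb c' y else 0) := by
      intro y _
      have h5 := h.mb_nn c' hc'N y
      rw [hc']
      have h6 : lawB M mb (p.ty i) (some c') y = mb c' y := rfl
      have h7 : bds (some c') y = {dd y c'} := rfl
      rw [h6, h7]
      by_cases h8 : (z ∈ (({y} ∪ {dd y c'} : Finset ℕ).filter (· ≤ N)) ∧
          z' ∈ (({y} ∪ {dd y c'} : Finset ℕ).filter (· ≤ N)))
      · rw [if_pos h8]
        rw [Finset.mem_filter, Finset.mem_filter, Finset.mem_union, Finset.mem_union,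
          Finset.mem_singleton, Finset.mem_singleton, Finset.mem_singleton,
          Finset.mem_singleton] at h8
        obtain ⟨⟨h9, -⟩, h10, -⟩ := h8
        rcases h9 with h9 | h9
        · rcases h10 with h10 | h10
          · exact absurd (h9.trans h10.symm) hz
          · have h11 : y = z ∧ dd z c' = z' := ⟨h9.symm, by rw [h10, h9]⟩
            rw [if_pos h11]
            have h12 : (0 : ℝ) ≤ (if y = z' ∧ dd z' c' = z then mb c' y else 0) := by
              split_ifs
              · exact h5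
              · exact le_refl 0
            linarith
        · rcases h10 with h10 | h10
          · have h11 : y = z' ∧ dd z' c' = z := ⟨h10.symm, by rw [h9, h10]⟩
            rw [if_pos h11]
            have h12 : (0 : ℝ) ≤ (if y = z ∧ dd z c' = z' then mb c' y else 0) := by
              split_ifs
              · exact h5
              · exact le_refl 0
            linarith
          · exact absurd (h9.trans h10.symm) hz
      · rw [if_neg h8]
        refine add_nonneg ?_ ?_ <;> split_ifs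
        · exact h5
        · exact le_refl 0
        · exact h5
        · exact le_refl 0
    refine (Finset.sum_le_sum h4).trans ?_
    rw [Finset.sum_add_distrib]
    have h9 := pb2b_row (w := mb c') (fun y => h.mb_nn c' hc'N y) (fun y => h.mb_le c' hc'N y)
      (N + 1) z (dd z c' = z')
    have h10 := pb2b_row (w := mb c') (fun y => h.mb_nn c' hc'N y) (fun y => h.mb_le c' hc'N y)
      (N + 1) z' (dd z' c' = z)
    have h11 := pb2b_cond (z := z) (z' := z') hCN hc'
    linarith
  · have hE : (p.rnd N Q rp M K mb kbo kob bd).pr2 i z z' = ∑ x ∈ range (N + 1), ∑ y ∈ range (N + 1),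
        if (z ∈ (p.rnd N Q rp M K mb kbo kob bd).U i x y ∧
          z' ∈ (p.rnd N Q rp M K mb kbo kob bd).U i x y) then
          lawB M mb (p.ty (p.par i)) (bd (p.par i)) x *
            trB K kbo kob (p.ty (p.par i)) (p.ty i) (bd (p.par i)) (bd i) x y else 0 :=
      pb2_edge h hp h0 (fun x y => z ∈ (p.rnd N Q rp M K mb kbo kob bd).U i x y ∧
          z' ∈ (p.rnd N Q rp M K mb kbo kob bd).U i x y)
    rw [hE]
    cases hpi : bd (p.par i) with
    | some c' =>
      have hc'N := hp.le _ c' hpi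
      have hd := hp.dn i h0 (by rw [hpi]; exact Option.some_ne_none c')
      have hw : ∀ x y, lawB M mb (p.ty (p.par i)) (some c') x *
          trB K kbo kob (p.ty (p.par i)) (p.ty i) (some c') (bd i) x y ≤ C ^ 2 / (N : ℝ) ^ 2 := by
        intro x y
        have e1 : lawB M mb (p.ty (p.par i)) (some c') x *
          trB K kbo kob (p.ty (p.par i)) (p.ty i) (some c') (bd i) x y = mb c' x * kbo c' x y := rfl
        rw [e1, ← hq]
        exact mul_le_mul (h.mb_le c' hc'N x) (h.kbo_le c' hc'N x y) (h.kbo_nn c' hc'N x y) hCN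
      have h1 := pb2b_pairs hq0 hw (N + 1) (fun x y =>
        z ∈ (p.rnd N Q rp M K mb kbo kob bd).U i x y ∧
          z' ∈ (p.rnd N Q rp M K mb kbo kob bd).U i x y)
        {(z + z', z), (z - z', z), (z' + z, z'), (z' - z, z')} (by
          rintro x y ⟨g1, g2⟩
          have g3 := pb2b_inv hp h0 g1
          have g4 := pb2b_inv hp h0 g2
          rw [hd.1, hd.2.1, hd.2.2] at g3 g4
          have g5 : z ∈ ({y, dd x y} : Finset ℕ) := by
            rcases g3 with g3 | g3
            · exact g3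
            · exact absurd g3 (Finset.notMem_empty z)
          have g6 : z' ∈ ({y, dd x y} : Finset ℕ) := by
            rcases g4 with g4 | g4
            · exact g4
            · exact absurd g4 (Finset.notMem_empty z')
          rw [Finset.mem_insert, Finset.mem_singleton] at g5 g6
          simp only [Finset.mem_insert, Finset.mem_singleton, Prod.mk.injEq]
          unfold dd at g5 g6
          omega)
      have h2 := mul_le_mul_of_nonneg_right
        (pb2b_card4 (z + z', z) (z - z', z) (z' + z, z') (z' - z, z')) hq0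
      linarith
    | none =>
      cases hbi : bd i with
      | none =>
        have hJ := h.cd.bdJ (p.ty (p.par i)) (p.ty i) z z' (hp.wf.ok i h0) hz
        have h1 : ∑ x ∈ range (N + 1), ∑ y ∈ range (N + 1),
            (if (z ∈ (p.rnd N Q rp M K mb kbo kob bd).U i x y ∧
              z' ∈ (p.rnd N Q rp M K mb kbo kob bd).U i x y) then
              lawB M mb (p.ty (p.par i)) none x *
                trB K kbo kob (p.ty (p.par i)) (p.ty i) none none x y else 0) ≤
            ∑ x ∈ range (N + 1), ∑ y ∈ range (N + 1),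
              (if z ∈ us Q rp (p.ty (p.par i)) (p.ty i) x y ∧
                z' ∈ us Q rp (p.ty (p.par i)) (p.ty i) x y then
                M (p.ty (p.par i)) x * K (p.ty (p.par i)) (p.ty i) x y else 0) := by
          refine Finset.sum_le_sum fun x _ => Finset.sum_le_sum fun y _ => ?_
          have e1 : lawB M mb (p.ty (p.par i)) none x *
                trB K kbo kob (p.ty (p.par i)) (p.ty i) none none x y =
              M (p.ty (p.par i)) x * K (p.ty (p.par i)) (p.ty i) x y := rfl
          rw [e1]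
          have e2 : 0 ≤ M (p.ty (p.par i)) x * K (p.ty (p.par i)) (p.ty i) x y :=
            mul_nonneg (h.cd.M_nn _ _) (h.cd.K_nn _ _ _ _)
          by_cases g : (z ∈ (p.rnd N Q rp M K mb kbo kob bd).U i x y ∧
              z' ∈ (p.rnd N Q rp M K mb kbo kob bd).U i x y)
          · have g3 := pb2b_inv hp h0 g.1
            have g4 := pb2b_inv hp h0 g.2
            rw [hbi] at g3 g4
            have g5 : z ∈ us Q rp (p.ty (p.par i)) (p.ty i) x y ∧
                z' ∈ us Q rp (p.ty (p.par i)) (p.ty i) x y := by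
              constructor
              · rcases g3 with g3 | g3
                · exact g3
                · exact absurd g3 (Finset.notMem_empty z)
              · rcases g4 with g4 | g4
                · exact g4
                · exact absurd g4 (Finset.notMem_empty z')
            rw [if_pos g, if_pos g5]
          · rw [if_neg g]
            split_ifs
            · exact e2
            · exact le_refl 0
        have h2 : C / (N : ℝ) ^ 2 ≤ C ^ 2 / (N : ℝ) ^ 2 := by
          refine div_le_div_of_nonneg_right ?_ (by positivity)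
          nlinarith
        rw [hbi] at hif
        linarith
      | some c' =>
        have hc'N := hp.le _ c' hbi
        have hd := hp.up i h0 (by rw [hbi]; exact Option.some_ne_none c')
        have e1 : ∀ x y, lawB M mb (p.ty (p.par i)) none x *
            trB K kbo kob (p.ty (p.par i)) (p.ty i) none (some c') x y =
            M Ty.O x * kob c' x y := by
          intro x y
          rw [hd.1]
          rfl
        have hw0 : ∀ x y, 0 ≤ M Ty.O x * kob c' x y := fun x y =>
          mul_nonneg (h.cd.M_nn _ _) (h.kob_nn c' hc'N x y)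
        have hw : ∀ x y, M Ty.O x * kob c' x y ≤ C ^ 2 / (N : ℝ) ^ 2 := by
          intro x y
          rw [← hq]
          exact mul_le_mul (h.cd.bdM _ x) (h.kob_le c' hc'N x y) (h.kob_nn c' hc'N x y) hCN
        have h1 : ∑ x ∈ range (N + 1), ∑ y ∈ range (N + 1),
            (if (z ∈ (p.rnd N Q rp M K mb kbo kob bd).U i x y ∧
              z' ∈ (p.rnd N Q rp M K mb kbo kob bd).U i x y) then
              lawB M mb (p.ty (p.par i)) none x *
                trB K kbo kob (p.ty (p.par i)) (p.ty i) none (some c') x y else 0) ≤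
            ∑ x ∈ range (N + 1), ∑ y ∈ range (N + 1),
              ((if (x, y) ∈ pb2b_S c' z z' then
                  M Ty.O x * kob c' x y else 0) +
                ((if y = z ∧ dd z c' = z' then M Ty.O x * kob c' x y else 0) +
                  (if y = z' ∧ dd z' c' = z then M Ty.O x * kob c' x y else 0))) := by
          refine Finset.sum_le_sum fun x _ => Finset.sum_le_sum fun y _ => ?_
          rw [e1]
          have e2 := hw0 x y
          have n1 : ∀ (D : Prop) [Decidable D], (0 : ℝ) ≤ if D then M Ty.O x * kob c' x y else 0 := by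
            intro D _
            split_ifs
            · exact e2
            · exact le_refl 0
          by_cases g : (z ∈ (p.rnd N Q rp M K mb kbo kob bd).U i x y ∧
              z' ∈ (p.rnd N Q rp M K mb kbo kob bd).U i x y)
          · have g3 := pb2b_inv hp h0 g.1
            have g4 := pb2b_inv hp h0 g.2
            rw [hd.1, hd.2.1, hbi] at g3 g4
            have g5 : (z = y ∨ z = dd x y) ∨ z = dd y c' := by
              rcases g3 with g3 | g3
              · have g7 : z ∈ ({y, dd x y} : Finset ℕ) := g3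
                rw [Finset.mem_insert, Finset.mem_singleton] at g7
                exact Or.inl g7
              · have g7 : z ∈ ({dd y c'} : Finset ℕ) := g3
                rw [Finset.mem_singleton] at g7
                exact Or.inr g7
            have g6 : (z' = y ∨ z' = dd x y) ∨ z' = dd y c' := by
              rcases g4 with g4 | g4
              · have g7 : z' ∈ ({y, dd x y} : Finset ℕ) := g4
                rw [Finset.mem_insert, Finset.mem_singleton] at g7
                exact Or.inl g7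
              · have g7 : z' ∈ ({dd y c'} : Finset ℕ) := g4
                rw [Finset.mem_singleton] at g7
                exact Or.inr g7
            have g8 := pb2b_mem hz g5 g6
            rw [if_pos g]
            rcases g8 with g8 | g8 | g8
            · rw [if_pos g8]
              have k1 := n1 (y = z ∧ dd z c' = z')
              have k2 := n1 (y = z' ∧ dd z' c' = z)
              linarith
            · rw [if_pos g8]
              have k1 := n1 ((x, y) ∈ pb2b_S c' z z')
              have k2 := n1 (y = z' ∧ dd z' c' = z)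
              linarith
            · rw [if_pos g8]
              have k1 := n1 ((x, y) ∈ pb2b_S c' z z')
              have k2 := n1 (y = z ∧ dd z c' = z')
              linarith
          · rw [if_neg g]
            exact add_nonneg (n1 _) (add_nonneg (n1 _) (n1 _))
        have h2 := pb2b_pairs hq0 hw (N + 1) (fun x y => (x, y) ∈
            pb2b_S c' z z') _ (fun x y hh => hh)
        have h3 := pb2b_cardS c' z z'
        have h4 := mul_le_mul_of_nonneg_right h3 hq0
        have hcol : ∀ y, ∑ x ∈ range (N + 1), M Ty.O x * kob c' x y ≤ C / N := by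
          intro y
          rw [h.kob_cons c' hc'N y]
          exact h.mb_le c' hc'N y
        have h5 := pb2b_col hw0 (N + 1) hcol z (dd z c' = z')
        have h6 := pb2b_col hw0 (N + 1) hcol z' (dd z' c' = z)
        have h7 := pb2b_cond (z := z) (z' := z') hCN hbi
        rw [hbi] at h7
        simp only [Finset.sum_add_distrib] at h1
        linarith

theorem cod_le {n : ℕ} {pc : Fin n → Piece} {bd : (p : Fin n) → Fin ((pc p).k + 1) → Option ℕ}
    (hQ : Q ⊆ Icc 1 N) (hC : 1 ≤ C) (h : ChainB N Q L rp prt np c C σ M K mb kbo kob)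
    (hp : ∀ p, (pc p).WFB N (bd p)) (hk : ∑ p, ((pc p).k + 1) ≤ 2 * N) {ω : ℝ}
    (hω : ∀ c, ((∑ p, (univ.filter (fun i => bd p i = some c)).card : ℕ) : ℝ) ≤ ω)
    {z z' : ℕ} (hz : z ≠ z') :
    ∑ p, ∑ i : Fin ((pc p).k + 1), ((pc p).rnd N Q rp M K mb kbo kob (bd p)).pr2 i z z' ≤
      40 * C ^ 2 / N + 4 * C * ω / N := by
  have hC0 : (0 : ℝ) ≤ C := by linarith
  have hCN : (0 : ℝ) ≤ C / N := div_nonneg hC0 (Nat.cast_nonneg N)
  have hq0 : (0 : ℝ) ≤ 20 * C ^ 2 / (N : ℝ) ^ 2 := by positivity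
  have h1 : ∀ p, ∑ i : Fin ((pc p).k + 1), ((pc p).rnd N Q rp M K mb kbo kob (bd p)).pr2 i z z' ≤
      (((pc p).k + 1 : ℕ) : ℝ) * (20 * C ^ 2 / (N : ℝ) ^ 2) +
        (((univ.filter (fun i => bd p i = some (z + z'))).card : ℝ) * (2 * (C / N)) +
          ((univ.filter (fun i => bd p i = some (dd z z'))).card : ℝ) * (2 * (C / N))) := by
    intro p
    have h2 : ∑ i : Fin ((pc p).k + 1), ((pc p).rnd N Q rp M K mb kbo kob (bd p)).pr2 i z z' ≤
        ∑ i : Fin ((pc p).k + 1), (20 * C ^ 2 / (N : ℝ) ^ 2 +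
          ((if bd p i = some (z + z') then 2 * (C / N) else 0) +
            (if bd p i = some (dd z z') then 2 * (C / N) else 0))) := by
      refine Finset.sum_le_sum fun i _ => (pr2_le hQ hC h (hp p) i hz).trans ?_
      refine add_le_add (le_refl _) ?_
      by_cases g1 : bd p i = some (z + z')
      · rw [if_pos (Or.inl g1), if_pos g1]
        have : (0 : ℝ) ≤ (if bd p i = some (dd z z') then 2 * (C / N) else 0) := by
          split_ifs
          · linarith
          · exact le_refl 0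
        linarith
      · by_cases g2 : bd p i = some (dd z z')
        · rw [if_pos (Or.inr g2), if_neg g1, if_pos g2, zero_add]
        · rw [if_neg g1, if_neg g2, if_neg (fun g => g.elim g1 g2), add_zero]
    refine h2.trans (le_of_eq ?_)
    rw [Finset.sum_add_distrib, Finset.sum_add_distrib, Finset.sum_const, Finset.card_univ,
      Fintype.card_fin, nsmul_eq_mul, ← Finset.sum_filter, ← Finset.sum_filter, Finset.sum_const,
      Finset.sum_const, nsmul_eq_mul, nsmul_eq_mul]
  refine (Finset.sum_le_sum fun p _ => h1 p).trans ?_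
  rw [Finset.sum_add_distrib, Finset.sum_add_distrib, ← Finset.sum_mul, ← Finset.sum_mul,
    ← Finset.sum_mul, ← Nat.cast_sum, ← Nat.cast_sum, ← Nat.cast_sum]
  have h3 : ((∑ p, ((pc p).k + 1) : ℕ) : ℝ) ≤ 2 * N := by exact_mod_cast hk
  have h4 := mul_le_mul_of_nonneg_right h3 hq0
  have h5 := mul_le_mul_of_nonneg_right (hω (z + z')) (by linarith : (0 : ℝ) ≤ 2 * (C / N))
  have h6 := mul_le_mul_of_nonneg_right (hω (dd z z')) (by linarith : (0 : ℝ) ≤ 2 * (C / N))
  have h7 : 2 * (N : ℝ) * (20 * C ^ 2 / (N : ℝ) ^ 2) = 40 * C ^ 2 / N := by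
    rcases Nat.eq_zero_or_pos N with hN | hN
    · rw [hN]
      simp
    · have hN0 : (0 : ℝ) < N := by exact_mod_cast hN
      field_simp
      ring
  have h8 : ω * (2 * (C / N)) + ω * (2 * (C / N)) = 4 * C * ω / N := by
    ring
  linarith

end SSB
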