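import Pool.Agent.Lib.MP_8a819d_co.S5

/-!
# MP_8a819d_co: the sum of the squares of the degrees of a random labelled tree

`∑ G, ∑ v, d (d - 1) ≤ 4 (n - 1) #trees`: remove an edge `v a` at `v`; the tree is `H + v a` with `v` in the component of `H` not containing
`a`, and the average degree in this component is less than `2`.
-/

set_option autoImplicit false

namespace SSB

open Finset Classical

variable {n : ℕ}

/-- the degree -/
noncomputable def dg (G : SimpleGraph (Fin n)) (v : Fin n) : ℕ := (univ.filter (fun w => G.Adj v w)).card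

theorem dg_eq (G : SimpleGraph (Fin n)) (v : Fin n) : (G.neighborSet v).ncard = dg G v := by
  unfold dg
  rw [← Set.ncard_coe_finset]
  congr 1
  ext w
  simp

/-- the possible ends `v` of the edge `v a` -/
noncomputable def FF (H : SimpleGraph (Fin n)) (a : Fin n) : Finset (Fin n) :=
  univ.filter (fun v => (H ⊔ SimpleGraph.edge v a).IsTree ∧ ¬ H.Adj v a ∧ v ≠ a)

private theorem mem_FF {H : SimpleGraph (Fin n)} {a v : Fin n} :
    v ∈ FF H a ↔ (H ⊔ SimpleGraph.edge v a).IsTree ∧ ¬ H.Adj v a ∧ v ≠ a := by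
  unfold FF
  rw [mem_filter]
  exact ⟨fun h => h.2, fun h => ⟨mem_univ _, h⟩⟩

private theorem dg_card {G : SimpleGraph (Fin n)} {v : Fin n} {S : Finset (Fin n)}
    (h : ∀ w, w ∈ S ↔ G.Adj v w) : S.card = dg G v := by
  unfold dg
  congr 1
  ext w
  rw [h, mem_filter]
  exact ⟨fun h => ⟨mem_univ _, h⟩, fun h => h.2⟩

private theorem rt_adj (H : SimpleGraph (Fin n)) (v a x y : Fin n) :
    (H ⊔ SimpleGraph.edge v a).Adj x y ↔ H.Adj x y ∨ ((x = v ∧ y = a ∨ x = a ∧ y = v) ∧ x ≠ y) := by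
  rw [SimpleGraph.sup_adj, SimpleGraph.edge_adj]

private theorem rt_closed {H : SimpleGraph (Fin n)} {a v w : Fin n} (hv : v ∈ FF H a)
    (h : H.Adj v w) : w ∈ FF H a := by
  rw [mem_FF] at hv ⊢
  obtain ⟨ht, hva, hne⟩ := hv
  have h1 := ht.isAcyclic
  have h2 : H.IsAcyclic ∧ (H.Reachable v a → v = a ∨ H.Adj v a) :=
    SimpleGraph.isAcyclic_sup_fromEdgeSet_iff.1 h1
  have h3 : ¬ H.Reachable v a := fun hr => (h2.2 hr).elim hne hva
  have h4 : ¬ H.Reachable w a := fun hr => h3 (h.reachable.trans hr)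
  have hwa : w ≠ a := fun hh => h4 (by rw [hh])
  refine ⟨⟨?_, ?_⟩, fun hh => h4 hh.reachable, hwa⟩
  · have hR : ∀ x y, (H ⊔ SimpleGraph.edge v a).Reachable x y →
        (H ⊔ SimpleGraph.edge w a).Reachable x y := by
      intro x y hxy
      obtain ⟨p⟩ := hxy
      induction p with
      | nil => exact SimpleGraph.Reachable.refl _
      | @cons x z y hxz _ ih =>
        refine SimpleGraph.Reachable.trans ?_ ih
        have e1 : (H ⊔ SimpleGraph.edge w a).Adj v w :=
          (rt_adj H w a v w).2 (Or.inl h)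
        have e2 : (H ⊔ SimpleGraph.edge w a).Adj w a :=
          (rt_adj H w a w a).2 (Or.inr ⟨Or.inl ⟨rfl, rfl⟩, hwa⟩)
        have e3 : (H ⊔ SimpleGraph.edge w a).Reachable v a := e1.reachable.trans e2.reachable
        rcases (rt_adj H v a x z).1 hxz with h5 | ⟨⟨h5, h6⟩ | ⟨h5, h6⟩, _⟩
        · exact ((rt_adj H w a x z).2 (Or.inl h5)).reachable
        · rw [h5, h6]
          exact e3
        · rw [h5, h6]
          exact e3.symm
    have := ht.connected.nonempty
    exact SimpleGraph.Connected.mk fun x y => hR x y (ht.connected.preconnected x y)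
  · exact (SimpleGraph.isAcyclic_add_edge_iff_of_not_reachable w a h4).2 h2.1

private theorem rt_fiber (H : SimpleGraph (Fin n)) (a : Fin n) :
    ∑ v ∈ FF H a, dg H v ≤ 2 * (FF H a).card := by
  rcases (FF H a).eq_empty_or_nonempty with h0 | ⟨v₀, hv₀⟩
  · rw [h0]
    simp
  · have hv₀' := hv₀
    rw [mem_FF] at hv₀'
    obtain ⟨ht, _, _⟩ := hv₀'
    have h1 : ∑ v ∈ FF H a, dg H v =
        ((FF H a).sigma (fun v => univ.filter (fun w => H.Adj v w))).card := by
      rw [card_sigma]
      rfl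
    have h2 : ((FF H a).sigma (fun v => univ.filter (fun w => H.Adj v w))) ⊆
        ((FF H a).image (fun v => (⟨v, (SSq.toRt ht a).p v⟩ : (_ : Fin n) × Fin n))) ∪
        ((FF H a).image (fun w => (⟨(SSq.toRt ht a).p w, w⟩ : (_ : Fin n) × Fin n))) := by
      rintro ⟨v, w⟩ hvw
      rw [mem_sigma, mem_filter] at hvw
      obtain ⟨hv, _, hadj⟩ := hvw
      have hG : (H ⊔ SimpleGraph.edge v₀ a).Adj v w := (rt_adj H v₀ a v w).2 (Or.inl hadj)
      obtain ⟨u, hu, he⟩ := SSq.edge_par ht a s(v, w) hG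
      rw [Sym2.eq_iff] at he
      rw [mem_union, mem_image, mem_image]
      rcases he with ⟨h3, h4⟩ | ⟨h3, h4⟩
      · left
        refine ⟨v, hv, ?_⟩
        rw [h4, h3]
      · right
        refine ⟨w, rt_closed hv hadj, ?_⟩
        rw [h4, h3]
    rw [h1, two_mul]
    exact (card_le_card h2).trans ((card_union_le _ _).trans
      (Nat.add_le_add card_image_le card_image_le))

/-- all labelled trees on `Fin n` -/
noncomputable def trees (n : ℕ) : Finset (SimpleGraph (Fin n)) := univ.filter (fun G => G.IsTree)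

theorem dg_sum {G : SimpleGraph (Fin n)} (hG : G.IsTree) : ∑ v, dg G v + 2 = 2 * n := by
  have h1 := hG.card_edgeFinset
  have h2 := G.sum_degrees_eq_twice_card_edges
  have h3 : ∀ v, G.degree v = dg G v := by
    intro v
    unfold dg
    rw [← SimpleGraph.card_neighborFinset_eq_degree]
    congr 1
    ext w
    simp
  simp only [h3] at h2
  rw [Fintype.card_fin] at h1
  omega

private theorem rt_del {G : SimpleGraph (Fin n)} {v a : Fin n} (h : G.Adj v a) :
    (G \ SimpleGraph.edge v a) ⊔ SimpleGraph.edge v a = G ∧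
      ¬ (G \ SimpleGraph.edge v a).Adj v a ∧ dg (G \ SimpleGraph.edge v a) v + 1 = dg G v := by
  have hne : v ≠ a := h.ne
  have hle : SimpleGraph.edge v a ≤ G := by
    intro x y hxy
    rw [SimpleGraph.edge_adj] at hxy
    rcases hxy.1 with ⟨h1, h2⟩ | ⟨h1, h2⟩
    · rw [h1, h2]; exact h
    · rw [h1, h2]; exact h.symm
  have hn : ¬ (G \ SimpleGraph.edge v a).Adj v a := by
    rw [SimpleGraph.sdiff_adj, SimpleGraph.edge_adj]
    rintro ⟨_, h2⟩
    exact h2 ⟨Or.inl ⟨rfl, rfl⟩, hne⟩
  refine ⟨sdiff_sup_cancel hle, hn, ?_⟩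
  obtain ⟨S, hS⟩ : ∃ S : Finset (Fin n), ∀ w, w ∈ S ↔ (G \ SimpleGraph.edge v a).Adj v w :=
    ⟨univ.filter (fun w => (G \ SimpleGraph.edge v a).Adj v w), fun w => by
      rw [mem_filter]
      exact ⟨fun h => h.2, fun h => ⟨mem_univ _, h⟩⟩⟩
  have h1 : ∀ w, w ∈ insert a S ↔ G.Adj v w := by
    intro w
    rw [mem_insert, hS, SimpleGraph.sdiff_adj, SimpleGraph.edge_adj]
    constructor
    · rintro (hw | hw)
      · rw [hw]; exact h
      · exact hw.1
    · intro hw
      by_cases hwa : w = a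
      · exact Or.inl hwa
      · right
        refine ⟨hw, ?_⟩
        rintro ⟨⟨_, h3⟩ | ⟨h3, _⟩, _⟩
        · exact hwa h3
        · exact hne h3
  rw [← dg_card hS, ← dg_card h1, card_insert_of_notMem]
  rw [hS]
  exact hn

private theorem rt_main (n : ℕ) :
    ∑ G ∈ trees n, ∑ v, dg G v * (dg G v - 1) ≤ 2 * ∑ G ∈ trees n, ∑ v, dg G v := by
  -- the triples (G, v, a)
  have h1 : ∑ G ∈ trees n, ∑ v, dg G v * (dg G v - 1) =
      ∑ x ∈ (univ : Finset (SimpleGraph (Fin n) × Fin n × Fin n)).filter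
        (fun x => x.1.IsTree ∧ x.1.Adj x.2.1 x.2.2), (dg x.1 x.2.1 - 1) := by
    rw [sum_filter, ← univ_product_univ, sum_product]
    rw [trees, sum_filter]
    refine sum_congr rfl fun G _ => ?_
    rw [← univ_product_univ, sum_product]
    by_cases hG : G.IsTree
    · rw [if_pos hG]
      refine sum_congr rfl fun v _ => ?_
      simp only [hG, true_and]
      rw [← sum_filter, sum_const, smul_eq_mul]
      rfl
    · rw [if_neg hG]
      simp only [hG, false_and, if_false, sum_const_zero]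
  have h1' : ∑ G ∈ trees n, ∑ v, dg G v =
      ∑ x ∈ (univ : Finset (SimpleGraph (Fin n) × Fin n × Fin n)).filter
        (fun x => x.1.IsTree ∧ x.1.Adj x.2.1 x.2.2), 1 := by
    rw [sum_filter, ← univ_product_univ, sum_product]
    rw [trees, sum_filter]
    refine sum_congr rfl fun G _ => ?_
    rw [← univ_product_univ, sum_product]
    by_cases hG : G.IsTree
    · rw [if_pos hG]
      refine sum_congr rfl fun v _ => ?_
      simp only [hG, true_and]
      rw [← sum_filter, sum_const, smul_eq_mul, mul_one]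
      rfl
    · rw [if_neg hG]
      simp only [hG, false_and, if_false, sum_const_zero]
  -- the triples (H, a, v)
  have hb : ∀ (g : SimpleGraph (Fin n) → Fin n → ℕ) (g' : SimpleGraph (Fin n) → Fin n → ℕ),
      (∀ (G : SimpleGraph (Fin n)) (v a : Fin n), G.Adj v a →
        g G v = g' (G \ SimpleGraph.edge v a) v) →
      ∑ x ∈ (univ : Finset (SimpleGraph (Fin n) × Fin n × Fin n)).filter
        (fun x => x.1.IsTree ∧ x.1.Adj x.2.1 x.2.2), g x.1 x.2.1 =
      ∑ H : SimpleGraph (Fin n), ∑ a : Fin n, ∑ v ∈ FF H a, g' H v := by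
    intro g g' hg
    have e1 : ∑ H : SimpleGraph (Fin n), ∑ a : Fin n, ∑ v ∈ FF H a, g' H v =
        ∑ x ∈ (univ : Finset (SimpleGraph (Fin n) × Fin n × Fin n)).filter
          (fun x => x.2.1 ∈ FF x.1 x.2.2), g' x.1 x.2.1 := by
      rw [sum_filter, ← univ_product_univ, sum_product]
      refine sum_congr rfl fun H _ => ?_
      rw [← univ_product_univ, sum_product, sum_comm]
      refine sum_congr rfl fun a _ => ?_
      rw [← sum_filter]
      refine sum_congr ?_ fun _ _ => rfl
      ext v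
      simp
    rw [e1]
    refine sum_bij' (fun x _ => (x.1 \ SimpleGraph.edge x.2.1 x.2.2, x.2.1, x.2.2))
      (fun x _ => (x.1 ⊔ SimpleGraph.edge x.2.1 x.2.2, x.2.1, x.2.2)) ?_ ?_ ?_ ?_ ?_
    · rintro ⟨G, v, a⟩ hx
      rw [mem_filter] at hx ⊢
      obtain ⟨_, hG, hadj⟩ := hx
      obtain ⟨h2, h3, _⟩ := rt_del hadj
      refine ⟨mem_univ _, ?_⟩
      show v ∈ FF (G \ SimpleGraph.edge v a) a
      rw [mem_FF]
      refine ⟨?_, h3, hadj.ne⟩
      rw [h2]
      exact hG
    · rintro ⟨H, v, a⟩ hx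
      rw [mem_filter] at hx ⊢
      have hx2 : v ∈ FF H a := hx.2
      rw [mem_FF] at hx2
      refine ⟨mem_univ _, hx2.1, ?_⟩
      exact (rt_adj H v a v a).2 (Or.inr ⟨Or.inl ⟨rfl, rfl⟩, hx2.2.2⟩)
    · rintro ⟨G, v, a⟩ hx
      rw [mem_filter] at hx
      obtain ⟨_, hG, hadj⟩ := hx
      obtain ⟨h2, _, _⟩ := rt_del hadj
      show ((G \ SimpleGraph.edge v a) ⊔ SimpleGraph.edge v a, v, a) = (G, v, a)
      rw [h2]
    · rintro ⟨H, v, a⟩ hx
      rw [mem_filter] at hx
      have hx2 : v ∈ FF H a := hx.2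
      rw [mem_FF] at hx2
      show ((H ⊔ SimpleGraph.edge v a) \ SimpleGraph.edge v a, v, a) = (H, v, a)
      have h2 : (H ⊔ SimpleGraph.edge v a) \ SimpleGraph.edge v a = H := by
        ext x y
        rw [SimpleGraph.sdiff_adj, rt_adj, SimpleGraph.edge_adj]
        constructor
        · rintro ⟨h3 | h3, h4⟩
          · exact h3
          · exact absurd h3 h4
        · intro h3
          refine ⟨Or.inl h3, ?_⟩
          rintro ⟨⟨h4, h5⟩ | ⟨h4, h5⟩, _⟩
          · rw [h4, h5] at h3
            exact hx2.2.1 h3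
          · rw [h4, h5] at h3
            exact hx2.2.1 h3.symm
      rw [h2]
    · rintro ⟨G, v, a⟩ hx
      rw [mem_filter] at hx
      exact hg G v a hx.2.2
  rw [h1, h1', hb (fun G v => dg G v - 1) (fun H v => dg H v) ?_, hb (fun _ _ => 1) (fun _ _ => 1) ?_]
  · rw [mul_sum]
    refine sum_le_sum fun H _ => ?_
    rw [mul_sum]
    refine sum_le_sum fun a _ => ?_
    refine (rt_fiber H a).trans (le_of_eq ?_)
    rw [sum_const, smul_eq_mul, mul_one]
  · intro G v a _
    rfl
  · intro G v a hadj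
    obtain ⟨_, _, h4⟩ := rt_del hadj
    show dg G v - 1 = dg (G \ SimpleGraph.edge v a) v
    omega

/-- the mean of the sum of the squares of the degrees is at most `6 n` -/
theorem sum_sq_le (n : ℕ) : ∑ G ∈ trees n, ∑ v, dg G v ^ 2 ≤ 6 * n * (trees n).card := by
  have h1 := rt_main n
  have h2 : ∑ G ∈ trees n, ∑ v, dg G v ≤ 2 * n * (trees n).card := by
    have h3 : ∀ G ∈ trees n, ∑ v, dg G v ≤ 2 * n := by
      intro G hG
      rw [trees, mem_filter] at hG
      have := dg_sum hG.2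
      omega
    refine (sum_le_card_nsmul _ _ _ h3).trans (le_of_eq ?_)
    rw [smul_eq_mul]
    ring
  have h4 : ∑ G ∈ trees n, ∑ v, dg G v ^ 2 =
      ∑ G ∈ trees n, ∑ v, dg G v * (dg G v - 1) + ∑ G ∈ trees n, ∑ v, dg G v := by
    rw [← sum_add_distrib]
    refine sum_congr rfl fun G _ => ?_
    rw [← sum_add_distrib]
    refine sum_congr rfl fun v _ => ?_
    rcases Nat.eq_zero_or_pos (dg G v) with h | h
    · rw [h]
      rfl
    · obtain ⟨m, hm⟩ : ∃ m, dg G v = m + 1 := ⟨dg G v - 1, by omega⟩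
      rw [hm, Nat.add_sub_cancel]
      ring
  rw [h4]
  nlinarith

/-- Markov's inequality: few labelled trees have a large sum of squares of degrees -/
theorem few_large (n C : ℕ) (hn : 1 ≤ n) :
    C * ((trees n).filter (fun G => C * n < ∑ v, dg G v ^ 2)).card ≤ 6 * (trees n).card := by
  have h1 := sum_sq_le n
  have h2 : (C * n) * ((trees n).filter (fun G => C * n < ∑ v, dg G v ^ 2)).card ≤
      ∑ G ∈ trees n, ∑ v, dg G v ^ 2 := by
    calc (C * n) * ((trees n).filter (fun G => C * n < ∑ v, dg G v ^ 2)).card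
        = ∑ _G ∈ (trees n).filter (fun G => C * n < ∑ v, dg G v ^ 2), C * n := by
          rw [sum_const, smul_eq_mul, mul_comm]
      _ ≤ ∑ G ∈ (trees n).filter (fun G => C * n < ∑ v, dg G v ^ 2), ∑ v, dg G v ^ 2 :=
          sum_le_sum fun G hG => (mem_filter.1 hG).2.le
      _ ≤ _ := sum_le_sum_of_subset (filter_subset _ _)
  have h3 : n * (C * ((trees n).filter (fun G => C * n < ∑ v, dg G v ^ 2)).card) ≤
      n * (6 * (trees n).card) := by nlinarith
  exact Nat.le_of_mul_le_mul_left h3 hn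

end SSB
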