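import Pool.Agent.Lib.MP_8a819d_co.BD.Dc2

/-!
# MP_8a819d_co, uniformly integrable degrees: the separator

`SepOK`: every component (`topv`) of the forest without `S` is adjacent to at most one element of `S` below it (`uniq`), and the vertex to which
this element is attached has distance at least two from the top of the component (`deep`).

JOB Sep1 (`lca_closure`). JOB Sep2 (`sep_exists`).

Sep1. Let `S₁ = S₀ ∪ {0}`. Define `tok i` and `S` from the leaves upwards (strong recursion on `n - i`): `tok i = ∑ c ∈ chs i, (if c ∈ S then 1 else tok c)`, and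
`i ∈ S` iff `i < n` and (`i ∈ S₁` or `2 ≤ tok i`). (For example define `e : ℕ → ℕ` by strong recursion on `n - i`: `e i = if i ∈ S₁ ∨ 2 ≤ ∑ c ∈ chs i, e c then 1 else ∑ c ∈ chs i, e c`;
then `e i ≤ 1`, `tok i = ∑ c ∈ chs i, e c`, `S = {i < n : i ∈ S₁ ∨ 2 ≤ tok i}`.) Counting: `∑ i < n, tok i = ∑ 1 ≤ i < n, e i` and `e i = tok i` for `i ∉ S`, `e i = 1` for
`i ∈ S`, `0 ∈ S`; so `∑ i ∈ S, tok i = ∑ i ∈ S, e i - e 0 = |S| - 1`, and every `i ∈ S \ S₁` has `tok i ≥ 2`: `2 |S \ S₁| ≤ |S| - 1`, so `|S| ≤ 2 |S₁|`.
Uniqueness: for `i ∉ S`, `e i = tok i ≤ 1` is the number of elements `s ∈ S` below `i` such that `par s ∉ S` and all vertices between are not in `S` (`par s` goes up to `i` outside `S`):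
claim by strong induction on `n - i`: `#{s ∈ S, s ≥ 1, s < n, par s ∉ S, the chain from par s to i stays outside S} ≤ e i` for `i ∉ S`. For `i = topv S (par s)` this gives `uniq`.
Sep2. `S₀` from `small_comps` (`|S₀| K ≤ n`), `S'` from `lca_closure` (`|S'| ≤ 2 (|S₀| + 1)`). Let `X = {s ∈ S' : s ≥ 1, w = par s ∉ S', (par w ∈ S' or par (par w) ∈ S')}` and
`S = S' ∪ X.image par ∪ (X.image par).image par` (if `par w ∈ S'` the last set only adds an element of `S'`). `|S| ≤ 3 |S'|`. `S ⊆ range n`: `par s < s`, `par 0` does not occur (`w ∉ S'`, `0 ∈ S'` so `w ≥ 1`).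
If `s ∈ S`, `s ≥ 1`, `par s ∉ S`, then `s ∈ S'` (if `s = par s'`, `s' ∈ X`, `s ∉ S'`: its parent is in `S' ∪ (X.image par).image par`; if `s = par (par s')` is not in `S'` then `par (par s') ∉ S'` means
`par w ∈ S'`, contradiction.. so in that case `par (par w) ∈ S'`... check: `w = par s'`, `s = par w ∉ S'`, so `par s = par (par w) ∈ S'`), `s ∉ X`, so `par w ∉ S'`, `par (par w) ∉ S'` (`w = par s`). `uniq`: two such `s, s'` with the same
top for `S` have the same top for `S'` (the chain from `par s` to the top outside `S ⊇ S'`), so `s = s'`. `deep`: `par w ∉ S` and `par (par w) ∉ S`: otherwise `par w` (or `par (par w)`) is in `S \ S'`, so it is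
`par s'` or `par (par s')` for some `s' ∈ X`; then `s'` hangs below the same component of `S'` as `s`: `topv S' (par s') = topv S' (par s)`, so `s' = s ∈ X`, contradiction.
-/

set_option autoImplicit false

namespace SSB

open Finset

structure SepOK (n : ℕ) (par : ℕ → ℕ) (S : Finset ℕ) : Prop where
  sub : S ⊆ range n
  zero : 0 ∈ S
  uniq : ∀ s ∈ S, ∀ s' ∈ S, 1 ≤ s → 1 ≤ s' → par s ∉ S → par s' ∉ S →
    topv par S (par s) = topv par S (par s') → s = s'
  deep : ∀ s ∈ S, 1 ≤ s → par s ∉ S → par (par s) ∉ S ∧ par (par (par s)) ∉ S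

private theorem sep1_topv_insert {n : ℕ} {par : ℕ → ℕ} {S : Finset ℕ} :
    ∀ i ≤ n, topv par (insert n S) i = topv par S i := by
  intro i
  induction i using Nat.strong_induction_on with
  | _ i ih =>
    intro hi
    by_cases h1 : par i < i
    · have hne : par i ≠ n := by omega
      by_cases h2 : par i ∈ S
      · rw [topv_stop h2, topv_stop (mem_insert_of_mem h2)]
      · rw [topv_step h1 h2, topv_step h1 (by
          rw [mem_insert]; push Not; exact ⟨hne, h2⟩), ih _ h1 (by omega)]
    · rw [topv, dif_neg (fun h => h1 h.1), topv, dif_neg (fun h => h1 h.1)]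

private theorem sep1_sum_single (C : Finset ℕ) (t : ℕ → ℕ) (p k : ℕ) :
    ∑ i ∈ C, (t i + if i = p then k else 0) = ∑ i ∈ C, t i + (if p ∈ C then k else 0) := by
  rw [sum_add_distrib, sum_ite_eq']

private theorem sep1_main (par : ℕ → ℕ) : ∀ n, 1 ≤ n → IsPar n par → ∀ (t : ℕ → ℕ) (S₀ : Finset ℕ),
    S₀ ⊆ range n → ∃ S ⊆ range n, S₀ ⊆ S ∧ 0 ∈ S ∧ S.card ≤ 2 * S₀.card + 1 + ∑ i ∈ range n, t i ∧
      ∀ r, ∑ i ∈ comp n par S r, t i +
        (S.filter (fun s => 1 ≤ s ∧ par s ∉ S ∧ topv par S (par s) = r)).card ≤ 1 := by
  intro n hn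
  induction n, hn using Nat.le_induction with
  | base =>
    intro _ t S₀ hS₀
    refine ⟨range 1, subset_rfl, hS₀, by simp, ?_, fun r => ?_⟩
    · rw [card_range]
      omega
    have h1 : comp 1 par (range 1) r = ∅ := by
      unfold comp
      rw [filter_eq_empty_iff]
      intro i hi hc
      exact hc.1 hi
    have h2 : (range 1).filter (fun s => 1 ≤ s ∧ par s ∉ range 1 ∧ topv par (range 1) (par s) = r)
        = ∅ := by
      rw [filter_eq_empty_iff]
      intro i hi hc
      have := mem_range.1 hi
      omega
    rw [h1, h2]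
    simp
  | succ n hn ih =>
    intro hpar t S₀ hS₀
    have hpar' : IsPar n par := fun i h1 h2 => hpar i h1 (by omega)
    have hp : par n < n := hpar n hn (by omega)
    have hpr : par n ∈ range n := mem_range.2 hp
    by_cases hc : n ∈ S₀ ∨ 2 ≤ t n
    · -- `n` is added
      obtain ⟨S, h1, h2, h3, h4, h5⟩ := ih hpar' (fun i => t i + if i = par n then 1 else 0)
        (S₀.erase n) (by
          intro x hx
          have h1 := mem_range.1 (hS₀ (mem_of_mem_erase hx))
          have h2 := ne_of_mem_erase hx
          rw [mem_range]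
          omega)
      have hnS : n ∉ S := fun h => absurd (mem_range.1 (h1 h)) (lt_irrefl _)
      refine ⟨insert n S, ?_, ?_, mem_insert_of_mem h3, ?_, fun r => ?_⟩
      · intro x hx
        rw [mem_insert] at hx
        rw [mem_range]
        rcases hx with hx | hx
        · omega
        · have := mem_range.1 (h1 hx)
          omega
      · intro x hx
        rw [mem_insert]
        by_cases hxn : x = n
        · exact Or.inl hxn
        · exact Or.inr (h2 (mem_erase.2 ⟨hxn, hx⟩))
      · rw [sep1_sum_single, if_pos hpr] at h4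
        rw [card_insert_of_notMem hnS, sum_range_succ]
        rcases hc with hc | hc
        · have := card_erase_of_mem hc
          have h6 : 1 ≤ S₀.card := card_pos.2 ⟨n, hc⟩
          omega
        · have := card_erase_le (s := S₀) (a := n)
          omega
      · have h6 := h5 r
        rw [sep1_sum_single] at h6
        have h7 : comp (n + 1) par (insert n S) r = comp n par S r := by
          unfold comp
          ext i
          rw [mem_filter, mem_filter, mem_range, mem_range, mem_insert]
          constructor
          · rintro ⟨ha, hb, hd⟩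
            push Not at hb
            rw [sep1_topv_insert i (by omega)] at hd
            exact ⟨by omega, hb.2, hd⟩
          · rintro ⟨ha, hb, hd⟩
            refine ⟨by omega, ?_, ?_⟩
            · push Not
              exact ⟨by omega, hb⟩
            · rw [sep1_topv_insert i (by omega)]
              exact hd
        have h8 : ∀ s, s < n + 1 → 1 ≤ s → ((par s ∉ insert n S ∧ topv par (insert n S) (par s) = r) ↔
            (par s ∉ S ∧ topv par S (par s) = r)) := by
          intro s hs hs1
          have h9 := hpar s hs1 hs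
          rw [sep1_topv_insert (par s) (by omega), mem_insert]
          constructor
          · rintro ⟨ha, hb⟩
            push Not at ha
            exact ⟨ha.2, hb⟩
          · rintro ⟨ha, hb⟩
            refine ⟨?_, hb⟩
            push Not
            exact ⟨by omega, ha⟩
        have h9 : (insert n S).filter (fun s => 1 ≤ s ∧ par s ∉ insert n S ∧
            topv par (insert n S) (par s) = r) ⊆
            S.filter (fun s => 1 ≤ s ∧ par s ∉ S ∧ topv par S (par s) = r) ∪
              (if par n ∈ comp n par S r then {n} else ∅) := by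
          intro s hs
          rw [mem_filter, mem_insert] at hs
          obtain ⟨ha, hb, hd⟩ := hs
          rw [mem_union, mem_filter]
          rcases ha with ha | ha
          · right
            subst ha
            rw [h8 s (by omega) hn] at hd
            have h10 : par s ∈ comp s par S r := by
              unfold comp
              rw [mem_filter]
              exact ⟨hpr, hd.1, hd.2⟩
            rw [if_pos h10]
            exact mem_singleton_self _
          · left
            have := mem_range.1 (h1 ha)
            rw [h8 s (by omega) hb] at hd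
            exact ⟨ha, hb, hd⟩
        rw [h7]
        have h10 := (card_le_card h9).trans (card_union_le _ _)
        have h11 : (if par n ∈ comp n par S r then ({n} : Finset ℕ) else ∅).card =
            if par n ∈ comp n par S r then 1 else 0 := by
          split_ifs <;> simp
        rw [h11] at h10
        omega
    · -- `n` is not added
      push Not at hc
      obtain ⟨S, h1, h2, h3, h4, h5⟩ := ih hpar' (fun i => t i + if i = par n then t n else 0)
        S₀ (by
          intro x hx
          have h1 := mem_range.1 (hS₀ hx)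
          have h2 : x ≠ n := fun h => hc.1 (h ▸ hx)
          rw [mem_range]
          omega)
      have hnS : n ∉ S := fun h => absurd (mem_range.1 (h1 h)) (lt_irrefl _)
      refine ⟨S, h1.trans (range_subset_range.2 (by omega)), h2, h3, ?_, fun r => ?_⟩
      · rw [sep1_sum_single, if_pos hpr] at h4
        rw [sum_range_succ]
        omega
      · have h6 := h5 r
        rw [sep1_sum_single] at h6
        have h7 : ∑ i ∈ comp (n + 1) par S r, t i =
            ∑ i ∈ comp n par S r, t i + (if n ∉ S ∧ topv par S n = r then t n else 0) := by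
          unfold comp
          rw [sum_filter, sum_filter, sum_range_succ]
        rw [h7]
        by_cases hpS : par n ∈ S
        · rw [topv_stop hpS]
          by_cases hr : n = r
          · subst hr
            have h8 : comp n par S n = ∅ := by
              unfold comp
              rw [filter_eq_empty_iff]
              intro i hi hd
              have := topv_le par S i
              have := mem_range.1 hi
              have := hd.2
              omega
            have h9 : S.filter (fun s => 1 ≤ s ∧ par s ∉ S ∧ topv par S (par s) = n) = ∅ := by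
              rw [filter_eq_empty_iff]
              intro s hs hd
              have ha := topv_le par S (par s)
              have hb := mem_range.1 (h1 hs)
              have he := hpar s hd.1 (by omega)
              have := hd.2.2
              omega
            rw [h8, h9, sum_empty, card_empty]
            split_ifs <;> omega
          · rw [if_neg (fun h => hr h.2)]
            omega
        · rw [topv_step hp hpS]
          have h8 : (if n ∉ S ∧ topv par S (par n) = r then t n else 0) =
              (if par n ∈ comp n par S r then t n else 0) := by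
            have h9 : (n ∉ S ∧ topv par S (par n) = r) ↔ par n ∈ comp n par S r := by
              unfold comp
              rw [mem_filter]
              exact ⟨fun h => ⟨hpr, hpS, h.2⟩, fun h => ⟨hnS, h.2.2⟩⟩
            simp only [h9]
          rw [h8]
          omega

theorem lca_closure {n : ℕ} {par : ℕ → ℕ} (hpar : IsPar n par) (hn : 1 ≤ n) {S₀ : Finset ℕ}
    (hS₀ : S₀ ⊆ range n) : ∃ S ⊆ range n, S₀ ⊆ S ∧ 0 ∈ S ∧ S.card ≤ 2 * (S₀.card + 1) ∧
      ∀ s ∈ S, ∀ s' ∈ S, 1 ≤ s → 1 ≤ s' → par s ∉ S → par s' ∉ S →
        topv par S (par s) = topv par S (par s') → s = s' := by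
  obtain ⟨S, h1, h2, h3, h4, h5⟩ := sep1_main par n hn hpar (fun _ => 0) S₀ hS₀
  refine ⟨S, h1, h2, h3, ?_, ?_⟩
  · rw [sum_const_zero] at h4
    omega
  · intro s hs s' hs' h1s h1s' hp hp' he
    have h6 := h5 (topv par S (par s))
    rw [sum_const_zero, zero_add, card_le_one] at h6
    exact h6 s (mem_filter.2 ⟨hs, h1s, hp, rfl⟩) s' (mem_filter.2 ⟨hs', h1s', hp', he.symm⟩)

private theorem sep2_topv {par : ℕ → ℕ} {S' S : Finset ℕ} (hsub : S' ⊆ S) (i : ℕ) :
    topv par S' i = topv par S' (topv par S i) := by
  induction i using Nat.strong_induction_on with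
  | _ i ih =>
    by_cases h : par i < i ∧ par i ∉ S
    · rw [topv_step h.1 h.2, topv_step h.1 (fun hc => h.2 (hsub hc))]
      exact ih (par i) h.1
    · have h1 : topv par S i = i := by rw [topv, dif_neg h]
      rw [h1]

theorem sep_exists {n : ℕ} {par : ℕ → ℕ} (hpar : IsPar n par) (hn : 1 ≤ n) (K : ℕ) (hK : 1 ≤ K) :
    ∃ S : Finset ℕ, SepOK n par S ∧ S.card * K ≤ 6 * (n + K) ∧ ∀ r, (comp n par S r).card < K := by
  obtain ⟨S₀, hS₀, hS₀K, hcomp⟩ := small_comps n par hpar K hK
  obtain ⟨S', hS'n, hS₀', h0, hcard, huniq⟩ := lca_closure hpar hn hS₀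
  let X : Finset ℕ := S'.filter
    (fun s => 1 ≤ s ∧ par s ∉ S' ∧ (par (par s) ∈ S' ∨ par (par (par s)) ∈ S'))
  let S : Finset ℕ := S' ∪ X.image par ∪ (X.image par).image par
  have hX : ∀ s, s ∈ X ↔ s ∈ S' ∧ 1 ≤ s ∧ par s ∉ S' ∧
      (par (par s) ∈ S' ∨ par (par (par s)) ∈ S') := by
    intro s
    rw [Finset.mem_filter]
  have hS : ∀ s, s ∈ S ↔ s ∈ S' ∨ (∃ x ∈ X, par x = s) ∨ (∃ x ∈ X, par (par x) = s) := by
    intro s
    rw [Finset.mem_union, Finset.mem_union, Finset.mem_image, Finset.mem_image, or_assoc]
    refine or_congr Iff.rfl (or_congr Iff.rfl ?_)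
    constructor
    · rintro ⟨y, hy, h⟩
      obtain ⟨x, hx, h'⟩ := Finset.mem_image.1 hy
      exact ⟨x, hx, by rw [h']; exact h⟩
    · rintro ⟨x, hx, h⟩
      exact ⟨par x, Finset.mem_image.2 ⟨x, hx, rfl⟩, h⟩
  have hsub : S' ⊆ S := fun s hs => (hS s).2 (Or.inl hs)
  -- vertices outside `S'` are positive
  have hpos : ∀ w, w ∉ S' → 1 ≤ w := by
    intro w hw
    rcases Nat.eq_zero_or_pos w with h | h
    · rw [h] at hw
      exact absurd h0 hw
    · exact h
  have hXlt : ∀ x ∈ X, par x < n ∧ par (par x) < par x := by
    intro x hx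
    obtain ⟨h1, h2, h3, _⟩ := (hX x).1 hx
    have h4 : x < n := Finset.mem_range.1 (hS'n h1)
    have h5 := hpar x h2 h4
    exact ⟨by omega, hpar _ (hpos _ h3) (by omega)⟩
  have hSn : S ⊆ range n := by
    intro s hs
    rw [Finset.mem_range]
    rcases (hS s).1 hs with h | ⟨x, hx, h⟩ | ⟨x, hx, h⟩
    · exact Finset.mem_range.1 (hS'n h)
    · have := (hXlt x hx).1
      omega
    · have := hXlt x hx
      omega
  -- the attached elements
  have hkey : ∀ s ∈ S, 1 ≤ s → par s ∉ S → s ∈ S' ∧ par s ∉ S' ∧ s ∉ X ∧
      par (par s) ∉ S' ∧ par (par (par s)) ∉ S' := by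
    intro s hs h1 hps
    have hps' : par s ∉ S' := fun h => hps (hsub h)
    have hsX : s ∉ X := fun h => hps ((hS _).2 (Or.inr (Or.inl ⟨s, h, rfl⟩)))
    have hsS' : s ∈ S' := by
      rcases (hS s).1 hs with h | ⟨x, hx, h⟩ | ⟨x, hx, h⟩
      · exact h
      · exfalso
        apply hps
        rw [← h]
        exact (hS _).2 (Or.inr (Or.inr ⟨x, hx, rfl⟩))
      · obtain ⟨_, _, _, h5⟩ := (hX x).1 hx
        rw [h] at h5
        rcases h5 with h6 | h6
        · exact h6
        · exact absurd h6 hps'
    refine ⟨hsS', hps', hsX, ?_, ?_⟩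
    · intro h
      exact hsX ((hX s).2 ⟨hsS', h1, hps', Or.inl h⟩)
    · intro h
      exact hsX ((hX s).2 ⟨hsS', h1, hps', Or.inr h⟩)
  have hstep : ∀ w, w < n → w ∉ S' → par w ∉ S' → topv par S' w = topv par S' (par w) := by
    intro w hw h1 h2
    exact topv_step (hpar w (hpos w h1) hw) h2
  refine ⟨S, ⟨hSn, hsub h0, ?_, ?_⟩, ?_, fun r => hcomp S (hS₀'.trans hsub) hSn r⟩
  · intro s hs s' hs' h1 h1' hp hp' htop
    obtain ⟨a1, a2, _⟩ := hkey s hs h1 hp
    obtain ⟨b1, b2, _⟩ := hkey s' hs' h1' hp'
    refine huniq s a1 s' b1 h1 h1' a2 b2 ?_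
    rw [sep2_topv hsub (par s), htop, ← sep2_topv hsub (par s')]
  · intro s hs h1 hp
    obtain ⟨a1, a2, a3, a4, a5⟩ := hkey s hs h1 hp
    have hsn : s < n := Finset.mem_range.1 (hS'n a1)
    have hwn : par s < n := lt_trans (hpar s h1 hsn) hsn
    have hw1 := hpar (par s) (hpos _ a2) hwn
    have hwn2 : par (par s) < n := by omega
    have hfin : ∀ x ∈ X, topv par S' (par x) = topv par S' (par s) → False := by
      intro x hx ht
      obtain ⟨b1, b2, b3, _⟩ := (hX x).1 hx
      have h := huniq x b1 s a1 b2 h1 b3 a2 ht
      rw [h] at hx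
      exact a3 hx
    have ht1 : topv par S' (par s) = topv par S' (par (par s)) := hstep _ hwn a2 a4
    have ht2 : topv par S' (par (par s)) = topv par S' (par (par (par s))) :=
      hstep _ hwn2 a4 a5
    have hup : ∀ x ∈ X, par (par x) ∉ S' → topv par S' (par x) = topv par S' (par (par x)) := by
      intro x hx h
      obtain ⟨_, _, b3, _⟩ := (hX x).1 hx
      exact hstep _ (hXlt x hx).1 b3 h
    constructor
    · intro hc
      rcases (hS _).1 hc with h | ⟨x, hx, h⟩ | ⟨x, hx, h⟩
      · exact a4 h
      · refine hfin x hx ?_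
        rw [h, ht1]
      · refine hfin x hx ?_
        have h2 : par (par x) ∉ S' := by rw [h]; exact a4
        rw [hup x hx h2, h, ht1]
    · intro hc
      rcases (hS _).1 hc with h | ⟨x, hx, h⟩ | ⟨x, hx, h⟩
      · exact a5 h
      · refine hfin x hx ?_
        rw [h, ht1, ht2]
      · refine hfin x hx ?_
        have h2 : par (par x) ∉ S' := by rw [h]; exact a5
        rw [hup x hx h2, h, ht1, ht2]
  · have c1 : S.card ≤ S'.card + (X.image par).card + ((X.image par).image par).card :=
      (Finset.card_union_le _ _).trans (Nat.add_le_add_right (Finset.card_union_le _ _) _)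
    have c2 : (X.image par).card ≤ X.card := Finset.card_image_le
    have c3 : ((X.image par).image par).card ≤ (X.image par).card := Finset.card_image_le
    have c4 : X.card ≤ S'.card := Finset.card_filter_le _ _
    have c5 : S.card ≤ 6 * (S₀.card + 1) := by omega
    calc S.card * K ≤ 6 * (S₀.card + 1) * K := Nat.mul_le_mul_right _ c5
      _ = 6 * (S₀.card * K + K) := by ring
      _ ≤ 6 * (n + K) := by omega

end SSB
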