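import Pool.Agent.Lib.MP_8a819d_co.BD.Typ7

/-!
# MP_8a819d_co, uniformly integrable degrees: the typed Markov chain with slack

The theorem `kernel_exists` of `BD/Typ7.lean` with a slack `σ` of the loads (same proof), and with the kernel `k` itself.
-/

set_option autoImplicit false

namespace SSB

open Finset

theorem kernel_exists2 (B δ : ℝ) (hB : 1 ≤ B) (hδ : 0 < δ) :
    ∃ ε C C₀ : ℝ, 0 < ε ∧ 1 ≤ C₀ ∧ 20 * C₀ ^ 2 ≤ C ∧ ∃ N₀ : ℕ, ∀ N : ℕ, N₀ ≤ N →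
    ∀ (t : ℕ) (Q L : Finset ℕ) (rp prt : ℕ → ℕ), Env N t Q L rp prt →
      (N : ℝ) - Q.card ≤ ε * N → L.Nonempty → (L.card : ℝ) ≤ ε * N →
    ∀ (σ : ℝ), 0 ≤ σ → ∀ (np : ℝ) (c : Ty → Ty → ℝ), 0 ≤ np → (∀ a b, 0 ≤ c a b) →
      c Ty.P Ty.U = c Ty.O Ty.P → c Ty.U Ty.P = (t - 1) * c Ty.O Ty.P →
      c Ty.P Ty.O ≤ B * c Ty.O Ty.P → δ * N ≤ c Ty.O Ty.P →
      (1 - ε) * N ≤ 2 * (np + (c Ty.O Ty.O + c Ty.O Ty.P + c Ty.P Ty.O + c Ty.P Ty.U + c Ty.U Ty.P)) →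
      np ≤ ε * N →
      2 * (np + (c Ty.O Ty.O + c Ty.O Ty.P + c Ty.P Ty.O + c Ty.P Ty.U + c Ty.U Ty.P)) - np ≤
        (1 - σ) * Q.card + (2 * t + 1) * (L.image rp).card →
      ∃ (η : ℝ) (k : ℕ → ℕ → ℝ), TK N Q L η C₀ k ∧
        ChainData N Q L rp prt np c C (MM N Q L η k) (KK N Q L prt η k) ∧
        ∀ z ∈ Q, np * MM N Q L η k Ty.O z +
          (c Ty.O Ty.O * UU N Q rp (MM N Q L η k) (KK N Q L prt η k) Ty.O Ty.O z +
          c Ty.O Ty.P * UU N Q rp (MM N Q L η k) (KK N Q L prt η k) Ty.O Ty.P z +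
          c Ty.P Ty.O * UU N Q rp (MM N Q L η k) (KK N Q L prt η k) Ty.P Ty.O z +
          c Ty.P Ty.U * UU N Q rp (MM N Q L η k) (KK N Q L prt η k) Ty.P Ty.U z +
          c Ty.U Ty.P * UU N Q rp (MM N Q L η k) (KK N Q L prt η k) Ty.U Ty.P z) ≤ 1 - σ := by
  obtain ⟨s₀, C₀, hs0, hs1, hC0, N₁, hF⟩ := lemmaF
  obtain ⟨c', hc'⟩ : ∃ c' : ℝ, c' = max 1 (1 / δ) := ⟨_, rfl⟩
  have hc1 : 1 ≤ c' := hc' ▸ le_max_left _ _
  have hc2 : 1 / δ ≤ c' := hc' ▸ le_max_right _ _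
  obtain ⟨ε, hε⟩ : ∃ ε : ℝ, ε = min (s₀ / (100 * (3 + B))) (δ / 36) := ⟨_, rfl⟩
  have hB3 : 0 < 100 * (3 + B) := by linarith
  have hεpos : 0 < ε := by rw [hε]; exact lt_min (div_pos hs0 hB3) (by positivity)
  have hε1 : ε * (100 * (3 + B)) ≤ s₀ := by
    have : ε ≤ s₀ / (100 * (3 + B)) := hε ▸ min_le_left _ _
    rwa [le_div_iff₀ hB3] at this
  have hε2 : ε ≤ δ / 36 := hε ▸ min_le_right _ _
  have hBε : 0 ≤ ε * (B - 1) := mul_nonneg hεpos.le (by linarith)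
  have hεs : 400 * ε ≤ s₀ := by linarith
  have hC20 : 20 * C₀ ^ 2 ≤ 16 * (2 * C₀ ^ 2 + 18 * c') ^ 2 := by
    have h1 : 1 ≤ C₀ ^ 2 := one_le_pow₀ hC0
    nlinarith [mul_nonneg (sub_nonneg.2 h1) (sub_nonneg.2 hc1)]
  refine ⟨ε, 16 * (2 * C₀ ^ 2 + 18 * c') ^ 2, C₀, hεpos, hC0, hC20, max N₁ (10 ^ 6), ?_⟩
  intro N hN t Q L rp prt he hQc hLne hLc σ hσ np c hnp hc h42 h52 h32 h2N hlo hnpN hup
  have hN1 : N₁ ≤ N := le_trans (le_max_left _ _) hN
  have hN6 : 10 ^ 6 ≤ N := le_trans (le_max_right _ _) hN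
  have hNpos : (0 : ℝ) < N := by
    have : 0 < N := lt_of_lt_of_le (by norm_num) hN6
    exact_mod_cast this
  have hεN : 0 < ε * N := mul_pos hεpos hNpos
  have hεN' : 400 * (ε * N) ≤ s₀ * N := by
    have := mul_le_mul_of_nonneg_right hεs hNpos.le
    linarith
  have hs0N : s₀ * N ≤ (1 / 100) * N := mul_le_mul_of_nonneg_right hs1.le hNpos.le
  have htq : TQ N Q L := ⟨hN6, he.Q_sub, he.L_sub, he.QL, hLne, by linarith⟩
  obtain ⟨e1, he1⟩ : ∃ e, e = c Ty.O Ty.O := ⟨_, rfl⟩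
  obtain ⟨e2, he2⟩ : ∃ e, e = c Ty.O Ty.P := ⟨_, rfl⟩
  obtain ⟨e3, he3⟩ : ∃ e, e = c Ty.P Ty.O := ⟨_, rfl⟩
  obtain ⟨e4, he4⟩ : ∃ e, e = c Ty.P Ty.U := ⟨_, rfl⟩
  obtain ⟨e5, he5⟩ : ∃ e, e = c Ty.U Ty.P := ⟨_, rfl⟩
  have e1n : 0 ≤ e1 := he1 ▸ hc _ _
  have e2n : 0 ≤ e2 := he2 ▸ hc _ _
  have e3n : 0 ≤ e3 := he3 ▸ hc _ _
  have e4n : 0 ≤ e4 := he4 ▸ hc _ _
  have e5n : 0 ≤ e5 := he5 ▸ hc _ _
  rw [← he4, ← he2] at h42
  rw [← he5, ← he2] at h52
  rw [← he3, ← he2] at h32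
  rw [← he2] at h2N
  rw [← he1, ← he2, ← he3, ← he4, ← he5] at hlo hup
  obtain ⟨nd, hnd⟩ : ∃ nd : ℝ, nd = ((L.image rp).card : ℝ) := ⟨_, rfl⟩
  rw [← hnd] at hup
  obtain ⟨ne, hne⟩ : ∃ ne : ℝ, ne = e1 + e2 + e3 + e4 + e5 := ⟨_, rfl⟩
  rw [← hne] at hlo hup
  have ht1 : (1 : ℝ) ≤ t := by
    rcases he.t_le with h | h <;> rw [h] <;> norm_num
  have ht2 : (t : ℝ) ≤ 2 := by
    rcases he.t_le with h | h <;> rw [h] <;> norm_num
  have hcard : (L.card : ℝ) = t * nd := by rw [hnd]; exact_mod_cast env_card he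
  have hndpos : 0 < nd := by
    rw [hnd]
    exact_mod_cast Finset.card_pos.2 (hLne.image rp)
  have e2pos : 0 < e2 := lt_of_lt_of_le (mul_pos hδ hNpos) h2N
  have hndt : nd ≤ t * nd := le_mul_of_one_le_left hndpos.le ht1
  have hndN : nd ≤ ε * N := by rw [hcard] at hLc; linarith
  have h2t : (2 * (t : ℝ) + 1) * nd ≤ 3 * (ε * N) := by rw [hcard] at hLc; linarith
  have hneN : (N : ℝ) / 4 ≤ ne := by linarith
  have hnepos : 0 < ne := by linarith
  have e5le : e5 ≤ e2 := by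
    rw [h52]
    exact mul_le_of_le_one_left e2n (by linarith)
  have hQN : (Q.card : ℝ) ≤ N := by
    have h1 := Finset.card_le_card he.Q_sub
    rw [Nat.card_Icc] at h1
    exact_mod_cast (by omega : Q.card ≤ N)
  have hQpos : (0 : ℝ) < Q.card := by linarith
  have hQσ : (1 - σ) * (Q.card : ℝ) ≤ Q.card := by
    have := mul_nonneg hσ hQpos.le
    linarith
  obtain ⟨η, hη⟩ : ∃ η : ℝ, η = nd / e2 := ⟨_, rfl⟩
  have hηe : η * e2 = nd := by rw [hη]; exact div_mul_cancel₀ _ e2pos.ne'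
  have hη0 : 0 < η := by rw [hη]; exact div_pos hndpos e2pos
  have hη36 : η ≤ 1 / 36 := by
    rw [hη, div_le_iff₀ e2pos]
    have := mul_le_mul_of_nonneg_right hε2 hNpos.le
    linarith
  have hHz : ∀ z, |Hz N Q L η e2 e3 e4 e5 z| ≤ 12 * (ε * (3 + B)) := by
    intro z
    refine (Hz_abs htq hη0.le e2n e3n e4n e5n z).trans ?_
    have s1 : 2 * e2 + e3 + 2 * e4 + 2 * e5 ≤ (6 + B) * e2 := by linarith
    have s2 : η * (2 * e2 + e3 + 2 * e4 + 2 * e5) ≤ (6 + B) * nd := by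
      have := mul_le_mul_of_nonneg_left s1 hη0.le
      calc η * (2 * e2 + e3 + 2 * e4 + 2 * e5) ≤ η * ((6 + B) * e2) := this
        _ = (6 + B) * (η * e2) := by ring
        _ = (6 + B) * nd := by rw [hηe]
    have s3 : (6 + B) * nd ≤ (6 + B) * (ε * N) := mul_le_mul_of_nonneg_left hndN (by linarith)
    calc η * ((2 * e2 + e3 + 2 * e4 + 2 * e5) * (6 / N)) =
          (η * (2 * e2 + e3 + 2 * e4 + 2 * e5)) * (6 / N) := by ring
      _ ≤ ((6 + B) * (ε * N)) * (6 / N) :=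
          mul_le_mul_of_nonneg_right (s2.trans s3) (by positivity)
      _ = 6 * (ε * (6 + B)) := by field_simp
      _ ≤ 12 * (ε * (3 + B)) := by linarith
  obtain ⟨Λ, hΛ⟩ : ∃ Λ : ℝ, Λ = ((np + ne) + ne - (2 * t + 1) * nd) / Q.card := ⟨_, rfl⟩
  have hΛQ : Λ * Q.card = (np + ne) + ne - (2 * t + 1) * nd := by
    rw [hΛ]; exact div_mul_cancel₀ _ hQpos.ne'
  have hΛσ : Λ ≤ 1 - σ := by
    rw [hΛ, div_le_iff₀ hQpos]
    linarith
  have hΛ1 : Λ ≤ 1 := by linarith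
  have hε5 : 5 * ε ≤ 1 / 2 := by linarith
  have hΛ2 : 1 - 5 * ε ≤ Λ := by
    rw [hΛ, le_div_iff₀ hQpos]
    have : (1 - 5 * ε) * (Q.card : ℝ) ≤ (1 - 5 * ε) * N :=
      mul_le_mul_of_nonneg_left hQN (by linarith)
    linarith
  have hΛpos : 0 < Λ := by linarith
  have hω1 : (np + ne) / ne - 1 = np / ne := by field_simp; ring
  have hω : |(np + ne) / ne - 1| ≤ s₀ := by
    rw [hω1, abs_of_nonneg (div_nonneg hnp hnepos.le), div_le_iff₀ hnepos]
    have h1 : s₀ * (N / 4) ≤ s₀ * ne := mul_le_mul_of_nonneg_left hneN hs0.le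
    linarith
  have hT : ∀ a ∈ Q, |(fun a => 1 - Hz N Q L η e2 e3 e4 e5 a / Λ) a - 1| ≤ s₀ := by
    intro a _
    have h1 : (fun a => 1 - Hz N Q L η e2 e3 e4 e5 a / Λ) a - 1 =
      -(Hz N Q L η e2 e3 e4 e5 a / Λ) := by
      show 1 - Hz N Q L η e2 e3 e4 e5 a / Λ - 1 = _
      ring
    rw [h1, abs_neg, abs_div, abs_of_pos hΛpos, div_le_iff₀ hΛpos]
    have h2 := hHz a
    have h3 : s₀ * (1 / 2) ≤ s₀ * Λ := mul_le_mul_of_nonneg_left (by linarith) hs0.le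
    linarith
  obtain ⟨k, k1, k2, k3, k4, k5, k6, k7⟩ := hF N hN1 Q he.Q_sub (by linarith) ((np + ne) / ne) hω
    (fun a => 1 - Hz N Q L η e2 e3 e4 e5 a / Λ) hT
  have hVV : ∑ a ∈ Q, ∑ y ∈ Q, k a y = SS Q k := rfl
  have hsum : ((np + ne) / ne / 2) * SS Q k + (1 / 2) * SS Q k =
      Q.card + (2 * t + 1) * nd / Λ := by
    have h1 := Finset.sum_congr rfl k7
    rw [Finset.sum_add_distrib, ← Finset.mul_sum, ← Finset.mul_sum, dd_sum_all k3, hVV,
      Finset.sum_sub_distrib, ← Finset.sum_div, Hz_sum htq] at h1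
    rw [h1]
    have h2 : η * (e2 + 2 * e4 + 2 * e5) = (2 * t + 1) * nd := by
      rw [h42, h52, ← hηe]; ring
    rw [h2]
    simp only [Finset.sum_const, nsmul_eq_mul, mul_one]
    ring
  have hSΛ : SS Q k * Λ = 2 * ne := by
    have h1 : (((np + ne) / ne / 2) * SS Q k + (1 / 2) * SS Q k) * Λ = np + 2 * ne := by
      rw [hsum, add_mul, div_mul_cancel₀ _ hΛpos.ne', mul_comm (Q.card : ℝ) Λ, hΛQ]
      ring
    have h2 : (((np + ne) / ne / 2) * SS Q k + (1 / 2) * SS Q k) * Λ =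
        (np + 2 * ne) * (SS Q k * Λ / (2 * ne)) := by
      field_simp
      ring
    rw [h2] at h1
    have h3 : SS Q k * Λ / (2 * ne) = 1 := by
      have h4 : np + 2 * ne ≠ 0 := by positivity
      exact mul_left_cancel₀ h4 (by rw [h1, mul_one])
    rwa [div_eq_one_iff_eq (by positivity)] at h3
  have hSS : SS Q k = 2 * ne / Λ := by rw [eq_div_iff hΛpos.ne', hSΛ]
  have hSlo : (N : ℝ) / 2 ≤ SS Q k := by
    rw [hSS, le_div_iff₀ hΛpos]
    have : (N : ℝ) / 2 * Λ ≤ N / 2 * 1 := mul_le_mul_of_nonneg_left hΛ1 (by positivity)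
    linarith
  have hSup : SS Q k ≤ 2 * N := by
    rw [hSS, div_le_iff₀ hΛpos]
    have h1 : 2 * (N : ℝ) * (1 - 5 * ε) ≤ 2 * N * Λ := mul_le_mul_of_nonneg_left hΛ2 (by positivity)
    linarith
  have hSpos : 0 < SS Q k := by linarith
  have htk : TK N Q L η C₀ k :=
    { tq := htq, η_nn := hη0.le, η_le := hη36, C_ge := hC0, nn := k1, symm := k2, supp := k3,
      le := k4, ge := k5, V_ge := k6, S_ge := hSlo, S_le := hSup }
  have hηL : η / L.card = 1 / (t * e2) := by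
    rw [hη, hcard]
    field_simp
  have hηc : η / L.card ≤ c' / N := by
    rw [hηL]
    have h1 : δ * N ≤ t * e2 := h2N.trans (le_mul_of_one_le_left e2n ht1)
    calc 1 / (t * e2) ≤ 1 / (δ * N) := one_div_le_one_div_of_le (mul_pos hδ hNpos) h1
      _ = (1 / δ) / N := by rw [div_div]
      _ ≤ c' / N := div_le_div_of_nonneg_right hc2 hNpos.le
  obtain ⟨D, hD⟩ : ∃ D : ℝ, D = 2 * C₀ ^ 2 + 18 * c' := ⟨_, rfl⟩
  have hD1 : 1 ≤ D := by
    rw [hD]
    have := sq_nonneg C₀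
    linarith
  have hDD : D ≤ D ^ 2 := by
    rw [sq]
    exact le_mul_of_one_le_left (by linarith) hD1
  have hMM := MM_le htk hc1 hηc
  have hbK := fun {a b : Ty} (hab : okTy a b = true) (x z : ℕ) => bdK he htk hc1 hηc hab x z
  have hbJ := fun {a b : Ty} (hab : okTy a b = true) {z z' : ℕ} (hz : z ≠ z') =>
    bdJ he htk hc1 hηc hab hz
  have hbS := fun {a b : Ty} (hab : okTy a b = true) => bdS he htk hc1 hηc hab
  rw [← hD] at hMM hbK hbJ hbS ⊢
  have hld : ∀ z ∈ Q, np * MM N Q L η k Ty.O z +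
      (c Ty.O Ty.O * UU N Q rp (MM N Q L η k) (KK N Q L prt η k) Ty.O Ty.O z +
      c Ty.O Ty.P * UU N Q rp (MM N Q L η k) (KK N Q L prt η k) Ty.O Ty.P z +
      c Ty.P Ty.O * UU N Q rp (MM N Q L η k) (KK N Q L prt η k) Ty.P Ty.O z +
      c Ty.P Ty.U * UU N Q rp (MM N Q L η k) (KK N Q L prt η k) Ty.P Ty.U z +
      c Ty.U Ty.P * UU N Q rp (MM N Q L η k) (KK N Q L prt η k) Ty.U Ty.P z) ≤ 1 - σ := by
    intro z hz
    rw [← he1, ← he2, ← he3, ← he4, ← he5]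
    have u1 := mul_le_mul_of_nonneg_left (UU_OO he htk hz) e1n
    have u2 := mul_le_mul_of_nonneg_left (UU_OP he htk hz) e2n
    have u3 := mul_le_mul_of_nonneg_left (UU_PO he htk hz) e3n
    have u4 := mul_le_mul_of_nonneg_left (UU_PU he htk hz) e4n
    have u5 := mul_le_mul_of_nonneg_left (UU_UP he htk hz) e5n
    have hMO : MM N Q L η k Ty.O z = mO Q k z := rfl
    rw [hMO]
    have hload : (np + ne) * mO Q k z + ne * dO Q k z = Λ - Hz N Q L η e2 e3 e4 e5 z := by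
      have h1 := k7 z hz
      have h2 : ∑ y ∈ Q, k z y = SS Q k * mO Q k z := by
        unfold mO VV
        field_simp
      have h3 : (∑ x ∈ Q, ∑ y ∈ Q, if dd x y = z then k x y else 0) = SS Q k * dO Q k z := by
        unfold dO
        rw [Finset.mul_sum]
        refine Finset.sum_congr rfl fun x _ => ?_
        rw [Finset.mul_sum]
        refine Finset.sum_congr rfl fun y _ => ?_
        split_ifs
        · field_simp
        · rw [mul_zero]
      rw [h2, h3] at h1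
      have h4 : ((np + ne) / ne / 2 * (SS Q k * mO Q k z) + 1 / 2 * (SS Q k * dO Q k z)) * Λ =
          (np + ne) * mO Q k z + ne * dO Q k z := by
        have : ((np + ne) / ne / 2 * (SS Q k * mO Q k z) + 1 / 2 * (SS Q k * dO Q k z)) * Λ =
          ((np + ne) / ne / 2 * mO Q k z + 1 / 2 * dO Q k z) * (SS Q k * Λ) := by ring
        rw [this, hSΛ]
        field_simp
      rw [← h4, h1]
      show (1 - Hz N Q L η e2 e3 e4 e5 z / Λ) * Λ = _
      rw [sub_mul, div_mul_cancel₀ _ hΛpos.ne', one_mul]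
    have hid : np * mO Q k z + (e1 * (mO Q k z + dO Q k z) +
        e2 * (mP N Q L η k z + (dO Q k z - η * a1 N Q L z + η * a2 N Q L z)) +
        e3 * (mO Q k z + (dO Q k z - η * a1 N Q L z + η * a2 N Q L z)) +
        e4 * (mU N Q L η k z + (dO Q k z - η * a3 N Q L z)) +
        e5 * (mP N Q L η k z + (dO Q k z - η * a3 N Q L z))) =
        ((np + ne) * mO Q k z + ne * dO Q k z) + Hz N Q L η e2 e3 e4 e5 z := by
      unfold Hz mP mU
      rw [hne]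
      ring
    rw [hload] at hid
    linarith
  refine ⟨η, k, htk, ?_, hld⟩
  refine
    { C_pos := by positivity
      M_nn := fun a x => MM_nonneg htk a x
      M_sum := fun a => MM_sum htk a
      M_O := ?_
      K_nn := fun a b x y => KK_nonneg htk a b x y
      K_sum := fun a b x hab => KK_sum he htk hab x
      cons := fun a b y hab hy => KK_cons he htk hab hy
      rule := fun a b x y hab hxy => KK_rule htk hab hxy
      bdM := ?_
      bdK := ?_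
      bdJ := ?_
      bdS := ?_
      load := fun z hz => (hld z hz).trans (by linarith)
      rep := ?_
      zero := fun a b z hab hz hz2 => UU_zero he htk hab hz hz2 }
  · intro x hx
    rcases MM_supp htk hx with h | h
    · exact h.1
    · exact absurd rfl h.2
  · intro a x
    refine (hMM a x).trans (div_le_div_of_nonneg_right ?_ hNpos.le)
    linarith
  · intro a b x z hab
    refine (hbK hab x z).trans (div_le_div_of_nonneg_right ?_ hNpos.le)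
    linarith
  · intro a b z z' hab hz
    refine (hbJ hab hz).trans (le_of_eq ?_)
    rw [div_pow]
    ring
  · intro a b hab
    refine (hbS hab).trans (div_le_div_of_nonneg_right ?_ hNpos.le)
    linarith
  · intro r hr
    rw [← he2, UU_rep he htk hr, hηL]
    field_simp

end SSB
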