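import Pool.Agent.Lib.MP_8a819d_co.BD.Dc2

/-!
# MP_8a819d_co, uniformly integrable degrees: the class of trees

`UIc n par h`: for all `k ≥ 1` the sum of the degrees larger than `h k` is at most `n / k`.

JOB Uic (all of this file).

* `ui_sum`: for every `m` there is `ω` such that small sets have small sums of degrees: take `ω = 2 m (h (2 m)) + 1`... precisely: for `X` with
  `ω |X| ≤ n`: `∑ X, pdeg ≤ h (2m) |X| + ∑ {pdeg > h (2m)}, pdeg`, and `2m` times the last sum is `≤ n`; with `ω = 2 m (h (2m)) + 1` the first is at most `n / (2m)`.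
* `nbh_le`: `|nbh X| ≤ ∑ X, (pdeg + 1)`: `nbh X ⊆ X ∪ {par i} ∪ chs i` (see `nbh_card` in `BD/Dc2.lean`).
* `ui_nbh`: for every `m` there is `ω` such that `ω |X| ≤ n` implies `m |nbh X| ≤ n`; iterate three times: `ui_nbh3`.
* `ui_max`: every degree is at most `n / m` for `n ≥ n₀ (h, m)` (if `pdeg v > h m`, then `m pdeg v ≤ n`; otherwise `m pdeg v ≤ m h m ≤ n`).
-/

set_option autoImplicit false
set_option linter.unusedSectionVars false
set_option linter.unusedVariables false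

namespace SSB

open Finset

def UIc (n : ℕ) (par : ℕ → ℕ) (h : ℕ → ℕ) : Prop :=
  ∀ k, 1 ≤ k → k * ∑ i ∈ (range n).filter (fun i => h k < pdeg n par i), pdeg n par i ≤ n

theorem ui_sum (h : ℕ → ℕ) (m : ℕ) (hm : 1 ≤ m) : ∃ ω : ℕ, 1 ≤ ω ∧ ∀ (n : ℕ) (par : ℕ → ℕ), UIc n par h →
    ∀ X ⊆ range n, ω * X.card ≤ n → m * ∑ i ∈ X, pdeg n par i ≤ n := by
  classical
  refine ⟨2 * m * h (2 * m) + 1, by omega, fun n par hU X hX hc => ?_⟩
  have h1 := hU (2 * m) (by omega)
  set S : ℕ := ∑ i ∈ (range n).filter (fun i => h (2 * m) < pdeg n par i), pdeg n par i with hS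
  have h2 : ∑ i ∈ X, pdeg n par i ≤ h (2 * m) * X.card + S := by
    rw [← Finset.sum_filter_add_sum_filter_not X (fun i => h (2 * m) < pdeg n par i), add_comm]
    refine Nat.add_le_add ?_ ?_
    · calc ∑ i ∈ X.filter (fun i => ¬ h (2 * m) < pdeg n par i), pdeg n par i
          ≤ ∑ _i ∈ X.filter (fun i => ¬ h (2 * m) < pdeg n par i), h (2 * m) :=
            Finset.sum_le_sum fun i hi => not_lt.1 (Finset.mem_filter.1 hi).2
        _ = (X.filter (fun i => ¬ h (2 * m) < pdeg n par i)).card * h (2 * m) := by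
            rw [Finset.sum_const, smul_eq_mul]
        _ ≤ X.card * h (2 * m) := Nat.mul_le_mul_right _ (Finset.card_filter_le _ _)
        _ = h (2 * m) * X.card := mul_comm _ _
    · refine Finset.sum_le_sum_of_subset ?_
      intro i hi
      rw [Finset.mem_filter] at hi ⊢
      exact ⟨hX hi.1, hi.2⟩
  have h3 : 2 * m * ∑ i ∈ X, pdeg n par i ≤ 2 * m * (h (2 * m) * X.card + S) :=
    Nat.mul_le_mul_left _ h2
  have h4 : 2 * m * (h (2 * m) * X.card + S) = 2 * m * h (2 * m) * X.card + 2 * m * S := by ring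
  have h5 : (2 * m * h (2 * m) + 1) * X.card = 2 * m * h (2 * m) * X.card + X.card := by ring
  have h6 : 2 * m * ∑ i ∈ X, pdeg n par i = 2 * (m * ∑ i ∈ X, pdeg n par i) := by ring
  omega

theorem nbh_le {n : ℕ} {par : ℕ → ℕ} (hpar : IsPar n par) {X : Finset ℕ} (hX : X ⊆ range n) :
    (nbh n par X).card ≤ ∑ i ∈ X, (pdeg n par i + 1) := by
  have hsub : nbh n par X ⊆ X.biUnion fun i =>
      insert i ((if i = 0 then ∅ else {par i}) ∪ chs n par i) := by
    intro v hv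
    rw [Finset.mem_biUnion]
    rcases mem_nbh.1 hv with h | ⟨i, hi, h1, h2, h3⟩ | ⟨h1, h2, h3⟩
    · exact ⟨v, h, Finset.mem_insert_self _ _⟩
    · refine ⟨i, hi, Finset.mem_insert_of_mem (Finset.mem_union_left _ ?_)⟩
      rw [if_neg (by omega), Finset.mem_singleton]
      exact h3.symm
    · refine ⟨par v, h3, Finset.mem_insert_of_mem (Finset.mem_union_right _ ?_)⟩
      rw [chs, Finset.mem_filter, Finset.mem_range]
      exact ⟨h1, h2, rfl⟩
  refine (Finset.card_le_card hsub).trans (Finset.card_biUnion_le.trans ?_)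
  refine Finset.sum_le_sum fun i _ => ?_
  have h2 := Finset.card_insert_le i ((if i = 0 then (∅ : Finset ℕ) else {par i}) ∪ chs n par i)
  have h3 := Finset.card_union_le (if i = 0 then (∅ : Finset ℕ) else {par i}) (chs n par i)
  have h4 : (if i = 0 then (∅ : Finset ℕ) else {par i}).card = if i = 0 then 0 else 1 := by
    split_ifs
    · exact Finset.card_empty
    · exact Finset.card_singleton _
  rw [h4] at h3
  unfold pdeg
  omega

theorem ui_nbh (h : ℕ → ℕ) (m : ℕ) (hm : 1 ≤ m) : ∃ ω : ℕ, 1 ≤ ω ∧ ∀ (n : ℕ) (par : ℕ → ℕ), IsPar n par →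
    UIc n par h → ∀ X ⊆ range n, ω * X.card ≤ n → m * (nbh n par X).card ≤ n := by
  obtain ⟨ω₁, h1, hω⟩ := ui_sum h (2 * m) (by omega)
  refine ⟨ω₁ + 2 * m, by omega, fun n par hpar hU X hX hc => ?_⟩
  have e1 : (ω₁ + 2 * m) * X.card = ω₁ * X.card + 2 * (m * X.card) := by ring
  have h2 := hω n par hU X hX (by omega)
  have h3 := nbh_le hpar hX
  rw [Finset.sum_add_distrib, Finset.sum_const, smul_eq_mul, mul_one] at h3
  have h4 := Nat.mul_le_mul_left m h3
  have e2 : m * (∑ i ∈ X, pdeg n par i + X.card) = m * ∑ i ∈ X, pdeg n par i + m * X.card := by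
    ring
  have e3 : 2 * m * ∑ i ∈ X, pdeg n par i = 2 * (m * ∑ i ∈ X, pdeg n par i) := by ring
  omega

theorem ui_nbh3 (h : ℕ → ℕ) (m : ℕ) (hm : 1 ≤ m) : ∃ ω : ℕ, 1 ≤ ω ∧ ∀ (n : ℕ) (par : ℕ → ℕ), IsPar n par →
    UIc n par h → ∀ X ⊆ range n, ω * X.card ≤ n →
      m * X.card ≤ n ∧ m * (nbh n par X).card ≤ n ∧ m * (nbh n par (nbh n par X)).card ≤ n ∧
      m * (nbh n par (nbh n par (nbh n par X))).card ≤ n := by
  obtain ⟨ω₁, h1, hω₁⟩ := ui_nbh h m hm
  obtain ⟨ω₂, h2, hω₂⟩ := ui_nbh h ω₁ h1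
  obtain ⟨ω₃, h3, hω₃⟩ := ui_nbh h ω₂ h2
  refine ⟨ω₁ + ω₂ + ω₃ + m, by omega, fun n par hpar hU X hX hc => ?_⟩
  have e1 : (ω₁ + ω₂ + ω₃ + m) * X.card =
      ω₁ * X.card + ω₂ * X.card + ω₃ * X.card + m * X.card := by ring
  have hX1 := nbh_sub hpar hX
  have hX2 := nbh_sub hpar hX1
  refine ⟨by omega, hω₁ n par hpar hU X hX (by omega), ?_, ?_⟩
  · exact hω₁ n par hpar hU _ hX1 (hω₂ n par hpar hU X hX (by omega))
  · exact hω₁ n par hpar hU _ hX2 (hω₂ n par hpar hU _ hX1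
      (hω₃ n par hpar hU X hX (by omega)))

theorem ui_max (h : ℕ → ℕ) (m : ℕ) (hm : 1 ≤ m) : ∃ n₀ : ℕ, ∀ (n : ℕ) (par : ℕ → ℕ), n₀ ≤ n →
    UIc n par h → ∀ v < n, m * pdeg n par v ≤ n := by
  refine ⟨m * h m, fun n par hn hU v hv => ?_⟩
  by_cases hd : h m < pdeg n par v
  · have h1 := hU m hm
    have h2 : pdeg n par v ≤ ∑ i ∈ (range n).filter (fun i => h m < pdeg n par i), pdeg n par i :=
      Finset.single_le_sum (f := fun i => pdeg n par i) (fun i _ => Nat.zero_le _)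
        (Finset.mem_filter.2 ⟨Finset.mem_range.2 hv, hd⟩)
    exact (Nat.mul_le_mul_left m h2).trans h1
  · exact (Nat.mul_le_mul_left m (not_lt.1 hd)).trans hn

end SSB
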