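import Pool.Agent.Lib.MP_8a819d_co.UI.Uic
import Pool.Agent.Lib.MP_8a819d_co.UI.Sep
import Pool.Agent.Lib.MP_8a819d_co.BD.Dc

/-!
# MP_8a819d_co, uniformly integrable degrees: units and types

`TyB`: the types of `TyOK`; the vertices within distance `2` of `S` are of type `O`; the vertices of type `P` have degree at most `D`.

JOB Unt1: `cand_bad`, `choose_unitsB`. JOB Unt2: `types_exist`, `decoB_exists`.

* `cand_bad`: vertices `v` of degree `t` with a neighbour of degree `> D`: at most `∑ {pdeg > D}, pdeg`: `v` is a neighbour of a vertex `w` with `pdeg w > D`, and `w` has `pdeg w` neighbours: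
  the set is contained in `⋃ w, ((if w = 0 then ∅ else {par w}) ∪ chs w)`, at most `pdeg w` elements each.
* `choose_unitsB`: compare `choose_units` in `BD/Dc2.lean`. Take `V ⊆ cand` maximal with `v ∉ nbh^3 {u}` for different `u, v ∈ V`. Every `c ∈ cand` lies in `nbh^3 {u}` for some `u ∈ V`.
  For `u, c ∈ cand` with `c ∈ nbh^3 {u}` there is a chain `u, x, y, c` (`x ∈ nbh {u}`, `y ∈ nbh {x}`, `c ∈ nbh {y}`, so `y ∈ nbh {c}`), and `pdeg u, pdeg x, pdeg y ≤ D` (`u, c ∈ cand`: they and their neighbours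
  have degree at most `D`). So at most `(D + 1)^3` elements `c ∈ cand` for each `u`.
* `types_exist`: `T = {pdeg = t}`, `|T| ≥ n / 4`; `cand` = the `v ∈ T \ nbh^3 S` without neighbours of degree `> D`: `|cand| ≥ n/4 - n/16 - n/16 = n/8`. `choose_unitsB`, `ty_facts`.
  `v ∈ V` is not in `nbh (nbh (nbh S))`. If `ty p = P` then `p` is a neighbour of a `v` with `ty v = U` (`TyOK.P1`: `par p` or a child), so `pdeg p ≤ D` and `p ∉ nbh (nbh S)` (otherwise `v ∈ nbh^3 S`).
* `decoB_exists`: `ω` from `ui_nbh3 h m`, `S` from `sep_exists` with `K ≥ 24 ω`, `n ≥ K`: `ω |S| K ≤ 6 ω (n + K) ≤ 12 ω n`, so `ω |S| ≤ n / 2 ≤ n`. `types_exist` with `D = max 2 (h 16)`;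
  `pieces_exist`.
-/

set_option autoImplicit false

namespace SSB

open Finset

structure TyB (n : ℕ) (par : ℕ → ℕ) (t D : ℕ) (S : Finset ℕ) (ty : ℕ → Ty) : Prop where
  ok : TyOK n par t S ty
  far : ∀ v ∈ nbh n par (nbh n par S), ty v = Ty.O
  deg : ∀ v < n, ty v = Ty.P → pdeg n par v ≤ D

theorem cand_bad {n D : ℕ} {par : ℕ → ℕ} (hpar : IsPar n par) (hD : 16 * ∑ i ∈ (range n).filter
      (fun i => D < pdeg n par i), pdeg n par i ≤ n) :
    16 * ((range n).filter (fun v => ∃ w ∈ nbh n par {v}, w < n ∧ D < pdeg n par w ∧ w ≠ v)).card ≤ n := by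
  classical
  have hsub : (range n).filter (fun v => ∃ w ∈ nbh n par {v}, w < n ∧ D < pdeg n par w ∧ w ≠ v) ⊆
      ((range n).filter (fun i => D < pdeg n par i)).biUnion
        (fun w => (if w = 0 then ∅ else {par w}) ∪ chs n par w) := by
    intro v hv
    rw [mem_filter, mem_range] at hv
    obtain ⟨hvn, w, hw, hwn, hwD, hwv⟩ := hv
    rw [mem_biUnion]
    refine ⟨w, mem_filter.2 ⟨mem_range.2 hwn, hwD⟩, ?_⟩
    rcases mem_nbh.1 hw with h | ⟨i, hi, h1, h2, h3⟩ | ⟨h1, h2, h3⟩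
    · exact absurd (mem_singleton.1 h) hwv
    · rw [mem_singleton] at hi
      rw [hi] at h1 h2 h3
      exact mem_union_right _ (mem_chs.2 ⟨h2, h1, h3⟩)
    · rw [mem_singleton] at h3
      refine mem_union_left _ ?_
      rw [if_neg (by omega), mem_singleton]
      exact h3.symm
  refine le_trans (Nat.mul_le_mul_left 16 ((card_le_card hsub).trans (card_biUnion_le.trans ?_))) hD
  refine sum_le_sum fun w _ => ?_
  unfold pdeg
  refine (card_union_le _ _).trans ?_
  rw [add_comm]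
  refine Nat.add_le_add_left ?_ _
  split_ifs
  · exact le_of_eq card_empty
  · exact le_of_eq (card_singleton _)

private theorem unt1_mem {n : ℕ} {par : ℕ → ℕ} {X : Finset ℕ} {v : ℕ} :
    v ∈ nbh n par X ↔ ∃ u ∈ X, v ∈ nbh n par {u} := by
  constructor
  · intro h
    rcases mem_nbh.1 h with h | ⟨i, hi, h1, h2, h3⟩ | ⟨h1, h2, h3⟩
    · exact ⟨v, h, mem_nbh.2 (Or.inl (mem_singleton_self v))⟩
    · exact ⟨i, hi, mem_nbh.2 (Or.inr (Or.inl ⟨i, mem_singleton_self i, h1, h2, h3⟩))⟩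
    · exact ⟨par v, h3, mem_nbh.2 (Or.inr (Or.inr ⟨h1, h2, mem_singleton_self _⟩))⟩
  · rintro ⟨u, hu, h⟩
    rcases mem_nbh.1 h with h | ⟨i, hi, h1, h2, h3⟩ | ⟨h1, h2, h3⟩
    · rw [mem_singleton] at h
      rw [h]
      exact mem_nbh.2 (Or.inl hu)
    · rw [mem_singleton] at hi
      rw [hi] at h1 h2 h3
      exact mem_nbh.2 (Or.inr (Or.inl ⟨u, hu, h1, h2, h3⟩))
    · rw [mem_singleton] at h3
      exact mem_nbh.2 (Or.inr (Or.inr ⟨h1, h2, by rw [h3]; exact hu⟩))

private theorem unt1_symm {n : ℕ} {par : ℕ → ℕ} {u v : ℕ} (hu : u < n) (h : v ∈ nbh n par {u}) :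
    u ∈ nbh n par {v} := by
  rcases mem_nbh.1 h with h | ⟨i, hi, h1, h2, h3⟩ | ⟨h1, h2, h3⟩
  · rw [mem_singleton] at h
    rw [h]
    exact mem_nbh.2 (Or.inl (mem_singleton_self u))
  · rw [mem_singleton] at hi
    rw [hi] at h1 h3
    exact mem_nbh.2 (Or.inr (Or.inr ⟨hu, h1, by rw [h3]; exact mem_singleton_self v⟩))
  · rw [mem_singleton] at h3
    exact mem_nbh.2 (Or.inr (Or.inl ⟨v, mem_singleton_self v, h2, h1, h3⟩))

private theorem unt1_self {n : ℕ} {par : ℕ → ℕ} {X : Finset ℕ} {v : ℕ} (h : v ∈ X) :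
    v ∈ nbh n par X := mem_nbh.2 (Or.inl h)

private theorem unt1_symm3 {n : ℕ} {par : ℕ → ℕ} (hpar : IsPar n par) {u v : ℕ} (hu : u < n)
    (h : v ∈ nbh n par (nbh n par (nbh n par {u}))) :
    u ∈ nbh n par (nbh n par (nbh n par {v})) := by
  have h0 : ({u} : Finset ℕ) ⊆ range n := singleton_subset_iff.2 (mem_range.2 hu)
  have s1 := nbh_sub hpar h0
  have s2 := nbh_sub hpar s1
  obtain ⟨y, hy, hv⟩ := unt1_mem.1 h
  obtain ⟨x, hx, hyx⟩ := unt1_mem.1 hy
  have e1 := unt1_symm (mem_range.1 (s2 hy)) hv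
  have e2 := unt1_symm (mem_range.1 (s1 hx)) hyx
  have e3 := unt1_symm hu hx
  exact unt1_mem.2 ⟨x, unt1_mem.2 ⟨y, e1, e2⟩, e3⟩

theorem choose_unitsB {n D : ℕ} {par : ℕ → ℕ} (hpar : IsPar n par) (cand : Finset ℕ)
    (hc : cand ⊆ range n) (hD : ∀ v ∈ cand, ∀ w ∈ nbh n par {v}, pdeg n par w ≤ D) :
    ∃ V ⊆ cand, cand.card ≤ (D + 1) ^ 3 * V.card ∧
      ∀ u ∈ V, ∀ v ∈ V, u ≠ v → v ∉ nbh n par (nbh n par (nbh n par {u})) := by
  classical
  let R : Finset (Finset ℕ) := cand.powerset.filter fun V =>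
    ∀ u ∈ V, ∀ v ∈ V, u ≠ v → v ∉ nbh n par (nbh n par (nbh n par {u}))
  have hR : R.Nonempty := by
    refine ⟨∅, mem_filter.2 ⟨empty_mem_powerset _, fun u hu => ?_⟩⟩
    exact absurd hu (notMem_empty u)
  obtain ⟨V, hV, hmax⟩ := exists_max_image R card hR
  rw [mem_filter, mem_powerset] at hV
  obtain ⟨hVc, hVP⟩ := hV
  refine ⟨V, hVc, ?_, hVP⟩
  have hcov : cand ⊆ V.biUnion fun u => cand.filter
      (fun c => c ∈ nbh n par (nbh n par (nbh n par {u}))) := by
    intro c hcc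
    rw [mem_biUnion]
    by_cases hcV : c ∈ V
    · exact ⟨c, hcV, mem_filter.2 ⟨hcc, unt1_self (unt1_self (unt1_self (mem_singleton_self c)))⟩⟩
    · by_contra hno
      have hins : insert c V ∈ R := by
        refine mem_filter.2 ⟨mem_powerset.2 (insert_subset hcc hVc), fun u hu v hv huv hmem => ?_⟩
        have hun : u < n := by
          rw [mem_insert] at hu
          rcases hu with h | h
          · rw [h]; exact mem_range.1 (hc hcc)
          · exact mem_range.1 (hc (hVc h))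
        rw [mem_insert] at hu hv
        rcases hu with rfl | hu
        · rcases hv with rfl | hv
          · exact huv rfl
          · exact hno ⟨v, hv, mem_filter.2 ⟨hcc, unt1_symm3 hpar hun hmem⟩⟩
        · rcases hv with rfl | hv
          · exact hno ⟨u, hu, mem_filter.2 ⟨hcc, hmem⟩⟩
          · exact hVP u hu v hv huv hmem
      have h1 := hmax _ hins
      rw [card_insert_of_notMem hcV] at h1
      omega
  refine (card_le_card hcov).trans ?_
  rw [mul_comm]
  refine card_biUnion_le_card_mul _ _ _ fun u hu => ?_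
  have huc := hVc hu
  have hun := mem_range.1 (hc huc)
  have hcard : ∀ x < n, pdeg n par x ≤ D → (nbh n par {x}).card ≤ D + 1 := by
    intro x hx hxD
    have h1 := nbh_le hpar (X := {x}) (singleton_subset_iff.2 (mem_range.2 hx))
    rw [sum_singleton] at h1
    omega
  have h0 : ({u} : Finset ℕ) ⊆ range n := singleton_subset_iff.2 (mem_range.2 hun)
  have s1 := nbh_sub hpar h0
  have hsub : cand.filter (fun c => c ∈ nbh n par (nbh n par (nbh n par {u}))) ⊆
      (nbh n par {u}).biUnion (fun x =>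
        ((nbh n par {x}).filter (fun y => pdeg n par y ≤ D)).biUnion (fun y => nbh n par {y})) := by
    intro c hcm
    rw [mem_filter] at hcm
    obtain ⟨hcc, hcm⟩ := hcm
    obtain ⟨y, hy, hcy⟩ := unt1_mem.1 hcm
    obtain ⟨x, hx, hyx⟩ := unt1_mem.1 hy
    have hyn : y < n := by
      have s2 := nbh_sub hpar s1
      exact mem_range.1 (s2 hy)
    rw [mem_biUnion]
    refine ⟨x, hx, ?_⟩
    rw [mem_biUnion]
    refine ⟨y, mem_filter.2 ⟨hyx, hD c hcc y (unt1_symm hyn hcy)⟩, hcy⟩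
  refine (card_le_card hsub).trans ?_
  have c1 : (nbh n par {u}).card ≤ D + 1 := hcard u hun (hD u huc u (unt1_self (mem_singleton_self u)))
  refine (card_biUnion_le_card_mul _ _ ((D + 1) * (D + 1)) fun x hx => ?_).trans ?_
  · have hxn := mem_range.1 (s1 hx)
    have c2 := hcard x hxn (hD u huc x hx)
    have s3 := nbh_sub hpar (X := {x}) (singleton_subset_iff.2 (mem_range.2 hxn))
    refine (card_biUnion_le_card_mul _ _ (D + 1) fun y hy => ?_).trans ?_
    · rw [mem_filter] at hy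
      exact hcard y (mem_range.1 (s3 hy.1)) hy.2
    · exact Nat.mul_le_mul_right _ ((card_filter_le _ _).trans c2)
  · calc (nbh n par {u}).card * ((D + 1) * (D + 1)) ≤ (D + 1) * ((D + 1) * (D + 1)) :=
        Nat.mul_le_mul_right _ c1
      _ = (D + 1) ^ 3 := by ring

theorem types_exist {n t D : ℕ} {par : ℕ → ℕ} (hpar : IsPar n par) (ht : t ≤ D)
    (hD : 16 * ∑ i ∈ (range n).filter (fun i => D < pdeg n par i), pdeg n par i ≤ n)
    (hcnt : n ≤ 4 * ((range n).filter (fun i => pdeg n par i = t)).card)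
    {S : Finset ℕ} (hS : S ⊆ range n) (h0 : 0 ∈ S)
    (hS3 : 16 * (nbh n par (nbh n par (nbh n par S))).card ≤ n) :
    ∃ ty : ℕ → Ty, TyB n par t D S ty ∧
      n ≤ 8 * ((D + 1) ^ 3 * ((range n).filter (fun v => ty v = Ty.U)).card) := by
  classical
  obtain ⟨T, hT⟩ : ∃ T : Finset ℕ, T = (range n).filter (fun i => pdeg n par i = t) := ⟨_, rfl⟩
  rw [← hT] at hcnt
  obtain ⟨bad, hbad⟩ : ∃ bad : Finset ℕ, bad = (range n).filter
    (fun v => ∃ w ∈ nbh n par {v}, w < n ∧ D < pdeg n par w ∧ w ≠ v) := ⟨_, rfl⟩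
  have hb := cand_bad hpar hD
  rw [← hbad] at hb
  obtain ⟨N3, hN3⟩ : ∃ N3 : Finset ℕ, N3 = nbh n par (nbh n par (nbh n par S)) := ⟨_, rfl⟩
  rw [← hN3] at hS3
  obtain ⟨cand, hcand⟩ : ∃ cand : Finset ℕ, cand = (T \ N3) \ bad := ⟨_, rfl⟩
  have hcm : ∀ v ∈ cand, v < n ∧ pdeg n par v = t ∧ v ∉ N3 ∧ v ∉ bad := by
    intro v hv
    rw [hcand, mem_sdiff, mem_sdiff, hT, mem_filter, mem_range] at hv
    exact ⟨hv.1.1.1, hv.1.1.2, hv.1.2, hv.2⟩
  have hcn : cand ⊆ range n := fun v hv => mem_range.2 (hcm v hv).1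
  have hcc : n ≤ 8 * cand.card := by
    have h1 : (T \ N3).card ≤ cand.card + bad.card := by
      rw [hcand]
      have := Finset.le_card_sdiff bad (T \ N3)
      omega
    have h2 : T.card ≤ (T \ N3).card + N3.card := by
      have := Finset.le_card_sdiff N3 T
      omega
    omega
  have hcD : ∀ v ∈ cand, ∀ w ∈ nbh n par {v}, pdeg n par w ≤ D := by
    intro v hv w hw
    obtain ⟨h1, h2, h3, h4⟩ := hcm v hv
    by_cases hwv : w = v
    · rw [hwv, h2]
      exact ht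
    · by_contra hlt
      have hwn : w < n := mem_range.1 (nbh_sub hpar (Finset.singleton_subset_iff.2
        (mem_range.2 h1)) hw)
      refine h4 ?_
      rw [hbad, mem_filter, mem_range]
      exact ⟨h1, w, hw, hwn, by omega, hwv⟩
  obtain ⟨V, hVc, hVcard, hVV⟩ := choose_unitsB hpar cand hcn hcD
  have hVn : V ⊆ range n := hVc.trans hcn
  have hVt : ∀ v ∈ V, pdeg n par v = t := fun v hv => (hcm v (hVc hv)).2.1
  have hV3 : ∀ v ∈ V, v ∉ nbh n par (nbh n par (nbh n par S)) := fun v hv => by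
    rw [← hN3]
    exact (hcm v (hVc hv)).2.2.1
  have hVS : ∀ v ∈ V, v ∉ nbh n par (nbh n par S) := fun v hv h =>
    hV3 v hv (mem_nbh.2 (Or.inl h))
  obtain ⟨ty, hty, htyU⟩ := ty_facts hpar hS h0 hVn hVt hVS hVV
  have hchs : ∀ v c, c ∈ chs n par v → c < n ∧ 1 ≤ c ∧ par c = v := by
    intro v c hc
    rw [chs, mem_filter, mem_range] at hc
    exact hc
  refine ⟨ty, ⟨hty, ?_, ?_⟩, ?_⟩
  · intro v hv
    have hvn : v < n := mem_range.1 (nbh_sub hpar (nbh_sub hpar hS) hv)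
    cases h : ty v with
    | O => rfl
    | U => exact absurd hv (hVS v ((htyU v).1 h))
    | P =>
      exfalso
      obtain ⟨h1, -, -, h4 | ⟨-, c, hc, hcU, -⟩⟩ := hty.P1 v hvn h
      · exact hV3 (par v) ((htyU _).1 h4.1)
          (mem_nbh.2 (Or.inr (Or.inl ⟨v, hv, h1, hvn, rfl⟩)))
      · obtain ⟨g1, g2, g3⟩ := hchs v c hc
        exact hV3 c ((htyU _).1 hcU)
          (mem_nbh.2 (Or.inr (Or.inr ⟨g1, g2, by rw [g3]; exact hv⟩)))
  · intro v hvn h
    obtain ⟨h1, -, -, h4 | ⟨-, c, hc, hcU, -⟩⟩ := hty.P1 v hvn h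
    · exact hcD (par v) (hVc ((htyU _).1 h4.1)) v
        (mem_nbh.2 (Or.inr (Or.inr ⟨hvn, h1, mem_singleton_self _⟩)))
    · obtain ⟨g1, g2, g3⟩ := hchs v c hc
      exact hcD c (hVc ((htyU _).1 hcU)) v
        (mem_nbh.2 (Or.inr (Or.inl ⟨c, mem_singleton_self _, g2, g1, g3⟩)))
  · have hfil : (range n).filter (fun v => ty v = Ty.U) = V := by
      ext v
      rw [mem_filter, htyU]
      exact ⟨fun h => h.2, fun h => ⟨hVn h, h⟩⟩
    rw [hfil]
    exact hcc.trans (Nat.mul_le_mul_left 8 hVcard)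

theorem decoB_exists (h : ℕ → ℕ) (m : ℕ) (hm : 16 ≤ m) : ∃ K n₀ : ℕ, 1 ≤ K ∧ ∀ n : ℕ, n₀ ≤ n →
    ∀ (par : ℕ → ℕ) (t : ℕ), t ≤ 2 → IsPar n par → UIc n par h →
      n ≤ 4 * ((range n).filter (fun i => pdeg n par i = t)).card →
      ∃ (S : Finset ℕ) (ty : ℕ → Ty) (np : ℕ) (pc : Fin np → Piece)
        (emb : (p : Fin np) → Fin ((pc p).k + 1) → ℕ),
        SepOK n par S ∧ TyB n par t (max 2 (h 16)) S ty ∧ Deco n par t S ty np pc emb ∧
        (∀ p, (pc p).k + 1 ≤ K) ∧ m * (nbh n par (nbh n par S)).card ≤ n ∧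
        n ≤ 8 * ((max 2 (h 16) + 1) ^ 3 * ((range n).filter (fun v => ty v = Ty.U)).card) := by
  obtain ⟨ω, hω, hui⟩ := ui_nbh3 h m (by omega)
  refine ⟨24 * ω, 24 * ω, by omega, ?_⟩
  intro n hn par t ht hpar hU hcnt
  obtain ⟨S, hsep, hcard, hcomp⟩ := sep_exists hpar (by omega) (24 * ω) (by omega)
  have hωS : ω * S.card ≤ n := by
    have h1 : S.card * (24 * ω) = 24 * (ω * S.card) := by ring
    rw [h1] at hcard
    omega
  obtain ⟨-, -, h2, h3⟩ := hui n par hpar hU S hsep.sub hωS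
  have hS3 : 16 * (nbh n par (nbh n par (nbh n par S))).card ≤ n :=
    (Nat.mul_le_mul_right _ hm).trans h3
  have hD : 16 * ∑ i ∈ (range n).filter (fun i => max 2 (h 16) < pdeg n par i), pdeg n par i ≤ n := by
    refine le_trans (Nat.mul_le_mul_left _ (Finset.sum_le_sum_of_subset ?_)) (hU 16 (by norm_num))
    intro i hi
    rw [mem_filter] at hi ⊢
    exact ⟨hi.1, lt_of_le_of_lt (le_max_right _ _) hi.2⟩
  obtain ⟨ty, hty, hcount⟩ := types_exist hpar (ht.trans (le_max_left _ _)) hD hcnt hsep.sub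
    hsep.zero hS3
  obtain ⟨np, pc, emb, hdeco, hk⟩ := pieces_exist hpar hsep.sub hsep.zero hty.ok hcomp
  exact ⟨S, ty, np, pc, emb, hsep, hty, hdeco, hk, h2, hcount⟩

end SSB
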