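import Pool.Agent.Lib.MP_8a819d_co.UI.Uic
import Pool.Agent.Lib.MP_8a819d_co.UI.RT

/-!
# MP_8a819d_co: from trees to parent arrays, with the degrees of all vertices
-/

set_option autoImplicit false

namespace SSB

open Finset

private def zu1Par {n : ℕ} (T : SSq.Rt (Fin n)) (σ : Equiv.Perm (Fin n)) (i : ℕ) : ℕ :=
  if h : 1 ≤ i ∧ i < n then ((σ.symm (T.p (σ ⟨i, h.2⟩)) : Fin n) : ℕ) else 0

private theorem zu1_par {n : ℕ} (T : SSq.Rt (Fin n)) (σ : Equiv.Perm (Fin n)) (i : Fin n)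
    (hi : 1 ≤ (i : ℕ)) : zu1Par T σ i = ((σ.symm (T.p (σ i)) : Fin n) : ℕ) := by
  unfold zu1Par
  rw [dif_pos ⟨hi, i.2⟩]

private theorem zu1_lt {n : ℕ} {T : SSq.Rt (Fin n)} {σ : Equiv.Perm (Fin n)}
    (hmono : Monotone (T.dep ∘ σ)) (h0 : ∀ i : Fin n, σ i = T.r ↔ (i : ℕ) = 0) :
    IsPar n (zu1Par T σ) := by
  intro i h1 h2
  have h3 := zu1_par T σ ⟨i, h2⟩ h1
  have h4 : zu1Par T σ i = ((σ.symm (T.p (σ ⟨i, h2⟩)) : Fin n) : ℕ) := h3
  rw [h4]
  by_contra hc
  have h5 : (⟨i, h2⟩ : Fin n) ≤ σ.symm (T.p (σ ⟨i, h2⟩)) := by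
    rw [Fin.le_def]
    exact not_lt.1 hc
  have h6 := hmono h5
  have h7 : T.dep (σ ⟨i, h2⟩) ≤ T.dep (σ (σ.symm (T.p (σ ⟨i, h2⟩)))) := h6
  rw [Equiv.apply_symm_apply] at h7
  have h8 := T.dp (σ ⟨i, h2⟩) (fun h => by
    have h9 := (h0 ⟨i, h2⟩).1 h
    have h10 : i = 0 := h9
    omega)
  omega

private theorem zu1_items {n : ℕ} (par : ℕ → ℕ) (hn : 1 ≤ n) (hpar : IsPar n par) :
    (items par (range n)).card = 2 * n - 1 := by
  unfold items
  have h1 : (range n).filter (fun i => 1 ≤ i ∧ par i ∈ range n) = (range n).erase 0 := by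
    ext c
    rw [mem_filter, mem_erase, mem_range, mem_range]
    constructor
    · rintro ⟨h4, h5, h6⟩
      exact ⟨by omega, h4⟩
    · rintro ⟨h4, h5⟩
      have := hpar c (by omega) h5
      exact ⟨h5, by omega, by omega⟩
  rw [h1, card_union_of_disjoint, card_image_of_injective _ Sum.inl_injective,
    card_image_of_injective _ Sum.inr_injective, card_erase_of_mem (mem_range.2 (by omega)),
    card_range]
  · omega
  · rw [disjoint_left]
    intro x hx hx'
    obtain ⟨a, _, rfl⟩ := mem_image.1 hx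
    obtain ⟨b, _, h⟩ := mem_image.1 hx'
    exact absurd h (by simp)

private theorem zu1_used {n : ℕ} {T : SSq.Rt (Fin n)} {σ : Equiv.Perm (Fin n)}
    (h0 : ∀ i : Fin n, σ i = T.r ↔ (i : ℕ) = 0)
    (f : ℕ → ℕ) :
    SSq.used T univ (fun v => f (σ.symm v : Fin n)) =
      (items (zu1Par T σ) (range n)).image (val (zu1Par T σ) f) := by
  classical
  have had : ∀ a b : ℕ, SSq.ad a b = dd a b := fun a b => by
    rw [dd_natAbs]
    rfl
  ext x
  unfold SSq.used
  simp only [mem_union, mem_image, mem_univ, true_and, mem_erase, and_true]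
  constructor
  · rintro (⟨v, rfl⟩ | ⟨v, hv, rfl⟩)
    · refine ⟨Sum.inl ((σ.symm v : Fin n) : ℕ), ?_, rfl⟩
      rw [mem_items_inl, mem_range]
      exact (σ.symm v).2
    · have h1 : 1 ≤ ((σ.symm v : Fin n) : ℕ) := by
        by_contra hc
        apply hv
        have h2 := (h0 (σ.symm v)).2 (by omega)
        rwa [Equiv.apply_symm_apply] at h2
      have h2 := zu1_par T σ (σ.symm v) h1
      rw [Equiv.apply_symm_apply] at h2
      refine ⟨Sum.inr ((σ.symm v : Fin n) : ℕ), ?_, ?_⟩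
      · rw [mem_items_inr, mem_range, mem_range, h2]
        exact ⟨(σ.symm v).2, h1, (σ.symm (T.p v)).2⟩
      · rw [val_inr, h2, had]
  · rintro ⟨y, hy, rfl⟩
    rcases y with i | i
    · rw [mem_items_inl, mem_range] at hy
      refine Or.inl ⟨σ ⟨i, hy⟩, ?_⟩
      rw [Equiv.symm_apply_apply]
      rfl
    · rw [mem_items_inr, mem_range, mem_range] at hy
      obtain ⟨h1, h2, h3⟩ := hy
      refine Or.inr ⟨σ ⟨i, h1⟩, ?_, ?_⟩
      · intro h
        have h4 : i = 0 := (h0 ⟨i, h1⟩).1 h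
        omega
      · have h4 : zu1Par T σ i = ((σ.symm (T.p (σ ⟨i, h1⟩)) : Fin n) : ℕ) :=
          zu1_par T σ ⟨i, h1⟩ h2
        rw [Equiv.symm_apply_apply, val_inr, h4, had]

private theorem zu1_deg {n : ℕ} {G : SimpleGraph (Fin n)} (hG : G.IsTree) (r : Fin n)
    {σ : Equiv.Perm (Fin n)} (h0 : ∀ i : Fin n, σ i = r ↔ (i : ℕ) = 0) (i : Fin n) :
    pdeg n (zu1Par (SSq.toRt hG r) σ) i ≤ (G.neighborSet (σ i)).ncard := by
  classical
  obtain ⟨T, hT⟩ : ∃ T, T = SSq.toRt hG r := ⟨_, rfl⟩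
  have hTr : T.r = r := by rw [hT]; rfl
  have hadj : ∀ v : Fin n, v ≠ r → G.Adj v (T.p v) := fun v hv => by
    rw [hT]
    exact SSq.toRt_adj hG r hv
  rw [← hT]
  let φ : ℕ → Fin n := fun c => if h : c < n then σ ⟨c, h⟩ else r
  have hφ : ∀ (c : ℕ) (h : c < n), φ c = σ ⟨c, h⟩ := fun c h => dif_pos h
  have hch : ∀ c ∈ chs n (zu1Par T σ) i, ∃ h : c < n, T.p (σ ⟨c, h⟩) = σ i ∧ σ ⟨c, h⟩ ≠ r := by
    intro c hc
    rw [mem_chs] at hc
    obtain ⟨h1, h2, h3⟩ := hc
    have h4 : zu1Par T σ c = ((σ.symm (T.p (σ ⟨c, h1⟩)) : Fin n) : ℕ) :=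
      zu1_par T σ ⟨c, h1⟩ h2
    rw [h4] at h3
    refine ⟨h1, ?_, ?_⟩
    · rw [← Fin.ext h3, Equiv.apply_symm_apply]
    · intro h
      have h5 : c = 0 := (h0 ⟨c, h1⟩).1 h
      omega
  have hinj : Set.InjOn φ (chs n (zu1Par T σ) i : Set ℕ) := by
    intro c hc c' hc' h
    obtain ⟨h1, _⟩ := hch c (mem_coe.1 hc)
    obtain ⟨h2, _⟩ := hch c' (mem_coe.1 hc')
    rw [hφ c h1, hφ c' h2] at h
    have h3 := σ.injective h
    exact congrArg (fun x : Fin n => (x : ℕ)) h3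
  have hnb : ∀ c ∈ chs n (zu1Par T σ) i, G.Adj (σ i) (φ c) := by
    intro c hc
    obtain ⟨h1, h2, h3⟩ := hch c hc
    have h4 := hadj _ h3
    rw [h2] at h4
    rw [hφ c h1]
    exact h4.symm
  have hfin : (G.neighborSet (σ i)).Finite := Set.toFinite _
  by_cases hi : (i : ℕ) = 0
  · have h1 : ((chs n (zu1Par T σ) i).image φ : Set (Fin n)) ⊆ G.neighborSet (σ i) := by
      intro x hx
      rw [mem_coe, mem_image] at hx
      obtain ⟨c, hc, rfl⟩ := hx
      exact hnb c hc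
    have h2 := Set.ncard_le_ncard h1 hfin
    rw [Set.ncard_coe_finset, card_image_of_injOn hinj] at h2
    unfold pdeg
    rw [if_pos hi]
    exact h2
  · have hir : σ i ≠ r := fun h => hi ((h0 i).1 h)
    have hpn : T.p (σ i) ∉ (chs n (zu1Par T σ) i).image φ := by
      intro hx
      rw [mem_image] at hx
      obtain ⟨c, hc, h⟩ := hx
      obtain ⟨h1, h2, h3⟩ := hch c hc
      rw [hφ c h1] at h
      have d1 := T.dp (σ i) (by rw [hTr]; exact hir)
      have d2 := T.dp (σ ⟨c, h1⟩) (by rw [hTr]; exact h3)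
      rw [h2, h] at d2
      omega
    have h1 : (insert (T.p (σ i)) ((chs n (zu1Par T σ) i).image φ) : Finset (Fin n)) ⊆
        (G.neighborSet (σ i)).toFinset := by
      intro x hx
      rw [Set.mem_toFinset]
      rw [mem_insert, mem_image] at hx
      rcases hx with rfl | ⟨c, hc, rfl⟩
      · exact hadj _ hir
      · exact hnb c hc
    have h2 := card_le_card h1
    rw [card_insert_of_notMem hpn, card_image_of_injOn hinj, ← Set.ncard_eq_toFinset_card'] at h2
    unfold pdeg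
    rw [if_neg hi]
    exact h2

theorem tree_to_parU {n : ℕ} {G : SimpleGraph (Fin n)} (hG : G.IsTree) :
    ∃ (par : ℕ → ℕ) (σ : Equiv.Perm (Fin n)), IsPar n par ∧
      (∀ i : Fin n, pdeg n par i ≤ (G.neighborSet (σ i)).ncard) ∧ (SSP n par → SSq.Simply G) := by
  classical
  have hne := hG.connected.nonempty
  have hn : 0 < n := Fin.pos hne.some
  obtain ⟨r, hr⟩ : ∃ r : Fin n, (r : ℕ) = 0 := ⟨⟨0, hn⟩, rfl⟩
  obtain ⟨T, hT⟩ : ∃ T, T = SSq.toRt hG r := ⟨_, rfl⟩
  have hTr : T.r = r := by rw [hT]; rfl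
  obtain ⟨σ, hσ⟩ : ∃ σ : Equiv.Perm (Fin n), Monotone (T.dep ∘ σ) :=
    ⟨Tuple.sort T.dep, Tuple.monotone_sort T.dep⟩
  have hz : σ r = r := by
    by_contra hc
    have h1 := T.dp (σ r) (by rw [hTr]; exact hc)
    have h2 : r ≤ σ.symm r := by
      rw [Fin.le_def, hr]
      exact Nat.zero_le _
    have h3 : T.dep (σ r) ≤ T.dep (σ (σ.symm r)) := hσ h2
    rw [Equiv.apply_symm_apply] at h3
    have h4 := T.dr
    rw [hTr] at h4
    omega
  have h0 : ∀ i : Fin n, σ i = r ↔ (i : ℕ) = 0 := by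
    intro i
    constructor
    · intro h
      have h1 : σ i = σ r := by rw [h, hz]
      rw [σ.injective h1, hr]
    · intro h
      have h1 : i = r := Fin.ext (by rw [h, hr])
      rw [h1, hz]
  have h0' : ∀ i : Fin n, σ i = T.r ↔ (i : ℕ) = 0 := by
    rw [hTr]
    exact h0
  have hpar := zu1_lt hσ h0'
  refine ⟨zu1Par T σ, σ, hpar, ?_, ?_⟩
  · intro i
    have h1 := zu1_deg hG r h0 i
    rw [← hT] at h1
    exact h1
  · rintro ⟨f, hf1, hf2⟩
    have h1 := zu1_used h0' f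
    have h2 : (items (zu1Par T σ) (range n)).image (val (zu1Par T σ) f) =
        Icc 1 (2 * n - 1) := by
      apply eq_of_subset_of_card_le
      · intro x hx
        obtain ⟨y, hy, rfl⟩ := mem_image.1 hx
        exact mem_Icc.2 (hf2 y hy)
      · rw [card_image_of_injOn hf1, zu1_items _ hn hpar, Nat.card_Icc]
        omega
    rw [h2, hT] at h1
    refine SSq.simply_of_used hG r (fun v => f (σ.symm v : Fin n)) ?_
    rw [h1, Fintype.card_fin]

/-- the class of trees for `SimpleGraph` gives the class `UIc` -/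
theorem uic_of_graph {n : ℕ} {G : SimpleGraph (Fin n)} {h : ℕ → ℕ} {par : ℕ → ℕ}
    {σ : Equiv.Perm (Fin n)} (hd : ∀ i : Fin n, pdeg n par i ≤ (G.neighborSet (σ i)).ncard)
    (hG : ∀ k, 1 ≤ k → k * ∑ v ∈ (univ : Finset (Fin n)).filter
      (fun v => h k < (G.neighborSet v).ncard), (G.neighborSet v).ncard ≤ n) : UIc n par h := by
  intro k hk
  refine le_trans (Nat.mul_le_mul le_rfl ?_) (hG k hk)
  rw [sum_filter, sum_filter, ← Equiv.sum_comp σ, ← Fin.sum_univ_eq_sum_range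
    (fun i => if h k < pdeg n par i then pdeg n par i else 0)]
  refine sum_le_sum fun i _ => ?_
  have h1 := hd i
  split_ifs with h2 h3
  · exact h1
  · exact absurd (lt_of_lt_of_le h2 h1) h3
  · exact Nat.zero_le _
  · exact le_rfl

end SSB
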